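import Mathlib

/-!
# ALL OF SIEGEL, models at a point: definitions

`k` is a field, `K` a `k`-algebra (a field), `x w : K`. A polynomial `G` in `k[X][Y]` is evaluated at
`(x, w)` by `ev x w G`. `Wt κ G` says that `G` has weighted degree at most `κ * natDegree G` for the
weights `1` of `X` and `κ` of `Y`, and `lf κ G` is its leading form `∑_j g_(κ (D - j), j) T^j` with
`D = natDegree G`. `Model x w κ G` says that `G` is the minimal polynomial of `w` over `k(x)`, that it has
coefficients in `k[x]` and is of weighted degree `κ * D`.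
-/

namespace Pool.Agent.H37.SI

open Polynomial

variable {k K : Type*} [Field k] [Field K] [Algebra k K]

/-- The value of `G` in `k[X][Y]` at the point `(x, w)`. -/
noncomputable def ev (x w : K) (G : k[X][X]) : K :=
  eval₂ (aeval x : k[X] →ₐ[k] K).toRingHom w G

/-- `G` has weighted degree at most `κ * natDegree G` (weights `1`, `κ`). -/
def Wt (κ : ℕ) (G : k[X][X]) : Prop :=
  ∀ j, (G.coeff j).natDegree ≤ κ * (G.natDegree - j)

/-- The leading form of `G` for the weights `1`, `κ`, as a polynomial in `T = Y / X^κ`. -/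
noncomputable def lf (κ : ℕ) (G : k[X][X]) : k[X] :=
  ∑ j ∈ Finset.range (G.natDegree + 1), C ((G.coeff j).coeff (κ * (G.natDegree - j))) * X ^ j

/-- `G` is the minimal polynomial of `w` over `k(x)`, with coefficients in `k[x]` and weights. -/
structure Model (x w : K) (κ : ℕ) (G : k[X][X]) : Prop where
  monic : G.Monic
  wt : Wt κ G
  zero : ev x w G = 0
  min : ∀ f : k[X][X], f.natDegree < G.natDegree → ev x w f = 0 → f = 0

/-- `P` has three different roots in an extension of `k`. -/
def Three (P : k[X]) : Prop :=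
  ∃ (Ω : Type) (_ : Field Ω) (i : k →+* Ω) (a b c : Ω), a ≠ b ∧ a ≠ c ∧ b ≠ c ∧
    eval₂ i a P = 0 ∧ eval₂ i b P = 0 ∧ eval₂ i c P = 0

end Pool.Agent.H37.SI
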