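import Pool.Agent.H37.SI.ShRoot
import Pool.Agent.H4.AR.L1

/-!
H37/SI/GKn [GKN]: bound for the coefficients of G_K; G_K converges.

PROOFS. Let s = 1/(2A) ≤ 1/2. Cv_root: |c_l| s ≤ 1/2, so Nm s (rescale c_l b) ≤ 2. For one e in the support (e_l ≤ d_l):
Nm s of the term ≤ |F_e| prod_l (2^(e_l) Xi^(e_l)) * s^(e_w) * prod_l 2^(e_l) ≤ |F_e| (4 Xi)^(sum d_l) (Nm_mul_le, Nm_C, Nm_X,
Nm_pow_le, Nm_prod_le; binom(e_l,K_l) ≤ 2^(e_l), xi^(e_l-K_l) ≤ Xi^(e_l)). Sum over e (Nm_sum_le): Nm s (G_K) ≤ l1 F (4 Xi)^(sum d).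
coeff_le_Nm: |coeff k| ≤ Nm s / s^k = (2A)^k Nm s.
GK_cv: convergence at any radius s with |c_l| s ≤ 1/2: Cv_sum, Cv_mul, Cv_C, Cv_pow, Cv_X, Cv_prod, Cv_root.
-/

namespace H37SI

open MvPolynomial H4AR

theorem GK_cv {m : ℕ} (n : ℕ) (hn : 1 ≤ n) (c : Fin m → ℤ) (s : ℝ) (hs : 0 ≤ s)
    (hc : ∀ l, |(c l : ℝ)| * s ≤ 1 / 2) (xi : ℝ) (F : MvPolynomial (Fin (m + 1)) ℤ) (K : Fin m → ℕ) :
    Cv s (GK n c xi F K) := by
  unfold GK
  refine Cv_sum hs _ _ fun e _ => Cv_mul hs (Cv_C _ _) (Cv_mul hs (Cv_pow hs (Cv_X s) _) ?_)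
  exact Cv_prod hs _ _ fun l _ => Cv_pow hs (Cv_root n hn _ _ hs (hc l)).1 _

theorem GK_bound {m : ℕ} (n : ℕ) (hn : 1 ≤ n) (c : Fin m → ℤ) (A : ℝ) (hA : 1 ≤ A)
    (hc : ∀ l, |(c l : ℝ)| ≤ A) (xi Xi : ℝ) (hxi : 0 ≤ xi) (hXi : 1 ≤ Xi) (hxX : xi ≤ Xi)
    (F : MvPolynomial (Fin (m + 1)) ℤ) (d : Fin (m + 1) → ℕ) (hdeg : ∀ j, F.degreeOf j ≤ d j) (K : Fin m → ℕ)
    (k : ℕ) :
    |PowerSeries.coeff k (GK n c xi F K)| ≤
      l1 F * (4 * Xi) ^ (∑ l : Fin m, d l.castSucc) * (2 * A) ^ k := by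
  have hA0 : 0 < A := by linarith
  have hs : (0 : ℝ) ≤ 1 / (2 * A) := by positivity
  have hs1 : 1 / (2 * A) ≤ 1 := by
    rw [div_le_one (by positivity)]
    linarith
  have hrad : ∀ l : Fin m, |(c l : ℝ)| * (1 / (2 * A)) ≤ 1 / 2 := by
    intro l
    calc |(c l : ℝ)| * (1 / (2 * A)) ≤ A * (1 / (2 * A)) :=
          mul_le_mul_of_nonneg_right (hc l) (by positivity)
      _ = 1 / 2 := by field_simp
  have hroot := fun l => Cv_root n hn _ _ hs (hrad l)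
  have hterm : ∀ e ∈ F.support, Nm (1 / (2 * A)) (PowerSeries.C (((F.coeff e : ℤ) : ℝ) *
        ∏ l : Fin m, (((e l.castSucc).choose (K l) : ℝ) * xi ^ (e l.castSucc - K l))) *
      (PowerSeries.X ^ (e (Fin.last m)) *
        ∏ l : Fin m, (PowerSeries.rescale (c l : ℝ) (bsR n)) ^ (e l.castSucc))) ≤
      |((F.coeff e : ℤ) : ℝ)| * (4 * Xi) ^ (∑ l : Fin m, d l.castSucc) := by
    intro e he
    have hp1 : Cv (1 / (2 * A)) (∏ l : Fin m, (PowerSeries.rescale (c l : ℝ) (bsR n)) ^ (e l.castSucc)) :=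
      Cv_prod hs _ _ fun l _ => Cv_pow hs (hroot l).1 _
    have hp2 : Nm (1 / (2 * A)) (∏ l : Fin m, (PowerSeries.rescale (c l : ℝ) (bsR n)) ^ (e l.castSucc)) ≤
        ∏ l : Fin m, (2 : ℝ) ^ (e l.castSucc) := by
      refine (Nm_prod_le hs _ _ fun l _ => Cv_pow hs (hroot l).1 _).trans ?_
      refine Finset.prod_le_prod (fun l _ => Nm_nonneg hs _) fun l _ => ?_
      exact (Nm_pow_le hs (hroot l).1 _).trans (pow_le_pow_left₀ (Nm_nonneg hs _) (hroot l).2 _)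
    have hx1 : Nm (1 / (2 * A)) (PowerSeries.X ^ (e (Fin.last m))) ≤ 1 := by
      refine (Nm_pow_le hs (Cv_X _) _).trans ?_
      rw [Nm_X]
      exact pow_le_one₀ hs hs1
    have hxc : Cv (1 / (2 * A)) (PowerSeries.X ^ (e (Fin.last m)) : PowerSeries ℝ) := Cv_pow hs (Cv_X _) _
    have h1 : Nm (1 / (2 * A)) (PowerSeries.X ^ (e (Fin.last m)) *
        ∏ l : Fin m, (PowerSeries.rescale (c l : ℝ) (bsR n)) ^ (e l.castSucc)) ≤
        ∏ l : Fin m, (2 : ℝ) ^ (e l.castSucc) := by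
      refine (Nm_mul_le hs hxc hp1).trans ?_
      calc _ ≤ 1 * ∏ l : Fin m, (2 : ℝ) ^ (e l.castSucc) :=
            mul_le_mul hx1 hp2 (Nm_nonneg hs _) zero_le_one
        _ = _ := one_mul _
    refine (Nm_mul_le hs (Cv_C _ _) (Cv_mul hs hxc hp1)).trans ?_
    rw [Nm_C, abs_mul]
    have h2 : |∏ l : Fin m, (((e l.castSucc).choose (K l) : ℝ) * xi ^ (e l.castSucc - K l))| ≤
        ∏ l : Fin m, ((2 * Xi) ^ (e l.castSucc)) := by
      rw [Finset.abs_prod]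
      refine Finset.prod_le_prod (fun l _ => abs_nonneg _) fun l _ => ?_
      rw [abs_of_nonneg (by positivity), mul_pow]
      refine mul_le_mul ?_ ?_ (by positivity) (by positivity)
      · exact_mod_cast Nat.choose_le_two_pow _ _
      · calc xi ^ (e l.castSucc - K l) ≤ Xi ^ (e l.castSucc - K l) := pow_le_pow_left₀ hxi hxX _
          _ ≤ Xi ^ (e l.castSucc) := pow_le_pow_right₀ hXi (Nat.sub_le _ _)
    rw [mul_assoc]
    refine mul_le_mul_of_nonneg_left ?_ (abs_nonneg _)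
    calc |∏ l : Fin m, (((e l.castSucc).choose (K l) : ℝ) * xi ^ (e l.castSucc - K l))| *
          Nm (1 / (2 * A)) (PowerSeries.X ^ (e (Fin.last m)) *
            ∏ l : Fin m, (PowerSeries.rescale (c l : ℝ) (bsR n)) ^ (e l.castSucc))
        ≤ (∏ l : Fin m, ((2 * Xi) ^ (e l.castSucc))) * ∏ l : Fin m, (2 : ℝ) ^ (e l.castSucc) :=
          mul_le_mul h2 h1 (Nm_nonneg hs _) (Finset.prod_nonneg fun l _ => by positivity)
      _ = ∏ l : Fin m, (4 * Xi) ^ (e l.castSucc) := by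
          rw [← Finset.prod_mul_distrib]
          refine Finset.prod_congr rfl fun l _ => ?_
          rw [← mul_pow]
          congr 1
          ring
      _ ≤ ∏ l : Fin m, (4 * Xi) ^ (d l.castSucc) := by
          refine Finset.prod_le_prod (fun l _ => by positivity) fun l _ => ?_
          refine pow_le_pow_right₀ (by linarith) ?_
          exact (MvPolynomial.monomial_le_degreeOf _ he).trans (hdeg _)
      _ = (4 * Xi) ^ (∑ l : Fin m, d l.castSucc) := Finset.prod_pow_eq_pow_sum _ _ _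
  have hcv := GK_cv n hn c (1 / (2 * A)) hs hrad xi F K
  have h3 : Nm (1 / (2 * A)) (GK n c xi F K) ≤ l1 F * (4 * Xi) ^ (∑ l : Fin m, d l.castSucc) := by
    unfold GK
    refine (Nm_sum_le hs _ _ fun e _ => Cv_mul hs (Cv_C _ _) (Cv_mul hs (Cv_pow hs (Cv_X _) _) ?_)).trans ?_
    · exact Cv_prod hs _ _ fun l _ => Cv_pow hs (hroot l).1 _
    · refine (Finset.sum_le_sum hterm).trans ?_
      rw [← Finset.sum_mul]
      exact le_of_eq rfl
  have h7 := (coeff_le_Nm hs hcv k).trans h3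
  rw [one_div, inv_pow] at h7
  have h9 : 0 < (2 * A) ^ k := by positivity
  rwa [← div_eq_mul_inv, div_le_iff₀ h9] at h7

end H37SI
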