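import Pool.Agent.H37.SI.Def

/-!
H37/SI/Bin [BIN]: the binomial series (1+X)^(1/n).

PROOFS. bs_coeff: `PowerSeries.binomialSeries_coeff` (the smul with 1 is multiplication).
bs_pow: `PowerSeries.binomialSeries_add` and `binomialSeries_nat` (or binomialSeries_zero for the start of the induction):
by induction on a, (bs n)^a = binomialSeries ℚ (a * (n:ℚ)⁻¹); for a = n the exponent is 1 = ((1:ℕ) : ℚ) and
binomialSeries_nat gives (1+X)^1.
bs_const: binomialSeries_constantCoeff.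
bs_abs: k = 0: choose = 1. The numbers a_k = Ring.choose (1/n) k satisfy (k+1) a_(k+1) = (1/n - k) a_k
(`Ring.choose` : k! choose(x,k) = descending factorial, e.g. `Ring.descPochhammer_eq_factorial_smul_choose` and
`descPochhammer_succ_right`, or differentiate), and |1/n - k| ≤ k + 1 for 0 < 1/n ≤ 1, so |a_(k+1)| ≤ |a_k| ≤ 1.
-/

namespace H37SI

theorem bs_coeff (n k : ℕ) : PowerSeries.coeff k (bs n) = Ring.choose ((n : ℚ)⁻¹) k := by
  unfold bs
  rw [PowerSeries.binomialSeries_coeff, smul_eq_mul, mul_one]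

private theorem bin_pow (n a : ℕ) :
    (bs n) ^ a = PowerSeries.binomialSeries ℚ ((a : ℚ) * (n : ℚ)⁻¹) := by
  induction a with
  | zero =>
    rw [pow_zero, Nat.cast_zero, zero_mul, PowerSeries.binomialSeries_zero]
  | succ a ih =>
    rw [pow_succ, ih]
    unfold bs
    rw [← PowerSeries.binomialSeries_add]
    congr 1
    push_cast
    ring

theorem bs_pow (n : ℕ) (hn : 1 ≤ n) : (bs n) ^ n = 1 + PowerSeries.X := by
  rw [bin_pow]
  have h0 : (n : ℚ) ≠ 0 := by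
    exact_mod_cast (by omega : n ≠ 0)
  rw [mul_inv_cancel₀ h0]
  have h := PowerSeries.binomialSeries_nat (R := ℚ) (A := ℚ) 1
  rw [Nat.cast_one, pow_one] at h
  exact h

theorem bs_const (n : ℕ) : PowerSeries.constantCoeff (bs n) = 1 := by
  unfold bs
  exact PowerSeries.binomialSeries_constantCoeff _

theorem bs_abs (n : ℕ) (hn : 1 ≤ n) (k : ℕ) : |PowerSeries.coeff k (bs n)| ≤ 1 := by
  rw [bs_coeff]
  have hn1 : (1 : ℚ) ≤ n := by exact_mod_cast hn
  have h0 : (0 : ℚ) ≤ (n : ℚ)⁻¹ := by positivity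
  have h1 : (n : ℚ)⁻¹ ≤ 1 := inv_le_one_of_one_le₀ hn1
  induction k with
  | zero =>
    rw [Ring.choose_zero_right, abs_one]
  | succ k ih =>
    have h2 := Ring.choose_smul_choose ((n : ℚ)⁻¹) (Nat.le_succ k)
    rw [Nat.succ_eq_add_one, Nat.choose_succ_self_right, Nat.add_sub_cancel_left,
      Ring.choose_one_right, nsmul_eq_mul] at h2
    have hk : (0 : ℚ) < ((k + 1 : ℕ) : ℚ) := by exact_mod_cast Nat.succ_pos k
    have hk0 : (0 : ℚ) ≤ (k : ℚ) := by positivity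
    have h3 : ((k + 1 : ℕ) : ℚ) * |Ring.choose ((n : ℚ)⁻¹) (k + 1)| =
        |Ring.choose ((n : ℚ)⁻¹) k| * |(n : ℚ)⁻¹ - k| := by
      rw [← abs_mul, ← h2, abs_mul, abs_of_pos hk]
    have h4 : |(n : ℚ)⁻¹ - k| ≤ ((k + 1 : ℕ) : ℚ) := by
      rw [abs_le]
      push_cast
      constructor <;> linarith
    have h5 : ((k + 1 : ℕ) : ℚ) * |Ring.choose ((n : ℚ)⁻¹) (k + 1)| ≤ ((k + 1 : ℕ) : ℚ) * 1 := by
      rw [h3, mul_one]
      calc |Ring.choose ((n : ℚ)⁻¹) k| * |(n : ℚ)⁻¹ - k| ≤ 1 * |(n : ℚ)⁻¹ - k| :=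
            mul_le_mul_of_nonneg_right ih (abs_nonneg _)
        _ ≤ _ := by rw [one_mul]; exact h4
    exact le_of_mul_le_mul_left h5 hk

theorem bsR_pow (n : ℕ) (hn : 1 ≤ n) : (bsR n) ^ n = 1 + PowerSeries.X := by
  unfold bsR
  rw [← map_pow, bs_pow n hn, map_add, map_one, PowerSeries.map_X]

theorem bsR_coeff (n k : ℕ) : PowerSeries.coeff k (bsR n) = ((PowerSeries.coeff k (bs n) : ℚ) : ℝ) := by
  unfold bsR
  rw [PowerSeries.coeff_map]
  rfl

theorem bsR_abs (n : ℕ) (hn : 1 ≤ n) (k : ℕ) : |PowerSeries.coeff k (bsR n)| ≤ 1 := by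
  rw [bsR_coeff, ← Rat.cast_abs]
  exact_mod_cast bs_abs n hn k

end H37SI
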