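import Pool.Agent.H37.SI.ShM
import Pool.Agent.H37.SI.Bin

/-!
H37/SI/ShRoot [SHROOT]: Taylor shift of (1 + c w)^(1/n).

PROOFS. Cv_root: the coefficients of rescale c (bsR n) are c^k b_k with |b_k| ≤ 1 (bsR_abs), so |.| s^k ≤ (|c| s)^k
≤ 2^(-k), geometric series, sum ≤ 2.
Sh_root: let p = rescale c (bsR n), q = Sh w p. p^n = 1 + c X (bsR_pow and `PowerSeries.rescale` ring homomorphism), so
q^n = Sh w (1 + C c * X) = C (1 + c w) + C c * X (Sh_pow, Sh_add, Sh_mul, Sh_C, Sh_X). Let be = (1 + c w)^(1/n) > 0 and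
q' = C be * rescale (c/(1+cw)) (bsR n); q'^n = C(1+cw) * (1 + C(c/(1+cw)) X) = q^n. Constant terms: that of q' is be > 0,
that of q is sum b_k (c w)^k = 1 + sum_{k ≥ 1}, |sum_{k≥1}| ≤ sum_{k ≥ 1} 8^(-k) < 1, so it is > 0. q^n = q'^n in the
domain of power series gives (q - q') * sum_{i<n} q^i q'^(n-1-i) = 0 (`Commute.geom_sum₂_mul` / `mul_geom_sum`-type identity),
and the second factor has positive constant term, so it is not 0 and q = q'.
-/

namespace H37SI

private theorem shr_le (n : ℕ) (hn : 1 ≤ n) (c s : ℝ) (hs : 0 ≤ s) (k : ℕ) :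
    |PowerSeries.coeff k (PowerSeries.rescale c (bsR n))| * s ^ k ≤ (|c| * s) ^ k := by
  rw [PowerSeries.coeff_rescale, abs_mul, abs_pow, mul_pow]
  have h := bsR_abs n hn k
  calc |c| ^ k * |PowerSeries.coeff k (bsR n)| * s ^ k ≤ |c| ^ k * 1 * s ^ k :=
        mul_le_mul_of_nonneg_right (mul_le_mul_of_nonneg_left h (by positivity)) (by positivity)
    _ = |c| ^ k * s ^ k := by ring

theorem Cv_root (n : ℕ) (hn : 1 ≤ n) (c s : ℝ) (hs : 0 ≤ s) (hc : |c| * s ≤ 1 / 2) :
    Cv s (PowerSeries.rescale c (bsR n)) ∧ Nm s (PowerSeries.rescale c (bsR n)) ≤ 2 := by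
  have h1 : ∀ k, |PowerSeries.coeff k (PowerSeries.rescale c (bsR n))| * s ^ k ≤ (1 / 2 : ℝ) ^ k :=
    fun k => (shr_le n hn c s hs k).trans (pow_le_pow_left₀ (by positivity) hc k)
  have h2 : Summable fun k : ℕ => (1 / 2 : ℝ) ^ k := summable_geometric_two
  have h3 : Cv s (PowerSeries.rescale c (bsR n)) :=
    Summable.of_nonneg_of_le (fun k => by positivity) h1 h2
  refine ⟨h3, ?_⟩
  rw [← tsum_geometric_two]
  exact Summable.tsum_le_tsum h1 h3 h2

private theorem shr_pow (n : ℕ) (hn : 1 ≤ n) (c : ℝ) :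
    (PowerSeries.rescale c (bsR n)) ^ n = 1 + PowerSeries.C c * PowerSeries.X := by
  rw [← map_pow, bsR_pow n hn, map_add, map_one, PowerSeries.rescale_X]

theorem Sh_root (n : ℕ) (hn : 1 ≤ n) (c w : ℝ) (hw : 0 < w) (hc : |c| * w ≤ 1 / 8) :
    Sh w (PowerSeries.rescale c (bsR n)) =
      PowerSeries.C ((1 + c * w) ^ ((1 : ℝ) / n)) * PowerSeries.rescale (c / (1 + c * w)) (bsR n) := by
  have hn0 : (n : ℝ) ≠ 0 := by exact_mod_cast (by omega : n ≠ 0)
  have hcw : |c * w| ≤ 1 / 8 := by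
    rw [abs_mul, abs_of_pos hw]
    exact hc
  have hpos : 0 < 1 + c * w := by
    have := (abs_le.1 hcw).1
    linarith
  have hCv : Cv (2 * w) (PowerSeries.rescale c (bsR n)) :=
    (Cv_root n hn c (2 * w) (by positivity) (by linarith)).1
  obtain ⟨q, hq⟩ : ∃ q, q = Sh w (PowerSeries.rescale c (bsR n)) := ⟨_, rfl⟩
  obtain ⟨q', hq'⟩ : ∃ q', q' = PowerSeries.C ((1 + c * w) ^ ((1 : ℝ) / n)) *
    PowerSeries.rescale (c / (1 + c * w)) (bsR n) := ⟨_, rfl⟩
  obtain ⟨be, hbe⟩ : ∃ be : ℝ, be = (1 + c * w) ^ ((1 : ℝ) / n) := ⟨_, rfl⟩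
  have hbe0 : 0 < be := by
    rw [hbe]
    exact Real.rpow_pos_of_pos hpos _
  have hben : be ^ n = 1 + c * w := by
    rw [hbe, ← Real.rpow_natCast, ← Real.rpow_mul hpos.le, one_div, inv_mul_cancel₀ hn0,
      Real.rpow_one]
  rw [← hq, ← hq']
  have h1 : q ^ n = PowerSeries.C (1 + c * w) + PowerSeries.C c * PowerSeries.X := by
    rw [hq, ← Sh_pow hw hCv, shr_pow n hn, ← map_one PowerSeries.C,
      Sh_add hw (Cv_C _ _) (Cv_mul (by positivity) (Cv_C _ _) (Cv_X _)),
      Sh_mul hw (Cv_C _ _) (Cv_X _), Sh_C, Sh_C, Sh_X, mul_add, ← map_mul, ← add_assoc,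
      ← map_add]
  have h2 : q' ^ n = PowerSeries.C (1 + c * w) + PowerSeries.C c * PowerSeries.X := by
    rw [hq', ← hbe, mul_pow, shr_pow n hn, ← map_pow, hben, mul_add, mul_one, ← mul_assoc,
      ← map_mul, mul_div_cancel₀ _ hpos.ne']
  have hq0 : 0 < PowerSeries.constantCoeff q := by
    rw [← PowerSeries.coeff_zero_eq_constantCoeff_apply, hq]
    unfold Sh
    rw [PowerSeries.coeff_mk]
    have hle : ∀ k, |PowerSeries.coeff k (PowerSeries.rescale c (bsR n)) * (k.choose 0 : ℝ) *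
        w ^ (k - 0)| ≤ (1 / 8 : ℝ) ^ k := by
      intro k
      rw [Nat.choose_zero_right, Nat.cast_one, mul_one, Nat.sub_zero, abs_mul, abs_pow,
        abs_of_pos hw]
      exact (shr_le n hn c w hw.le k).trans (pow_le_pow_left₀ (by positivity) hc k)
    have hsum := Summable.of_abs (sh_summable hw hCv 0)
    rw [hsum.tsum_eq_zero_add]
    have e0 : PowerSeries.coeff 0 (PowerSeries.rescale c (bsR n)) * ((0 : ℕ).choose 0 : ℝ) *
        w ^ (0 - 0) = 1 := by
      rw [PowerSeries.coeff_rescale, bsR_coeff, PowerSeries.coeff_zero_eq_constantCoeff,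
        bs_const]
      norm_num
    rw [e0]
    have hg : Summable fun k : ℕ => (1 / 8 : ℝ) ^ (k + 1) :=
      (summable_nat_add_iff 1).2 (summable_geometric_of_lt_one (by norm_num) (by norm_num))
    have hgs : ∑' k : ℕ, (1 / 8 : ℝ) ^ (k + 1) = 1 / 7 := by
      simp only [pow_succ]
      rw [tsum_mul_right, tsum_geometric_of_lt_one (by norm_num) (by norm_num)]
      norm_num
    have hb : |∑' k : ℕ, PowerSeries.coeff (k + 1) (PowerSeries.rescale c (bsR n)) *
        ((k + 1).choose 0 : ℝ) * w ^ (k + 1 - 0)| ≤ 1 / 7 := by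
      rw [← hgs]
      have h3 := norm_tsum_le_tsum_norm (f := fun k : ℕ =>
        PowerSeries.coeff (k + 1) (PowerSeries.rescale c (bsR n)) *
        ((k + 1).choose 0 : ℝ) * w ^ (k + 1 - 0))
        ((summable_nat_add_iff 1).2 (sh_summable hw hCv 0))
      refine h3.trans ?_
      exact Summable.tsum_le_tsum (fun k => hle (k + 1))
        ((summable_nat_add_iff 1).2 (sh_summable hw hCv 0)) hg
    have := (abs_le.1 hb).1
    linarith
  have hq'0 : 0 < PowerSeries.constantCoeff q' := by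
    rw [hq', ← hbe, map_mul, PowerSeries.constantCoeff_C,
      ← PowerSeries.coeff_zero_eq_constantCoeff_apply, PowerSeries.coeff_rescale, bsR_coeff,
      PowerSeries.coeff_zero_eq_constantCoeff, bs_const]
    simpa using hbe0
  have hgeo := geom_sum₂_mul q q' n
  rw [h1, h2, sub_self] at hgeo
  rcases mul_eq_zero.1 hgeo with h3 | h3
  · exfalso
    have h4 := congrArg PowerSeries.constantCoeff h3
    rw [map_sum, map_zero] at h4
    have h5 : 0 < ∑ i ∈ Finset.range n, PowerSeries.constantCoeff (q ^ i * q' ^ (n - 1 - i)) := by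
      refine Finset.sum_pos (fun i _ => ?_) ⟨0, Finset.mem_range.2 (by omega)⟩
      rw [map_mul, map_pow, map_pow]
      positivity
    rw [h4] at h5
    exact lt_irrefl _ h5
  · exact sub_eq_zero.1 h3

end H37SI
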