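import Pool.Agent.H37.SI.IntL
import Pool.Agent.H37.SI.ShRoot

/-!
H37/SI/SerI [SERI]: the coefficients of prod_l (1 + c_l w)^(a_l/n) times n^(2k) are integers of bounded size.

PROOF. Integrality: over ℚ: bs_int, IntS_rescale with M = 1 (1 * c_l is an integer; N * 1 = N), IntS_pow, IntS_prod; then map to ℝ
(bsR = map of bs; `PowerSeries.map` commutes with rescale, powers, products; coeff_map). Size: at radius s = 1/(2A) (|c_l| s ≤ 1/2)
Cv_root gives Nm ≤ 2 for each factor, Nm_pow_le, Nm_prod_le: Nm s (product) ≤ 2^(sum a_l); coeff_le_Nm: |coeff k| ≤ Nm/s^k.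
-/

namespace H37SI

private theorem seri_rad {m : ℕ} (c : Fin m → ℤ) (A : ℝ) (hA : 1 ≤ A) (hc : ∀ l, |(c l : ℝ)| ≤ A) (l : Fin m) :
    |(c l : ℝ)| * (1 / (2 * A)) ≤ 1 / 2 := by
  have hA0 : 0 < A := by linarith
  calc |(c l : ℝ)| * (1 / (2 * A)) ≤ A * (1 / (2 * A)) :=
        mul_le_mul_of_nonneg_right (hc l) (by positivity)
    _ = 1 / 2 := by field_simp

theorem ser_int {m : ℕ} (n : ℕ) (hn : 1 ≤ n) (c : Fin m → ℤ) (A : ℝ) (hA : 1 ≤ A) (hc : ∀ l, |(c l : ℝ)| ≤ A)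
    (a : Fin m → ℕ) (k : ℕ) :
    ∃ z : ℤ, (n : ℝ) ^ (2 * k) *
        PowerSeries.coeff k (∏ l : Fin m, (PowerSeries.rescale (c l : ℝ) (bsR n)) ^ (a l)) = z ∧
      |(z : ℝ)| ≤ (n : ℝ) ^ (2 * k) * (2 ^ (∑ l, a l) * (2 * A) ^ k) := by
  have hA0 : 0 < A := by linarith
  -- integrality
  have h1 : IntS ((n : ℚ) ^ 2) (∏ l : Fin m, (PowerSeries.rescale (c l : ℚ) (bs n)) ^ (a l)) := by
    refine IntS_prod _ _ fun l _ => IntS_pow ?_ _
    have h := IntS_rescale (M := 1) (c := (c l : ℚ)) (bs_int n hn) ⟨c l, by rw [one_mul]⟩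
    rwa [mul_one] at h
  have h2 : PowerSeries.map (algebraMap ℚ ℝ) (∏ l : Fin m, (PowerSeries.rescale (c l : ℚ) (bs n)) ^ (a l)) =
      ∏ l : Fin m, (PowerSeries.rescale (c l : ℝ) (bsR n)) ^ (a l) := by
    rw [map_prod]
    refine Finset.prod_congr rfl fun l _ => ?_
    rw [map_pow]
    congr 1
    ext j
    unfold bsR
    rw [PowerSeries.coeff_map, PowerSeries.coeff_rescale, PowerSeries.coeff_rescale, PowerSeries.coeff_map,
      map_mul, map_pow]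
    congr 2
  obtain ⟨z, hz⟩ := h1 k
  have h3 : (n : ℝ) ^ (2 * k) *
      PowerSeries.coeff k (∏ l : Fin m, (PowerSeries.rescale (c l : ℝ) (bsR n)) ^ (a l)) = z := by
    rw [← h2, PowerSeries.coeff_map]
    have h4 : (((z : ℤ) : ℚ) : ℝ) = ((((n : ℚ) ^ 2) ^ k * PowerSeries.coeff k
        (∏ l : Fin m, (PowerSeries.rescale (c l : ℚ) (bs n)) ^ (a l)) : ℚ) : ℝ) := by
      rw [hz]
    rw [Rat.cast_intCast] at h4
    rw [h4]
    push_cast
    rw [pow_mul]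
    rfl
  refine ⟨z, h3, ?_⟩
  have hs : (0 : ℝ) ≤ 1 / (2 * A) := by positivity
  have h5 : ∀ l : Fin m, Cv (1 / (2 * A)) (PowerSeries.rescale (c l : ℝ) (bsR n)) := fun l =>
    (Cv_root n hn _ _ hs (seri_rad c A hA hc l)).1
  have h6 : Nm (1 / (2 * A)) (∏ l : Fin m, (PowerSeries.rescale (c l : ℝ) (bsR n)) ^ (a l)) ≤
      2 ^ (∑ l, a l) := by
    refine (Nm_prod_le hs _ _ fun l _ => Cv_pow hs (h5 l) _).trans ?_
    rw [← Finset.prod_pow_eq_pow_sum]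
    refine Finset.prod_le_prod (fun l _ => Nm_nonneg hs _) fun l _ => ?_
    refine (Nm_pow_le hs (h5 l) _).trans ?_
    exact pow_le_pow_left₀ (Nm_nonneg hs _) (Cv_root n hn _ _ hs (seri_rad c A hA hc l)).2 _
  have h7 := (coeff_le_Nm hs (Cv_prod hs Finset.univ _ fun l _ => Cv_pow hs (h5 l) (a l)) k).trans h6
  have h8 : |PowerSeries.coeff k (∏ l : Fin m, (PowerSeries.rescale (c l : ℝ) (bsR n)) ^ (a l))| ≤
      2 ^ (∑ l, a l) * (2 * A) ^ k := by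
    rw [one_div, inv_pow] at h7
    have h9 : 0 < (2 * A) ^ k := by positivity
    rwa [← div_eq_mul_inv, div_le_iff₀ h9] at h7
  rw [← h3, abs_mul, abs_of_nonneg (by positivity : (0 : ℝ) ≤ (n : ℝ) ^ (2 * k))]
  exact mul_le_mul_of_nonneg_left h8 (by positivity)

end H37SI
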