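import Pool.Agent.H37.SI.UnkC
import Pool.Agent.H37.SI.SerI
import Pool.Agent.H37.SI.GKn

/-!
H37/SI/AuxPoly [AUX]: the auxiliary polynomial (Siegel's lemma).

PROOF. Unknowns: index set U = exponents e (functions j : Fin (m+1) → Fin (d j + 1)) with n1 dividing sum_l e_(castSucc l)
(a subtype, `Fintype`; or the finset of unk_count). Number: |U| * n1 ≥ (d 0 + 1 - n1) * prod_{j ≠ 0} (d j + 1): unk_count.
Let E = sum_l d_(castSucc l), q_e = (sum_l e_l)/n1 ≤ E. xi^(sum e_l) = (xi^n1)^(q_e) = th^(q_e) (X/b)^(q_e). Equation (K,k),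
multiplied by n^(2k) b^E c0^E xi^(sum K_l):
sum_e p_e prod_l binom(e_l,K_l) * X^(q_e) b^(E-q_e) c0^(E-q_e) (c0 th)^(q_e) * n^(2 e_w) [n^(2(k-e_w)) * coefficient k - e_w of
prod_l (rescale c_l bs)^(e_l)] = 0 (terms with e_w > k are 0; binom(e_l,K_l) = 0 if K_l > e_l, otherwise
xi^(e_l-K_l) xi^(K_l) = xi^(e_l)), and (c0 th)^(q_e) = sum_i w q_e i th^i. It is implied by the D equations (i : Fin D) with
integer coefficients
  A((K,k),i),e = prod binom(e_l,K_l) X^(q_e) b^(E-q_e) c0^(E-q_e) w q_e i n^(2 e_w) z, z = n^(2(k-e_w)) coefficient (an integer, ser_int).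
Size: |z| ≤ n^(2(k-e_w)) * 2^(sum e_l) (2A)^(k-e_w) (ser_int), binomials ≤ 2^E in total, X^(q_e) b^(E-q_e) ≤ X^(2E), |c0|^(E-q_e) |w| ≤ B^(2E) (B ≥ 1). Total at most
4^E X^(2E) B^(2E) (2 n^2 A)^k ≤ KA := (4 X^3 B^2)^E (2 n^2 A)^M0, KA ≥ 1.
Siegel's lemma `Int.Matrix.exists_ne_zero_int_vec_norm_le` (Mathlib NumberTheory/SiegelsLemma; see also the private lemma
ax_siegel in Pool/Agent/H4/AR/AuxP.lean): alpha = KK × Fin D (card a), beta = U (card N), hcard gives (1+eps) a ≤ N, so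
a < N if a > 0 and a/(N-a) ≤ 1/eps: nonzero integer vector p with |p_e| ≤ (N KA)^(1/eps). (If a = 0 take F = 1.)
F = sum_e p_e monomial e; l1 F ≤ N (N KA)^(1/eps) ≤ (N KA)^(1+1/eps), N ≤ prod (d j + 1). Then
coeff k (GK n c xi F K) = sum of the terms above (support of F ⊆ U, terms with p_e = 0 vanish), equal to 0.
-/

namespace H37SI

open MvPolynomial H4AR

attribute [local instance] Matrix.seminormedAddCommGroup

/-- the equations have a small solution -/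
private theorem ap_siegel {α β : Type} [Fintype α] [Fintype β] [DecidableEq α] [DecidableEq β]
    (A : Matrix α β ℤ) {N K eps : ℝ} (heps : 0 < eps) (hN : (Fintype.card β : ℝ) = N)
    (hM : (1 + eps) * (Fintype.card α : ℝ) ≤ N) (h0 : 0 < Fintype.card α) (hK : 1 ≤ K)
    (hA : ∀ i j, |((A i j : ℤ) : ℝ)| ≤ K) :
    ∃ t : β → ℤ, t ≠ 0 ∧ Matrix.mulVec A t = 0 ∧ ∀ j, |((t j : ℤ) : ℝ)| ≤ (N * K) ^ (1 / eps) := by
  have ha : (0 : ℝ) < Fintype.card α := by exact_mod_cast h0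
  have hae : 0 < eps * (Fintype.card α : ℝ) := mul_pos heps ha
  have hlt : Fintype.card α < Fintype.card β := by
    have : (Fintype.card α : ℝ) < Fintype.card β := by rw [hN]; linarith
    exact_mod_cast this
  obtain ⟨t, ht, hAt, hn⟩ := Int.Matrix.exists_ne_zero_int_vec_norm_le A hlt h0
  refine ⟨t, ht, hAt, fun j => ?_⟩
  have hnorm : ‖A‖ ≤ K := by
    rw [Matrix.norm_le_iff (by linarith)]
    intro i j
    rw [Int.norm_eq_abs]
    exact hA i j
  have h1 : max 1 ‖A‖ ≤ K := max_le hK hnorm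
  have hN1 : 1 ≤ N := by
    rw [← hN]
    have : 1 ≤ Fintype.card β := by omega
    exact_mod_cast this
  have hb1 : 1 ≤ (Fintype.card β : ℝ) * max 1 ‖A‖ := by
    have e1 : (1 : ℝ) ≤ Fintype.card β := by rw [hN]; exact hN1
    have e2 : (1 : ℝ) ≤ max 1 ‖A‖ := le_max_left _ _
    nlinarith
  have hexp : (Fintype.card α : ℝ) / (Fintype.card β - Fintype.card α) ≤ 1 / eps := by
    rw [div_le_div_iff₀ (by rw [hN]; linarith) heps, hN]
    linarith
  have h2 : ‖t j‖ ≤ ‖t‖ := norm_le_pi_norm t j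
  calc |((t j : ℤ) : ℝ)| = ‖t j‖ := by rw [Int.norm_eq_abs]
    _ ≤ ‖t‖ := h2
    _ ≤ ((Fintype.card β : ℝ) * max 1 ‖A‖) ^ ((Fintype.card α : ℝ) / (Fintype.card β - Fintype.card α)) := hn
    _ ≤ ((Fintype.card β : ℝ) * max 1 ‖A‖) ^ (1 / eps) := Real.rpow_le_rpow_of_exponent_le hb1 hexp
    _ ≤ (N * K) ^ (1 / eps) := by
        apply Real.rpow_le_rpow (by linarith) _ (by positivity)
        rw [hN]
        exact mul_le_mul_of_nonneg_left h1 (by linarith)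

/-- one matrix entry is bounded -/
private theorem ap_entry {n M0 E B X b q s k ew : ℕ} {A P z c0 w : ℝ} (hn : 1 ≤ n) (hA : 1 ≤ A) (hX : 2 ≤ X)
    (hb : 1 ≤ b) (hbX : b ≤ X ^ 2) (hB : 1 ≤ B) (hqE : q ≤ E) (hsE : s ≤ E) (hk : k ≤ M0) (hew : ew ≤ k)
    (hP0 : 0 ≤ P) (hP : P ≤ 2 ^ s) (hc0 : |c0| ≤ B) (hw : |w| ≤ (B : ℝ) ^ q)
    (hz : |z| ≤ (n : ℝ) ^ (2 * (k - ew)) * (2 ^ s * (2 * A) ^ (k - ew))) :
    |P * (X : ℝ) ^ q * (b : ℝ) ^ (E - q) * c0 ^ (E - q) * w * ((n : ℝ) ^ (2 * ew) * z)| ≤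
      (4 * (X : ℝ) ^ 3 * (B : ℝ) ^ 2) ^ E * (2 * (n : ℝ) ^ 2 * A) ^ M0 := by
  have hXr : (2 : ℝ) ≤ X := by exact_mod_cast hX
  have hBr : (1 : ℝ) ≤ B := by exact_mod_cast hB
  have hbr : (b : ℝ) ≤ (X : ℝ) ^ 2 := by exact_mod_cast hbX
  have hnr : (1 : ℝ) ≤ n := by exact_mod_cast hn
  have hn2 : (1 : ℝ) ≤ (n : ℝ) ^ 2 := one_le_pow₀ hnr
  have h1 : |P * (X : ℝ) ^ q * (b : ℝ) ^ (E - q) * c0 ^ (E - q) * w * ((n : ℝ) ^ (2 * ew) * z)| =
      P * ((X : ℝ) ^ q * (b : ℝ) ^ (E - q)) * (|c0| ^ (E - q) * |w|) * ((n : ℝ) ^ (2 * ew) * |z|) := by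
    simp only [abs_mul, abs_pow, abs_of_nonneg hP0, Nat.abs_cast]
    ring
  rw [h1]
  have h2 : (X : ℝ) ^ q * (b : ℝ) ^ (E - q) ≤ ((X : ℝ) ^ 3) ^ E := by
    calc (X : ℝ) ^ q * (b : ℝ) ^ (E - q) ≤ (X : ℝ) ^ q * ((X : ℝ) ^ 2) ^ (E - q) := by gcongr
      _ = (X : ℝ) ^ (q + 2 * (E - q)) := by rw [← pow_mul, ← pow_add]
      _ ≤ (X : ℝ) ^ (3 * E) := pow_le_pow_right₀ (by linarith) (by omega)
      _ = ((X : ℝ) ^ 3) ^ E := by rw [← pow_mul]
  have h3 : |c0| ^ (E - q) * |w| ≤ ((B : ℝ) ^ 2) ^ E := by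
    calc |c0| ^ (E - q) * |w| ≤ (B : ℝ) ^ (E - q) * (B : ℝ) ^ q := by gcongr
      _ = (B : ℝ) ^ (E - q + q) := by rw [← pow_add]
      _ ≤ (B : ℝ) ^ (2 * E) := pow_le_pow_right₀ hBr (by omega)
      _ = ((B : ℝ) ^ 2) ^ E := by rw [← pow_mul]
  have h4 : (n : ℝ) ^ (2 * ew) * |z| ≤ 2 ^ E * (2 * (n : ℝ) ^ 2 * A) ^ M0 := by
    calc (n : ℝ) ^ (2 * ew) * |z|
        ≤ (n : ℝ) ^ (2 * ew) * ((n : ℝ) ^ (2 * (k - ew)) * (2 ^ s * (2 * A) ^ (k - ew))) := by gcongr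
      _ = 2 ^ s * ((n : ℝ) ^ (2 * ew + 2 * (k - ew)) * (2 * A) ^ (k - ew)) := by rw [pow_add]; ring
      _ = 2 ^ s * (((n : ℝ) ^ 2) ^ k * (2 * A) ^ (k - ew)) := by
          rw [← pow_mul]
          congr 3
          omega
      _ ≤ 2 ^ E * (((n : ℝ) ^ 2) ^ k * (2 * A) ^ k) := by
          gcongr
          · norm_num
          · linarith
          · omega
      _ = 2 ^ E * (2 * (n : ℝ) ^ 2 * A) ^ k := by
          rw [← mul_pow]
          congr 2
          ring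
      _ ≤ 2 ^ E * (2 * (n : ℝ) ^ 2 * A) ^ M0 := by
          gcongr
          nlinarith
  have h5 : P ≤ 2 ^ E := hP.trans (pow_le_pow_right₀ (by norm_num) hsE)
  calc P * ((X : ℝ) ^ q * (b : ℝ) ^ (E - q)) * (|c0| ^ (E - q) * |w|) * ((n : ℝ) ^ (2 * ew) * |z|)
      ≤ 2 ^ E * ((X : ℝ) ^ 3) ^ E * ((B : ℝ) ^ 2) ^ E * (2 ^ E * (2 * (n : ℝ) ^ 2 * A) ^ M0) := by gcongr
    _ = (4 * (X : ℝ) ^ 3 * (B : ℝ) ^ 2) ^ E * (2 * (n : ℝ) ^ 2 * A) ^ M0 := by
        rw [mul_pow (4 * (X : ℝ) ^ 3) ((B : ℝ) ^ 2) E, mul_pow 4 ((X : ℝ) ^ 3) E]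
        have : (4 : ℝ) ^ E = 2 ^ E * 2 ^ E := by rw [← mul_pow]; norm_num
        rw [this]
        ring

theorem aux_poly (n n1 m D : ℕ) (hn : 1 ≤ n) (hn1 : 1 ≤ n1) (hm : 1 ≤ m) (hD : 1 ≤ D) (th : ℝ) (hth : 0 < th)
    (c0 : ℤ) (hc0 : c0 ≠ 0) (B : ℕ) (hB : 1 ≤ B) (hcB : |c0| ≤ B) (w : ℕ → Fin D → ℤ)
    (hw : ∀ q, (c0 : ℝ) ^ q * th ^ q = ∑ i, (w q i : ℝ) * th ^ (i : ℕ))
    (hwB : ∀ q i, |w q i| ≤ (B : ℤ) ^ q) (X b : ℕ) (hX : 2 ≤ X) (hb : 1 ≤ b) (hbX : b ≤ X ^ 2) (xi : ℝ)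
    (hxi : 0 < xi) (hxin : xi ^ n1 * b = th * X) (c : Fin m → ℤ) (A : ℝ) (hA : 1 ≤ A)
    (hc : ∀ l, |(c l : ℝ)| ≤ A) (d : Fin (m + 1) → ℕ) (M0 : ℕ) (KK : Finset ((Fin m → ℕ) × ℕ))
    (hKK : ∀ p ∈ KK, p.2 ≤ M0) (eps : ℝ) (heps : 0 < eps)
    (hcard : (1 + eps) * (D * KK.card) * n1 ≤
      ((d 0 : ℝ) + 1 - n1) * ∏ j ∈ Finset.univ.erase (0 : Fin (m + 1)), ((d j : ℝ) + 1)) :
    ∃ F : MvPolynomial (Fin (m + 1)) ℤ, F ≠ 0 ∧ (∀ j, F.degreeOf j ≤ d j) ∧
      l1 F ≤ ((∏ j, ((d j : ℝ) + 1)) * ((4 * (X : ℝ) ^ 3 * (B : ℝ) ^ 2) ^ (∑ l : Fin m, d l.castSucc) *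
        (2 * (n : ℝ) ^ 2 * A) ^ M0)) ^ (1 + 1 / eps) ∧
      ∀ p ∈ KK, PowerSeries.coeff p.2 (GK n c xi F p.1) = 0 := by
  classical
  set E := ∑ l : Fin m, d l.castSucc with hE
  set KA : ℝ := (4 * (X : ℝ) ^ 3 * (B : ℝ) ^ 2) ^ E * (2 * (n : ℝ) ^ 2 * A) ^ M0 with hKA
  set P : ℝ := ∏ j, ((d j : ℝ) + 1) with hP
  have hXr : (2 : ℝ) ≤ X := by exact_mod_cast hX
  have hBr : (1 : ℝ) ≤ B := by exact_mod_cast hB
  have hnr : (1 : ℝ) ≤ n := by exact_mod_cast hn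
  have hKA1 : 1 ≤ KA := by
    have e1 : (1 : ℝ) ≤ 4 * (X : ℝ) ^ 3 * (B : ℝ) ^ 2 := by
      have a1 : (1 : ℝ) ≤ (X : ℝ) ^ 3 := one_le_pow₀ (by linarith)
      have a2 : (1 : ℝ) ≤ (B : ℝ) ^ 2 := one_le_pow₀ hBr
      nlinarith
    have e2 : (1 : ℝ) ≤ 2 * (n : ℝ) ^ 2 * A := by
      have a1 : (1 : ℝ) ≤ (n : ℝ) ^ 2 := one_le_pow₀ hnr
      nlinarith
    have e3 := one_le_pow₀ e1 (n := E)
    have e4 := one_le_pow₀ e2 (n := M0)
    rw [hKA]
    nlinarith
  have hP1 : 1 ≤ P := by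
    rw [hP]
    refine Finset.prod_induction _ (fun x : ℝ => 1 ≤ x)
      (fun a b ha hb => one_le_mul_of_one_le_of_one_le ha hb) le_rfl fun j _ => ?_
    have : (0 : ℝ) ≤ d j := Nat.cast_nonneg _
    linarith
  have hex : (0 : ℝ) ≤ 1 + 1 / eps := by positivity
  rcases KK.eq_empty_or_nonempty with hK0 | hK0
  · refine ⟨1, one_ne_zero, ?_, ?_, ?_⟩
    · intro j
      rw [MvPolynomial.degreeOf_one]
      exact Nat.zero_le _
    · have h1 : l1 (1 : MvPolynomial (Fin (m + 1)) ℤ) = 1 := by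
        have hs : (1 : MvPolynomial (Fin (m + 1)) ℤ).support ⊆ {0} := by
          rw [MvPolynomial.support_one]
        rw [l1_eq_sum _ _ hs]
        simp
      rw [h1]
      exact Real.one_le_rpow (by nlinarith) hex
    · intro p hp
      rw [hK0] at hp
      simp at hp
  set S := ((Fintype.piFinset fun j : Fin (m + 1) => Finset.range (d j + 1)).filter
        (fun e : Fin (m + 1) → ℕ => n1 ∣ ∑ l : Fin m, e l.castSucc)) with hS
  have hcnt := unk_count n1 m hn1 hm d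
  rw [← hS] at hcnt
  have hn1r : (0 : ℝ) < n1 := by exact_mod_cast hn1
  have hNa : (1 + eps) * (D * KK.card) ≤ (S.card : ℝ) := by
    have h1 : (1 + eps) * (D * KK.card) * n1 ≤ (n1 : ℝ) * S.card := hcard.trans hcnt
    have h2 : n1 * ((1 + eps) * (D * KK.card)) ≤ (n1 : ℝ) * S.card := by linarith
    exact le_of_mul_le_mul_left h2 hn1r
  have hNP : (S.card : ℝ) ≤ P := by
    have h1 : S.card ≤ (Fintype.piFinset fun j : Fin (m + 1) => Finset.range (d j + 1)).card :=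
      Finset.card_filter_le _ _
    rw [Fintype.card_piFinset] at h1
    calc (S.card : ℝ) ≤ ((∏ i, (Finset.range (d i + 1)).card : ℕ) : ℝ) := by exact_mod_cast h1
      _ = P := by
        rw [hP]
        push_cast
        refine Finset.prod_congr rfl fun j _ => ?_
        rw [Finset.card_range]
        push_cast
        ring
  -- facts about the unknowns
  have hSd : ∀ e : ↥S, ∀ j, (e : Fin (m + 1) → ℕ) j ≤ d j := by
    intro e j
    have h := (Finset.mem_filter.1 e.2).1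
    have := Finset.mem_range.1 (Fintype.mem_piFinset.1 h j)
    omega
  have hSn : ∀ e : ↥S, n1 ∣ ∑ l : Fin m, (e : Fin (m + 1) → ℕ) l.castSucc := fun e => (Finset.mem_filter.1 e.2).2
  have hSE : ∀ e : ↥S, ∑ l : Fin m, (e : Fin (m + 1) → ℕ) l.castSucc ≤ E := by
    intro e
    rw [hE]
    exact Finset.sum_le_sum fun l _ => hSd e _
  set q : ↥S → ℕ := fun e => (∑ l : Fin m, (e : Fin (m + 1) → ℕ) l.castSucc) / n1 with hq
  have hqE : ∀ e, q e ≤ E := fun e => (Nat.div_le_self _ _).trans (hSE e)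
  have hqn : ∀ e, n1 * q e = ∑ l : Fin m, (e : Fin (m + 1) → ℕ) l.castSucc := fun e =>
    Nat.mul_div_cancel' (hSn e)
  have hz : ∀ (e : ↥S) (k : ℕ), ∃ z : ℤ, (n : ℝ) ^ (2 * k) *
        PowerSeries.coeff k (∏ l : Fin m, (PowerSeries.rescale (c l : ℝ) (bsR n)) ^
          ((e : Fin (m + 1) → ℕ) l.castSucc)) = z ∧
      |(z : ℝ)| ≤ (n : ℝ) ^ (2 * k) * (2 ^ (∑ l : Fin m, (e : Fin (m + 1) → ℕ) l.castSucc) * (2 * A) ^ k) :=
    fun e k => ser_int n hn c A hA hc (fun l => (e : Fin (m + 1) → ℕ) l.castSucc) k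
  choose z hz1 hz2 using hz
  -- the matrix
  set Mx : Matrix (↥KK × Fin D) ↥S ℤ := fun pi e =>
    if (e : Fin (m + 1) → ℕ) (Fin.last m) ≤ pi.1.1.2 then
      (∏ l : Fin m, (((e : Fin (m + 1) → ℕ) l.castSucc).choose (pi.1.1.1 l) : ℤ)) * (X : ℤ) ^ (q e) *
        (b : ℤ) ^ (E - q e) * c0 ^ (E - q e) * w (q e) pi.2 *
        ((n : ℤ) ^ (2 * (e : Fin (m + 1) → ℕ) (Fin.last m)) * z e (pi.1.1.2 - (e : Fin (m + 1) → ℕ) (Fin.last m)))
    else 0 with hMx
  have hMb : ∀ pi e, |((Mx pi e : ℤ) : ℝ)| ≤ KA := by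
    intro pi e
    simp only [hMx]
    split_ifs with hle
    · have hch : (∏ l : Fin m, (((e : Fin (m + 1) → ℕ) l.castSucc).choose (pi.1.1.1 l) : ℝ)) ≤
          2 ^ (∑ l : Fin m, (e : Fin (m + 1) → ℕ) l.castSucc) := by
        rw [← Finset.prod_pow_eq_pow_sum]
        refine Finset.prod_le_prod (fun l _ => Nat.cast_nonneg _) fun l _ => ?_
        exact_mod_cast Nat.choose_le_two_pow _ _
      have h1 := ap_entry (n := n) (M0 := M0) (E := E) (B := B) (X := X) (b := b) (q := q e)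
        (s := ∑ l : Fin m, (e : Fin (m + 1) → ℕ) l.castSucc) (k := pi.1.1.2)
        (ew := (e : Fin (m + 1) → ℕ) (Fin.last m)) (A := A)
        (P := ∏ l : Fin m, (((e : Fin (m + 1) → ℕ) l.castSucc).choose (pi.1.1.1 l) : ℝ))
        (z := (z e (pi.1.1.2 - (e : Fin (m + 1) → ℕ) (Fin.last m)) : ℝ)) (c0 := (c0 : ℝ)) (w := (w (q e) pi.2 : ℝ))
        hn hA hX hb hbX hB (hqE e) (hSE e) (hKK _ pi.1.2) hle
        (Finset.prod_nonneg fun l _ => Nat.cast_nonneg _) hch (by exact_mod_cast hcB)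
        (by exact_mod_cast hwB (q e) pi.2) (hz2 e _)
      rw [hKA]
      push_cast
      exact h1
    · simp only [Int.cast_zero, abs_zero]
      linarith
  have hca : (Fintype.card (↥KK × Fin D) : ℝ) = D * KK.card := by
    rw [Fintype.card_prod, Fintype.card_coe, Fintype.card_fin]
    push_cast
    ring
  have hcb : (Fintype.card ↥S : ℝ) = S.card := by rw [Fintype.card_coe]
  have h0 : 0 < Fintype.card (↥KK × Fin D) := by
    rw [Fintype.card_prod, Fintype.card_coe, Fintype.card_fin]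
    exact Nat.mul_pos (Finset.card_pos.2 hK0) hD
  obtain ⟨x, hx0, hAx, hxb⟩ := ap_siegel Mx heps hcb (by rw [hca]; exact hNa) h0 hKA1 hMb
  -- the polynomial
  set tt : ↥S → (Fin (m + 1) →₀ ℕ) := fun e => Finsupp.equivFunOnFinite.symm (e : Fin (m + 1) → ℕ) with htt
  have htta : ∀ e j, tt e j = (e : Fin (m + 1) → ℕ) j := fun e j => rfl
  have htti : Function.Injective tt := by
    intro e e' h
    apply Subtype.ext
    funext j
    have := DFunLike.congr_fun h j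
    rwa [htta, htta] at this
  set F : MvPolynomial (Fin (m + 1)) ℤ := ∑ e, monomial (tt e) (x e) with hF
  have hcoef : ∀ e, F.coeff (tt e) = x e := by
    intro e
    rw [hF, MvPolynomial.coeff_sum]
    rw [Finset.sum_eq_single e]
    · rw [MvPolynomial.coeff_monomial, if_pos rfl]
    · intro e' _ hne
      rw [MvPolynomial.coeff_monomial, if_neg fun h => hne (htti h)]
    · intro h; exact absurd (Finset.mem_univ e) h
  have hsupp : F.support ⊆ Finset.univ.image tt := by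
    intro i hi
    rw [MvPolynomial.mem_support_iff, hF, MvPolynomial.coeff_sum] at hi
    obtain ⟨e, _, he⟩ := Finset.exists_ne_zero_of_sum_ne_zero hi
    rw [MvPolynomial.coeff_monomial] at he
    by_cases h : tt e = i
    · exact Finset.mem_image.2 ⟨e, Finset.mem_univ e, h⟩
    · rw [if_neg h] at he; exact absurd rfl he
  have hNK : 1 ≤ (S.card : ℝ) * KA := by
    have : (1 : ℝ) ≤ S.card := by
      have h1 : (1 : ℝ) ≤ D * KK.card := by
        have : 1 ≤ D * KK.card := Nat.mul_pos hD (Finset.card_pos.2 hK0)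
        exact_mod_cast this
      nlinarith
    nlinarith
  refine ⟨F, ?_, ?_, ?_, ?_⟩
  · intro h
    apply hx0
    funext e
    rw [← hcoef e, h]
    simp
  · intro j
    rw [MvPolynomial.degreeOf_le_iff]
    intro i hi
    obtain ⟨e, _, rfl⟩ := Finset.mem_image.1 (hsupp hi)
    rw [htta]
    exact hSd e j
  · rw [l1_eq_sum F _ hsupp, Finset.sum_image fun e _ e' _ h => htti h]
    calc ∑ e, |((F.coeff (tt e) : ℤ) : ℝ)| ≤ ∑ e : ↥S, ((S.card : ℝ) * KA) ^ (1 / eps) := by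
          refine Finset.sum_le_sum fun e _ => ?_
          rw [hcoef e]
          exact hxb e
      _ = (S.card : ℝ) * ((S.card : ℝ) * KA) ^ (1 / eps) := by
          rw [Finset.sum_const, Finset.card_univ, nsmul_eq_mul, hcb]
      _ ≤ ((S.card : ℝ) * KA) * ((S.card : ℝ) * KA) ^ (1 / eps) := by
          gcongr
          exact le_mul_of_one_le_right (Nat.cast_nonneg _) hKA1
      _ = ((S.card : ℝ) * KA) ^ (1 + 1 / eps) := by
          rw [Real.rpow_add (by linarith), Real.rpow_one]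
      _ ≤ (P * KA) ^ (1 + 1 / eps) := by
          apply Real.rpow_le_rpow (by linarith) _ hex
          gcongr
  · intro p hp
    -- the coefficient as a sum over the unknowns
    have hco : PowerSeries.coeff p.2 (GK n c xi F p.1) = ∑ e : ↥S, ((x e : ℝ) *
        ∏ l : Fin m, ((((e : Fin (m + 1) → ℕ) l.castSucc).choose (p.1 l) : ℝ) *
          xi ^ ((e : Fin (m + 1) → ℕ) l.castSucc - p.1 l))) *
        (if (e : Fin (m + 1) → ℕ) (Fin.last m) ≤ p.2 then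
          PowerSeries.coeff (p.2 - (e : Fin (m + 1) → ℕ) (Fin.last m))
            (∏ l : Fin m, (PowerSeries.rescale (c l : ℝ) (bsR n)) ^ ((e : Fin (m + 1) → ℕ) l.castSucc)) else 0) := by
      rw [GK, map_sum]
      rw [Finset.sum_subset hsupp]
      · rw [Finset.sum_image fun e _ e' _ h => htti h]
        refine Finset.sum_congr rfl fun e _ => ?_
        rw [PowerSeries.coeff_C_mul, PowerSeries.coeff_X_pow_mul', hcoef e]
        simp only [htta]
      · intro e _ he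
        rw [MvPolynomial.notMem_support_iff] at he
        rw [he]
        simp
    have hbr : (0 : ℝ) < b := by exact_mod_cast hb
    have hc0r : (c0 : ℝ) ≠ 0 := by exact_mod_cast hc0
    have hCne : (n : ℝ) ^ (2 * p.2) * (b : ℝ) ^ E * (c0 : ℝ) ^ E * xi ^ (∑ l : Fin m, p.1 l) ≠ 0 := by
      have : (n : ℝ) ≠ 0 := by positivity
      positivity
    have hterm : ∀ e : ↥S, ((n : ℝ) ^ (2 * p.2) * (b : ℝ) ^ E * (c0 : ℝ) ^ E * xi ^ (∑ l : Fin m, p.1 l)) *
        (((x e : ℝ) *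
        ∏ l : Fin m, ((((e : Fin (m + 1) → ℕ) l.castSucc).choose (p.1 l) : ℝ) *
          xi ^ ((e : Fin (m + 1) → ℕ) l.castSucc - p.1 l))) *
        (if (e : Fin (m + 1) → ℕ) (Fin.last m) ≤ p.2 then
          PowerSeries.coeff (p.2 - (e : Fin (m + 1) → ℕ) (Fin.last m))
            (∏ l : Fin m, (PowerSeries.rescale (c l : ℝ) (bsR n)) ^ ((e : Fin (m + 1) → ℕ) l.castSucc)) else 0)) =
        ∑ i : Fin D, ((Mx (⟨p, hp⟩, i) e : ℤ) : ℝ) * x e * th ^ (i : ℕ) := by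
      intro e
      simp only [hMx]
      by_cases hle : (e : Fin (m + 1) → ℕ) (Fin.last m) ≤ p.2
      · simp only [if_pos hle]
        push_cast
        have e1 : xi ^ (∑ l : Fin m, p.1 l) * ∏ l : Fin m, ((((e : Fin (m + 1) → ℕ) l.castSucc).choose (p.1 l) : ℝ) *
            xi ^ ((e : Fin (m + 1) → ℕ) l.castSucc - p.1 l)) =
            (∏ l : Fin m, (((e : Fin (m + 1) → ℕ) l.castSucc).choose (p.1 l) : ℝ)) * (xi ^ n1) ^ (q e) := by
          rw [← Finset.prod_pow_eq_pow_sum, ← Finset.prod_mul_distrib, ← pow_mul, hqn e,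
            ← Finset.prod_pow_eq_pow_sum, ← Finset.prod_mul_distrib]
          refine Finset.prod_congr rfl fun l _ => ?_
          by_cases hl : p.1 l ≤ (e : Fin (m + 1) → ℕ) l.castSucc
          · have : xi ^ ((e : Fin (m + 1) → ℕ) l.castSucc) =
                xi ^ (p.1 l) * xi ^ ((e : Fin (m + 1) → ℕ) l.castSucc - p.1 l) := by
              rw [← pow_add]
              congr 1
              omega
            rw [this]
            ring
          · rw [Nat.choose_eq_zero_of_lt (by omega)]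
            simp
        have e2 : (b : ℝ) ^ E = (b : ℝ) ^ (q e) * (b : ℝ) ^ (E - q e) := by
          rw [← pow_add]
          congr 1
          have := hqE e
          omega
        have e3 : (c0 : ℝ) ^ E = (c0 : ℝ) ^ (q e) * (c0 : ℝ) ^ (E - q e) := by
          rw [← pow_add]
          congr 1
          have := hqE e
          omega
        have e4 : (n : ℝ) ^ (2 * p.2) = (n : ℝ) ^ (2 * (e : Fin (m + 1) → ℕ) (Fin.last m)) *
            (n : ℝ) ^ (2 * (p.2 - (e : Fin (m + 1) → ℕ) (Fin.last m))) := by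
          rw [← pow_add]
          congr 1
          omega
        have e5 := hz1 e (p.2 - (e : Fin (m + 1) → ℕ) (Fin.last m))
        have e6 : (xi ^ n1) ^ (q e) * (b : ℝ) ^ (q e) = th ^ (q e) * (X : ℝ) ^ (q e) := by
          rw [← mul_pow, hxin, mul_pow]
        have e7 := hw (q e)
        rw [← e5, e2, e3, e4]
        set cf := PowerSeries.coeff (p.2 - (e : Fin (m + 1) → ℕ) (Fin.last m))
            (∏ l : Fin m, (PowerSeries.rescale (c l : ℝ) (bsR n)) ^ ((e : Fin (m + 1) → ℕ) l.castSucc)) with hcf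
        set Pc := ∏ l : Fin m, (((e : Fin (m + 1) → ℕ) l.castSucc).choose (p.1 l) : ℝ) with hPc
        set Px := ∏ l : Fin m, ((((e : Fin (m + 1) → ℕ) l.castSucc).choose (p.1 l) : ℝ) *
            xi ^ ((e : Fin (m + 1) → ℕ) l.castSucc - p.1 l)) with hPx
        set n2 := (n : ℝ) ^ (2 * (e : Fin (m + 1) → ℕ) (Fin.last m)) with hn2
        set n3 := (n : ℝ) ^ (2 * (p.2 - (e : Fin (m + 1) → ℕ) (Fin.last m))) with hn3
        calc n2 * n3 * ((b : ℝ) ^ q e * (b : ℝ) ^ (E - q e)) * ((c0 : ℝ) ^ q e * (c0 : ℝ) ^ (E - q e)) *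
              xi ^ (∑ l : Fin m, p.1 l) * ((x e : ℝ) * Px * cf)
            = (xi ^ (∑ l : Fin m, p.1 l) * Px) * (b : ℝ) ^ q e * (c0 : ℝ) ^ q e *
              (n2 * n3 * (b : ℝ) ^ (E - q e) * (c0 : ℝ) ^ (E - q e) * x e * cf) := by ring
          _ = Pc * ((xi ^ n1) ^ (q e) * (b : ℝ) ^ q e) * (c0 : ℝ) ^ q e *
              (n2 * n3 * (b : ℝ) ^ (E - q e) * (c0 : ℝ) ^ (E - q e) * x e * cf) := by rw [e1]; ring
          _ = Pc * (X : ℝ) ^ (q e) * ((c0 : ℝ) ^ q e * th ^ (q e)) *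
              (n2 * n3 * (b : ℝ) ^ (E - q e) * (c0 : ℝ) ^ (E - q e) * x e * cf) := by rw [e6]; ring
          _ = _ := by
              rw [e7, Finset.mul_sum, Finset.sum_mul]
              refine Finset.sum_congr rfl fun i _ => ?_
              ring
      · simp only [if_neg hle]
        simp
    have hsum : ((n : ℝ) ^ (2 * p.2) * (b : ℝ) ^ E * (c0 : ℝ) ^ E * xi ^ (∑ l : Fin m, p.1 l)) *
        PowerSeries.coeff p.2 (GK n c xi F p.1) = 0 := by
      rw [hco, Finset.mul_sum, Finset.sum_congr rfl fun e _ => hterm e, Finset.sum_comm]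
      refine Finset.sum_eq_zero fun i _ => ?_
      rw [← Finset.sum_mul]
      have heq := congrFun hAx (⟨p, hp⟩, i)
      rw [Matrix.mulVec, dotProduct] at heq
      have heq' : (∑ e : ↥S, ((Mx (⟨p, hp⟩, i) e : ℤ) : ℝ) * (x e : ℝ)) = 0 := by
        have := congrArg (fun y : ℤ => (y : ℝ)) heq
        simp only [Pi.zero_apply] at this
        push_cast at this
        exact this
      rw [heq', zero_mul]
    exact (mul_eq_zero.1 hsum).resolve_left hCne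

end H37SI
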