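import Mathlib

/-!
H37/SI/Chain [CHAIN]: two elementary lemmas.

PROOF of vol: (m+1)^(m+1)/(m+1)! ≤ exp(m+1) (one term of the exponential series; `Real.pow_div_factorial_le_exp` or
similar), so N (m+1)^(m+1) ≤ N e^(m+1) (m+1)! < 4^m (m+1)! for m large because (4/e)^m tends to infinity (e < 2.7183).
PROOF of chain: let x : S → ℝ positive (S finite set with more than t*m elements), such that x i ≤ x j, i ≠ j implies
lam * x i < x j. Sort S by x: s_0, s_1, ..., s_(t m) strictly increasing x, x(s_(k+1)) ≥ lam x(s_k), so x(s_(k+t)) ≥ lam^t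
x(s_k) ≥ L x(s_k). Take f l = s_(t (m-1-l)), l : Fin m: for i < j: x(f i) ≥ lam^t x(f j) (t(m-1-i) ≥ t (m-1-j) + t) ≥ L x (f j).
(Sorting: `Finset.orderEmbOfFin` of the image of x (x is injective on S), or choose successively.)
-/

namespace H37SI

theorem vol (N : ℕ) : ∃ m : ℕ, 1 ≤ m ∧
    (N : ℝ) * ((m : ℝ) + 1) ^ (m + 1) < ((m + 1).factorial : ℝ) * (4 : ℝ) ^ m := by
  have he : Real.exp 1 < 4 := by linarith [Real.exp_one_lt_d9]
  have h1 : 1 < 4 / Real.exp 1 := by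
    rw [lt_div_iff₀ (Real.exp_pos _)]
    linarith
  obtain ⟨m, hm⟩ := pow_unbounded_of_one_lt ((N : ℝ) * Real.exp 1) h1
  refine ⟨m + 1, by omega, ?_⟩
  have h2 : (N : ℝ) * Real.exp 1 < (4 / Real.exp 1) ^ (m + 1) := by
    refine hm.trans_le ?_
    exact pow_le_pow_right₀ h1.le (by omega)
  have h3 := Real.pow_div_factorial_le_exp (((m + 1 : ℕ) : ℝ) + 1) (by positivity) (m + 1 + 1)
  have hf : (0 : ℝ) < ((m + 1 + 1).factorial : ℝ) := by exact_mod_cast Nat.factorial_pos _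
  rw [div_le_iff₀ hf] at h3
  have h4 : Real.exp (((m + 1 : ℕ) : ℝ) + 1) = Real.exp 1 ^ (m + 1) * Real.exp 1 := by
    rw [Real.exp_add, ← Real.exp_nat_mul, mul_one]
  rw [h4] at h3
  rw [div_pow, lt_div_iff₀ (by positivity)] at h2
  calc (N : ℝ) * (((m + 1 : ℕ) : ℝ) + 1) ^ (m + 1 + 1)
      ≤ N * (Real.exp 1 ^ (m + 1) * Real.exp 1 * ((m + 1 + 1).factorial : ℝ)) :=
        mul_le_mul_of_nonneg_left h3 (Nat.cast_nonneg _)
    _ = ((m + 1 + 1).factorial : ℝ) * (N * Real.exp 1 * Real.exp 1 ^ (m + 1)) := by ring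
    _ < ((m + 1 + 1).factorial : ℝ) * (4 : ℝ) ^ (m + 1) := mul_lt_mul_of_pos_left h2 hf

theorem chain (t m : ℕ) (hm : 1 ≤ m) (lam L : ℝ) (hlam : 1 < lam) (hL : L ≤ lam ^ t) (S : Finset ℕ)
    (hS : t * m < S.card) (x : ℕ → ℝ) (hx : ∀ a ∈ S, 0 < x a)
    (hsep : ∀ a ∈ S, ∀ a' ∈ S, a ≠ a' → x a ≤ x a' → lam * x a < x a') :
    ∃ f : Fin m → ℕ, (∀ l, f l ∈ S) ∧ ∀ i j, i < j → L * x (f j) ≤ x (f i) := by
  classical
  have hinj : Set.InjOn x (S : Set ℕ) := by
    intro a ha a' ha' hxx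
    by_contra hne
    have h1 := hsep a ha a' ha' hne hxx.le
    have h2 := hx a ha
    rw [← hxx] at h1
    nlinarith
  have hcard : (S.image x).card = S.card := Finset.card_image_of_injOn hinj
  obtain ⟨e, he⟩ : ∃ e : Fin S.card ↪o ℝ, e = (S.image x).orderEmbOfFin hcard := ⟨_, rfl⟩
  have hmem : ∀ k : Fin S.card, ∃ a ∈ S, x a = e k := by
    intro k
    have h1 := Finset.orderEmbOfFin_mem (S.image x) hcard k
    rw [← he] at h1
    exact Finset.mem_image.1 h1
  choose s hsS hse using hmem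
  have hstep : ∀ k k' : Fin S.card, k < k' → lam * e k < e k' := by
    intro k k' hk
    have h1 : e k < e k' := e.strictMono hk
    rw [← hse, ← hse] at h1 ⊢
    refine hsep _ (hsS k) _ (hsS k') ?_ h1.le
    rintro h2
    rw [h2] at h1
    exact lt_irrefl _ h1
  have hpos : ∀ k : Fin S.card, 0 < e k := fun k => by
    rw [← hse]
    exact hx _ (hsS k)
  have hpow : ∀ (i k : ℕ) (hk : k < S.card) (hki : k + i < S.card),
      lam ^ i * e ⟨k, hk⟩ ≤ e ⟨k + i, hki⟩ := by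
    intro i
    induction i with
    | zero => intro k hk hki; simp
    | succ i ih =>
      intro k hk hki
      have h1 := ih k hk (by omega)
      have h2 := hstep ⟨k + i, by omega⟩ ⟨k + (i + 1), hki⟩ (by
        rw [Fin.lt_def]
        simp only
        omega)
      calc lam ^ (i + 1) * e ⟨k, hk⟩ = lam * (lam ^ i * e ⟨k, hk⟩) := by ring
        _ ≤ lam * e ⟨k + i, by omega⟩ := mul_le_mul_of_nonneg_left h1 (by linarith)
        _ ≤ _ := h2.le
  have hidx : ∀ l : Fin m, t * (m - 1 - l) < S.card := by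
    intro l
    refine lt_of_le_of_lt ?_ hS
    exact Nat.mul_le_mul_left _ (by omega)
  refine ⟨fun l => s ⟨t * (m - 1 - l), hidx l⟩, fun l => hsS _, ?_⟩
  intro i j hij
  simp only
  rw [hse, hse]
  have hij' : (i : ℕ) < j := hij
  have hjm := j.2
  have h1 : t * (m - 1 - j) + t ≤ t * (m - 1 - i) := by
    have h2 : m - 1 - j + 1 ≤ m - 1 - i := by omega
    calc t * (m - 1 - j) + t = t * (m - 1 - j + 1) := by ring
      _ ≤ _ := Nat.mul_le_mul_left _ h2
  have h2 : t * (m - 1 - j) + t < S.card := lt_of_le_of_lt h1 (hidx i)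
  have h3 := hpow t (t * (m - 1 - j)) (hidx j) h2
  have h4 : e ⟨t * (m - 1 - j) + t, h2⟩ ≤ e ⟨t * (m - 1 - i), hidx i⟩ := by
    apply e.monotone
    rw [Fin.le_def]
    exact h1
  calc L * e ⟨t * (m - 1 - j), hidx j⟩ ≤ lam ^ t * e ⟨t * (m - 1 - j), hidx j⟩ :=
        mul_le_mul_of_nonneg_right hL (hpos _).le
    _ ≤ _ := h3.trans h4

end H37SI
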