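import Mathlib

/-!
H37/SI/Gap [GAP]: two neighbouring integers do not differ by the n-th power of a rational.

PROOF. nth_gap: copy the proof of the private theorem nthc_gap in Pool/Agent/H4/AR/NthC.lean.
no_ratio: let a < a' without loss of generality (otherwise replace t by 1/t); nth_gap: a' - a ≥ sqrt a ≥ sqrt X > X^(1/4)
for X ≥ 2 (natural number; real powers), contradiction to X ≤ a, a' ≤ X + X^(1/4).
exact_one: if b r^n = th a and b r'^n = th a' with a ≠ a' (b, th > 0) then (r'/r)^n a = a'.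
-/

namespace H37SI

theorem nth_gap (n : ℕ) (hn : 2 ≤ n) (a a' : ℕ) (ha : 1 ≤ a) (haa : a < a') (t : ℚ) (ht : 0 < t)
    (h : (t : ℝ) ^ n * a = a') : Real.sqrt a + a ≤ a' := by
  have haR : (0 : ℝ) < a := by exact_mod_cast ha
  have hden : 0 < t.den := t.den_pos
  have hnum : 0 < t.num := Rat.num_pos.2 ht
  obtain ⟨u, hu⟩ : ∃ u : ℕ, (u : ℤ) = t.num := ⟨t.num.toNat, Int.toNat_of_nonneg hnum.le⟩
  have htR : (t : ℝ) = (u : ℝ) / t.den := by
    rw [Rat.cast_def, ← hu]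
    push_cast
    rfl
  have hdR : (0 : ℝ) < t.den := by exact_mod_cast hden
  have hcop : Nat.Coprime u t.den := by
    have h1 := t.reduced
    rw [← hu] at h1
    simpa using h1
  have hnat : u ^ n * a = a' * t.den ^ n := by
    have h1 : ((u : ℝ) ^ n * a) = a' * (t.den : ℝ) ^ n := by
      rw [← h, htR, div_pow]
      field_simp
    exact_mod_cast h1
  have hdvd : t.den ^ n ∣ a := by
    have h1 : t.den ^ n ∣ u ^ n * a := ⟨a', by rw [hnat, mul_comm]⟩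
    exact (Nat.Coprime.pow n n hcop.symm).dvd_of_dvd_mul_left h1
  have hle : t.den ^ 2 ≤ a :=
    (Nat.pow_le_pow_right hden hn).trans (Nat.le_of_dvd ha hdvd)
  have hsq : (t.den : ℝ) ≤ Real.sqrt a := by
    apply Real.le_sqrt_of_sq_le
    exact_mod_cast hle
  have ht1 : (1 : ℝ) < t := by
    by_contra hneg
    push Not at hneg
    have h1 : (t : ℝ) ^ n ≤ 1 := pow_le_one₀ (by exact_mod_cast ht.le) hneg
    have h2 : (a' : ℝ) ≤ a := by
      rw [← h]
      have := mul_le_mul_of_nonneg_right h1 haR.le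
      linarith
    have h3 : a' ≤ a := by exact_mod_cast h2
    omega
  have hud : t.den + 1 ≤ u := by
    rw [htR, lt_div_iff₀ hdR, one_mul] at ht1
    exact_mod_cast ht1
  have ht2 : 1 + 1 / (t.den : ℝ) ≤ t := by
    rw [htR, le_div_iff₀ hdR]
    have h1 : (1 + 1 / (t.den : ℝ)) * t.den = t.den + 1 := by
      field_simp
    rw [h1]
    exact_mod_cast hud
  have ht3 : (t : ℝ) ≤ (t : ℝ) ^ n := le_self_pow₀ ht1.le (by omega)
  have h4 : (1 + 1 / (t.den : ℝ)) * a ≤ a' := by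
    rw [← h]
    exact mul_le_mul_of_nonneg_right (ht2.trans ht3) haR.le
  have h5 : Real.sqrt a ≤ 1 / (t.den : ℝ) * a := by
    rw [one_div, ← div_eq_inv_mul, le_div_iff₀ hdR]
    have h6 : Real.sqrt a * t.den ≤ Real.sqrt a * Real.sqrt a :=
      mul_le_mul_of_nonneg_left hsq (Real.sqrt_nonneg _)
    rwa [Real.mul_self_sqrt haR.le] at h6
  linarith

theorem no_ratio (n : ℕ) (hn : 2 ≤ n) (X a a' : ℕ) (hX : 2 ≤ X) (ha : X ≤ a) (ha' : X ≤ a') (hne : a ≠ a')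
    (h1 : (a : ℝ) ≤ X + (X : ℝ) ^ ((1 : ℝ) / 4)) (h2 : (a' : ℝ) ≤ X + (X : ℝ) ^ ((1 : ℝ) / 4)) (t : ℚ)
    (ht : 0 < t) : (t : ℝ) ^ n * a ≠ a' := by
  -- wlog a < a'
  have key : ∀ a a' : ℕ, X ≤ a → a < a' → (a' : ℝ) ≤ X + (X : ℝ) ^ ((1 : ℝ) / 4) → ∀ t : ℚ, 0 < t →
      (t : ℝ) ^ n * a ≠ a' := by
    intro a a' ha haa h2 t ht h
    have h3 := nth_gap n hn a a' (by omega) haa t ht h
    have hXR : (2 : ℝ) ≤ X := by exact_mod_cast hX
    have h4 : (X : ℝ) ≤ a := by exact_mod_cast ha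
    have h5 : Real.sqrt X ≤ Real.sqrt a := Real.sqrt_le_sqrt h4
    have h6 : (X : ℝ) ^ ((1 : ℝ) / 4) < Real.sqrt X := by
      rw [Real.sqrt_eq_rpow]
      exact Real.rpow_lt_rpow_of_exponent_lt (by linarith) (by norm_num)
    linarith
  intro h
  rcases lt_or_gt_of_ne hne with hlt | hlt
  · exact key a a' ha hlt h2 t ht h
  · have htR : (0 : ℝ) < t := by exact_mod_cast ht
    refine key a' a ha' hlt h1 t⁻¹ (inv_pos.2 ht) ?_
    rw [← h]
    push_cast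
    rw [← mul_assoc, ← mul_pow, inv_mul_cancel₀ htR.ne', one_pow, one_mul]

theorem exact_one (n : ℕ) (hn : 2 ≤ n) (X a a' b : ℕ) (hX : 2 ≤ X) (ha : X ≤ a) (ha' : X ≤ a') (hne : a ≠ a')
    (h1 : (a : ℝ) ≤ X + (X : ℝ) ^ ((1 : ℝ) / 4)) (h2 : (a' : ℝ) ≤ X + (X : ℝ) ^ ((1 : ℝ) / 4)) (hb : 1 ≤ b)
    (th : ℝ) (hth : 0 < th) (r r' : ℚ) (hr : 0 < r) (hr' : 0 < r') (he : (b : ℝ) * (r : ℝ) ^ n = th * (a : ℝ))
    (he' : (b : ℝ) * (r' : ℝ) ^ n = th * (a' : ℝ)) : False := by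
  have hbR : (0 : ℝ) < b := by exact_mod_cast hb
  have hrR : (0 : ℝ) < r := by exact_mod_cast hr
  have haR : (0 : ℝ) < a := by exact_mod_cast (by omega : 0 < a)
  refine no_ratio n hn X a a' hX ha ha' hne h1 h2 (r' / r) (div_pos hr' hr) ?_
  push_cast
  rw [div_pow]
  have hrn : (0 : ℝ) < (r : ℝ) ^ n := by positivity
  have h3 : (a : ℝ) = b * (r : ℝ) ^ n / th := by
    rw [he]
    field_simp
  have h4 : (a' : ℝ) = b * (r' : ℝ) ^ n / th := by
    rw [he']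
    field_simp
  rw [h3, h4]
  field_simp

end H37SI
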