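import Pool.Agent.H4.AR.LogH

/-!
H37/SI/HtL: elementary properties of the height of rational numbers.
-/

namespace H37SI

open H4AR

theorem ht_div_int (a b : ℤ) (hb : b ≠ 0) : ht ((a : ℚ) / b) ≤ max |(a : ℝ)| |(b : ℝ)| := by
  have hb1 : (1 : ℝ) ≤ |(b : ℝ)| := by exact_mod_cast Int.one_le_abs hb
  have e : (a : ℚ) / b = Rat.divInt a b := (Rat.divInt_eq_div a b).symm
  rw [e]
  unfold ht
  refine max_le_max ?_ ?_
  · have h1 : (Rat.divInt a b).num ∣ a := Rat.num_dvd a hb
    by_cases ha : a = 0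
    · subst ha
      simp
    · have h2 := Int.natAbs_le_of_dvd_ne_zero h1 ha
      have h3 : |((Rat.divInt a b).num : ℤ)| ≤ |a| := by
        rw [Int.abs_eq_natAbs, Int.abs_eq_natAbs]
        exact_mod_cast h2
      exact_mod_cast h3
  · have h1 : ((Rat.divInt a b).den : ℤ) ∣ b := Rat.den_dvd a b
    have h2 := Int.natAbs_le_of_dvd_ne_zero h1 hb
    have h3 : ((Rat.divInt a b).den : ℤ) ≤ |b| := by
      rw [Int.abs_eq_natAbs]
      rw [Int.natAbs_natCast] at h2
      exact_mod_cast h2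
    exact_mod_cast h3

theorem abs_num_le_ht (r : ℚ) : |(r.num : ℝ)| ≤ ht r := le_max_left _ _

theorem den_le_ht (r : ℚ) : (r.den : ℝ) ≤ ht r := le_max_right _ _

theorem ht_mul_le (r s : ℚ) : ht (r * s) ≤ ht r * ht s := by
  have e : r * s = ((r.num * s.num : ℤ) : ℚ) / ((r.den * s.den : ℕ) : ℤ) := by
    conv_lhs => rw [← Rat.num_div_den r, ← Rat.num_div_den s]
    push_cast
    rw [div_mul_div_comm]
  rw [e]
  refine (ht_div_int _ _ ?_).trans ?_
  · exact_mod_cast Nat.mul_ne_zero r.den_nz s.den_nz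
  · have h1 := abs_num_le_ht r
    have h2 := abs_num_le_ht s
    have h3 := den_le_ht r
    have h4 := den_le_ht s
    have h5 := one_le_ht r
    have h6 := one_le_ht s
    push_cast
    refine max_le ?_ ?_
    · rw [abs_mul]
      exact mul_le_mul h1 h2 (abs_nonneg _) (by linarith)
    · rw [abs_mul, Nat.abs_cast, Nat.abs_cast]
      exact mul_le_mul h3 h4 (Nat.cast_nonneg _) (by linarith)

theorem ht_div_le (r s : ℚ) (hs : s ≠ 0) : ht (r / s) ≤ ht r * ht s := by
  have hs' : s.num ≠ 0 := Rat.num_ne_zero.2 hs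
  have e : r / s = ((r.num * s.den : ℤ) : ℚ) / ((r.den * s.num : ℤ) : ℤ) := by
    conv_lhs => rw [← Rat.num_div_den r, ← Rat.num_div_den s]
    push_cast
    rw [div_div_div_eq]
  rw [e]
  refine (ht_div_int _ _ ?_).trans ?_
  · exact mul_ne_zero (by exact_mod_cast r.den_nz) hs'
  · have h1 := abs_num_le_ht r
    have h2 := abs_num_le_ht s
    have h3 := den_le_ht r
    have h4 := den_le_ht s
    have h5 := one_le_ht r
    have h6 := one_le_ht s
    push_cast
    refine max_le ?_ ?_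
    · rw [abs_mul, Nat.abs_cast]
      exact mul_le_mul h1 h4 (Nat.cast_nonneg _) (by linarith)
    · rw [abs_mul, Nat.abs_cast]
      exact mul_le_mul h3 h2 (abs_nonneg _) (by linarith)

theorem ht_pow (r : ℚ) (n : ℕ) : ht (r ^ n) = ht r ^ n := by
  unfold ht
  rw [Rat.num_pow, Rat.den_pow]
  push_cast
  rw [abs_pow]
  rcases le_total |(r.num : ℝ)| (r.den : ℝ) with h | h
  · rw [max_eq_right h, max_eq_right (pow_le_pow_left₀ (abs_nonneg _) h n)]
  · rw [max_eq_left h, max_eq_left (pow_le_pow_left₀ (Nat.cast_nonneg _) h n)]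

theorem ht_inv_nat (X : ℕ) (hX : 1 ≤ X) : ht ((X : ℚ)⁻¹) = X := by
  unfold ht
  rw [Rat.inv_natCast_num_of_pos (by omega), Rat.inv_natCast_den_of_pos (by omega)]
  have : (1 : ℝ) ≤ X := by exact_mod_cast hX
  rw [Int.cast_one, abs_one]
  exact max_eq_right this

end H37SI
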