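import Pool.Agent.H37.SI.Prp
import Pool.Agent.H37.SI.Gap
import Pool.Agent.H4.AR.LogH
import Pool.Agent.H37.SI.HtL

/-!
H37/SI/Cmp [CMP]: comparable scales: two different exceptional a, a' of a short interval have exceptional approximations of
quite different heights.

PROOF. eta = min 1 ((kap-4)/8), lam = 1 + eta, kap1 = 2 + eta, gam = kap - kap1 (1 + lam) = kap - (2+eta)^2 > 0 (as
(2+eta)^2 ≤ 4 + 5 eta). prp with n, n1 = 1, m = 1, D = 1, kap1, (V): 1 * 1 * 2^2 < 2! * kap1; th := 1, c0 = 1, B = 1, w = 1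
(constant): constants C1, del1. Take del = min del1 (1/4) and C large.
Suppose log ht r' ≤ lam * h, h = log ht r, and let y = r/r', e = b r^n - th a, e' = b r'^n - th a' (absolute values ≤ E :=
exp(-kap h), Exc and log ht r ≤ log ht r').
(1) y^n - a/a' = (e a' - e' a)/(a' (th a' + e')), th a' + e' = b r'^n ≥ th a'/2 (E ≤ 1 ≤ th X/2), a ≤ 2 a', so
|y^n - a/a'| ≤ E * 3 a'/(a' th a'/2) ≤ E (X ≥ 6/th). be = (a/a')^(1/n) > 0, be^n = a/a' ≥ 1/2 (a' ≤ 2 X ≤ 2 a), so
be^(n-1) ≥ 1/2 and |y - be| be^(n-1) ≤ |y^n - be^n| (sum of n nonnegative terms contains be^(n-1)): |y - be| ≤ 2 E.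
(2) ht y ≤ ht r * ht r' (num and den of a quotient), log ht y ≤ (1 + lam) h, so exp(-kap1 log ht y) ≥
exp(-(kap - gam) h) ≥ 2 E, since gam h ≥ log 2 (h ≥ C log X).
(3) C1 log a' ≤ log ht y: suppose not; then den y ≤ ht y < a'^C1 ≤ X^(2 C1) (a' ≤ 2X ≤ X^2). The integer
N = a' num(y)^n - a den(y)^n satisfies |N| = a' den^n |y^n - a/a'| ≤ X^2 X^(2 n C1) E < 1 (h ≥ C log X, kap C > 2 + 2 n C1 + 1), so
N = 0, y^n a' = a, contradiction to no_ratio (a' , a, t = y).
(4) apply the conclusion of prp with X := a', b := a', c = fun _ => a - a' (|a - a'| ≤ X^del ≤ a'^del1), xi = 1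
(1^1 * a' = 1 * a'), r = fun _ => y; the condition for i < j in Fin 1 is empty; (1 + (a-a')/a') = a/a'. False.
-/

namespace H37SI

open H4AR

/-- `|y - be| ≤ 2 |y^n - be^n|` if `be^n ≥ 1/2` -/
theorem cmp_root (n : ℕ) (hn : 1 ≤ n) (y be : ℝ) (hy : 0 < y) (hbe : 0 < be) (h : 1 / 2 ≤ be ^ n) :
    |y - be| ≤ 2 * |y ^ n - be ^ n| := by
  have h1 : 1 / 2 ≤ be ^ (n - 1) := by
    rcases le_total 1 be with h2 | h2
    · have := one_le_pow₀ (n := n - 1) h2
      linarith
    · refine h.trans ?_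
      exact pow_le_pow_of_le_one hbe.le h2 (by omega)
  have h3 := geom_sum₂_mul y be n
  have h4 : be ^ (n - 1) ≤ ∑ i ∈ Finset.range n, y ^ i * be ^ (n - 1 - i) := by
    have := Finset.single_le_sum (f := fun i => y ^ i * be ^ (n - 1 - i)) (s := Finset.range n)
      (fun i _ => by positivity) (Finset.mem_range.2 (show 0 < n by omega))
    simpa using this
  rw [← h3, abs_mul, abs_of_nonneg (show 0 ≤ ∑ i ∈ Finset.range n, y ^ i * be ^ (n - 1 - i) by linarith)]
  have := abs_nonneg (y - be)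
  nlinarith

/-- the quotient of two approximations -/
theorem cmp_quot (n b a a' : ℕ) (ha : 1 ≤ a') (haa : (a : ℝ) ≤ 2 * a') (th : ℝ) (E : ℝ)
    (hE1 : E ≤ th * a' / 2) (hE0 : 0 ≤ E) (hta : 6 ≤ th * a') (hb : 1 ≤ b) (r r' : ℝ) (hr' : 0 < r')
    (h : |(b : ℝ) * r ^ n - th * a| ≤ E) (h' : |(b : ℝ) * r' ^ n - th * a'| ≤ E) :
    |(r / r') ^ n - (a : ℝ) / a'| ≤ E := by
  have ha' : (1 : ℝ) ≤ a' := by exact_mod_cast ha
  have ha0 : (0 : ℝ) < a' := by linarith
  have hb' : (0 : ℝ) < b := by exact_mod_cast hb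
  have hr'n : 0 < r' ^ n := pow_pos hr' n
  have hb2 : th * a' / 2 ≤ b * r' ^ n := by
    have := (abs_le.1 h').1
    linarith
  have hden : 0 < a' * ((b : ℝ) * r' ^ n) := by positivity
  have e1 : (r / r') ^ n - (a : ℝ) / a' =
      (a' * ((b : ℝ) * r ^ n - th * a) - a * ((b : ℝ) * r' ^ n - th * a')) / (a' * ((b : ℝ) * r' ^ n)) := by
    rw [div_pow]
    field_simp
    ring
  rw [e1, abs_div, abs_of_pos hden, div_le_iff₀ hden]
  have h1 : |a' * ((b : ℝ) * r ^ n - th * a) - a * ((b : ℝ) * r' ^ n - th * a')| ≤ a' * E + a * E := by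
    refine (abs_sub _ _).trans ?_
    rw [abs_mul, abs_mul, Nat.abs_cast, Nat.abs_cast]
    exact add_le_add (mul_le_mul_of_nonneg_left h (Nat.cast_nonneg _))
      (mul_le_mul_of_nonneg_left h' (Nat.cast_nonneg _))
  refine h1.trans ?_
  have h2 : (a : ℝ) * E ≤ 2 * a' * E := mul_le_mul_of_nonneg_right haa hE0
  have h3 : (3 : ℝ) ≤ b * r' ^ n := by linarith
  have h4 : 3 * (a' * E) ≤ (b * r' ^ n) * (a' * E) := mul_le_mul_of_nonneg_right h3 (by positivity)
  linarith

/-- a rational number `y` of small height with `y^n` close to `a/a'`: `y^n a' = a` -/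
theorem cmp_eq (n a a' : ℕ) (ha' : 1 ≤ a') (y : ℚ) (h : |(y : ℝ) ^ n - (a : ℝ) / a'| * (a' * (y.den : ℝ) ^ n) < 1) :
    (y : ℝ) ^ n * a' = a := by
  have ha0 : (0 : ℝ) < a' := by exact_mod_cast ha'
  have hd0 : (0 : ℝ) < y.den := by exact_mod_cast y.den_pos
  have hy : (y : ℝ) = (y.num : ℝ) / y.den := by
    conv_lhs => rw [← Rat.num_div_den y]
    push_cast
    rfl
  set N : ℤ := a' * y.num ^ n - a * (y.den : ℤ) ^ n with hN
  have e1 : (N : ℝ) = ((y : ℝ) ^ n - (a : ℝ) / a') * (a' * (y.den : ℝ) ^ n) := by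
    rw [hN, hy, div_pow]
    push_cast
    field_simp
  have h1 : |(N : ℝ)| < 1 := by
    rw [e1, abs_mul, abs_of_pos (show (0 : ℝ) < a' * (y.den : ℝ) ^ n by positivity)]
    exact h
  have h2 : N = 0 := by
    have : |N| < 1 := by exact_mod_cast h1
    exact Int.abs_lt_one_iff.1 this
  rw [h2, Int.cast_zero] at e1
  have h3 : (y : ℝ) ^ n - (a : ℝ) / a' = 0 := by
    rcases mul_eq_zero.1 e1.symm with h4 | h4
    · exact h4
    · exfalso
      have : (0 : ℝ) < a' * (y.den : ℝ) ^ n := by positivity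
      linarith
  have h4 : (y : ℝ) ^ n = (a : ℝ) / a' := by linarith
  rw [h4, div_mul_cancel₀ _ ha0.ne']

theorem cmp (n : ℕ) (hn : 2 ≤ n) (kap : ℝ) (hkap : 4 < kap) (th : ℝ) (hth : 0 < th) :
    ∃ (C : ℕ) (del lam : ℝ), 1 ≤ C ∧ 0 < del ∧ 1 < lam ∧ ∀ X b : ℕ, C ≤ X → 1 ≤ b → b ≤ X ^ 2 →
      ∀ a a' : ℕ, a ≠ a' → X ≤ a → X ≤ a' → (a : ℝ) ≤ X + (X : ℝ) ^ del → (a' : ℝ) ≤ X + (X : ℝ) ^ del →
      ∀ r r' : ℚ, Exc n b a th kap ((X : ℝ) ^ C) r → Exc n b a' th kap ((X : ℝ) ^ C) r' →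
      Real.log (ht r) ≤ Real.log (ht r') → lam * Real.log (ht r) < Real.log (ht r') := by
  obtain ⟨eta, heta⟩ : ∃ eta : ℝ, eta = min 1 ((kap - 4) / 8) := ⟨_, rfl⟩
  have he0 : 0 < eta := by
    rw [heta]
    exact lt_min one_pos (by linarith)
  have he1 : eta ≤ 1 := by
    rw [heta]
    exact min_le_left _ _
  have he2 : eta ≤ (kap - 4) / 8 := by
    rw [heta]
    exact min_le_right _ _
  obtain ⟨gam, hgam⟩ : ∃ gam : ℝ, gam = kap - (2 + eta) * (2 + eta) := ⟨_, rfl⟩
  have hgam0 : 0 < gam := by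
    rw [hgam]
    nlinarith
  obtain ⟨C1, del1, hC1, hdel1, hprp⟩ := prp n 1 1 1 (by omega) le_rfl le_rfl le_rfl (2 + eta) (by linarith)
    (by norm_num [Nat.factorial]; linarith) 1 one_pos 1 one_ne_zero 1 le_rfl (by norm_num) (fun _ _ => 1)
    (by intro q; simp) (by intro q i; simp)
  set del : ℝ := min del1 (1 / 4) with hdel
  have hdel0 : 0 < del := lt_min hdel1 (by norm_num)
  set C : ℕ := C1 + (2 * n * C1 + 3) + ⌈6 / th⌉₊ + ⌈1 / gam⌉₊ + 2 with hC
  refine ⟨C, del, 1 + eta, by omega, hdel0, by linarith, ?_⟩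
  intro X b hXC hb hbX a a' hne hXa hXa' ha ha' r r' hr hr' hle
  by_contra hcon
  rw [not_lt] at hcon
  have hX2 : 2 ≤ X := by omega
  have hXr : (2 : ℝ) ≤ X := by exact_mod_cast hX2
  have hX1 : (1 : ℝ) ≤ X := by linarith
  have hXth : 6 ≤ th * X := by
    have h1 : (6 / th) ≤ X := by
      refine (Nat.le_ceil _).trans ?_
      exact_mod_cast (show ⌈6 / th⌉₊ ≤ X by omega)
    rw [div_le_iff₀ hth] at h1
    linarith
  have hgamC : 1 ≤ gam * C := by
    have h1 : (1 / gam) ≤ C := by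
      refine (Nat.le_ceil _).trans ?_
      exact_mod_cast (show ⌈1 / gam⌉₊ ≤ C by omega)
    rw [div_le_iff₀ hgam0] at h1
    linarith
  have hlog2 : Real.log 2 ≤ Real.log X := Real.log_le_log (by norm_num) hXr
  have hlog0 : 0 < Real.log X := Real.log_pos (by linarith)
  have hXar : (X : ℝ) ≤ a := by exact_mod_cast hXa
  have hXar' : (X : ℝ) ≤ a' := by exact_mod_cast hXa'
  -- sizes
  have hXd1 : (X : ℝ) ^ del ≤ (X : ℝ) ^ ((1 : ℝ) / 4) :=
    Real.rpow_le_rpow_of_exponent_le hX1 (min_le_right _ _)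
  have hXd2 : (X : ℝ) ^ ((1 : ℝ) / 4) ≤ X := by
    have := Real.rpow_le_rpow_of_exponent_le hX1 (show (1 : ℝ) / 4 ≤ 1 by norm_num)
    rwa [Real.rpow_one] at this
  have haa : (a : ℝ) ≤ 2 * a' := by linarith
  have haa' : (a' : ℝ) ≤ 2 * a := by linarith
  have ha'X : (a' : ℝ) ≤ X ^ 2 := by nlinarith
  have ha'1 : 1 ≤ a' := by omega
  have ha'r : (1 : ℝ) ≤ a' := by exact_mod_cast ha'1
  have ha'0 : (0 : ℝ) < a' := by linarith
  obtain ⟨hr0, hrB, hrE⟩ := hr
  obtain ⟨hr'0, hr'B, hr'E⟩ := hr'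
  have hht := one_le_ht r
  have hht' := one_le_ht r'
  obtain ⟨h, hh⟩ : ∃ h, h = Real.log (ht r) := ⟨_, rfl⟩
  obtain ⟨h', hh'⟩ : ∃ h', h' = Real.log (ht r') := ⟨_, rfl⟩
  rw [← hh, ← hh'] at hle hcon
  have hhC : (C : ℝ) * Real.log X ≤ h := by
    have h1 := Real.log_le_log (by positivity) hrB
    rw [Real.log_pow] at h1
    rw [hh]
    exact h1
  have hh0 : 0 ≤ h := by
    rw [hh]
    exact Real.log_nonneg hht
  set E : ℝ := Real.exp (-(kap * h)) with hE
  have hE0 : 0 < E := Real.exp_pos _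
  have hEr : (ht r) ^ (-kap) = E := by
    rw [hE, Real.rpow_def_of_pos (by linarith), ← hh]
    congr 1
    ring
  have hEr' : (ht r') ^ (-kap) ≤ E := by
    rw [hE, Real.rpow_def_of_pos (by linarith), ← hh']
    apply Real.exp_le_exp.2
    nlinarith
  rw [hEr] at hrE
  have hr'E := hr'E.trans hEr'
  have hE1 : E ≤ 1 := by
    rw [hE]
    apply Real.exp_le_one_iff.2
    nlinarith
  have htha' : 6 ≤ th * a' := hXth.trans (mul_le_mul_of_nonneg_left hXar' hth.le)
  have hr0r : (0 : ℝ) < r := by exact_mod_cast hr0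
  have hr'0r : (0 : ℝ) < r' := by exact_mod_cast hr'0
  have hq := cmp_quot n b a a' ha'1 haa th E (by linarith) hE0.le htha' hb r r' hr'0r hrE hr'E
  set y : ℚ := r / r' with hy
  have hy0 : 0 < y := div_pos hr0 hr'0
  have hyr : (y : ℝ) = (r : ℝ) / r' := by
    rw [hy]
    push_cast
    rfl
  have hy0r : (0 : ℝ) < y := by exact_mod_cast hy0
  rw [← hyr] at hq
  -- the height of y
  have hhy : Real.log (ht y) ≤ (2 + eta) * h := by
    have h1 := ht_div_le r r' hr'0.ne'
    have h2 := Real.log_le_log (by linarith [one_le_ht y]) h1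
    rw [Real.log_mul (by linarith) (by linarith), ← hh, ← hh'] at h2
    have : h + h' ≤ (2 + eta) * h := by linarith
    exact h2.trans this
  -- the main approximation
  have hbe0 : (0 : ℝ) < ((a : ℝ) / a') ^ ((1 : ℝ) / n) := by
    apply Real.rpow_pos_of_pos
    have : (0 : ℝ) < a := by linarith
    positivity
  have hben : (((a : ℝ) / a') ^ ((1 : ℝ) / n)) ^ n = (a : ℝ) / a' := by
    rw [← Real.rpow_natCast, ← Real.rpow_mul (by positivity), one_div,
      inv_mul_cancel₀ (by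
        have : n ≠ 0 := by omega
        exact_mod_cast this), Real.rpow_one]
  have happ : |(y : ℝ) - ((a : ℝ) / a') ^ ((1 : ℝ) / n)| ≤ 2 * E := by
    have h1 := cmp_root n (by omega) y (((a : ℝ) / a') ^ ((1 : ℝ) / n)) hy0r hbe0 (by
      rw [hben, le_div_iff₀ ha'0]
      linarith)
    rw [hben] at h1
    linarith
  have hexp : 2 * E ≤ Real.exp (-((2 + eta) * Real.log (ht y))) := by
    have h1 : Real.log 2 ≤ gam * h := by
      have h2 : gam * (C * Real.log X) ≤ gam * h := mul_le_mul_of_nonneg_left hhC hgam0.le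
      have h3 : Real.log X ≤ gam * C * Real.log X := by nlinarith
      nlinarith
    have h2 : (2 + eta) * Real.log (ht y) ≤ (2 + eta) * ((2 + eta) * h) :=
      mul_le_mul_of_nonneg_left hhy (by linarith)
    calc 2 * E = Real.exp (Real.log 2) * Real.exp (-(kap * h)) := by
          rw [Real.exp_log (by norm_num)]
      _ = Real.exp (Real.log 2 + -(kap * h)) := (Real.exp_add _ _).symm
      _ ≤ Real.exp (-((2 + eta) * Real.log (ht y))) := by
          apply Real.exp_le_exp.2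
          rw [hgam] at h1
          nlinarith
  -- the lower bound for the height of y
  have hlow : (C1 : ℝ) * Real.log a' ≤ Real.log (ht y) := by
    by_contra hcl
    rw [not_le] at hcl
    have hloga' : Real.log a' ≤ 2 * Real.log X := by
      have := Real.log_le_log ha'0 ha'X
      rw [Real.log_pow] at this
      exact_mod_cast this
    have hden : (y.den : ℝ) ≤ Real.exp (2 * C1 * Real.log X) := by
      refine (den_le_ht y).trans ?_
      rw [← Real.log_le_iff_le_exp (by linarith [one_le_ht y])]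
      have : (C1 : ℝ) * Real.log a' ≤ C1 * (2 * Real.log X) :=
        mul_le_mul_of_nonneg_left hloga' (Nat.cast_nonneg _)
      linarith
    have hprod : (a' : ℝ) * (y.den : ℝ) ^ n ≤ Real.exp ((2 + 2 * n * C1) * Real.log X) := by
      have h1 : (y.den : ℝ) ^ n ≤ Real.exp (2 * C1 * Real.log X) ^ n :=
        pow_le_pow_left₀ (Nat.cast_nonneg _) hden n
      have h2 : (a' : ℝ) ≤ Real.exp (2 * Real.log X) := by
        rw [← Real.log_le_iff_le_exp ha'0]
        exact hloga'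
      calc (a' : ℝ) * (y.den : ℝ) ^ n
          ≤ Real.exp (2 * Real.log X) * Real.exp (2 * C1 * Real.log X) ^ n :=
            mul_le_mul h2 h1 (by positivity) (Real.exp_pos _).le
        _ = Real.exp ((2 + 2 * n * C1) * Real.log X) := by
            rw [← Real.exp_nat_mul, ← Real.exp_add]
            congr 1
            ring
    have hlt : |(y : ℝ) ^ n - (a : ℝ) / a'| * (a' * (y.den : ℝ) ^ n) < 1 := by
      calc |(y : ℝ) ^ n - (a : ℝ) / a'| * (a' * (y.den : ℝ) ^ n)
          ≤ E * Real.exp ((2 + 2 * n * C1) * Real.log X) :=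
            mul_le_mul hq hprod (by positivity) hE0.le
        _ = Real.exp (-(kap * h) + (2 + 2 * n * C1) * Real.log X) := by
            rw [hE, Real.exp_add]
        _ < 1 := by
            rw [← Real.exp_zero]
            apply Real.exp_lt_exp.2
            have h1 : (2 * n * C1 + 3 : ℝ) ≤ C := by
              have : 2 * n * C1 + 3 ≤ C := by omega
              exact_mod_cast this
            have h2 : (2 * n * C1 + 3 : ℝ) * Real.log X ≤ h :=
              (mul_le_mul_of_nonneg_right h1 hlog0.le).trans hhC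
            have h3 : h ≤ kap * h := by nlinarith
            nlinarith
    have heq := cmp_eq n a a' ha'1 y hlt
    exact no_ratio n hn X a' a hX2 hXa' hXa hne.symm (ha'.trans (by linarith)) (ha.trans (by linarith)) y hy0
      heq
  refine hprp a' a' (by omega) ha'1 (by nlinarith) (fun _ => (a : ℤ) - a') ?_ 1 one_pos (by ring)
    (fun _ => y) (fun _ => hy0) (fun _ => hlow) ?_ ?_
  · intro _
    have h1 : |(a : ℝ) - a'| ≤ (X : ℝ) ^ del := by
      rw [abs_le]
      constructor <;> linarith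
    have h2 : (X : ℝ) ^ del ≤ (a' : ℝ) ^ del1 :=
      (Real.rpow_le_rpow_of_exponent_le hX1 (min_le_left _ _)).trans
        (Real.rpow_le_rpow (by linarith) hXar' hdel1.le)
    push_cast
    exact h1.trans h2
  · intro i j hij
    exfalso
    have := i.isLt
    have := j.isLt
    omega
  · intro _
    have e1 : (1 : ℝ) + (((a : ℤ) - (a' : ℤ) : ℤ) : ℝ) / a' = (a : ℝ) / a' := by
      push_cast
      field_simp
      ring
    rw [e1, one_mul]
    exact happ.trans hexp

end H37SI
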