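import Pool.Agent.H37.SI.Def

/-!
H37/SI/Conv [CONV]: real power series converging absolutely at radius s. Cv s p: sum |p_k| s^k summable,
Nm s p = its value.

PROOFS. Cv_mul, Nm_mul_le: |(pq)_k| s^k ≤ sum over the antidiagonal of k of (|p_i| s^i)(|q_j| s^j) (`PowerSeries.coeff_mul`);
the Cauchy product of two summable nonnegative sequences is summable with sum the product:
`Summable.mul_of_nonneg`/`summable_norm_sum_mul_antidiagonal_of_summable_norm`,
`tsum_mul_tsum_eq_tsum_sum_antidiagonal_of_summable_norm`. Comparison `Summable.of_nonneg_of_le`, `Summable.tsum_le_tsum`.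
The others: induction; C a: only the coefficient 0; X: only the coefficient 1.
-/

namespace H37SI

private theorem cnv_nn {s : ℝ} (hs : 0 ≤ s) (p : PowerSeries ℝ) (k : ℕ) :
    0 ≤ |PowerSeries.coeff k p| * s ^ k := by positivity

theorem Nm_nonneg {s : ℝ} (hs : 0 ≤ s) (p : PowerSeries ℝ) : 0 ≤ Nm s p :=
  tsum_nonneg fun k => cnv_nn hs p k

theorem coeff_le_Nm {s : ℝ} (hs : 0 ≤ s) {p : PowerSeries ℝ} (hp : Cv s p) (k : ℕ) :
    |PowerSeries.coeff k p| * s ^ k ≤ Nm s p :=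
  Summable.le_tsum hp k fun j _ => cnv_nn hs p j

theorem Cv_mono {s s' : ℝ} (hs : 0 ≤ s) (h : s ≤ s') {p : PowerSeries ℝ} (hp : Cv s' p) : Cv s p :=
  Summable.of_nonneg_of_le (fun k => cnv_nn hs p k)
    (fun k => mul_le_mul_of_nonneg_left (pow_le_pow_left₀ hs h k) (abs_nonneg _)) hp

private theorem cnv_point {s : ℝ} (hs : 0 ≤ s) (p q : PowerSeries ℝ) (n : ℕ) :
    |PowerSeries.coeff n (p * q)| * s ^ n ≤ ∑ kl ∈ Finset.HasAntidiagonal.antidiagonal n,
      (|PowerSeries.coeff kl.1 p| * s ^ kl.1) * (|PowerSeries.coeff kl.2 q| * s ^ kl.2) := by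
  rw [PowerSeries.coeff_mul]
  refine (mul_le_mul_of_nonneg_right (Finset.abs_sum_le_sum_abs _ _) (pow_nonneg hs n)).trans
    (le_of_eq ?_)
  rw [Finset.sum_mul]
  refine Finset.sum_congr rfl fun kl hkl => ?_
  rw [abs_mul, ← Finset.HasAntidiagonal.mem_antidiagonal.1 hkl, pow_add]
  ring

private theorem cnv_norm {s : ℝ} (hs : 0 ≤ s) {p : PowerSeries ℝ} (hp : Cv s p) :
    Summable fun k => ‖|PowerSeries.coeff k p| * s ^ k‖ := by
  refine hp.congr fun k => ?_
  rw [Real.norm_eq_abs, abs_of_nonneg (cnv_nn hs p k)]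

private theorem cnv_sum {s : ℝ} (hs : 0 ≤ s) {p q : PowerSeries ℝ} (hp : Cv s p) (hq : Cv s q) :
    Summable fun n => ∑ kl ∈ Finset.HasAntidiagonal.antidiagonal n,
      (|PowerSeries.coeff kl.1 p| * s ^ kl.1) * (|PowerSeries.coeff kl.2 q| * s ^ kl.2) := by
  have h := summable_norm_sum_mul_antidiagonal_of_summable_norm (cnv_norm hs hp) (cnv_norm hs hq)
  refine h.congr fun n => ?_
  rw [Real.norm_eq_abs, abs_of_nonneg]
  exact Finset.sum_nonneg fun kl _ => mul_nonneg (cnv_nn hs p _) (cnv_nn hs q _)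

theorem Cv_mul {s : ℝ} (hs : 0 ≤ s) {p q : PowerSeries ℝ} (hp : Cv s p) (hq : Cv s q) : Cv s (p * q) :=
  Summable.of_nonneg_of_le (fun k => cnv_nn hs _ k) (cnv_point hs p q) (cnv_sum hs hp hq)

theorem Nm_mul_le {s : ℝ} (hs : 0 ≤ s) {p q : PowerSeries ℝ} (hp : Cv s p) (hq : Cv s q) :
    Nm s (p * q) ≤ Nm s p * Nm s q := by
  unfold Nm
  rw [tsum_mul_tsum_eq_tsum_sum_antidiagonal_of_summable_norm (cnv_norm hs hp) (cnv_norm hs hq)]
  exact Summable.tsum_le_tsum (cnv_point hs p q) (Cv_mul hs hp hq) (cnv_sum hs hp hq)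

private theorem cnv_add {s : ℝ} (hs : 0 ≤ s) (p q : PowerSeries ℝ) (k : ℕ) :
    |PowerSeries.coeff k (p + q)| * s ^ k ≤
      |PowerSeries.coeff k p| * s ^ k + |PowerSeries.coeff k q| * s ^ k := by
  rw [map_add, ← add_mul]
  exact mul_le_mul_of_nonneg_right (abs_add_le _ _) (pow_nonneg hs k)

theorem Cv_add {s : ℝ} (hs : 0 ≤ s) {p q : PowerSeries ℝ} (hp : Cv s p) (hq : Cv s q) : Cv s (p + q) :=
  Summable.of_nonneg_of_le (fun k => cnv_nn hs _ k) (cnv_add hs p q) (hp.add hq)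

theorem Nm_add_le {s : ℝ} (hs : 0 ≤ s) {p q : PowerSeries ℝ} (hp : Cv s p) (hq : Cv s q) :
    Nm s (p + q) ≤ Nm s p + Nm s q := by
  unfold Nm
  rw [← Summable.tsum_add hp hq]
  exact Summable.tsum_le_tsum (cnv_add hs p q) (Cv_add hs hp hq) (hp.add hq)

private theorem cnv_C (s a : ℝ) : HasSum (fun k => |PowerSeries.coeff k (PowerSeries.C a)| * s ^ k)
    |a| := by
  have h := hasSum_single (f := fun k => |PowerSeries.coeff k (PowerSeries.C a)| * s ^ k) 0
    (fun k hk => by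
      show |PowerSeries.coeff k (PowerSeries.C a)| * s ^ k = 0
      rw [PowerSeries.coeff_C, if_neg hk, abs_zero, zero_mul])
  have e : |PowerSeries.coeff 0 (PowerSeries.C a)| * s ^ 0 = |a| := by
    rw [PowerSeries.coeff_C, if_pos rfl, pow_zero, mul_one]
  rw [e] at h
  exact h

private theorem cnv_X (s : ℝ) : HasSum (fun k => |PowerSeries.coeff k (PowerSeries.X : PowerSeries ℝ)| *
    s ^ k) s := by
  have h := hasSum_single (f := fun k => |PowerSeries.coeff k (PowerSeries.X : PowerSeries ℝ)| * s ^ k) 1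
    (fun k hk => by
      show |PowerSeries.coeff k (PowerSeries.X : PowerSeries ℝ)| * s ^ k = 0
      rw [PowerSeries.coeff_X, if_neg hk, abs_zero, zero_mul])
  have e : |PowerSeries.coeff 1 (PowerSeries.X : PowerSeries ℝ)| * s ^ 1 = s := by
    rw [PowerSeries.coeff_X, if_pos rfl, pow_one, abs_one, one_mul]
  rw [e] at h
  exact h

theorem Cv_C (s a : ℝ) : Cv s (PowerSeries.C a) := (cnv_C s a).summable

theorem Nm_C (s a : ℝ) : Nm s (PowerSeries.C a) = |a| := (cnv_C s a).tsum_eq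

theorem Cv_X (s : ℝ) : Cv s PowerSeries.X := (cnv_X s).summable

theorem Nm_X (s : ℝ) : Nm s PowerSeries.X = s := (cnv_X s).tsum_eq

private theorem cnv_Cv1 (s : ℝ) : Cv s 1 := by
  rw [← map_one PowerSeries.C]
  exact Cv_C s 1

private theorem cnv_Nm1 (s : ℝ) : Nm s 1 = 1 := by
  rw [← map_one PowerSeries.C, Nm_C, abs_one]

private theorem cnv_Cv0 (s : ℝ) : Cv s 0 := by
  rw [← map_zero PowerSeries.C]
  exact Cv_C s 0

private theorem cnv_Nm0 (s : ℝ) : Nm s 0 = 0 := by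
  rw [← map_zero PowerSeries.C, Nm_C, abs_zero]

theorem Cv_pow {s : ℝ} (hs : 0 ≤ s) {p : PowerSeries ℝ} (hp : Cv s p) (a : ℕ) : Cv s (p ^ a) := by
  induction a with
  | zero =>
    rw [pow_zero]
    exact cnv_Cv1 s
  | succ a ih =>
    rw [pow_succ]
    exact Cv_mul hs ih hp

theorem Nm_pow_le {s : ℝ} (hs : 0 ≤ s) {p : PowerSeries ℝ} (hp : Cv s p) (a : ℕ) :
    Nm s (p ^ a) ≤ Nm s p ^ a := by
  induction a with
  | zero =>
    rw [pow_zero, pow_zero, cnv_Nm1]
  | succ a ih =>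
    rw [pow_succ, pow_succ]
    exact (Nm_mul_le hs (Cv_pow hs hp a) hp).trans
      (mul_le_mul_of_nonneg_right ih (Nm_nonneg hs p))

theorem Cv_prod {s : ℝ} (hs : 0 ≤ s) {ι : Type} (t : Finset ι) (p : ι → PowerSeries ℝ)
    (hp : ∀ i ∈ t, Cv s (p i)) : Cv s (∏ i ∈ t, p i) := by
  classical
  induction t using Finset.induction_on with
  | empty =>
    rw [Finset.prod_empty]
    exact cnv_Cv1 s
  | insert a t ha ih =>
    rw [Finset.prod_insert ha]
    exact Cv_mul hs (hp a (Finset.mem_insert_self a t))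
      (ih fun i hi => hp i (Finset.mem_insert_of_mem hi))

theorem Nm_prod_le {s : ℝ} (hs : 0 ≤ s) {ι : Type} (t : Finset ι) (p : ι → PowerSeries ℝ)
    (hp : ∀ i ∈ t, Cv s (p i)) : Nm s (∏ i ∈ t, p i) ≤ ∏ i ∈ t, Nm s (p i) := by
  classical
  induction t using Finset.induction_on with
  | empty =>
    rw [Finset.prod_empty, Finset.prod_empty, cnv_Nm1]
  | insert a t ha ih =>
    have h1 := hp a (Finset.mem_insert_self a t)
    have h2 : ∀ i ∈ t, Cv s (p i) := fun i hi => hp i (Finset.mem_insert_of_mem hi)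
    rw [Finset.prod_insert ha, Finset.prod_insert ha]
    exact (Nm_mul_le hs h1 (Cv_prod hs t p h2)).trans
      (mul_le_mul_of_nonneg_left (ih h2) (Nm_nonneg hs _))

theorem Cv_sum {s : ℝ} (hs : 0 ≤ s) {ι : Type} (t : Finset ι) (p : ι → PowerSeries ℝ)
    (hp : ∀ i ∈ t, Cv s (p i)) : Cv s (∑ i ∈ t, p i) := by
  classical
  induction t using Finset.induction_on with
  | empty =>
    rw [Finset.sum_empty]
    exact cnv_Cv0 s
  | insert a t ha ih =>
    rw [Finset.sum_insert ha]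
    exact Cv_add hs (hp a (Finset.mem_insert_self a t))
      (ih fun i hi => hp i (Finset.mem_insert_of_mem hi))

theorem Nm_sum_le {s : ℝ} (hs : 0 ≤ s) {ι : Type} (t : Finset ι) (p : ι → PowerSeries ℝ)
    (hp : ∀ i ∈ t, Cv s (p i)) : Nm s (∑ i ∈ t, p i) ≤ ∑ i ∈ t, Nm s (p i) := by
  classical
  induction t using Finset.induction_on with
  | empty =>
    rw [Finset.sum_empty, Finset.sum_empty, cnv_Nm0]
  | insert a t ha ih =>
    have h1 := hp a (Finset.mem_insert_self a t)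
    have h2 : ∀ i ∈ t, Cv s (p i) := fun i hi => hp i (Finset.mem_insert_of_mem hi)
    rw [Finset.sum_insert ha, Finset.sum_insert ha]
    exact (Nm_add_le hs h1 (Cv_sum hs t p h2)).trans (add_le_add le_rfl (ih h2))

end H37SI
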