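import Mathlib

/-!
# ALL OF SIEGEL: change of the base field in integrality over `E[x]`
-/

namespace Pool.Agent.H37.SI

open Polynomial

/-- Integrality passes to a larger subring. -/
theorem int_mono {k E Ω : Type*} [Field k] [Field E] [Field Ω] [Algebra k Ω] [Algebra E Ω]
    (R : Subalgebra k Ω) (S : Subalgebra E Ω) (h : ∀ z ∈ R, z ∈ S) {z : Ω} (hz : IsIntegral R z) :
    IsIntegral S z := by
  obtain ⟨p, hp, hpz⟩ := hz
  let j : R →+* S :=
    { toFun := fun z => ⟨z, h z z.2⟩
      map_one' := rfl
      map_zero' := rfl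
      map_mul' := fun _ _ => rfl
      map_add' := fun _ _ => rfl }
  refine ⟨p.map j, hp.map j, ?_⟩
  rw [eval₂_map]
  exact hpz

/-- Integrality is transitive. -/
theorem int_trans {k E Ω : Type*} [Field k] [Field E] [Field Ω] [Algebra k Ω] [Algebra E Ω]
    (R : Subalgebra k Ω) (S : Subalgebra E Ω) (h : ∀ z ∈ S, IsIntegral R z) {z : Ω}
    (hz : IsIntegral S z) : IsIntegral R z := by
  obtain ⟨p, hp, hpz⟩ := hz
  let j : S →+* integralClosure R Ω :=
    { toFun := fun z => ⟨z, h z z.2⟩
      map_one' := rfl
      map_zero' := rfl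
      map_mul' := fun _ _ => rfl
      map_add' := fun _ _ => rfl }
  have h1 : IsIntegral (integralClosure R Ω) z := by
    refine ⟨p.map j, hp.map j, ?_⟩
    rw [eval₂_map]
    exact hpz
  exact isIntegral_trans (A := integralClosure R Ω) z h1

/-- If `E` is algebraic over `k` then integral over `E[x]` is integral over `k[x]`. -/
theorem int_base {k Ω : Type*} [Field k] [Field Ω] [Algebra k Ω] (E : IntermediateField k Ω)
    (hE : ∀ e ∈ E, IsAlgebraic k e) {x z : Ω} (hz : IsIntegral (Algebra.adjoin E {x}) z) :
    IsIntegral (Algebra.adjoin k {x}) z := by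
  refine int_trans _ _ ?_ hz
  intro w hw
  induction hw using Algebra.adjoin_induction with
  | mem w hw =>
    rw [Set.mem_singleton_iff] at hw
    subst hw
    exact isIntegral_algebraMap (R := Algebra.adjoin k {w}) (A := Ω)
      (x := ⟨w, Algebra.subset_adjoin rfl⟩)
  | algebraMap c => exact (hE c c.2).isIntegral.tower_top
  | add a b _ _ ha hb => exact ha.add hb
  | mul a b _ _ ha hb => exact ha.mul hb

/-- Integral over `k[x]` is integral over `E[x]`. -/
theorem int_base' {k Ω : Type*} [Field k] [Field Ω] [Algebra k Ω] (E : IntermediateField k Ω)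
    {x z : Ω} (hz : IsIntegral (Algebra.adjoin k {x}) z) : IsIntegral (Algebra.adjoin E {x}) z := by
  refine int_mono _ _ ?_ hz
  intro w hw
  induction hw using Algebra.adjoin_induction with
  | mem w hw => exact Algebra.subset_adjoin hw
  | algebraMap c => exact (Algebra.adjoin E {x}).algebraMap_mem (algebraMap k E c)
  | add a b _ _ ha hb => exact add_mem ha hb
  | mul a b _ _ ha hb => exact mul_mem ha hb

end Pool.Agent.H37.SI
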