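import Pool.Agent.H37.SI.Unr

/-!
# ALL OF SIEGEL: normalisation of an `l`-divisible function
-/

namespace Pool.Agent.H37.SI

open Polynomial IntermediateField

open scoped IntermediateField.algebraAdjoinAdjoin

theorem dedekind_closure {E K : Type*} [Field E] [CharZero E] [Field K] [Algebra E K] {x : K}
    (hx : Transcendental E x) (hf : FiniteDimensional E⟮x⟯ K) :
    IsDedekindDomain (integralClosure (Algebra.adjoin E {x}) K) ∧
      IsFractionRing (integralClosure (Algebra.adjoin E {x}) K) K := by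
  have h1 : IsPrincipalIdealRing (Algebra.adjoin E {x}) :=
    IsPrincipalIdealRing.of_surjective (algEquivOfTranscendental E x hx).toRingHom
      (algEquivOfTranscendental E x hx).surjective
  have h2 : IsDedekindDomain (Algebra.adjoin E {x}) := inferInstance
  have h3 : CharZero E⟮x⟯ := charZero_of_injective_algebraMap (algebraMap E E⟮x⟯).injective
  exact ⟨integralClosure.isDedekindDomain (Algebra.adjoin E {x}) E⟮x⟯ K,
    integralClosure.isFractionRing_of_finite_extension E⟮x⟯ K⟩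

theorem exists_theta {E K : Type*} [Field E] [CharZero E] [Field K] [Algebra E K] {x : K}
    (hx : Transcendental E x) (hf : FiniteDimensional E⟮x⟯ K) (l : ℕ) (hl : 1 ≤ l) (f : K)
    (hf0 : f ≠ 0) (hV : ∀ V : ValuationSubring K, (∀ e : E, algebraMap E K e ∈ V) →
      ∃ s, s ≠ 0 ∧ f * s ^ l ∈ V ∧ (f * s ^ l)⁻¹ ∈ V) :
    ∃ (s θ : K) (κ : ℕ), s ≠ 0 ∧ θ = f * s ^ l ∧ IsIntegral (Algebra.adjoin E {x}) θ ∧
      IsIntegral (Algebra.adjoin E {x⁻¹}) (θ / x ^ (κ * l)) ∧
      (∃ a b, IsIntegral (Algebra.adjoin E {x⁻¹}) a ∧ IsIntegral (Algebra.adjoin E {x⁻¹}) b ∧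
        a * (θ / x ^ (κ * l)) + b * x⁻¹ = 1) ∧
      ∃ θ' p A B, IsIntegral (Algebra.adjoin E {x}) θ' ∧ IsIntegral (Algebra.adjoin E {x}) A ∧
        IsIntegral (Algebra.adjoin E {x}) B ∧ θ' = θ * p ^ l ∧ A * θ + B * θ' = 1 := by
  classical
  have hx0 : x ≠ 0 := by
    rintro rfl
    exact hx isAlgebraic_zero
  have hx' : Transcendental E x⁻¹ := fun h => hx (by simpa using h.inv)
  have heq : E⟮x⁻¹⟯ = E⟮x⟯ := by
    apply le_antisymm
    · rw [adjoin_simple_le_iff]
      exact inv_mem (mem_adjoin_simple_self E x)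
    · rw [adjoin_simple_le_iff]
      have h1 := inv_mem (mem_adjoin_simple_self E x⁻¹)
      rwa [inv_inv] at h1
  have hf' : FiniteDimensional E⟮x⁻¹⟯ K := by
    rw [heq]
    exact hf
  obtain ⟨hD', hF'⟩ := dedekind_closure hx' hf'
  obtain ⟨hD, hF⟩ := dedekind_closure hx hf
  have hxi : IsIntegral (Algebra.adjoin E {x⁻¹}) x⁻¹ := by
    have h1 : x⁻¹ ∈ Algebra.adjoin E {x⁻¹} := Algebra.subset_adjoin rfl
    exact isIntegral_algebraMap (R := Algebra.adjoin E {x⁻¹}) (A := K) (x := ⟨x⁻¹, h1⟩)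
  -- valuation rings which contain an integral closure contain the constants
  have hcon : ∀ (z : K) (V : ValuationSubring K),
      (∀ b : integralClosure (Algebra.adjoin E {z}) K, algebraMap _ K b ∈ V) →
      ∀ e : E, algebraMap E K e ∈ V := by
    intro z V hV e
    have h1 : IsIntegral (Algebra.adjoin E {z}) (algebraMap E K e) :=
      (isIntegral_algebraMap (R := E) (A := K) (x := e)).tower_top
    exact hV ⟨_, h1⟩
  obtain ⟨s1, r, α, β, hs1, hr, hαβ⟩ := exists_unit_rep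
    (B := integralClosure (Algebra.adjoin E {x⁻¹}) K) l hl f hf0
    (fun V hV' => hV V (hcon _ V hV')) ⟨x⁻¹, hxi⟩ (by
      intro h0
      have h1 : x⁻¹ = 0 := congrArg Subtype.val h0
      exact hx0 (inv_eq_zero.mp h1))
  have hr' : (r : K) = f * s1 ^ l := hr
  -- denominators
  have halg : IsAlgebraic (Algebra.adjoin E {x}) (r : K) := by
    have h1 : IsAlgebraic E⟮x⟯ (r : K) := Algebra.IsAlgebraic.isAlgebraic _
    exact (IsFractionRing.isAlgebraic_iff (Algebra.adjoin E {x}) E⟮x⟯ K).2 h1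
  obtain ⟨⟨y, hy⟩, hy0, hyr⟩ := halg.exists_integral_multiple
  have hy0' : y ≠ 0 := fun h => hy0 (Subtype.ext h)
  have hyr' : IsIntegral (Algebra.adjoin E {x}) (y * (r : K)) := hyr
  obtain ⟨q, hq⟩ : ∃ q : E[X], aeval x q = y := by
    rw [Algebra.adjoin_singleton_eq_range_aeval] at hy
    exact hy
  have hq0 : q ≠ 0 := by
    rintro rfl
    rw [map_zero] at hq
    exact hy0' hq.symm
  set κ := q.natDegree with hκ
  have hyi : IsIntegral (Algebra.adjoin E {x}) y :=
    isIntegral_algebraMap (R := Algebra.adjoin E {x}) (A := K) (x := ⟨y, hy⟩)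
  have hyκ : y / x ^ κ = aeval x⁻¹ (q.reflect κ) := by
    let _ : Invertible x := invertibleOfNonzero hx0
    have h3 := eval₂_reflect_mul_pow (algebraMap E K) x κ q le_rfl
    rw [invOf_eq_inv] at h3
    rw [div_eq_iff (pow_ne_zero _ hx0), ← hq]
    exact h3.symm
  -- the unit part of y
  have hdiv : ∃ m : E[X], q.reflect κ = C (q.leadingCoeff) + X * m := by
    refine ⟨(q.reflect κ).divX, ?_⟩
    conv_lhs => rw [← divX_mul_X_add (q.reflect κ)]
    rw [coeff_reflect, revAt_le (Nat.zero_le _), Nat.sub_zero, add_comm, mul_comm]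
    rfl
  obtain ⟨m, hm⟩ := hdiv
  have hlc : algebraMap E K q.leadingCoeff ≠ 0 := by
    rw [Ne, map_eq_zero]
    exact leadingCoeff_ne_zero.mpr hq0
  have hint : ∀ p : E[X], IsIntegral (Algebra.adjoin E {x⁻¹}) (aeval x⁻¹ p) := by
    intro p
    have h1 : aeval x⁻¹ p ∈ Algebra.adjoin E {x⁻¹} := aeval_mem_adjoin_singleton E x⁻¹
    exact isIntegral_algebraMap (R := Algebra.adjoin E {x⁻¹}) (A := K) (x := ⟨_, h1⟩)
  have hinte : ∀ e : E, IsIntegral (Algebra.adjoin E {x⁻¹}) (algebraMap E K e) := fun e =>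
    (isIntegral_algebraMap (R := E) (A := K) (x := e)).tower_top
  let B' := integralClosure (Algebra.adjoin E {x⁻¹}) K
  let xi : B' := ⟨x⁻¹, hxi⟩
  let yi : B' := ⟨y / x ^ κ, by rw [hyκ]; exact hint _⟩
  have hc1 : IsCoprime r xi := ⟨α, β, hαβ⟩
  have hc2 : IsCoprime yi xi := by
    refine ⟨⟨algebraMap E K q.leadingCoeff⁻¹, hinte _⟩,
      ⟨- (algebraMap E K q.leadingCoeff⁻¹ * aeval x⁻¹ m), ((hinte _).mul (hint _)).neg⟩, ?_⟩
    apply Subtype.ext
    change algebraMap E K q.leadingCoeff⁻¹ * (y / x ^ κ) +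
      - (algebraMap E K q.leadingCoeff⁻¹ * aeval x⁻¹ m) * x⁻¹ = 1
    rw [hyκ, hm, map_add, map_mul, aeval_C, aeval_X, map_inv₀]
    field_simp
    ring
  obtain ⟨a, b, hab⟩ := IsCoprime.mul_left hc1 (hc2.pow_left (m := l))
  have hθx : (f * (s1 * y) ^ l) / x ^ (κ * l) = ((r * yi ^ l : B') : K) := by
    have h1 : ((r * yi ^ l : B') : K) = (r : K) * (y / x ^ κ) ^ l := rfl
    rw [h1, hr', div_pow, mul_pow, ← pow_mul, ← mul_assoc, mul_div_assoc]
  have hsne : s1 * y ≠ 0 := mul_ne_zero hs1 hy0'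
  have hθi : IsIntegral (Algebra.adjoin E {x}) (f * (s1 * y) ^ l) := by
    obtain ⟨l', rfl⟩ : ∃ l', l = l' + 1 := ⟨l - 1, by omega⟩
    have h1 : f * (s1 * y) ^ (l' + 1) = y ^ l' * (y * (r : K)) := by
      rw [hr']
      ring
    rw [h1]
    exact (hyi.pow l').mul hyr'
  have hθ0 : f * (s1 * y) ^ l ≠ 0 := mul_ne_zero hf0 (pow_ne_zero _ hsne)
  -- the partner
  obtain ⟨p, r', A, B, hp, hr'', hAB⟩ := exists_unit_rep
    (B := integralClosure (Algebra.adjoin E {x}) K) l hl (f * (s1 * y) ^ l) hθ0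
    (by
      intro V hV'
      obtain ⟨s, hs, h1, h2⟩ := hV V (hcon _ V hV')
      refine ⟨s / (s1 * y), div_ne_zero hs hsne, ?_, ?_⟩
      · have h3 : f * (s1 * y) ^ l * (s / (s1 * y)) ^ l = f * s ^ l := by
          rw [div_pow]
          field_simp
        rw [h3]
        exact h1
      · have h3 : f * (s1 * y) ^ l * (s / (s1 * y)) ^ l = f * s ^ l := by
          rw [div_pow]
          field_simp
        rw [h3]
        exact h2) ⟨_, hθi⟩ (by
      intro h0
      exact hθ0 (congrArg Subtype.val h0))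
  refine ⟨s1 * y, f * (s1 * y) ^ l, κ, hsne, rfl, hθi, ?_, ⟨a, b, a.2, b.2, ?_⟩,
    r', p, B, A, r'.2, B.2, A.2, hr'', ?_⟩
  · rw [hθx]
    exact (r * yi ^ l : B').2
  · rw [hθx]
    exact congrArg Subtype.val hab
  · have h1 := congrArg Subtype.val hAB
    rw [add_comm]
    exact h1

end Pool.Agent.H37.SI
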