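import Pool.Agent.H37.SI.Ext

/-!
# ALL OF SIEGEL: places of the ring `TI k x`
-/

namespace Pool.Agent.H37.SI

open Polynomial

variable {k Ω : Type*} [Field k] [Field Ω] [Algebra k Ω]

/-- A homomorphism of a ring which contains `k` and `x⁻¹` extends to `TI k x`. -/
theorem exists_place {F : Type*} [Field F] [IsAlgClosed F] {A : Type*} [CommRing A] (i : A →+* Ω)
    (hi : Function.Injective i) (f : A →+* F) (x : Ω) (hc : ∀ c : k, algebraMap k Ω c ∈ i.range)
    (hx : x⁻¹ ∈ i.range) :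
    ∃ π : TI k x →+* F, ∀ (t : TI k x) (a : A), (t : Ω) = i a → π t = f a := by
  classical
  let _ : Algebra A Ω := i.toAlgebra
  have hsub : ∀ z : Algebra.adjoin k {x⁻¹}, (z : Ω) ∈ i.range := by
    rintro ⟨z, hz⟩
    induction hz using Algebra.adjoin_induction with
    | mem z hz =>
      rw [Set.mem_singleton_iff] at hz
      subst hz
      exact hx
    | algebraMap c => exact hc c
    | add a b _ _ ha hb => exact i.range.add_mem ha hb
    | mul a b _ _ ha hb => exact i.range.mul_mem ha hb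
  let e : A ≃+* i.range := RingEquiv.ofBijective i.rangeRestrict
    ⟨fun a b hab => hi (congrArg Subtype.val hab), i.rangeRestrict_surjective⟩
  let j0 : Algebra.adjoin k {x⁻¹} →+* i.range :=
    { toFun := fun z => ⟨z, hsub z⟩
      map_one' := rfl
      map_zero' := rfl
      map_mul' := fun _ _ => rfl
      map_add' := fun _ _ => rfl }
  let j : Algebra.adjoin k {x⁻¹} →+* A := e.symm.toRingHom.comp j0
  have hj : ∀ z, i (j z) = (z : Ω) := by
    intro z
    have h1 : e (e.symm (j0 z)) = j0 z := e.apply_symm_apply _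
    exact congrArg Subtype.val h1
  have hint : ∀ t : TI k x, IsIntegral A (t : Ω) := by
    rintro ⟨t, p, hp, hpt⟩
    refine ⟨p.map j, hp.map j, ?_⟩
    change eval₂ i t (p.map j) = 0
    rw [eval₂_map]
    have h1 : i.comp j = algebraMap (Algebra.adjoin k {x⁻¹}) Ω := by
      ext z
      exact hj z
    rw [h1]
    exact hpt
  have hinj : Function.Injective (algebraMap A (integralClosure A Ω)) := by
    intro a b hab
    exact hi (congrArg Subtype.val hab)
  obtain ⟨g, hg⟩ := ext_hom (B := integralClosure A Ω) hinj f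
  let inc : TI k x →+* integralClosure A Ω :=
    { toFun := fun t => ⟨t, hint t⟩
      map_one' := rfl
      map_zero' := rfl
      map_mul' := fun _ _ => rfl
      map_add' := fun _ _ => rfl }
  refine ⟨g.comp inc, ?_⟩
  intro t a hta
  have h1 : inc t = algebraMap A (integralClosure A Ω) a := by
    apply Subtype.ext
    exact hta
  rw [RingHom.comp_apply, h1]
  exact RingHom.congr_fun hg a

/-- The inverse of `x` as an element of `TI k x`. -/
theorem inv_mem_TI (x : Ω) : x⁻¹ ∈ TI k x := by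
  have h1 : x⁻¹ ∈ Algebra.adjoin k {x⁻¹} := Algebra.subset_adjoin rfl
  exact (isIntegral_algebraMap (R := Algebra.adjoin k {x⁻¹}) (A := Ω) (x := ⟨x⁻¹, h1⟩))

/-- Algebraic elements are in `TI k x`. -/
theorem alg_mem_TI (x : Ω) {e : Ω} (he : IsAlgebraic k e) : e ∈ TI k x := by
  have h1 : IsIntegral k e := he.isIntegral
  exact h1.tower_top

/-- There is a place over `x⁻¹ = 0`. -/
theorem exists_place_inf {F : Type*} [Field F] [IsAlgClosed F] [Algebra k F] {x : Ω} (hx : Transcendental k x) :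
    ∃ π : TI k x →+* F, ∀ t : TI k x, (t : Ω) = x⁻¹ → π t = 0 := by
  have hx' : Transcendental k x⁻¹ := by
    intro h
    exact hx (by simpa using h.inv)
  obtain ⟨π, hπ⟩ := exists_place (k := k) (aeval x⁻¹ : k[X] →ₐ[k] Ω).toRingHom
    ((transcendental_iff_injective).mp hx') (aeval (0 : F) : k[X] →ₐ[k] F).toRingHom x
    (fun c => ⟨C c, by simp⟩) ⟨X, by simp⟩
  refine ⟨π, fun t ht => ?_⟩
  rw [hπ t X (by simpa using ht)]
  simp

/-- Homomorphisms which fix `k[x⁻¹]` map `TI k x` to itself. -/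
theorem mem_TI_map {x : Ω} {L : Type*} [Field L] (ι φ : L →+* Ω) (j : Algebra.adjoin k {x⁻¹} →+* L)
    (h1 : ι.comp j = algebraMap (Algebra.adjoin k {x⁻¹}) Ω)
    (h2 : φ.comp j = algebraMap (Algebra.adjoin k {x⁻¹}) Ω) {t : L} (ht : ι t ∈ TI k x) :
    φ t ∈ TI k x := by
  obtain ⟨p, hp, hpt⟩ := ht
  refine ⟨p, hp, ?_⟩
  rw [← h1, ← hom_eval₂] at hpt
  have h3 : eval₂ j t p = 0 := ι.injective (by rw [hpt, map_zero])
  rw [← h2, ← hom_eval₂, h3, map_zero]

/-- Elements of `TI k x` are algebraic over every subfield which contains `x`. -/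
theorem TI_algebraic {x : Ω} (K : IntermediateField k Ω) (hx : x ∈ K) {t : Ω} (ht : t ∈ TI k x) :
    IsAlgebraic K t := by
  obtain ⟨p, hp, hpt⟩ := ht
  have hle : Algebra.adjoin k {x⁻¹} ≤ K.toSubalgebra := by
    rw [Algebra.adjoin_le_iff]
    intro z hz
    rw [Set.mem_singleton_iff] at hz
    rw [hz]
    exact K.inv_mem hx
  have h2 : (algebraMap K Ω).comp (Subalgebra.inclusion hle).toRingHom =
      algebraMap (Algebra.adjoin k {x⁻¹}) Ω := rfl
  have h3 : IsIntegral K t := by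
    refine ⟨p.map (Subalgebra.inclusion hle).toRingHom, hp.map _, ?_⟩
    rw [eval₂_map, h2]
    exact hpt
  exact h3.isAlgebraic

/-- Conjugation: if `w` is a conjugate of `v` over `K` then there is an endomorphism of `TI k x` over `K`
which maps `v * c` to `w * c` for `c` in `K`. -/
theorem exists_conj [IsAlgClosed Ω] {x : Ω} (K : IntermediateField k Ω) (hx : x ∈ K) {v w : Ω}
    (hv : IsAlgebraic K v) (hw : aeval w (minpoly K v) = 0) :
    ∃ g : TI k x →+* TI k x, (∀ t : TI k x, (t : Ω) ∈ K → (g t : Ω) = t) ∧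
      ∀ t : TI k x, ∀ c ∈ K, (t : Ω) = v * c → (g t : Ω) = w * c := by
  classical
  let Ka : IntermediateField K Ω := algebraicClosure K Ω
  have hvK : v ∈ Ka := mem_algebraicClosure_iff.mpr hv
  have hmin : minpoly K (⟨v, hvK⟩ : Ka) = minpoly K v :=
    (minpoly.algebraMap_eq (B := Ka) (B' := Ω) (algebraMap Ka Ω).injective (⟨v, hvK⟩ : Ka)).symm
  obtain ⟨φ, hφ⟩ := IntermediateField.exists_algHom_of_splits_of_aeval (F := K) (E := Ka) (K := Ω)
    (x := ⟨v, hvK⟩) (y := w) (fun s => ⟨(Algebra.IsAlgebraic.isAlgebraic s).isIntegral,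
      IsAlgClosed.splits _⟩) (by rw [hmin]; exact hw)
  have hle : Algebra.adjoin k {x⁻¹} ≤ K.toSubalgebra := by
    rw [Algebra.adjoin_le_iff]
    intro z hz
    rw [Set.mem_singleton_iff] at hz
    rw [hz]
    exact K.inv_mem hx
  let j : Algebra.adjoin k {x⁻¹} →+* Ka :=
    (algebraMap K Ka).comp (Subalgebra.inclusion hle).toRingHom
  have hj1 : (algebraMap Ka Ω).comp j = algebraMap (Algebra.adjoin k {x⁻¹}) Ω := rfl
  have hj2 : φ.toRingHom.comp j = algebraMap (Algebra.adjoin k {x⁻¹}) Ω := by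
    ext z
    exact φ.commutes (Subalgebra.inclusion hle z)
  have hTK : ∀ t : TI k x, (t : Ω) ∈ Ka := fun t =>
    mem_algebraicClosure_iff.mpr (TI_algebraic K hx t.2)
  let g : TI k x →+* TI k x :=
    { toFun := fun t => ⟨φ ⟨t, hTK t⟩, mem_TI_map (algebraMap Ka Ω) φ.toRingHom j hj1 hj2
        (t := ⟨t, hTK t⟩) t.2⟩
      map_one' := Subtype.ext (map_one φ)
      map_zero' := Subtype.ext (map_zero φ)
      map_mul' := fun a b => Subtype.ext (map_mul φ ⟨a, hTK a⟩ ⟨b, hTK b⟩)
      map_add' := fun a b => Subtype.ext (map_add φ ⟨a, hTK a⟩ ⟨b, hTK b⟩) }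
  refine ⟨g, ?_, ?_⟩
  · intro t ht
    exact φ.commutes ⟨(t : Ω), ht⟩
  · intro t c hc htc
    have h1 : (⟨(t : Ω), hTK t⟩ : Ka) = ⟨v, hvK⟩ * algebraMap K Ka ⟨c, hc⟩ := Subtype.ext htc
    have h2 : (g t : Ω) = φ ⟨(t : Ω), hTK t⟩ := rfl
    rw [h2, h1, map_mul, hφ, φ.commutes]
    rfl

/-- Homomorphisms of `TI k x` to a field are injective on constants. -/
theorem place_inj {x : Ω} {F : Type*} [Field F] (π : TI k x →+* F) {a b : TI k x}
    (ha : IsAlgebraic k (a : Ω)) (hb : IsAlgebraic k (b : Ω)) (hab : π a = π b) : a = b := by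
  by_contra hne
  have h1 : IsAlgebraic k ((a : Ω) - b) := ha.sub hb
  have h2 : ((a : Ω) - b) ≠ 0 := by
    intro h
    exact hne (Subtype.ext (sub_eq_zero.mp h))
  have h3 : IsAlgebraic k ((a : Ω) - b)⁻¹ := h1.inv
  have h4 : (a - b) * (⟨((a : Ω) - b)⁻¹, alg_mem_TI x h3⟩ : TI k x) = 1 := by
    apply Subtype.ext
    change ((a : Ω) - b) * ((a : Ω) - b)⁻¹ = 1
    exact mul_inv_cancel₀ h2
  have h5 := congrArg π h4
  rw [map_mul, map_sub, hab, sub_self, zero_mul, map_one] at h5
  exact zero_ne_one h5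

end Pool.Agent.H37.SI
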