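import Pool.Agent.H37.SI.Mdl
import Pool.Agent.H37.SI.Pls

/-!
# ALL OF SIEGEL: three places give three roots of the leading form
-/

namespace Pool.Agent.H37.SI

open Polynomial

/-- Integral over `k[x]` in terms of monic polynomials in `k[X][X]`. -/
theorem exists_monic_ev {k Ω : Type*} [Field k] [Field Ω] [Algebra k Ω] {x w : Ω}
    (h : IsIntegral (Algebra.adjoin k {x}) w) : ∃ p : k[X][X], p.Monic ∧ ev x w p = 0 := by
  obtain ⟨p, hp, hpw⟩ := h
  have hx : x ∈ Algebra.adjoin k {x} := Algebra.subset_adjoin rfl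
  let f : k[X] →+* Algebra.adjoin k {x} :=
    (aeval (⟨x, hx⟩ : Algebra.adjoin k {x}) : k[X] →ₐ[k] _).toRingHom
  have hfx : ∀ q : k[X], ((f q : Algebra.adjoin k {x}) : Ω) = aeval x q := by
    intro q
    change (Algebra.adjoin k {x}).val (aeval (⟨x, hx⟩ : Algebra.adjoin k {x}) q) = _
    rw [← aeval_algHom_apply]
    rfl
  have hf : Function.Surjective f := by
    rintro ⟨z, hz⟩
    rw [Algebra.adjoin_singleton_eq_range_aeval] at hz
    obtain ⟨q, hq⟩ := hz
    refine ⟨q, Subtype.ext ?_⟩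
    rw [hfx]
    exact hq
  obtain ⟨q, hq1, -, hq2⟩ := lifts_and_natDegree_eq_and_monic (p := p) (f := f)
    ((lifts_iff_coeff_lifts p).mpr fun n => by
      rw [Set.mem_range]
      exact hf _) hp
  refine ⟨q, hq2, ?_⟩
  rw [← hq1, eval₂_map] at hpw
  have h2 : (algebraMap (Algebra.adjoin k {x}) Ω).comp f = (aeval x : k[X] →ₐ[k] Ω).toRingHom := by
    apply RingHom.ext
    intro q
    exact hfx q
  rw [h2] at hpw
  exact hpw

theorem ev_map {k ks Ω : Type*} [Field k] [Field ks] [Field Ω] [Algebra k ks] [Algebra ks Ω]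
    [Algebra k Ω] [IsScalarTower k ks Ω] (x w : ks) (p : k[X][X]) :
    ev (algebraMap ks Ω x) (algebraMap ks Ω w) p = algebraMap ks Ω (ev x w p) := by
  unfold ev
  rw [hom_eval₂]
  congr 1
  apply RingHom.ext
  intro q
  exact aeval_algebraMap_apply Ω x q

/-- The value of `lf κ G` at the image of `w / x ^ κ` under a place over `x⁻¹ = 0` is `0`. -/
theorem lf_root {k Ω : Type*} [Field k] [Field Ω] [Algebra k Ω] {x w : Ω} (hx0 : x ≠ 0) {κ : ℕ}
    {G : k[X][X]} (hG : Wt κ G) (hG0 : ev x w G = 0) (t : TI k x) (ht : (t : Ω) = w / x ^ κ)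
    {F : Type*} [Field F] (π : TI k x →+* F) (hπ : ∀ s : TI k x, (s : Ω) = x⁻¹ → π s = 0)
    (i : k →+* F) (hi : ∀ (c : k) (s : TI k x), (s : Ω) = algebraMap k Ω c → π s = i c) :
    eval₂ i (π t) (lf κ G) = 0 := by
  classical
  let c0 : k →+* TI k x :=
    { toFun := fun c => ⟨algebraMap k Ω c, alg_mem_TI x (isAlgebraic_algebraMap c)⟩
      map_one' := Subtype.ext (map_one _)
      map_zero' := Subtype.ext (map_zero _)
      map_mul' := fun a b => Subtype.ext (map_mul _ a b)
      map_add' := fun a b => Subtype.ext (map_add _ a b) }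
  let ψ : k[X] →+* TI k x := eval₂RingHom c0 ⟨x⁻¹, inv_mem_TI x⟩
  have hψ : ∀ p : k[X], ((ψ p : TI k x) : Ω) = aeval x⁻¹ p := by
    intro p
    have h1 : ((algebraMap (TI k x) Ω).comp ψ) = (aeval x⁻¹ : k[X] →ₐ[k] Ω).toRingHom := by
      apply ringHom_ext
      · intro c
        change ((ψ (C c) : TI k x) : Ω) = aeval x⁻¹ (C c)
        simp [ψ, c0]
      · change ((ψ X : TI k x) : Ω) = aeval x⁻¹ (X : k[X])
        simp [ψ]
    exact RingHom.congr_fun h1 p
  have hπψ : ∀ p : k[X], π (ψ p) = i (p.coeff 0) := by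
    intro p
    have h1 : π.comp ψ = i.comp (constantCoeff : k[X] →+* k) := by
      apply ringHom_ext
      · intro c
        change π (ψ (C c)) = i (constantCoeff (C c))
        rw [hi c (ψ (C c)) (by rw [hψ]; simp)]
        simp
      · change π (ψ X) = i (constantCoeff X)
        rw [hπ (ψ X) (by rw [hψ]; simp)]
        simp
    exact RingHom.congr_fun h1 p
  set D := G.natDegree with hD
  have hsum : ∑ j ∈ Finset.range (D + 1), ψ ((G.coeff j).reflect (κ * (D - j))) * t ^ j = 0 := by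
    apply Subtype.ext
    have hxD : x ^ (κ * D) ≠ 0 := pow_ne_zero _ hx0
    have h1 : x ^ (κ * D) * ((∑ j ∈ Finset.range (D + 1),
        ψ ((G.coeff j).reflect (κ * (D - j))) * t ^ j : TI k x) : Ω) = ev x w G := by
      unfold ev
      rw [eval₂_eq_sum_range]
      push_cast
      rw [Finset.mul_sum]
      apply Finset.sum_congr rfl
      intro j hj
      have hj' : j ≤ D := by
        rw [Finset.mem_range] at hj
        omega
      rw [hψ, ht]
      have h2 : (aeval x : k[X] →ₐ[k] Ω).toRingHom (G.coeff j) =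
          x ^ (κ * (D - j)) * aeval x⁻¹ ((G.coeff j).reflect (κ * (D - j))) := by
        let _ : Invertible x := invertibleOfNonzero hx0
        have h3 := eval₂_reflect_mul_pow (algebraMap k Ω) x (κ * (D - j)) (G.coeff j) (hG j)
        rw [invOf_eq_inv] at h3
        change eval₂ (algebraMap k Ω) x _ = x ^ (κ * (D - j)) * eval₂ (algebraMap k Ω) x⁻¹ _
        rw [← h3, mul_comm]
      rw [h2]
      have h4 : x ^ (κ * D) = x ^ (κ * (D - j)) * (x ^ κ) ^ j := by
        rw [← pow_mul, ← pow_add, ← Nat.mul_add]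
        congr 2
        omega
      rw [h4, div_pow]
      have h5 : (x ^ κ) ^ j ≠ 0 := pow_ne_zero _ (pow_ne_zero _ hx0)
      field_simp
    rw [hG0] at h1
    rcases mul_eq_zero.mp h1 with h2 | h2
    · exact absurd h2 hxD
    · exact h2
  have h6 := congrArg π hsum
  rw [map_sum, map_zero] at h6
  unfold lf
  rw [eval₂_finsetSum, ← h6]
  apply Finset.sum_congr rfl
  intro j hj
  rw [RingHom.map_mul, RingHom.map_pow, hπψ, eval₂_mul, eval₂_C, eval₂_pow, eval₂_X, coeff_reflect,
    revAt_le (Nat.zero_le _), Nat.sub_zero]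

/-- The model of `w` has three different roots of the leading form. -/
theorem exists_model_three {k ks Ω : Type} [Field k] [Field ks] [Field Ω] [Algebra k ks] [Algebra ks Ω]
    [Algebra k Ω] [IsScalarTower k ks Ω] {x w : ks} (hx : Transcendental k x) (κ : ℕ)
    (h1 : IsIntegral (Algebra.adjoin k {algebraMap ks Ω x}) (algebraMap ks Ω w))
    (h2 : Sep k (algebraMap ks Ω x) (algebraMap ks Ω w / algebraMap ks Ω x ^ κ)) :
    ∃ G : k[X][X], Model x w κ G ∧ Three (lf κ G) := by
  classical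
  obtain ⟨F, hF, π, t, ht, hπ0, hπc, hπi⟩ := h2
  obtain ⟨p, hp, hpw⟩ := exists_monic_ev h1
  have ht2 : IsIntegral (Algebra.adjoin k {(algebraMap ks Ω x)⁻¹}) (t : Ω) := t.2
  obtain ⟨q, hq, hqw⟩ := exists_monic_ev ht2
  have hinj := (algebraMap ks Ω).injective
  obtain ⟨G, hG⟩ := exists_model hx κ (w := w) ⟨p, hp, hinj (by rw [← ev_map, hpw, map_zero])⟩
    ⟨q, hq, hinj (by
      rw [← ev_map, map_zero, map_inv₀, map_div₀, map_pow, ← ht]
      exact hqw)⟩
  refine ⟨G, hG, F, hF, ?_⟩
  have hx0 : algebraMap ks Ω x ≠ 0 := by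
    intro h0
    have h3 : x = 0 := hinj (by rw [h0, map_zero])
    rw [h3] at hx
    exact hx isAlgebraic_zero
  let c0 : k →+* TI k (algebraMap ks Ω x) :=
    { toFun := fun c => ⟨algebraMap k Ω c, alg_mem_TI _ (isAlgebraic_algebraMap c)⟩
      map_one' := Subtype.ext (map_one _)
      map_zero' := Subtype.ext (map_zero _)
      map_mul' := fun a b => Subtype.ext (map_mul _ a b)
      map_add' := fun a b => Subtype.ext (map_add _ a b) }
  have hroot : ∀ j, eval₂ ((π 0).comp c0) (π j t) (lf κ G) = 0 := by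
    intro j
    apply lf_root hx0 hG.wt (by rw [ev_map, hG.zero, map_zero]) t ht (π j) (hπ0 j)
    intro c s hs
    rw [hπc j s (by rw [hs]; exact isAlgebraic_algebraMap c)]
    change π 0 s = π 0 (c0 c)
    congr 1
    exact Subtype.ext hs
  refine ⟨(π 0).comp c0, π 0 t, π 1 t, π 2 t, ?_, ?_, ?_, hroot 0, hroot 1, hroot 2⟩
  · intro h
    exact absurd (hπi h) (by decide)
  · intro h
    exact absurd (hπi h) (by decide)
  · intro h
    exact absurd (hπi h) (by decide)

end Pool.Agent.H37.SI
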