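import Pool.Agent.H37.SI.Pls

/-!
# ALL OF SIEGEL: the trace of a separated element
-/

namespace Pool.Agent.H37.SI

open Polynomial IntermediateField

private theorem map_int {k Ω : Type*} [Field k] [Field Ω] [Algebra k Ω] {R : Subalgebra k Ω}
    {L : Type*} [Field L] (ι φ : L →+* Ω) (j : R →+* L) (h1 : ι.comp j = algebraMap R Ω)
    (h2 : φ.comp j = algebraMap R Ω) {t : L} (ht : IsIntegral R (ι t)) : IsIntegral R (φ t) := by
  obtain ⟨p, hp, hpt⟩ := ht
  refine ⟨p, hp, ?_⟩
  rw [← h1, ← hom_eval₂] at hpt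
  have h3 : eval₂ j t p = 0 := ι.injective (by rw [hpt, map_zero])
  rw [← h2, ← hom_eval₂, h3, map_zero]

/-- The trace from `ks(θ)` to `ks` of a suitable multiple `λ v`, `λ` in `k[θ]`, of a separated element `v` is
a separated element of `ks`. -/
theorem exists_trace {k ks Ω : Type} [Field k] [CharZero k] [Field ks] [Field Ω] [Algebra k ks]
    [Algebra ks Ω] [Algebra k Ω] [IsScalarTower k ks Ω] [IsAlgClosed Ω] (x : ks) (κ : ℕ) (v θ : Ω)
    (hθ : IsAlgebraic k θ) (hv : v ∈ IntermediateField.adjoin ks {θ})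
    (h1 : IsIntegral (Algebra.adjoin k {algebraMap ks Ω x}) v)
    (h2 : Sep k (algebraMap ks Ω x) (v / algebraMap ks Ω x ^ κ)) :
    ∃ w : ks, IsIntegral (Algebra.adjoin k {algebraMap ks Ω x}) (algebraMap ks Ω w) ∧
      Sep k (algebraMap ks Ω x) (algebraMap ks Ω w / algebraMap ks Ω x ^ κ) := by
  classical
  set x' : Ω := algebraMap ks Ω x with hx'
  obtain ⟨F, hF, π, t, ht, hπ0, hπc, hπi⟩ := h2
  have hcz : CharZero ks := charZero_of_injective_algebraMap (algebraMap k ks).injective
  have hinf : Infinite k := inferInstance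
  let L : IntermediateField ks Ω := IntermediateField.adjoin ks {θ}
  have hθL : θ ∈ L := IntermediateField.mem_adjoin_simple_self ks θ
  have hθi : IsIntegral ks θ := hθ.isIntegral.tower_top
  have hfin : FiniteDimensional ks L := IntermediateField.adjoin.finiteDimensional hθi
  have hsep : Algebra.IsSeparable ks L := inferInstance
  have htow : IsScalarTower k L Ω := IsScalarTower.of_algebraMap_eq fun c => rfl
  let v' : L := ⟨v, hv⟩
  let θ' : L := ⟨θ, hθL⟩
  -- subalgebras generated by elements of ks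
  have hrange : ∀ (y : ks) (z : Ω), z ∈ Algebra.adjoin k {algebraMap ks Ω y} →
      ∃ z0 : ks, algebraMap ks Ω z0 = z := by
    intro y z hz
    induction hz using Algebra.adjoin_induction with
    | mem z hz =>
      rw [Set.mem_singleton_iff] at hz
      exact ⟨y, hz.symm⟩
    | algebraMap c => exact ⟨algebraMap k ks c, (IsScalarTower.algebraMap_apply k ks Ω c).symm⟩
    | add a b _ _ ha hb =>
      obtain ⟨a0, ha0⟩ := ha
      obtain ⟨b0, hb0⟩ := hb
      exact ⟨a0 + b0, by rw [map_add, ha0, hb0]⟩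
    | mul a b _ _ ha hb =>
      obtain ⟨a0, ha0⟩ := ha
      obtain ⟨b0, hb0⟩ := hb
      exact ⟨a0 * b0, by rw [map_mul, ha0, hb0]⟩
  have hmem : ∀ (y : ks) (z : Ω), z ∈ Algebra.adjoin k {algebraMap ks Ω y} → z ∈ L := by
    intro y z hz
    obtain ⟨z0, rfl⟩ := hrange y z hz
    exact L.algebraMap_mem z0
  let jj : ∀ y : ks, Algebra.adjoin k {algebraMap ks Ω y} →+* L := fun y =>
    { toFun := fun z => ⟨z, hmem y z z.2⟩
      map_one' := rfl
      map_zero' := rfl
      map_mul' := fun _ _ => rfl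
      map_add' := fun _ _ => rfl }
  have hjj1 : ∀ y, (algebraMap L Ω).comp (jj y) = algebraMap (Algebra.adjoin k {algebraMap ks Ω y}) Ω :=
    fun y => rfl
  have hjj2 : ∀ (s : L →ₐ[ks] Ω) (y), s.toRingHom.comp (jj y) =
      algebraMap (Algebra.adjoin k {algebraMap ks Ω y}) Ω := by
    intro s y
    apply RingHom.ext
    rintro ⟨z, hz⟩
    obtain ⟨z0, hz0⟩ := hrange y z hz
    have h3 : jj y ⟨z, hz⟩ = algebraMap ks L z0 := Subtype.ext hz0.symm
    change s (jj y ⟨z, hz⟩) = z
    rw [h3, s.commutes, hz0]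
  -- the conjugates of v
  have hvs1 : ∀ s : L →ₐ[ks] Ω, IsIntegral (Algebra.adjoin k {x'}) (s v') := fun s =>
    map_int (algebraMap L Ω) s.toRingHom (jj x) (hjj1 x) (hjj2 s x) (t := v') h1
  have hxinv : x'⁻¹ = algebraMap ks Ω x⁻¹ := (map_inv₀ _ _).symm
  have hvs2 : ∀ s : L →ₐ[ks] Ω, s v' / x' ^ κ ∈ TI k x' := by
    intro s
    have h3 : IsIntegral (Algebra.adjoin k {algebraMap ks Ω x⁻¹})
        (algebraMap L Ω (v' / algebraMap ks L x ^ κ)) := by
      have h4 : algebraMap L Ω (v' / algebraMap ks L x ^ κ) = t := by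
        rw [ht, map_div₀, map_pow]
        rfl
      rw [h4, ← hxinv]
      exact t.2
    have h5 := map_int (algebraMap L Ω) s.toRingHom (jj x⁻¹) (hjj1 _) (hjj2 s _) h3
    have h6 : s.toRingHom (v' / algebraMap ks L x ^ κ) = s v' / x' ^ κ := by
      change s (v' / algebraMap ks L x ^ κ) = _
      rw [map_div₀, map_pow, s.commutes]
    rw [h6, ← hxinv] at h5
    exact h5
  let tv : (L →ₐ[ks] Ω) → TI k x' := fun s => ⟨s v' / x' ^ κ, hvs2 s⟩
  -- the conjugates of θ
  have hθs : ∀ s : L →ₐ[ks] Ω, IsAlgebraic k (s θ') := by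
    intro s
    have h3 : IsAlgebraic k θ' := by
      obtain ⟨p, hp, hp0⟩ := hθ
      refine ⟨p, hp, Subtype.ext ?_⟩
      have h4 : algebraMap L Ω (aeval θ' p) = aeval (algebraMap L Ω θ') p :=
        (aeval_algebraMap_apply Ω θ' p).symm
      exact h4.trans hp0
    exact h3.algHom (s.restrictScalars k)
  let c0 : k →+* TI k x' :=
    { toFun := fun c => ⟨algebraMap k Ω c, alg_mem_TI x' (isAlgebraic_algebraMap c)⟩
      map_one' := Subtype.ext (map_one _)
      map_zero' := Subtype.ext (map_zero _)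
      map_mul' := fun a b => Subtype.ext (map_mul _ a b)
      map_add' := fun a b => Subtype.ext (map_add _ a b) }
  let ρ : (L →ₐ[ks] Ω) → (k[X] →+* TI k x') := fun s =>
    eval₂RingHom c0 ⟨s θ', alg_mem_TI x' (hθs s)⟩
  have hρ : ∀ s p, ((ρ s p : TI k x') : Ω) = aeval (s θ') p := by
    intro s p
    have h3 : ((algebraMap (TI k x') Ω).comp (ρ s)) = (aeval (s θ') : k[X] →ₐ[k] Ω).toRingHom := by
      apply ringHom_ext
      · intro c
        change ((ρ s (C c) : TI k x') : Ω) = aeval (s θ') (C c)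
        simp [ρ, c0]
      · change ((ρ s X : TI k x') : Ω) = aeval (s θ') (X : k[X])
        simp [ρ]
    exact RingHom.congr_fun h3 p
  have hρa : ∀ s p, IsAlgebraic k ((ρ s p : TI k x') : Ω) := by
    intro s p
    rw [hρ]
    have h3 : Algebra.adjoin k {s θ'} ≤ (algebraicClosure k Ω).toSubalgebra := by
      rw [Algebra.adjoin_le_iff]
      intro z hz
      rw [Set.mem_singleton_iff] at hz
      rw [hz]
      exact mem_algebraicClosure_iff.mpr (hθs s)
    exact mem_algebraicClosure_iff.mp (h3 (aeval_mem_adjoin_singleton k (s θ')))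
  -- the characters
  let χ : (L →ₐ[ks] Ω) → (k[X] →* F) := fun s => ((π 0).comp (ρ s) : k[X] →+* F)
  have hχ : ∀ s p, χ s p = π 0 (ρ s p) := fun s p => rfl
  have hχi : Function.Injective χ := by
    intro s s' hss
    have h3 : π 0 (ρ s X) = π 0 (ρ s' X) := by
      rw [← hχ, ← hχ, hss]
    have h4 := place_inj (π 0) (hρa s X) (hρa s' X) h3
    have h5 : s θ' = s' θ' := by
      have h6 := congrArg Subtype.val h4
      rw [hρ, hρ, aeval_X, aeval_X] at h6
      exact h6
    apply IntermediateField.adjoin_algHom_ext ks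
    intro z hz
    rw [Set.mem_singleton_iff] at hz
    subst hz
    exact h5
  have hlin : LinearIndependent F (fun s : L →ₐ[ks] Ω => (χ s : k[X] → F)) :=
    (linearIndependent_monoidHom k[X] F).comp χ hχi
  -- the linear forms
  let _ : Algebra k F := ((π 0).comp c0).toAlgebra
  have hπk : ∀ (c : k) (s) (p : k[X]), π 0 (ρ s (c • p)) = c • π 0 (ρ s p) := by
    intro c s p
    rw [smul_eq_C_mul, RingHom.map_mul, RingHom.map_mul, Algebra.smul_def]
    congr 1
    change π 0 (ρ s (C c)) = π 0 (c0 c)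
    congr 1
    apply Subtype.ext
    rw [hρ, aeval_C]
    rfl
  let Λ : Fin 3 → Fin 3 → (k[X] →ₗ[k] F) := fun i j =>
    { toFun := fun p => ∑ s : L →ₐ[ks] Ω, π 0 (ρ s p) * (π i (tv s) - π j (tv s))
      map_add' := by
        intro p q
        rw [← Finset.sum_add_distrib]
        apply Finset.sum_congr rfl
        intro s _
        rw [RingHom.map_add, RingHom.map_add, add_mul]
      map_smul' := by
        intro c p
        rw [Finset.smul_sum]
        apply Finset.sum_congr rfl
        intro s _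
        rw [hπk, smul_mul_assoc, RingHom.id_apply] }
  have hΛ : ∀ i j p, Λ i j p = ∑ s : L →ₐ[ks] Ω, π 0 (ρ s p) * (π i (tv s) - π j (tv s)) :=
    fun i j p => rfl
  have htv : tv L.val = t := by
    apply Subtype.ext
    rw [ht]
    rfl
  have hΛ0 : ∀ i j, i ≠ j → Λ i j ≠ 0 := by
    intro i j hij h0
    have h3 : ∑ s : L →ₐ[ks] Ω, (π i (tv s) - π j (tv s)) • (χ s : k[X] → F) = 0 := by
      funext p
      rw [Finset.sum_apply, Pi.zero_apply]
      have h4 : Λ i j p = 0 := by rw [h0]; rfl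
      rw [hΛ] at h4
      rw [← h4]
      apply Finset.sum_congr rfl
      intro s _
      rw [Pi.smul_apply, hχ, smul_eq_mul, mul_comm]
    have h5 := Fintype.linearIndependent_iff.mp hlin (fun s => π i (tv s) - π j (tv s)) h3 L.val
    rw [htv, sub_eq_zero] at h5
    exact hij (hπi h5)
  -- a polynomial outside the kernels
  let P : {q : Fin 3 × Fin 3 // q.1 ≠ q.2} → Submodule k k[X] := fun q => LinearMap.ker (Λ q.1.1 q.1.2)
  obtain ⟨p, hp⟩ : ∃ p : k[X], ∀ i j, i ≠ j → Λ i j p ≠ 0 := by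
    by_contra hno
    push Not at hno
    have hcov : ⋃ q, (P q : Set k[X]) = Set.univ := by
      rw [Set.eq_univ_iff_forall]
      intro p
      obtain ⟨i, j, hij, hp⟩ := hno p
      exact Set.mem_iUnion.mpr ⟨⟨(i, j), hij⟩, hp⟩
    obtain ⟨q, hq⟩ := Subspace.exists_eq_top_of_iUnion_eq_univ hcov
    exact hΛ0 _ _ q.2 (LinearMap.ker_eq_top.mp hq)
  -- the trace
  have hsae : ∀ s : L →ₐ[ks] Ω, s (aeval θ' p) = aeval (s θ') p := fun s =>
    (aeval_algHom_apply (s.restrictScalars k) θ' p).symm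
  have htr : algebraMap ks Ω (Algebra.trace ks L (aeval θ' p * v')) =
      ∑ s : L →ₐ[ks] Ω, aeval (s θ') p * s v' := by
    rw [trace_eq_sum_embeddings Ω]
    apply Finset.sum_congr rfl
    intro s _
    rw [map_mul, hsae]
  refine ⟨Algebra.trace ks L (aeval θ' p * v'), ?_, F, hF, π,
    ∑ s : L →ₐ[ks] Ω, ρ s p * tv s, ?_, hπ0, hπc, ?_⟩
  · rw [htr]
    apply IsIntegral.sum
    intro s _
    refine IsIntegral.mul ?_ (hvs1 s)
    have h3 := (hρa s p).isIntegral
    rw [hρ] at h3
    exact h3.tower_top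
  · rw [htr, Finset.sum_div]
    push_cast
    apply Finset.sum_congr rfl
    intro s _
    rw [hρ, mul_div_assoc]
  · intro i j hij
    by_contra hne
    apply hp i j hne
    rw [hΛ]
    have h3 : π i (∑ s : L →ₐ[ks] Ω, ρ s p * tv s) = π j (∑ s : L →ₐ[ks] Ω, ρ s p * tv s) := hij
    rw [map_sum, map_sum] at h3
    rw [← sub_eq_zero, ← Finset.sum_sub_distrib] at h3
    rw [← h3]
    apply Finset.sum_congr rfl
    intro s _
    rw [RingHom.map_mul, RingHom.map_mul, hπc i _ (hρa s p), hπc j _ (hρa s p), mul_sub]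

end Pool.Agent.H37.SI
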