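import Pool.Agent.H37.SI.Kum
import Pool.Agent.H37.SI.Trc
import Pool.Agent.H37.SI.Rts
import Pool.Agent.H37.SI.Nrm
import Pool.Agent.H37.SI.IntB

/-!
# ALL OF SIEGEL: the case of a cover
-/

namespace Pool.Agent.H37.SI

open Polynomial

private theorem int_up0 {E Ω : Type*} [Field E] [Field Ω] [Algebra E Ω] (K : IntermediateField E Ω)
    {z w : K} (h : IsIntegral (Algebra.adjoin E {z}) w) :
    IsIntegral (Algebra.adjoin E {(z : Ω)}) (w : Ω) := by
  obtain ⟨p, hp, hpw⟩ := h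
  have h1 : ∀ t : K, t ∈ Algebra.adjoin E {z} → (t : Ω) ∈ Algebra.adjoin E {(z : Ω)} := by
    intro t ht
    induction ht using Algebra.adjoin_induction with
    | mem t ht =>
      rw [Set.mem_singleton_iff] at ht
      subst ht
      exact Algebra.subset_adjoin rfl
    | algebraMap c => exact (Algebra.adjoin E {(z : Ω)}).algebraMap_mem c
    | add a b _ _ ha hb => exact add_mem ha hb
    | mul a b _ _ ha hb => exact mul_mem ha hb
  let j : Algebra.adjoin E {z} →+* Algebra.adjoin E {(z : Ω)} :=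
    { toFun := fun t => ⟨((t : K) : Ω), h1 t t.2⟩
      map_one' := rfl
      map_zero' := rfl
      map_mul' := fun _ _ => rfl
      map_add' := fun _ _ => rfl }
  refine ⟨p.map j, hp.map j, ?_⟩
  rw [eval₂_map]
  have h2 : (algebraMap (Algebra.adjoin E {(z : Ω)}) Ω).comp j =
      (algebraMap K Ω).comp (algebraMap (Algebra.adjoin E {z}) K) := rfl
  rw [h2]
  have h3 : (w : Ω) = algebraMap K Ω w := rfl
  rw [h3, ← hom_eval₂, hpw, map_zero]

/-- Integrality in an intermediate field. -/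
private theorem int_up {E Ω : Type*} [Field E] [Field Ω] [Algebra E Ω] (K : IntermediateField E Ω)
    {z w : K} (h : IsIntegral (Algebra.adjoin E {z}) w) {z' w' : Ω} (hz : (z : Ω) = z')
    (hw : (w : Ω) = w') : IsIntegral (Algebra.adjoin E {z'}) w' := by
  subst hz hw
  exact int_up0 K h

theorem fin_ext {E Ω : Type*} [Field E] [Field Ω] [Algebra E Ω] {x y : Ω}
    (hy : IsIntegral (Algebra.adjoin E {x}) y)
    (hxK : x ∈ IntermediateField.adjoin E ({x, y} : Set Ω))
    (hyK : y ∈ IntermediateField.adjoin E ({x, y} : Set Ω)) :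
    FiniteDimensional (IntermediateField.adjoin E
      ({(⟨x, hxK⟩ : IntermediateField.adjoin E ({x, y} : Set Ω))} :
        Set (IntermediateField.adjoin E ({x, y} : Set Ω))))
      (IntermediateField.adjoin E ({x, y} : Set Ω)) := by
  set K := IntermediateField.adjoin E ({x, y} : Set Ω) with hK
  set xK : K := ⟨x, hxK⟩ with hxK'
  set yK : K := ⟨y, hyK⟩ with hyK'
  set L := IntermediateField.adjoin E ({xK} : Set K) with hL
  obtain ⟨p, hp, hpy⟩ := exists_monic_ev hy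
  have h1 : ev xK yK p = 0 := by
    have h2 := ev_map (Ω := Ω) xK yK p
    have h3 : algebraMap K Ω xK = x := rfl
    have h4 : algebraMap K Ω yK = y := rfl
    rw [h3, h4, hpy] at h2
    exact (map_eq_zero _).mp h2.symm
  have hgen : xK ∈ L := IntermediateField.mem_adjoin_simple_self E xK
  have hint : IsIntegral L yK := by
    refine ⟨p.map (aeval (⟨xK, hgen⟩ : L) : E[X] →ₐ[E] L).toRingHom, hp.map _, ?_⟩
    rw [eval₂_map]
    have h2 : (algebraMap L K).comp (aeval (⟨xK, hgen⟩ : L) : E[X] →ₐ[E] L).toRingHom =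
        (aeval xK : E[X] →ₐ[E] K).toRingHom := by
      apply RingHom.ext
      intro q
      change algebraMap L K (aeval (⟨xK, hgen⟩ : L) q) = aeval xK q
      rw [← aeval_algebraMap_apply]
      rfl
    rw [h2]
    exact h1
  have htop : IntermediateField.adjoin L ({yK} : Set K) = ⊤ := by
    rw [eq_top_iff]
    rintro ⟨z, hz⟩ -
    have h2 : ∀ z (hz : z ∈ IntermediateField.adjoin E ({x, y} : Set Ω)),
        (⟨z, hz⟩ : K) ∈ IntermediateField.adjoin L ({yK} : Set K) := by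
      intro z hz
      induction hz using IntermediateField.adjoin_induction with
      | mem z hz =>
        rcases hz with rfl | hz
        · exact IntermediateField.algebraMap_mem _ (⟨xK, hgen⟩ : L)
        · rw [Set.mem_singleton_iff] at hz
          subst hz
          exact IntermediateField.mem_adjoin_simple_self L yK
      | algebraMap e =>
        exact IntermediateField.algebraMap_mem _ (algebraMap E L e)
      | add a b ha hb iha ihb => exact add_mem iha ihb
      | mul a b ha hb iha ihb => exact mul_mem iha ihb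
      | inv a ha iha => exact inv_mem iha
    exact h2 z hz
  have h3 : FiniteDimensional L (IntermediateField.adjoin L ({yK} : Set K)) :=
    IntermediateField.adjoin.finiteDimensional hint
  rw [htop] at h3
  exact Module.Finite.equiv (IntermediateField.topEquiv (F := L) (E := K)).toLinearEquiv

theorem cover {k ks Ω : Type} [Field k] [CharZero k] [Field ks] [Field Ω] [IsAlgClosed Ω]
    [Algebra k ks] [Algebra ks Ω] [Algebra k Ω] [IsScalarTower k ks Ω] (x : ks)
    (hx : Transcendental k x) (E : IntermediateField k Ω) (hEcl : IsAlgClosed E) (hcE : CharZero E)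
    (hEa : ∀ e ∈ E, IsAlgebraic k e) (hEa' : ∀ e : Ω, IsAlgebraic k e → e ∈ E)
    (hxk : Transcendental k (algebraMap ks Ω x)) (hxE : Transcendental E (algebraMap ks Ω x))
    (K : IntermediateField E Ω) (hxK : algebraMap ks Ω x ∈ K)
    (hfin : FiniteDimensional (IntermediateField.adjoin E ({(⟨algebraMap ks Ω x, hxK⟩ : K)} : Set K)) K)
    (l : ℕ) (f : K) (hl : l.Prime) (hl3 : 3 ≤ l) (hf0 : f ≠ 0) (hfn : ∀ h, f ≠ h ^ l)
    (hfV : ∀ V : ValuationSubring K, (∀ e : E, algebraMap E K e ∈ V) →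
      ∃ s, s ≠ 0 ∧ f * s ^ l ∈ V ∧ (f * s ^ l)⁻¹ ∈ V)
    (hCW : ∀ l : ℕ, 1 ≤ l → ∀ f f' p A B : Ω,
      (∀ z ∈ ({f, f', p, A, B} : Set Ω), z ∈ K) →
      (∀ z ∈ ({f, f', A, B} : Set Ω), IsIntegral (Algebra.adjoin E {algebraMap ks Ω x}) z) →
      f ≠ 0 → A * f + B * f' = 1 → f' = f * p ^ l →
      ∃ c ∈ E, c ≠ 0 ∧ ∃ v : Ω, v ^ l = c * f ∧ ∃ θ ∈ E, v ∈ IntermediateField.adjoin ks {θ}) :
    ∃ (w : ks) (κ : ℕ) (G : k[X][X]), Model x w κ G ∧ Three (lf κ G) := by
  classical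
  obtain ⟨x', hx'⟩ : ∃ x' : Ω, x' = algebraMap ks Ω x := ⟨_, rfl⟩
  have hxKt : Transcendental E (⟨algebraMap ks Ω x, hxK⟩ : K) := fun h => hxE (h.algebraMap (A := Ω))
  have hx0 : x' ≠ 0 := by
    intro h0
    apply hxk
    rw [← hx', h0]
    exact isAlgebraic_zero
  obtain ⟨s, θ, κ, hs, hθ, hθi, hθj, ⟨a0, b0, ha0, hb0, hab0⟩, θ', p, A, B, hθ', hA, hB, hθp, hAB⟩ :=
    exists_theta hxKt hfin l hl.one_lt.le f hf0 hfV
  have hθ0 : θ ≠ 0 := by
    rw [hθ]
    exact mul_ne_zero hf0 (pow_ne_zero _ hs)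
  have hθi1 : IsIntegral (Algebra.adjoin E {algebraMap ks Ω x}) (θ : Ω) := int_up K hθi rfl rfl
  have hθ'1 : IsIntegral (Algebra.adjoin E {algebraMap ks Ω x}) (θ' : Ω) := int_up K hθ' rfl rfl
  have hA1 : IsIntegral (Algebra.adjoin E {algebraMap ks Ω x}) (A : Ω) := int_up K hA rfl rfl
  have hB1 : IsIntegral (Algebra.adjoin E {algebraMap ks Ω x}) (B : Ω) := int_up K hB rfl rfl
  have hAB1 : (A : Ω) * θ + B * θ' = 1 := congrArg Subtype.val hAB
  have hθp1 : (θ' : Ω) = θ * (p : Ω) ^ l := congrArg Subtype.val hθp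
  have hθ1 : (θ : Ω) = f * (s : Ω) ^ l := congrArg Subtype.val hθ
  obtain ⟨c, hcE', hc0, v, hv, θ0, hθ0E, hvm⟩ := hCW l hl.one_lt.le (θ : Ω) (θ' : Ω) (p : Ω) (A : Ω)
    (B : Ω)
    (by
      intro z hz
      simp only [Set.mem_insert_iff, Set.mem_singleton_iff] at hz
      rcases hz with rfl | rfl | rfl | rfl | rfl
      · exact θ.2
      · exact θ'.2
      · exact p.2
      · exact A.2
      · exact B.2)
    (by
      intro z hz
      simp only [Set.mem_insert_iff, Set.mem_singleton_iff] at hz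
      rcases hz with rfl | rfl | rfl | rfl
      · exact hθi1
      · exact hθ'1
      · exact hA1
      · exact hB1)
    (fun h0 => hθ0 (Subtype.ext h0)) hAB1 hθp1
  have hcK : c ∈ K := K.algebraMap_mem ⟨c, hcE'⟩
  have hvl : v ^ l ∈ K := by
    rw [hv]
    exact mul_mem hcK θ.2
  have hn : ∀ h ∈ K, h ^ l ≠ v ^ l := by
    intro h hh heq
    obtain ⟨c', hc'⟩ := IsAlgClosed.exists_pow_nat_eq (⟨c, hcE'⟩ : E) hl.pos
    have hc'1 : (c' : Ω) ^ l = c := congrArg Subtype.val hc'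
    have hc'0 : algebraMap E K c' ≠ 0 := by
      intro h0
      rw [map_eq_zero] at h0
      apply hc0
      rw [← hc'1, h0]
      exact zero_pow hl.ne_zero
    apply hfn (⟨h, hh⟩ / (algebraMap E K c' * s))
    rw [div_pow, eq_div_iff (pow_ne_zero _ (mul_ne_zero hc'0 hs)), mul_pow]
    apply Subtype.ext
    change (f : Ω) * ((c' : Ω) ^ l * (s : Ω) ^ l) = h ^ l
    rw [heq, hv, hθ1, hc'1]
    ring
  have hvd : (v / x' ^ κ) ^ l = c * ((θ : Ω) / x' ^ (κ * l)) := by
    rw [div_pow, hv, ← pow_mul, mul_div_assoc]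
  have hci : ∀ z : Ω, IsIntegral (Algebra.adjoin k {z}) c := fun z => (hEa c hcE').isIntegral.tower_top
  have hθj1 : IsIntegral (Algebra.adjoin E {(algebraMap ks Ω x)⁻¹})
      ((θ : Ω) / algebraMap ks Ω x ^ (κ * l)) := int_up K hθj rfl rfl
  have ha1 : IsIntegral (Algebra.adjoin E {(algebraMap ks Ω x)⁻¹}) (a0 : Ω) := int_up K ha0 rfl rfl
  have hb1 : IsIntegral (Algebra.adjoin E {(algebraMap ks Ω x)⁻¹}) (b0 : Ω) := int_up K hb0 rfl rfl
  have hab1 : (a0 : Ω) * ((θ : Ω) / algebraMap ks Ω x ^ (κ * l)) + (b0 : Ω) * (algebraMap ks Ω x)⁻¹ = 1 :=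
    congrArg Subtype.val hab0
  rw [← hx'] at hθj1 ha1 hb1 hab1
  have hθj' : IsIntegral (Algebra.adjoin k {x'⁻¹}) ((θ : Ω) / x' ^ (κ * l)) := int_base E hEa hθj1
  have ht : v / x' ^ κ ∈ TI k x' := by
    have h1 : IsIntegral (Algebra.adjoin k {x'⁻¹}) ((v / x' ^ κ) ^ l) := by
      rw [hvd]
      exact (hci _).mul hθj'
    exact IsIntegral.of_pow hl.pos h1
  have hu : ∃ a b : TI k x', (a : Ω) * (v / x' ^ κ) ^ l + (b : Ω) * x'⁻¹ = 1 := by
    have ha2 : IsIntegral (Algebra.adjoin k {x'⁻¹}) (a0 : Ω) := int_base E hEa ha1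
    have hb2 : IsIntegral (Algebra.adjoin k {x'⁻¹}) (b0 : Ω) := int_base E hEa hb1
    have hc1 : IsIntegral (Algebra.adjoin k {x'⁻¹}) (c⁻¹ : Ω) :=
      (hEa c hcE').inv.isIntegral.tower_top
    refine ⟨⟨(a0 : Ω) * c⁻¹, ha2.mul hc1⟩, ⟨(b0 : Ω), hb2⟩, ?_⟩
    change (a0 : Ω) * c⁻¹ * (v / x' ^ κ) ^ l + (b0 : Ω) * x'⁻¹ = 1
    rw [hvd, ← hab1]
    congr 1
    rw [mul_assoc, inv_mul_cancel_left₀ hc0]
  have hsep : Sep k x' (v / x' ^ κ) :=
    sep_kummer x' (by rw [hx']; exact hxk) (K.restrictScalars k) (by rw [hx']; exact hxK)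
      (fun e he => K.algebraMap_mem ⟨e, hEa' e he⟩) l hl hl3 κ v hvl hn ht hu
  have hvi : IsIntegral (Algebra.adjoin k {x'}) v := by
    have h1 : IsIntegral (Algebra.adjoin k {x'}) (v ^ l) := by
      rw [hv]
      rw [← hx'] at hθi1
      exact (hci _).mul (int_base E hEa hθi1)
    exact IsIntegral.of_pow hl.pos h1
  rw [hx'] at hvi hsep
  obtain ⟨w, hw1, hw2⟩ := exists_trace x κ v θ0 (hEa θ0 hθ0E) hvm hvi hsep
  obtain ⟨G, hG1, hG2⟩ := exists_model_three hx κ hw1 hw2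
  exact ⟨w, κ, G, hG1, hG2⟩

end Pool.Agent.H37.SI
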