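import Mathlib

/-!
H37/SI/Cover [COVER]: covering [1,T] by short intervals.

PROOF. cover: with X0 = floor(sqrt T) + 1, L = floor(T^(del/2)) ≥ 1 (T large), every a in [X0, T] is in one of the intervals
[X_j, X_j + L], X_j = X0 + j L, 0 ≤ j ≤ T/L, with X_j ≤ a ≤ T, and L ≤ X_j^del because X_j ≥ sqrt T. Use only the j with X_j ≤ T.
E = [1, X0] ∪ union over these j of the E_j of main_short for X_j (X_j ≥ sqrt T ≥ C; b ≤ T ≤ X_j^2). Number of j ≤ T/L + 1, so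
card E ≤ X0 + J (T/L + 1) ≤ sqrt T + 1 + J (2 T^(1-del/2) + 1) ≤ T^(1 - del/4) for T large (L ≥ T^(del/2)/2; del ≤ 1/4).
-/

namespace H37SI

theorem cover (C0 J : ℕ) (del : ℝ) (hdel : 0 < del) (hdel4 : del ≤ 1 / 4) :
    ∃ T0 : ℕ, ∀ T : ℕ, T0 ≤ T → ∀ Good : ℕ → Prop,
      (∀ X : ℕ, C0 ≤ X → T ≤ X ^ 2 → X ≤ T → ∃ E : Finset ℕ, E.card ≤ J ∧
        ∀ a : ℕ, X ≤ a → (a : ℝ) ≤ X + (X : ℝ) ^ del → a ∉ E → Good a) →
      ∃ E : Finset ℕ, (E.card : ℝ) ≤ (T : ℝ) ^ (1 - del / 4) ∧ ∀ a : ℕ, 1 ≤ a → a ≤ T → a ∉ E → Good a := by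
  classical
  obtain ⟨T1, hT1⟩ := exists_nat_ge (((2 : ℝ) + 3 * J) ^ (4 / del))
  refine ⟨T1 + C0 ^ 2 + 4, fun T hT Good H => ?_⟩
  have hTn4 : 4 ≤ T := by omega
  have hTr4 : (4 : ℝ) ≤ (T : ℝ) := by exact_mod_cast hTn4
  have hTpos : (0 : ℝ) < (T : ℝ) := by linarith
  have hT1' : (T1 : ℝ) ≤ (T : ℝ) := by
    have : T1 ≤ T := by omega
    exact_mod_cast this
  have hJ0 : (0 : ℝ) ≤ (J : ℝ) := Nat.cast_nonneg J
  have hbase : (0 : ℝ) ≤ (2 : ℝ) + 3 * J := by linarith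
  -- T^(del/4) ≥ 2 + 3 J
  have hq : (2 : ℝ) + 3 * J ≤ (T : ℝ) ^ (del / 4) := by
    have h1 : ((2 : ℝ) + 3 * J) ^ (4 / del) ≤ (T : ℝ) := le_trans hT1 hT1'
    have h2 := Real.rpow_le_rpow (Real.rpow_nonneg hbase _) h1 (by positivity : (0 : ℝ) ≤ del / 4)
    rw [← Real.rpow_mul hbase] at h2
    have h3 : 4 / del * (del / 4) = 1 := by field_simp
    rw [h3, Real.rpow_one] at h2
    exact h2
  have hqsq : (T : ℝ) ^ (del / 2) = (T : ℝ) ^ (del / 4) * (T : ℝ) ^ (del / 4) := by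
    rw [← Real.rpow_add hTpos]; congr 1; ring
  have hhalf : (2 : ℝ) ≤ (T : ℝ) ^ (del / 2) := by
    rw [hqsq]; nlinarith
  set L : ℕ := ⌊(T : ℝ) ^ (del / 2)⌋₊ with hL
  have hLle : (L : ℝ) ≤ (T : ℝ) ^ (del / 2) := Nat.floor_le (by positivity)
  have hLge : (T : ℝ) ^ (del / 2) / 2 ≤ (L : ℝ) := by
    have := Nat.lt_floor_add_one ((T : ℝ) ^ (del / 2))
    rw [← hL] at this
    linarith
  have hLpos : 0 < L := by
    have : (0 : ℝ) < (L : ℝ) := by linarith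
    exact_mod_cast this
  have hLposr : (0 : ℝ) < (L : ℝ) := by exact_mod_cast hLpos
  set X0 : ℕ := Nat.sqrt T + 1 with hX0
  have hX0sq : T ≤ X0 ^ 2 := by
    have := Nat.lt_succ_sqrt T
    rw [hX0, sq]
    exact this.le
  have hC0 : C0 ≤ X0 := by
    by_contra hcon
    push Not at hcon
    have h1 : X0 ^ 2 ≤ C0 ^ 2 := Nat.pow_le_pow_left hcon.le 2
    omega
  have hsq : (Nat.sqrt T : ℝ) ≤ (T : ℝ) ^ ((1 : ℝ) / 2) := by
    rw [← Real.sqrt_eq_rpow]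
    exact Real.nat_sqrt_le_real_sqrt
  -- monotonicity of the power
  have hXdel : ∀ X : ℕ, X0 ≤ X → (L : ℝ) ≤ (X : ℝ) ^ del := by
    intro X hX
    have h1 : (T : ℝ) ^ ((1 : ℝ) / 2) ≤ (X : ℝ) := by
      rw [← Real.sqrt_eq_rpow]
      rw [Real.sqrt_le_left (by positivity)]
      have h2 : T ≤ X ^ 2 := le_trans hX0sq (Nat.pow_le_pow_left hX 2)
      exact_mod_cast h2
    have h2 := Real.rpow_le_rpow (by positivity) h1 hdel.le
    rw [← Real.rpow_mul hTpos.le] at h2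
    have h3 : (1 : ℝ) / 2 * del = del / 2 := by ring
    rw [h3] at h2
    linarith
  have Hch : ∀ X : ℕ, ∃ E : Finset ℕ, E.card ≤ J ∧ (X0 ≤ X → X ≤ T →
      ∀ a : ℕ, X ≤ a → (a : ℝ) ≤ X + (X : ℝ) ^ del → a ∉ E → Good a) := by
    intro X
    by_cases hX : X0 ≤ X ∧ X ≤ T
    · obtain ⟨E, hE1, hE2⟩ := H X (le_trans hC0 hX.1)
        (le_trans hX0sq (Nat.pow_le_pow_left hX.1 2)) hX.2
      exact ⟨E, hE1, fun _ _ => hE2⟩
    · refine ⟨∅, by simp, fun h1 h2 => absurd ⟨h1, h2⟩ hX⟩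
  choose Ef hEf1 hEf2 using Hch
  refine ⟨Finset.Icc 1 X0 ∪ (Finset.range (T / L + 1)).biUnion (fun j => Ef (X0 + j * L)), ?_, ?_⟩
  · have hcard : (Finset.Icc 1 X0 ∪ (Finset.range (T / L + 1)).biUnion
        (fun j => Ef (X0 + j * L))).card ≤ X0 + (T / L + 1) * J := by
      refine le_trans (Finset.card_union_le _ _) ?_
      refine Nat.add_le_add (by simp) ?_
      refine le_trans (Finset.card_biUnion_le) ?_
      refine le_trans (Finset.sum_le_sum (fun j _ => hEf1 (X0 + j * L))) ?_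
      simp
    have hcard' : ((Finset.Icc 1 X0 ∪ (Finset.range (T / L + 1)).biUnion
        (fun j => Ef (X0 + j * L))).card : ℝ) ≤ (X0 : ℝ) + ((T / L : ℕ) + 1) * J := by
      exact_mod_cast hcard
    refine le_trans hcard' ?_
    have hP : (T : ℝ) ^ (1 - del / 4) = (T : ℝ) ^ (1 - del / 2) * (T : ℝ) ^ (del / 4) := by
      rw [← Real.rpow_add hTpos]; congr 1; ring
    have hP1 : (1 : ℝ) ≤ (T : ℝ) ^ (1 - del / 2) :=
      Real.one_le_rpow (by linarith) (by linarith)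
    have hdiv : (T : ℝ) / (L : ℝ) ≤ 2 * (T : ℝ) ^ (1 - del / 2) := by
      rw [div_le_iff₀ hLposr]
      have h5 : (T : ℝ) = (T : ℝ) ^ (1 - del / 2) * (T : ℝ) ^ (del / 2) := by
        rw [← Real.rpow_add hTpos]
        have : 1 - del / 2 + del / 2 = 1 := by ring
        rw [this, Real.rpow_one]
      nlinarith
    have hdiv2 : ((T / L : ℕ) : ℝ) ≤ 2 * (T : ℝ) ^ (1 - del / 2) :=
      le_trans Nat.cast_div_le hdiv
    have hX0r : (X0 : ℝ) ≤ 2 * (T : ℝ) ^ (1 - del / 2) := by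
      have h6 : (T : ℝ) ^ ((1 : ℝ) / 2) ≤ (T : ℝ) ^ (1 - del / 2) :=
        Real.rpow_le_rpow_of_exponent_le (by linarith) (by linarith)
      have h7 : (X0 : ℝ) = (Nat.sqrt T : ℝ) + 1 := by rw [hX0]; push_cast; ring
      rw [h7]
      linarith
    rw [hP]
    have h8 : (T : ℝ) ^ (1 - del / 2) * ((2 : ℝ) + 3 * J) ≤
        (T : ℝ) ^ (1 - del / 2) * (T : ℝ) ^ (del / 4) :=
      mul_le_mul_of_nonneg_left hq (by linarith)
    have h9 : (((T / L : ℕ) : ℝ) + 1) * J ≤ (3 * (T : ℝ) ^ (1 - del / 2)) * J :=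
      mul_le_mul_of_nonneg_right (by linarith) hJ0
    nlinarith
  · intro a ha1 haT haE
    rw [Finset.mem_union, not_or] at haE
    obtain ⟨hb1, hb2⟩ := haE
    have haX0 : X0 ≤ a := by
      by_contra hcon
      exact hb1 (Finset.mem_Icc.2 ⟨ha1, by omega⟩)
    set j := (a - X0) / L with hj
    have hj1 : j * L ≤ a - X0 := Nat.div_mul_le_self _ _
    have hj2 : a - X0 < (j + 1) * L := by
      have := Nat.lt_div_mul_add (a := a - X0) hLpos
      rw [← hj] at this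
      linarith [this, Nat.succ_mul j L]
    have hjT : j < T / L + 1 := by
      have : j ≤ T / L := by
        rw [hj]; exact Nat.div_le_div_right (by omega)
      omega
    have hXa : X0 + j * L ≤ a := by omega
    have haU : a ≤ X0 + j * L + L := by
      have : (j + 1) * L = j * L + L := by ring
      omega
    refine hEf2 (X0 + j * L) (by omega) (by omega) a hXa ?_ ?_
    · have h1 := hXdel (X0 + j * L) (by omega)
      have h2 : (a : ℝ) ≤ ((X0 + j * L : ℕ) : ℝ) + (L : ℝ) := by exact_mod_cast haU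
      linarith
    · intro hmem
      exact hb2 (Finset.mem_biUnion.2 ⟨j, Finset.mem_range.2 hjT, hmem⟩)

end H37SI
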