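import Pool.Agent.H4.AR.LogH
import Pool.Agent.H4.AR.RootN

/-!
H37/SI/CurveG [CURVEG]: a large integer pair (X,Y) with a small value of Phi(b X^n, a Y^n) gives an approximation of exponent 14/5
(version of curve_exc2 in Pool/Agent/H4/AR/CurveF.lean with d (nD - 3) instead of d (nD - 4) - 1; adapt its proof).

Phi(u,v) = sum_{i ≤ D} P_i u^i v^(D-i), D = natDegree P.

PROOF. K ≥ 1 larger than the constants of near_root and growth and than 1/s, s from root_sep. M = max(|X|,|Y|) ≥ (T U)^C,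
V = |Phi(b X^n, a Y^n)|, V^d ≤ U M^(d(nD-3)).
(i) Y ≠ 0: otherwise V ≥ M^(nD), V^d ≥ M^(ndD) > U M^(d(nD-3)).
(ii) rho = b X^n/(a Y^n): V = |P(rho)| (a |Y|^n)^D. If |rho| ≥ K: V ≥ M^(nD)/2, contradiction as in (i). So |rho| < K,
M ≤ K T |Y|.
(iii) |P(rho)|^d = V^d/(a|Y|^n)^(dD) ≤ U (KT)^(nDd) M^(-3d), |P(rho)| ≤ eps0 := U (KT)^(nD) M^(-3), tiny.
near_root: real root y with |rho - y| ≤ K eps0 < s/2; |y| ≥ s, X ≠ 0, rho has the sign of y. th = |y|, r = |X|/|Y| > 0,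
|b r^n - th a| ≤ T K eps0 ≤ M^(-14/5) ≤ ht(r)^(-14/5), ht(r) ≤ M.
(iv) If b r^n = th a: first alternative. Otherwise P(rho) ≠ 0, (a q^n)^D P(rho) is a nonzero integer (r = p/q), so
(T q^n)^D ≥ 1/eps0 ≥ T^D M^2, ht(r)^(nD) ≥ q^(nD) ≥ M^2 ≥ M and ≥ T^(CN n D).
-/

namespace H37SI

open H4AR

private theorem hom_eq (P : Polynomial ℤ) (x y : ℝ) (hy : y ≠ 0) :
    ∑ i ∈ Finset.range (P.natDegree + 1), ((P.coeff i : ℤ) : ℝ) * x ^ i * y ^ (P.natDegree - i) =
      y ^ P.natDegree * Polynomial.aeval (x / y) P := by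
  rw [Polynomial.aeval_eq_sum_range, Finset.mul_sum]
  refine Finset.sum_congr rfl fun i hi => ?_
  have hi' : i ≤ P.natDegree := by simpa [Nat.lt_succ_iff] using hi
  rw [zsmul_eq_mul, div_pow]
  have h : y ^ P.natDegree = y ^ (P.natDegree - i) * y ^ i := by
    rw [← pow_add, Nat.sub_add_cancel hi']
  rw [h]
  field_simp

private theorem hom_zero (P : Polynomial ℤ) (x : ℝ) :
    ∑ i ∈ Finset.range (P.natDegree + 1), ((P.coeff i : ℤ) : ℝ) * x ^ i * (0 : ℝ) ^ (P.natDegree - i) =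
      ((P.coeff P.natDegree : ℤ) : ℝ) * x ^ P.natDegree := by
  rw [Finset.sum_eq_single P.natDegree]
  · simp
  · intro i hi hne
    have hi' : i ≤ P.natDegree := by simpa [Nat.lt_succ_iff] using hi
    have : P.natDegree - i ≠ 0 := by omega
    rw [zero_pow this, mul_zero]
  · intro h
    exact absurd (Finset.mem_range.mpr (Nat.lt_succ_self _)) h

/-- a nonzero value at a rational point is not too small -/
private theorem val_low (P : Polynomial ℤ) (u v : ℤ) (hv : 0 < v)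
    (h : Polynomial.aeval ((u : ℝ) / (v : ℝ)) P ≠ 0) :
    1 ≤ (v : ℝ) ^ P.natDegree * |Polynomial.aeval ((u : ℝ) / (v : ℝ)) P| := by
  have hv' : (0 : ℝ) < v := by exact_mod_cast hv
  have h1 := hom_eq P (u : ℝ) (v : ℝ) hv'.ne'
  have h2 : ((∑ i ∈ Finset.range (P.natDegree + 1), P.coeff i * u ^ i * v ^ (P.natDegree - i) : ℤ) : ℝ) =
      (v : ℝ) ^ P.natDegree * Polynomial.aeval ((u : ℝ) / (v : ℝ)) P := by
    rw [← h1]
    push_cast
    rfl
  have h3 : (∑ i ∈ Finset.range (P.natDegree + 1), P.coeff i * u ^ i * v ^ (P.natDegree - i) : ℤ) ≠ 0 := by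
    intro h0
    rw [h0, Int.cast_zero] at h2
    exact mul_ne_zero (pow_ne_zero _ hv'.ne') h h2.symm
  have h4 : (1 : ℝ) ≤ |((∑ i ∈ Finset.range (P.natDegree + 1),
      P.coeff i * u ^ i * v ^ (P.natDegree - i) : ℤ) : ℝ)| := by
    rw [← Int.cast_abs]
    exact_mod_cast Int.one_le_abs h3
  rw [h2, abs_mul, abs_pow, abs_of_pos hv'] at h4
  exact h4

theorem curve_exc3 (n d : ℕ) (hn : 2 ≤ n) (hd : 1 ≤ d) (P : Polynomial ℤ) (hP0 : P.coeff 0 ≠ 0)
    (hsq : Squarefree (P.map (Int.castRingHom ℚ))) (hnD : 3 ≤ n * P.natDegree) (CN : ℕ) :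
    ∃ C : ℕ, ∀ T : ℕ, C ≤ T → ∀ b a : ℕ, 1 ≤ b → b ≤ T → 1 ≤ a → a ≤ T → ∀ U : ℝ, 1 ≤ U →
      ∀ X Y : ℤ, ((T : ℝ) * U) ^ C ≤ max |(X : ℝ)| |(Y : ℝ)| →
      |∑ i ∈ Finset.range (P.natDegree + 1),
        ((P.coeff i : ℤ) : ℝ) * ((b : ℝ) * (X : ℝ) ^ n) ^ i * ((a : ℝ) * (Y : ℝ) ^ n) ^ (P.natDegree - i)| ^ d ≤
        U * (max |(X : ℝ)| |(Y : ℝ)|) ^ (d * (n * P.natDegree - 3)) →
      ∃ th : ℝ, 0 < th ∧ (Polynomial.aeval th P = 0 ∨ Polynomial.aeval (-th) P = 0) ∧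
        ((∃ r : ℚ, 0 < r ∧ (b : ℝ) * (r : ℝ) ^ n = th * (a : ℝ)) ∨
          ∃ r : ℚ, Exc n b a th (14 / 5) ((T : ℝ) ^ CN) r ∧ ht r ≤ max |(X : ℝ)| |(Y : ℝ)| ∧
            max |(X : ℝ)| |(Y : ℝ)| ≤ ht r ^ (n * P.natDegree)) := by
  classical
  have hP : P ≠ 0 := by rintro rfl; simp at hP0
  obtain ⟨K1, hK1, near⟩ := near_root P hP hsq
  obtain ⟨K2, hK2, grow⟩ := growth P hP
  obtain ⟨s, hs, hs1, hs2⟩ := root_sep P hP hP0
  obtain ⟨κ, hκ⟩ := exists_nat_ge (K1 + K2 + 4 / s)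
  have hs0 : 0 < 4 / s := by positivity
  have hκ1 : K1 ≤ (κ : ℝ) := by linarith
  have hκ2 : K2 ≤ (κ : ℝ) := by linarith
  have hκ3 : 4 / s ≤ (κ : ℝ) := by linarith
  have hκ4 : (1 : ℝ) ≤ κ := by linarith
  set D := P.natDegree with hD
  set N := n * D with hN
  have hD0 : 0 < D := by
    rcases Nat.eq_zero_or_pos D with h | h
    · rw [hN, h] at hnD
      omega
    · exact h
  refine ⟨κ + CN * N + 4 * N + D + 10 + (10 * N + 15), ?_⟩
  intro T hT b a hb hbT ha haT U hU X Y hM hΦ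
  set M := max |(X : ℝ)| |(Y : ℝ)| with hMdef
  have hT1 : (1 : ℝ) ≤ T := by
    have : 1 ≤ T := by omega
    exact_mod_cast this
  have hTκ : (κ : ℝ) ≤ T := by
    have : κ ≤ T := by omega
    exact_mod_cast this
  have hT2 : (2 : ℝ) ≤ T := by
    have : 2 ≤ T := by omega
    exact_mod_cast this
  have hb1 : (1 : ℝ) ≤ b := by exact_mod_cast hb
  have ha1 : (1 : ℝ) ≤ a := by exact_mod_cast ha
  have haT' : (a : ℝ) ≤ T := by exact_mod_cast haT
  have hbT' : (b : ℝ) ≤ T := by exact_mod_cast hbT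
  set W := (T : ℝ) * U with hW
  have hTW : (T : ℝ) ≤ W := le_mul_of_one_le_right (by linarith) hU
  have hUW : U ≤ W := le_mul_of_one_le_left (by linarith) hT1
  have hκW : (κ : ℝ) ≤ W := hTκ.trans hTW
  have hW2 : (2 : ℝ) ≤ W := hT2.trans hTW
  have hW1 : (1 : ℝ) ≤ W := by linarith
  have pw0 : ∀ e : ℕ, e ≤ κ + CN * N + 4 * N + D + 10 + (10 * N + 15) → W ^ e ≤ M := fun e he =>
    (pow_le_pow_right₀ hW1 he).trans hM
  have pw : ∀ e : ℕ, e ≤ κ + CN * N + 4 * N + D + 10 → W ^ e ≤ M := fun e he =>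
    pw0 e (he.trans (Nat.le_add_right _ _))
  have hM1 : 1 ≤ M := by simpa using pw 0 (Nat.zero_le _)
  have hM0 : 0 < M := by linarith
  have hMW2 : W ^ 2 ≤ M := pw 2 (by omega)
  have hM2U : 2 * U < M := by
    have h1 : 2 * U ≤ W * W := mul_le_mul hW2 hUW (by linarith) (by linarith)
    have h2 : W ^ 3 ≤ M := pw 3 (by omega)
    have h3 : W ^ 2 < W ^ 3 := pow_lt_pow_right₀ (by linarith) (by norm_num)
    calc 2 * U ≤ W * W := h1
      _ = W ^ 2 := (sq W).symm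
      _ < W ^ 3 := h3
      _ ≤ M := h2
  have hd0 : (0 : ℝ) < d := by exact_mod_cast hd
  have hM2 : (2 : ℝ) ≤ M := hW2.trans (by simpa using pw 1 (by omega))
  obtain ⟨Nd, hNd⟩ : ∃ Nd : ℕ, Nd = d * (N - 3) := ⟨_, rfl⟩
  have hNdN : Nd + 3 * d = N * d := by
    have h1 : N = N - 3 + 3 := by omega
    have h3 : N * d = d * (N - 3) + 3 * d := by
      conv_lhs => rw [h1]
      ring
    omega
  have hMN : M ^ (N * d) = M ^ Nd * M ^ (3 * d) := by rw [← pow_add, hNdN]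
  rw [← hNd] at hΦ
  obtain ⟨Q, hQ⟩ : ∃ Q : ℝ, Q = M ^ 3 := ⟨_, rfl⟩
  have hQ0 : 0 < Q := by rw [hQ]; positivity
  have hQd : Q ^ d = M ^ (3 * d) := by
    rw [hQ, ← pow_mul]
  have hMQ : M ≤ Q := by
    rw [hQ]
    exact le_self_pow₀ hM1 (by norm_num)
  -- a lower bound M^N / 2 for the form is impossible
  have big : ∀ V : ℝ, M ^ N / 2 ≤ V → V ^ d ≤ U * M ^ Nd → False := by
    intro V h1 h2
    have h3 : (M ^ N / 2) ^ d ≤ V ^ d := pow_le_pow_left₀ (by positivity) h1 d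
    rw [div_pow, ← pow_mul, hMN] at h3
    have h4 : 0 < M ^ Nd := by positivity
    have h5 : M ^ Nd * M ^ (3 * d) ≤ M ^ Nd * (2 ^ d * U) := by
      have h6 := h3.trans h2
      rw [div_le_iff₀ (by positivity)] at h6
      linarith
    have h7 : M ^ (3 * d) ≤ 2 ^ d * U := le_of_mul_le_mul_left h5 h4
    have h8 : (2 : ℝ) ^ d * (2 * U) < M ^ (3 * d) := by
      have h9 : (2 : ℝ) ^ d ≤ M ^ (2 * d) := by
        rw [pow_mul]
        exact pow_le_pow_left₀ (by norm_num) (hM2.trans (le_self_pow₀ hM1 (by norm_num))) d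
      have h9' : M ≤ M ^ d := le_self_pow₀ hM1 (by omega)
      have h9'' : M ^ (3 * d) = M ^ (2 * d) * M ^ d := by
        rw [← pow_add]
        congr 1
        ring
      rw [h9'']
      exact mul_lt_mul' h9 (hM2U.trans_le h9') (by linarith) (by positivity)
    have h10 : (0 : ℝ) < 2 ^ d * U := by positivity
    linarith
  -- Y ≠ 0
  have hY : Y ≠ 0 := by
    rintro rfl
    have hMX : M = |(X : ℝ)| := by
      rw [hMdef]; simp
    have h1 : ∑ i ∈ Finset.range (D + 1), ((P.coeff i : ℤ) : ℝ) * ((b : ℝ) * (X : ℝ) ^ n) ^ i *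
        ((a : ℝ) * ((0 : ℤ) : ℝ) ^ n) ^ (D - i) = ((P.coeff D : ℤ) : ℝ) * ((b : ℝ) * (X : ℝ) ^ n) ^ D := by
      have h2 : (a : ℝ) * ((0 : ℤ) : ℝ) ^ n = 0 := by
        rw [Int.cast_zero, zero_pow (by omega), mul_zero]
      rw [h2]
      exact hom_zero P _
    rw [h1, abs_mul, abs_pow, abs_mul, abs_pow, ← hMX] at hΦ
    have h3 : (1 : ℝ) ≤ |((P.coeff D : ℤ) : ℝ)| := by
      have : P.coeff D ≠ 0 := by
        rw [hD]
        exact Polynomial.leadingCoeff_ne_zero.mpr hP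
      rw [← Int.cast_abs]
      exact_mod_cast Int.one_le_abs this
    have h4 : M ^ n ≤ |(b : ℝ)| * M ^ n := by
      rw [abs_of_pos (by linarith)]
      exact le_mul_of_one_le_left (by positivity) hb1
    have h5 : M ^ N ≤ (|(b : ℝ)| * M ^ n) ^ D := by
      rw [hN, pow_mul]
      exact pow_le_pow_left₀ (by positivity) h4 D
    have h6 : M ^ N ≤ |((P.coeff D : ℤ) : ℝ)| * (|(b : ℝ)| * M ^ n) ^ D :=
      h5.trans (le_mul_of_one_le_left (by positivity) h3)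
    have h7 : 0 < M ^ N := by positivity
    exact big _ (by linarith) hΦ
  have hYR : (Y : ℝ) ≠ 0 := by exact_mod_cast hY
  have hYa : 0 < |(Y : ℝ)| := abs_pos.mpr hYR
  have hy0 : (a : ℝ) * (Y : ℝ) ^ n ≠ 0 := mul_ne_zero (by linarith) (pow_ne_zero _ hYR)
  rw [hom_eq P _ _ hy0] at hΦ
  set ρ := (b : ℝ) * (X : ℝ) ^ n / ((a : ℝ) * (Y : ℝ) ^ n) with hρ
  set v := Polynomial.aeval ρ P with hv
  have hyabs : |(a : ℝ) * (Y : ℝ) ^ n| = (a : ℝ) * |(Y : ℝ)| ^ n := by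
    rw [abs_mul, abs_pow, abs_of_pos (by linarith)]
  have hxabs : |(b : ℝ) * (X : ℝ) ^ n| = (b : ℝ) * |(X : ℝ)| ^ n := by
    rw [abs_mul, abs_pow, abs_of_pos (by linarith)]
  have hxy : |ρ| * ((a : ℝ) * |(Y : ℝ)| ^ n) = (b : ℝ) * |(X : ℝ)| ^ n := by
    rw [← hyabs, ← hxabs, hρ, abs_div]
    exact div_mul_cancel₀ _ (abs_ne_zero.mpr hy0)
  rw [abs_mul, abs_pow, hyabs] at hΦ
  have hYn : |(Y : ℝ)| ^ n ≤ (a : ℝ) * |(Y : ℝ)| ^ n := le_mul_of_one_le_left (by positivity) ha1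
  have hXn : |(X : ℝ)| ^ n ≤ (b : ℝ) * |(X : ℝ)| ^ n := le_mul_of_one_le_left (by positivity) hb1
  -- |rho| < kappa
  have hρκ : |ρ| < κ := by
    by_contra hcon
    push Not at hcon
    have h1 : |ρ| ^ D / 2 ≤ |v| := grow ρ (hκ2.trans hcon)
    have h2 : M ^ n ≤ (b : ℝ) * |(X : ℝ)| ^ n := by
      rcases max_choice |(X : ℝ)| |(Y : ℝ)| with h | h
      · rw [hMdef, h]
        exact hXn
      · rw [hMdef, h, ← hxy]
        refine hYn.trans (le_mul_of_one_le_left (by positivity) (hκ4.trans hcon))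
    have h3 : M ^ N / 2 ≤ ((a : ℝ) * |(Y : ℝ)| ^ n) ^ D * |v| := by
      calc M ^ N / 2 = (M ^ n) ^ D / 2 := by rw [hN, pow_mul]
        _ ≤ ((b : ℝ) * |(X : ℝ)| ^ n) ^ D / 2 := by
            have := pow_le_pow_left₀ (by positivity) h2 D
            linarith
        _ = ((a : ℝ) * |(Y : ℝ)| ^ n) ^ D * (|ρ| ^ D / 2) := by rw [← hxy, mul_pow]; ring
        _ ≤ _ := mul_le_mul_of_nonneg_left h1 (by positivity)
    exact big _ h3 hΦ
  -- M ≤ kappa T |Y|
  have hκT : 1 ≤ (κ : ℝ) * T := one_le_mul_of_one_le_of_one_le hκ4 hT1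
  have hMY : M ≤ (κ : ℝ) * T * |(Y : ℝ)| := by
    rcases max_choice |(X : ℝ)| |(Y : ℝ)| with h | h
    · rw [hMdef, h]
      refine le_of_pow_le_pow_left₀ (n := n) (by omega) (by positivity) ?_
      calc |(X : ℝ)| ^ n ≤ (b : ℝ) * |(X : ℝ)| ^ n := hXn
        _ = |ρ| * ((a : ℝ) * |(Y : ℝ)| ^ n) := hxy.symm
        _ ≤ (κ : ℝ) * ((T : ℝ) * |(Y : ℝ)| ^ n) :=
            mul_le_mul hρκ.le (mul_le_mul_of_nonneg_right haT' (by positivity)) (by positivity) (by positivity)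
        _ = ((κ : ℝ) * T) * |(Y : ℝ)| ^ n := by ring
        _ ≤ ((κ : ℝ) * T) ^ n * |(Y : ℝ)| ^ n :=
            mul_le_mul_of_nonneg_right (le_self_pow₀ hκT (by omega)) (by positivity)
        _ = _ := by ring
    · rw [hMdef, h]
      exact le_mul_of_one_le_left (by positivity) hκT
  -- E
  set E := U * ((κ : ℝ) * T) ^ N with hE
  have hE0 : 0 < E := by positivity
  have hEW : E ≤ W ^ (2 * N + 1) := by
    calc E ≤ W * (W * W) ^ N := mul_le_mul hUW
            (pow_le_pow_left₀ (by positivity) (mul_le_mul hκW hTW (by linarith) (by linarith)) N)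
            (by positivity) (by linarith)
      _ = W ^ (2 * N + 1) := by rw [← pow_two, ← pow_mul]; ring
  have hvE : |v| ≤ E / Q := by
    rw [le_div_iff₀ hQ0]
    refine le_of_pow_le_pow_left₀ (n := d) (by omega) hE0.le ?_
    rw [mul_pow, hQd]
    have h1 : M ^ (N * d) ≤ (((κ : ℝ) * T) ^ N * |(Y : ℝ)| ^ N) ^ d := by
      rw [← mul_pow, ← pow_mul]
      exact pow_le_pow_left₀ hM0.le hMY (N * d)
    have h2 : (|(Y : ℝ)| ^ N * |v|) ^ d ≤ U * M ^ Nd := by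
      refine le_trans (pow_le_pow_left₀ (by positivity)
        (mul_le_mul_of_nonneg_right ?_ (abs_nonneg v)) d) hΦ
      rw [hN, pow_mul]
      exact pow_le_pow_left₀ (by positivity) hYn D
    have h3 : M ^ (N * d) * |v| ^ d ≤ (((κ : ℝ) * T) ^ N) ^ d * (U * M ^ Nd) := by
      calc M ^ (N * d) * |v| ^ d ≤ (((κ : ℝ) * T) ^ N * |(Y : ℝ)| ^ N) ^ d * |v| ^ d :=
            mul_le_mul_of_nonneg_right h1 (by positivity)
        _ = (((κ : ℝ) * T) ^ N) ^ d * (|(Y : ℝ)| ^ N * |v|) ^ d := by ring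
        _ ≤ _ := mul_le_mul_of_nonneg_left h2 (by positivity)
    have h4 : 0 < M ^ Nd := by positivity
    refine le_of_mul_le_mul_left ?_ h4
    have h5 : U ≤ U ^ d := le_self_pow₀ hU (by omega)
    calc M ^ Nd * (|v| ^ d * M ^ (3 * d)) = M ^ (N * d) * |v| ^ d := by rw [hMN]; ring
      _ ≤ _ := h3
      _ ≤ (((κ : ℝ) * T) ^ N) ^ d * (U ^ d * M ^ Nd) :=
          mul_le_mul_of_nonneg_left (mul_le_mul_of_nonneg_right h5 h4.le) (by positivity)
      _ = M ^ Nd * E ^ d := by rw [hE, mul_pow]; ring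
  -- kappa E / M^5 < s / 4 and < 1
  have hsmall : (κ : ℝ) * (E / Q) * κ < 1 := by
    have h1 : (κ : ℝ) * E * κ ≤ W ^ (2 * N + 3) := by
      calc (κ : ℝ) * E * κ ≤ W * W ^ (2 * N + 1) * W :=
            mul_le_mul (mul_le_mul hκW hEW hE0.le (by linarith)) hκW (by positivity) (by positivity)
        _ = _ := by ring
    have h2 : W ^ (2 * N + 4) ≤ M := pw _ (by omega)
    have h3 : W ^ (2 * N + 3) < W ^ (2 * N + 4) := pow_lt_pow_right₀ (by linarith) (by omega)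
    have h4 : (κ : ℝ) * E * κ < Q := by linarith
    calc (κ : ℝ) * (E / Q) * κ = (κ : ℝ) * E * κ / Q := by ring
      _ < 1 := (div_lt_one (by positivity)).mpr h4
  have hsmall1 : E / Q < 1 / κ := by
    rw [lt_div_iff₀ (by linarith)]
    have h1 : 0 < E / Q := by positivity
    have h2 : E / Q * κ ≤ (κ : ℝ) * (E / Q) * κ := by
      have : E / Q ≤ (κ : ℝ) * (E / Q) := le_mul_of_one_le_left h1.le hκ4
      exact mul_le_mul_of_nonneg_right this (by linarith)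
    linarith
  have hsmall2 : (κ : ℝ) * (E / Q) < s / 4 := by
    have h1 : 4 ≤ κ * s := by
      rw [div_le_iff₀ hs] at hκ3
      linarith
    have h2 : 0 < (κ : ℝ) * (E / Q) := by positivity
    by_contra hcon
    push Not at hcon
    have h3 : s / 4 * κ ≤ (κ : ℝ) * (E / Q) * κ := mul_le_mul_of_nonneg_right hcon (by linarith)
    linarith
  -- the root
  obtain ⟨y, hyroot, hyd⟩ : ∃ y : ℝ, Polynomial.aeval y P = 0 ∧ |ρ - y| ≤ (κ : ℝ) * (E / Q) := by
    rcases near ρ with h | ⟨y, h1, h2⟩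
    · exfalso
      have h3 : 1 / (κ : ℝ) ≤ 1 / K1 := one_div_le_one_div_of_le (by linarith) hκ1
      linarith
    · refine ⟨y, h1, h2.trans ?_⟩
      exact mul_le_mul hκ1 hvE (abs_nonneg _) (by linarith)
  have hys := hs1 y hyroot
  have hρ0 : ρ ≠ 0 := by
    intro h0
    rw [h0, zero_sub, abs_neg] at hyd
    linarith
  have hX : X ≠ 0 := by
    rintro rfl
    apply hρ0
    rw [hρ, Int.cast_zero, zero_pow (by omega), mul_zero, zero_div]
  have hXR : (X : ℝ) ≠ 0 := by exact_mod_cast hX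
  have hth : 0 < |y| := by linarith
  refine ⟨|y|, hth, ?_, ?_⟩
  · rcases abs_choice y with h | h
    · left; rw [h]; exact hyroot
    · right; rw [h, neg_neg]; exact hyroot
  -- the rational number
  set r' : ℚ := (X : ℚ) / (Y : ℚ) with hr'
  have hr'0 : r' ≠ 0 := div_ne_zero (by exact_mod_cast hX) (by exact_mod_cast hY)
  have hr'R : ((r' : ℚ) : ℝ) = (X : ℝ) / (Y : ℝ) := by rw [hr']; push_cast; rfl
  have hrpos : 0 < |r'| := abs_pos.mpr hr'0
  have hrR : ((|r'| : ℚ) : ℝ) = |(X : ℝ)| / |(Y : ℝ)| := by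
    rw [Rat.cast_abs, hr'R, abs_div]
  have hρr : (b : ℝ) * ((|r'| : ℚ) : ℝ) ^ n = |ρ| * a := by
    rw [hrR, div_pow]
    have h1 : |(Y : ℝ)| ^ n ≠ 0 := pow_ne_zero _ hYa.ne'
    field_simp
    linarith [hxy]
  have hdiff : |(b : ℝ) * ((|r'| : ℚ) : ℝ) ^ n - |y| * (a : ℝ)| ≤ (T : ℝ) * (κ * (E / Q)) := by
    rw [hρr, ← sub_mul, abs_mul, abs_of_pos (show (0 : ℝ) < a by linarith), mul_comm]
    exact mul_le_mul haT' ((abs_abs_sub_abs_le_abs_sub ρ y).trans hyd) (abs_nonneg _) (by linarith)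
  by_cases hEq : (b : ℝ) * ((|r'| : ℚ) : ℝ) ^ n = |y| * (a : ℝ)
  · left
    exact ⟨|r'|, hrpos, hEq⟩
  right
  have hhtM : ht |r'| ≤ M := by
      unfold ht
      rw [Rat.den_abs_eq_den, Rat.num_abs_eq_abs_num, Int.cast_abs, abs_abs]
      refine max_le ?_ ?_
      · have h1 : r'.num ∣ X := by
          have := Rat.num_dvd X hY
          rwa [Rat.divInt_eq_div] at this
        have h2 : r'.num.natAbs ≤ X.natAbs :=
          Nat.le_of_dvd (Int.natAbs_pos.mpr hX) (Int.natAbs_dvd_natAbs.mpr h1)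
        have h3 : |(r'.num : ℝ)| ≤ |(X : ℝ)| := by
          rw [← Int.cast_abs, ← Int.cast_abs, Int.abs_eq_natAbs, Int.abs_eq_natAbs]
          exact_mod_cast h2
        exact h3.trans (le_max_left _ _)
      · have h1 : (r'.den : ℤ) ∣ Y := by
          have := Rat.den_dvd X Y
          rwa [Rat.divInt_eq_div] at this
        have h2 : r'.den ≤ Y.natAbs :=
          Nat.le_of_dvd (Int.natAbs_pos.mpr hY) (Int.natCast_dvd.mp h1)
        have h3 : (r'.den : ℝ) ≤ |(Y : ℝ)| := by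
          rw [← Int.cast_abs, Int.abs_eq_natAbs]
          exact_mod_cast h2
        exact h3.trans (le_max_right _ _)
  have hht1 : 1 ≤ ht |r'| := one_le_ht _
  have hqht : (r'.den : ℝ) ≤ ht |r'| := by
    unfold ht
    refine le_trans ?_ (le_max_right _ _)
    rw [Rat.den_abs_eq_den]
  have hden : 1 ≤ (r'.den : ℝ) := by exact_mod_cast r'.den_pos
  have hkey : M ^ 2 ≤ (r'.den : ℝ) ^ N := by
    have hv0 : v ≠ 0 := by
      intro hv0
      have h1 : ρ = y := by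
        by_contra hne
        have := hs2 ρ y hv0 hyroot hne
        linarith
      apply hEq
      rw [hρr, h1]
    have hq : (0 : ℤ) < (a : ℤ) * (r'.den : ℤ) ^ n := by
      have h1 : (0 : ℤ) < r'.den := by exact_mod_cast r'.den_pos
      have h2 : (0 : ℤ) < a := by exact_mod_cast ha
      positivity
    have hρq : ρ = (((b : ℤ) * r'.num ^ n : ℤ) : ℝ) / (((a : ℤ) * (r'.den : ℤ) ^ n : ℤ) : ℝ) := by
      have h1 : ((r' : ℚ) : ℝ) = (r'.num : ℝ) / (r'.den : ℝ) := by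
        exact_mod_cast congrArg (fun q : ℚ => (q : ℝ)) (Rat.num_div_den r').symm
      have h2 : ρ = (b : ℝ) * ((r' : ℚ) : ℝ) ^ n / a := by
        rw [hρ, hr'R, div_pow]
        have h3 : (Y : ℝ) ^ n ≠ 0 := pow_ne_zero _ hYR
        field_simp
      rw [h2, h1, div_pow]
      push_cast
      have h4 : ((r'.den : ℕ) : ℝ) ^ n ≠ 0 := by
        have : (0 : ℝ) < r'.den := by exact_mod_cast r'.den_pos
        positivity
      field_simp
    have h5 := val_low P ((b : ℤ) * r'.num ^ n) ((a : ℤ) * (r'.den : ℤ) ^ n) hq (by rw [← hρq]; exact hv0)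
    rw [← hρq, ← hv, ← hD] at h5
    push_cast at h5
    set q : ℝ := (r'.den : ℝ) with hqdef
    have hq1 : 1 ≤ q := by
      rw [hqdef]
      exact_mod_cast r'.den_pos
    have h6 : Q ≤ (T : ℝ) ^ D * q ^ N * E := by
      have h7 : ((a : ℝ) * q ^ n) ^ D ≤ (T : ℝ) ^ D * q ^ N := by
        rw [hN, pow_mul, ← mul_pow]
        exact pow_le_pow_left₀ (by positivity) (mul_le_mul_of_nonneg_right haT' (by positivity)) D
      have h8 : 1 ≤ (T : ℝ) ^ D * q ^ N * (E / Q) :=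
        h5.trans (mul_le_mul h7 hvE (abs_nonneg _) (by positivity))
      have h9 : (T : ℝ) ^ D * q ^ N * (E / Q) = (T : ℝ) ^ D * q ^ N * E / Q := by ring
      rw [h9, le_div_iff₀ (by positivity), one_mul] at h8
      exact h8
    have h10 : (T : ℝ) ^ D * E ≤ M := by
      calc (T : ℝ) ^ D * E ≤ W ^ D * W ^ (2 * N + 1) :=
            mul_le_mul (pow_le_pow_left₀ (by linarith) hTW D) hEW hE0.le (by positivity)
        _ = W ^ (D + (2 * N + 1)) := (pow_add W D (2 * N + 1)).symm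
        _ ≤ M := pw _ (by omega)
    have h12 : Q ≤ M * q ^ N := by
      calc Q ≤ (T : ℝ) ^ D * q ^ N * E := h6
        _ = ((T : ℝ) ^ D * E) * q ^ N := by ring
        _ ≤ M * q ^ N := mul_le_mul_of_nonneg_right h10 (by positivity)
    refine le_of_mul_le_mul_left ?_ hM0
    calc M * M ^ 2 = Q := by rw [hQ]; ring
      _ ≤ _ := h12
  have hMq : M ≤ (r'.den : ℝ) ^ N := (le_self_pow₀ hM1 (by norm_num)).trans hkey
  refine ⟨|r'|, ⟨hrpos, ?_, ?_⟩, hhtM, ?_⟩
  · refine le_trans ?_ hqht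
    by_contra hcon
    push Not at hcon
    have h14 : (r'.den : ℝ) ^ N < ((T : ℝ) ^ CN) ^ N := pow_lt_pow_left₀ hcon (by linarith) (by omega)
    have h15 : ((T : ℝ) ^ CN) ^ N ≤ M := by
      rw [← pow_mul]
      exact (pow_le_pow_left₀ (by linarith) hTW _).trans (pw _ (by omega))
    linarith
  · have h1 : M ^ (-(14 / 5) : ℝ) ≤ (ht |r'|) ^ (-(14 / 5) : ℝ) :=
      Real.rpow_le_rpow_of_nonpos (by linarith) hhtM (by norm_num)
    refine le_trans (hdiff.trans ?_) h1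
    have h2 : (T : ℝ) * κ * E ≤ M ^ ((1 : ℝ) / 5) := by
      have h3 : ((T : ℝ) * κ * E) ^ 5 ≤ M := by
        calc ((T : ℝ) * κ * E) ^ 5 ≤ (W * W * W ^ (2 * N + 1)) ^ 5 :=
              pow_le_pow_left₀ (by positivity)
                (mul_le_mul (mul_le_mul hTW hκW (by linarith) (by linarith)) hEW hE0.le (by positivity)) _
          _ = W ^ (10 * N + 15) := by
              have h5 : W * W * W ^ (2 * N + 1) = W ^ (2 * N + 3) := by ring
              rw [h5, ← pow_mul]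
              congr 1
              ring
          _ ≤ M := pw0 _ (by omega)
      have h5 : (((T : ℝ) * κ * E) ^ 5) ^ ((1 : ℝ) / 5) ≤ M ^ ((1 : ℝ) / 5) :=
        Real.rpow_le_rpow (by positivity) h3 (by positivity)
      refine le_trans (le_of_eq ?_) h5
      rw [← Real.rpow_natCast, ← Real.rpow_mul (by positivity)]
      norm_num
    have h4 : M ^ ((1 : ℝ) / 5) / Q = M ^ (-(14 / 5) : ℝ) := by
      rw [hQ, ← Real.rpow_natCast, ← Real.rpow_sub hM0]
      congr 1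
      norm_num
    calc (T : ℝ) * (κ * (E / Q)) = (T : ℝ) * κ * E / Q := by ring
      _ ≤ M ^ ((1 : ℝ) / 5) / Q := div_le_div_of_nonneg_right h2 (by positivity)
      _ = _ := h4
  · exact hMq.trans (pow_le_pow_left₀ (by linarith) hqht _)

end H37SI
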