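import Pool.Agent.H4.AR.RothDef
import Pool.Agent.H4.AR.Shift

/-!
H37/SI/Def: definitions for the project ShortIntervals (MP_821da1_nt, proposal 188, helper37).

Every interval [X, X + X^del] contains at most J exceptional a (notation of H4/AR). Idea: the radicals
xi (1 + c/X)^(1/n), |c| ≤ X^del, are the values at w = 1/X of the functions xi (1 + c w)^(1/n), which all coincide
at w = 0. Auxiliary polynomials F(w; x_0..x_(m-1)): variables `Fin (m+1)`, the LAST variable is w, `l.castSucc` is x_l.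

* `bs n`        the power series (1+X)^(1/n) over the rationals, `bsR n` the same over the reals
* `Cv s p`      the real power series p converges absolutely at radius s; `Nm s p` = sum |p_k| s^k
* `Sh w p`      Taylor shift p(w + X) of a convergent power series
* `GK n c xi F K`  the series sum over e of F_e prod_l (binom(e_l, K_l) xi^(e_l - K_l)) w^(e_w) prod_l (1 + c_l w)^(e_l/n)
* `ct X c l`    c_l / (1 + c_l/X)
* `ZJ n X c r F J`  coefficient of tau^(J_w) prod u_l^(J_l) in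
                F(1/X + tau; r_l (1 + ct_l tau)^(1/n) (1 + u_l)^(1/n)), a rational number
* `Rp n c S`    the polynomial S(w^n; (1 + c_l w) x_l)
-/

namespace H37SI

open MvPolynomial H4AR

/-- the power series (1+X)^(1/n) over the rationals -/
noncomputable def bs (n : ℕ) : PowerSeries ℚ := PowerSeries.binomialSeries ℚ ((n : ℚ)⁻¹)

/-- the power series (1+X)^(1/n) over the reals -/
noncomputable def bsR (n : ℕ) : PowerSeries ℝ := PowerSeries.map (algebraMap ℚ ℝ) (bs n)

/-- absolute convergence at radius s -/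
def Cv (s : ℝ) (p : PowerSeries ℝ) : Prop := Summable fun k => |PowerSeries.coeff k p| * s ^ k

/-- the norm at radius s -/
noncomputable def Nm (s : ℝ) (p : PowerSeries ℝ) : ℝ := ∑' k, |PowerSeries.coeff k p| * s ^ k

/-- Taylor shift of a convergent power series -/
noncomputable def Sh (w : ℝ) (p : PowerSeries ℝ) : PowerSeries ℝ :=
  PowerSeries.mk fun j => ∑' k, PowerSeries.coeff k p * (k.choose j : ℝ) * w ^ (k - j)

/-- `N^k` times the k-th coefficient is an integer for all k -/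
def IntS (N : ℚ) (p : PowerSeries ℚ) : Prop := ∀ k, ∃ z : ℤ, N ^ k * PowerSeries.coeff k p = z

/-- the series G_K -/
noncomputable def GK {m : ℕ} (n : ℕ) (c : Fin m → ℤ) (xi : ℝ) (F : MvPolynomial (Fin (m + 1)) ℤ)
    (K : Fin m → ℕ) : PowerSeries ℝ :=
  ∑ e ∈ F.support, PowerSeries.C (((F.coeff e : ℤ) : ℝ) *
      ∏ l : Fin m, (((e l.castSucc).choose (K l) : ℝ) * xi ^ (e l.castSucc - K l))) *
    (PowerSeries.X ^ (e (Fin.last m)) * ∏ l : Fin m, (PowerSeries.rescale (c l : ℝ) (bsR n)) ^ (e l.castSucc))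

/-- c_l / (1 + c_l/X) -/
noncomputable def ct {m : ℕ} (X : ℕ) (c : Fin m → ℤ) (l : Fin m) : ℚ := (c l : ℚ) * X / (X + c l)

/-- coefficient of tau^(J_w) prod u_l^(J_l) in F(1/X + tau; r_l (1 + ct_l tau)^(1/n) (1 + u_l)^(1/n)) -/
noncomputable def ZJ {m : ℕ} (n X : ℕ) (c : Fin m → ℤ) (r : Fin m → ℚ) (F : MvPolynomial (Fin (m + 1)) ℤ)
    (J : Fin (m + 1) →₀ ℕ) : ℚ :=
  ∑ e ∈ F.support, ((F.coeff e : ℤ) : ℚ) *
    (∏ l : Fin m, (r l ^ (e l.castSucc) * PowerSeries.coeff (J l.castSucc) ((bs n) ^ (e l.castSucc)))) *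
    PowerSeries.coeff (J (Fin.last m)) ((PowerSeries.C ((X : ℚ)⁻¹) + PowerSeries.X) ^ (e (Fin.last m)) *
      ∏ l : Fin m, (PowerSeries.rescale (ct X c l) (bs n)) ^ (e l.castSucc))

/-- the substitution x_l := (1 + c_l w) x_l, w := w^n -/
noncomputable def Rs {m : ℕ} (n : ℕ) (c : Fin m → ℤ) : Fin (m + 1) → MvPolynomial (Fin (m + 1)) ℤ :=
  Fin.snoc (fun l : Fin m => (1 + C (c l) * X (Fin.last m)) * X l.castSucc) (X (Fin.last m) ^ n)

/-- the polynomial S(w^n; (1 + c_l w) x_l) -/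
noncomputable def Rp {m : ℕ} (n : ℕ) (c : Fin m → ℤ) (S : MvPolynomial (Fin (m + 1)) ℤ) :
    MvPolynomial (Fin (m + 1)) ℤ :=
  MvPolynomial.aeval (Rs n c) S

/-- the rational point (r_l^n / (1 + c_l/X); 1/X) -/
noncomputable def Pt {m : ℕ} (n X : ℕ) (c : Fin m → ℤ) (r : Fin m → ℚ) : Fin (m + 1) → ℚ :=
  Fin.snoc (fun l : Fin m => r l ^ n * X / (X + c l)) ((X : ℚ)⁻¹)

end H37SI
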