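import Pool.Agent.H37.SI.Pl

/-!
# ALL OF SIEGEL: extension of homomorphisms along integral extensions
-/

namespace Pool.Agent.H37.SI

open Polynomial

/-- A homomorphism to an algebraically closed field extends along an injective integral extension. -/
theorem ext_hom {A B F : Type*} [CommRing A] [CommRing B] [Algebra A B] [Algebra.IsIntegral A B]
    (hinj : Function.Injective (algebraMap A B)) [Field F] [IsAlgClosed F] (f : A →+* F) :
    ∃ g : B →+* F, g.comp (algebraMap A B) = f := by
  classical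
  have hP : (RingHom.ker f).IsPrime := RingHom.ker_isPrime f
  obtain ⟨Q, -, hQ, hQP⟩ := Ideal.exists_ideal_over_prime_of_isIntegral (S := B) (RingHom.ker f) ⊥ (by
    intro a ha
    have h1 : algebraMap A B a = 0 := by simpa using ha
    have h2 : a = 0 := hinj (by rw [h1, map_zero])
    rw [h2]
    exact Ideal.zero_mem _)
  let f' : A ⧸ Q.comap (algebraMap A B) →+* F := Ideal.Quotient.lift (Q.comap (algebraMap A B)) f (by
    intro a ha
    rw [hQP] at ha
    exact ha)
  have hf' : Function.Injective f' := by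
    rw [injective_iff_map_eq_zero]
    intro a ha
    obtain ⟨a, rfl⟩ := Ideal.Quotient.mk_surjective a
    have ha' : f a = 0 := ha
    rw [Ideal.Quotient.eq_zero_iff_mem, hQP]
    exact ha'
  let _ : Algebra (A ⧸ Q.comap (algebraMap A B)) F := f'.toAlgebra
  have hd1 : IsDomain (A ⧸ Q.comap (algebraMap A B)) := Ideal.Quotient.isDomain _
  have hd2 : IsDomain (B ⧸ Q) := Ideal.Quotient.isDomain _
  have hi : Function.Injective (algebraMap (A ⧸ Q.comap (algebraMap A B)) (B ⧸ Q)) :=
    Ideal.algebraMap_quotient_injective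
  have h3 : FaithfulSMul (A ⧸ Q.comap (algebraMap A B)) (B ⧸ Q) :=
    (faithfulSMul_iff_algebraMap_injective _ _).mpr hi
  have h4 : FaithfulSMul (A ⧸ Q.comap (algebraMap A B)) F :=
    (faithfulSMul_iff_algebraMap_injective _ _).mpr hf'
  have h5 : Algebra.IsIntegral (A ⧸ Q.comap (algebraMap A B)) (B ⧸ Q) := inferInstance
  have h6 : Algebra.IsAlgebraic (A ⧸ Q.comap (algebraMap A B)) (B ⧸ Q) :=
    ⟨fun b => (h5.isIntegral b).isAlgebraic⟩
  have h7 : Module.IsTorsionFree (A ⧸ Q.comap (algebraMap A B)) (B ⧸ Q) :=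
    Module.isTorsionFree_iff_algebraMap_injective.mpr hi
  have h8 : Module.IsTorsionFree (A ⧸ Q.comap (algebraMap A B)) F :=
    Module.isTorsionFree_iff_algebraMap_injective.mpr hf'
  let g' : (B ⧸ Q) →ₐ[A ⧸ Q.comap (algebraMap A B)] F := IsAlgClosed.lift
  refine ⟨g'.toRingHom.comp (Ideal.Quotient.mk Q), ?_⟩
  ext a
  have h1 : algebraMap (A ⧸ Q.comap (algebraMap A B)) (B ⧸ Q) (Ideal.Quotient.mk _ a) =
    Ideal.Quotient.mk Q (algebraMap A B a) := rfl
  have h2 := g'.commutes (Ideal.Quotient.mk _ a)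
  rw [h1] at h2
  exact h2

end Pool.Agent.H37.SI
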