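import Mathlib

/-!
H37/SI/FinIneq [FININEQ]: pure real arithmetic: the upper and the lower bound for ZJ contradict each other.

All quantities are logarithms. M = m + 1, hw = log X ≥ 1, DD the scale. dl_l = d_l, hl_l = log height of r_l, Jw, Jl the
orders, lX = sum over l of d_l, lF = log l1 F, lZ = log |ZJ|.
lower: 0 ≤ lZ + [dw hw + sum d_l log den_l + Jw (2 log n + sum_l log(X + c_l)) + 2 (sum J_l) log n],
  log den_l ≤ hl_l, log(X + c_l) ≤ 2 hw, log n ≤ hw.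
upper: lZ ≤ (m+1) log 2 + (sum d_l) log(32 Xi^2) + lF + Jw hw - (M + sig) DD + sum J_l g_l, log(32 Xi^2) ≤ 9 hw, g_l ≤ kap hl_l.
Input: dw hw ≤ DD, d_l hl_l ≤ DD, Jw ≤ iota dw, J_l ≤ iota d_l, hw ≤ hl_l, sum d_l hw ≤ mu DD, lF ≤ mu DD, m+1 ≤ mu DD,
iota (4m + 3 + m kap) ≤ sig/4, 11 mu ≤ sig/4.
PROOF. lower: lZ ≥ -(DD + m DD + iota DD (2 + 2m) + 2 iota m DD) (2 (sum J_l) log n ≤ 2 iota (sum d_l) hw ≤ 2 iota sum d_l hl_l ≤
2 iota m DD). upper: lZ ≤ mu DD + 9 mu DD + mu DD + iota DD - (M + sig) DD + iota kap m DD. So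
sig DD ≤ (11 mu + iota (4m + 3 + m kap)) DD ≤ sig/2 DD, contradiction as DD > 0, sig > 0.
-/

namespace H37SI

theorem fin_ineq (m : ℕ) (kap sig iota mu DD hw lZ lF dw Jw ln : ℝ) (dl hl Jl ld lc g : Fin m → ℝ) (lXi : ℝ)
    (hDD : 0 < DD) (hsig : 0 < sig) (hi : 0 ≤ iota) (hkap : 0 ≤ kap) (hw0 : 0 ≤ hw) (hln0 : 0 ≤ ln) (hln : ln ≤ hw)
    (hdw : dw * hw ≤ DD) (hdw0 : 0 ≤ dw) (hdl0 : ∀ l, 0 ≤ dl l) (hdl : ∀ l, dl l * hl l ≤ DD)
    (hld : ∀ l, ld l ≤ hl l) (hlc : ∀ l, lc l ≤ 2 * hw) (hJw0 : 0 ≤ Jw) (hJw : Jw ≤ iota * dw)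
    (hJl0 : ∀ l, 0 ≤ Jl l) (hJl : ∀ l, Jl l ≤ iota * dl l) (hhl : ∀ l, hw ≤ hl l)
    (hg0 : ∀ l, 0 ≤ g l) (hg : ∀ l, g l ≤ kap * hl l) (hXi : lXi ≤ 9 * hw)
    (hmu : (∑ l, dl l) * hw ≤ mu * DD) (hF : lF ≤ mu * DD) (hm : ((m : ℝ) + 1) ≤ mu * DD)
    (hi2 : iota * (4 * m + 3 + m * kap) ≤ sig / 4) (hmu2 : 11 * mu ≤ sig / 4)
    (hlow : 0 ≤ lZ + (dw * hw + ∑ l, dl l * ld l + Jw * (2 * ln + ∑ l, lc l) + 2 * (∑ l, Jl l) * ln))
    (hup : lZ ≤ (m + 1) * Real.log 2 + (∑ l, dl l) * lXi + lF + Jw * hw - ((m : ℝ) + 1 + sig) * DD +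
      ∑ l, Jl l * g l) : False := by
  have hm0 : (0 : ℝ) ≤ m := Nat.cast_nonneg m
  have hsumc : ∀ c : ℝ, ∑ _l : Fin m, c = m * c := by
    intro c
    rw [Finset.sum_const, Finset.card_univ, Fintype.card_fin, nsmul_eq_mul]
  have a1 : ∑ l, dl l * ld l ≤ m * DD := by
    rw [← hsumc]
    refine Finset.sum_le_sum fun l _ => ?_
    exact (mul_le_mul_of_nonneg_left (hld l) (hdl0 l)).trans (hdl l)
  have a2 : ∑ l, lc l ≤ m * (2 * hw) := by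
    rw [← hsumc]
    exact Finset.sum_le_sum fun l _ => hlc l
  have hJwh : Jw * hw ≤ iota * DD := by
    calc Jw * hw ≤ (iota * dw) * hw := mul_le_mul_of_nonneg_right hJw hw0
      _ = iota * (dw * hw) := by ring
      _ ≤ iota * DD := mul_le_mul_of_nonneg_left hdw hi
  have a3 : Jw * (2 * ln + ∑ l, lc l) ≤ (2 + 2 * m) * (iota * DD) := by
    calc Jw * (2 * ln + ∑ l, lc l) ≤ Jw * ((2 + 2 * m) * hw) := by
          apply mul_le_mul_of_nonneg_left _ hJw0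
          linarith
      _ = (2 + 2 * m) * (Jw * hw) := by ring
      _ ≤ (2 + 2 * m) * (iota * DD) := mul_le_mul_of_nonneg_left hJwh (by linarith)
  have hJlh : ∀ l, Jl l * hl l ≤ iota * DD := by
    intro l
    have h0 : 0 ≤ hl l := le_trans hw0 (hhl l)
    calc Jl l * hl l ≤ (iota * dl l) * hl l := mul_le_mul_of_nonneg_right (hJl l) h0
      _ = iota * (dl l * hl l) := by ring
      _ ≤ iota * DD := mul_le_mul_of_nonneg_left (hdl l) hi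
  have a4 : (∑ l, Jl l) * ln ≤ m * (iota * DD) := by
    rw [Finset.sum_mul, ← hsumc]
    refine Finset.sum_le_sum fun l _ => ?_
    calc Jl l * ln ≤ Jl l * hl l := mul_le_mul_of_nonneg_left (hln.trans (hhl l)) (hJl0 l)
      _ ≤ iota * DD := hJlh l
  have b1 : ((m : ℝ) + 1) * Real.log 2 ≤ mu * DD := by
    have h2 : Real.log 2 ≤ 1 := by
      have := Real.log_two_lt_d9
      linarith
    calc ((m : ℝ) + 1) * Real.log 2 ≤ ((m : ℝ) + 1) * 1 :=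
          mul_le_mul_of_nonneg_left h2 (by linarith)
      _ = (m : ℝ) + 1 := mul_one _
      _ ≤ mu * DD := hm
  have b2 : (∑ l, dl l) * lXi ≤ 9 * (mu * DD) := by
    have h0 : 0 ≤ ∑ l, dl l := Finset.sum_nonneg fun l _ => hdl0 l
    calc (∑ l, dl l) * lXi ≤ (∑ l, dl l) * (9 * hw) := mul_le_mul_of_nonneg_left hXi h0
      _ = 9 * ((∑ l, dl l) * hw) := by ring
      _ ≤ 9 * (mu * DD) := by linarith
  have b3 : ∑ l, Jl l * g l ≤ m * (kap * (iota * DD)) := by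
    rw [← hsumc]
    refine Finset.sum_le_sum fun l _ => ?_
    calc Jl l * g l ≤ Jl l * (kap * hl l) := mul_le_mul_of_nonneg_left (hg l) (hJl0 l)
      _ = kap * (Jl l * hl l) := by ring
      _ ≤ kap * (iota * DD) := mul_le_mul_of_nonneg_left (hJlh l) hkap
  have e1 : iota * (4 * m + 3 + m * kap) * DD ≤ sig / 4 * DD :=
    mul_le_mul_of_nonneg_right hi2 hDD.le
  have e2 : 11 * mu * DD ≤ sig / 4 * DD := mul_le_mul_of_nonneg_right hmu2 hDD.le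
  have e3 : 0 < sig * DD := mul_pos hsig hDD
  nlinarith

end H37SI
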