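import Mathlib

/-!
# ALL OF SIEGEL: elements of `E(x, y)` lie in `ks(θ)` for one algebraic `θ`
-/

namespace Pool.Agent.H37.SI

open Polynomial IntermediateField

theorem exists_prim {k Ω : Type*} [Field k] [CharZero k] [Field Ω] [Algebra k Ω] {α β : Ω}
    (hα : IsAlgebraic k α) (hβ : IsAlgebraic k β) :
    ∃ γ : Ω, IsAlgebraic k γ ∧ α ∈ k⟮γ⟯ ∧ β ∈ k⟮γ⟯ := by
  classical
  have hfin : FiniteDimensional k (IntermediateField.adjoin k ({α, β} : Set Ω)) := by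
    apply IntermediateField.finiteDimensional_adjoin
    intro z hz
    rcases hz with rfl | hz
    · exact hα.isIntegral
    · rw [Set.mem_singleton_iff] at hz
      subst hz
      exact hβ.isIntegral
  obtain ⟨γ, hγ⟩ := Field.exists_primitive_element k (IntermediateField.adjoin k ({α, β} : Set Ω))
  have h1 : ∀ z ∈ IntermediateField.adjoin k ({α, β} : Set Ω), z ∈ k⟮(γ : Ω)⟯ := by
    intro z hz
    have h2 : (⟨z, hz⟩ : IntermediateField.adjoin k ({α, β} : Set Ω)) ∈ k⟮γ⟯ := by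
      rw [hγ]
      exact IntermediateField.mem_top
    obtain ⟨p, q, hpq⟩ := (mem_adjoin_simple_iff k _).mp h2
    rw [mem_adjoin_simple_iff]
    refine ⟨p, q, ?_⟩
    have h3 := congrArg (algebraMap (IntermediateField.adjoin k ({α, β} : Set Ω)) Ω) hpq
    rw [map_div₀, ← aeval_algebraMap_apply, ← aeval_algebraMap_apply] at h3
    exact h3
  refine ⟨γ, ?_, h1 α (subset_adjoin k _ (Set.mem_insert _ _)),
    h1 β (subset_adjoin k _ (Set.mem_insert_of_mem _ rfl))⟩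
  have h4 : IsAlgebraic k γ := Algebra.IsAlgebraic.isAlgebraic γ
  exact h4.algebraMap

theorem adjoin_base {k ks Ω : Type*} [Field k] [Field ks] [Field Ω] [Algebra k ks] [Algebra ks Ω]
    [Algebra k Ω] [IsScalarTower k ks Ω] {α γ : Ω} (h : α ∈ k⟮γ⟯) : ks⟮α⟯ ≤ ks⟮γ⟯ := by
  have h1 : k⟮γ⟯ ≤ (ks⟮γ⟯).restrictScalars k := by
    rw [adjoin_simple_le_iff]
    exact mem_adjoin_simple_self ks γ
  rw [adjoin_simple_le_iff]
  exact h1 h

theorem mem_ks {k ks Ω : Type*} [Field k] [CharZero k] [Field ks] [Field Ω] [Algebra k ks]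
    [Algebra ks Ω] [Algebra k Ω] [IsScalarTower k ks Ω] (E : IntermediateField k Ω)
    (hE : ∀ e ∈ E, IsAlgebraic k e) (x y : ks) {v : Ω}
    (hv : v ∈ IntermediateField.adjoin E ({algebraMap ks Ω x, algebraMap ks Ω y} : Set Ω)) :
    ∃ θ : Ω, IsAlgebraic k θ ∧ v ∈ ks⟮θ⟯ := by
  have h2 : ∀ a b : Ω, (∃ θ : Ω, IsAlgebraic k θ ∧ a ∈ ks⟮θ⟯) → (∃ θ : Ω, IsAlgebraic k θ ∧ b ∈ ks⟮θ⟯) →
      ∃ θ : Ω, IsAlgebraic k θ ∧ a ∈ ks⟮θ⟯ ∧ b ∈ ks⟮θ⟯ := by
    rintro a b ⟨α, hα, ha⟩ ⟨β, hβ, hb⟩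
    obtain ⟨γ, hγ, h3, h4⟩ := exists_prim hα hβ
    exact ⟨γ, hγ, adjoin_base h3 ha, adjoin_base h4 hb⟩
  induction hv using IntermediateField.adjoin_induction with
  | mem z hz =>
    refine ⟨0, isAlgebraic_zero, ?_⟩
    rcases hz with rfl | hz
    · exact IntermediateField.algebraMap_mem _ x
    · rw [Set.mem_singleton_iff] at hz
      subst hz
      exact IntermediateField.algebraMap_mem _ y
  | algebraMap e => exact ⟨e, hE e e.2, mem_adjoin_simple_self ks (e : Ω)⟩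
  | add a b _ _ ha hb =>
    obtain ⟨θ, h3, h4, h5⟩ := h2 a b ha hb
    exact ⟨θ, h3, add_mem h4 h5⟩
  | mul a b _ _ ha hb =>
    obtain ⟨θ, h3, h4, h5⟩ := h2 a b ha hb
    exact ⟨θ, h3, mul_mem h4 h5⟩
  | inv a _ ha =>
    obtain ⟨θ, h3, h4⟩ := ha
    exact ⟨θ, h3, inv_mem h4⟩

end Pool.Agent.H37.SI
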