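import Pool.Agent.H37.SI.MainS
import Pool.Agent.H37.SI.Cover

/-!
H37/SI/Glob [GLOB]: all but T^(1-del) of the a ≤ T.

PROOF. cover applied to main_short (done below). GoodC is monotone in T (X_j ≤ T, H ≥ 1).
-/

namespace H37SI

open MvPolynomial H4AR

theorem GoodC_mono {n d : ℕ} {F : Polynomial ℤ} {b a T T' C : ℕ} (h : T ≤ T') (hg : GoodC n d F b a T C) :
    GoodC n d F b a T' C := by
  intro G P Q H hH h3 h4 h5 h6 h7 h8 h9 x y hxy
  refine (hg G P Q H hH h3 h4 h5 h6 h7 h8 h9 x y hxy).trans ?_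
  have h1 : (T : ℤ) * H ≤ (T' : ℤ) * H := by
    have : (T : ℤ) ≤ T' := by exact_mod_cast h
    exact mul_le_mul_of_nonneg_right this (by positivity)
  exact pow_le_pow_left₀ (by positivity) h1 C

theorem main_glob (n d : ℕ) (hn : 2 ≤ n) (hd : 1 ≤ d) (F : Polynomial ℤ) (hnD : 5 ≤ n * F.natDegree)
    (hF0 : F.coeff 0 ≠ 0) (hsq : Squarefree (F.map (Int.castRingHom ℚ))) :
    ∃ (C : ℕ) (del : ℝ), 0 < del ∧ ∀ T : ℕ, C ≤ T → ∀ b : ℕ, 1 ≤ b → b ≤ T →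
      ∃ E : Finset ℕ, (E.card : ℝ) ≤ (T : ℝ) ^ (1 - del) ∧
        ∀ a : ℕ, 1 ≤ a → a ≤ T → a ∉ E → GoodC n d F b a T C := by
  obtain ⟨C, J, del, hC, hdel, hdel4, h⟩ := main_short n d hn hd F hnD hF0 hsq
  obtain ⟨T0, hT0⟩ := cover C J del hdel hdel4
  refine ⟨max C T0, del / 4, by positivity, ?_⟩
  intro T hT b hb hbT
  have h1 : C ≤ T := (le_max_left _ _).trans hT
  obtain ⟨E, hE, hE'⟩ := hT0 T ((le_max_right _ _).trans hT) (fun a => GoodC n d F b a T C) (by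
    intro X hX hTX hXT
    obtain ⟨E, hE, hE'⟩ := h X hX b hb (hbT.trans hTX)
    exact ⟨E, hE, fun a ha ha' haE => GoodC_mono hXT (hE' a ha ha' haE)⟩)
  refine ⟨E, hE, fun a ha haT haE => ?_⟩
  have h2 := hE' a ha haT haE
  intro G P Q H hH h3 h4 h5 h6 h7 h8 h9 x y hxy
  refine (h2 G P Q H hH h3 h4 h5 h6 h7 h8 h9 x y hxy).trans ?_
  have hTH : (1 : ℤ) ≤ (T : ℤ) * H := by
    have hT1 : (1 : ℤ) ≤ T := by exact_mod_cast hC.trans h1
    have hH1 : (1 : ℤ) ≤ H := by exact_mod_cast hH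
    nlinarith
  exact pow_le_pow_right₀ hTH (le_max_left _ _)

end H37SI
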