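import Pool.Agent.H4.AR.CurveF
import Pool.Agent.H4.AR.LinB
import Pool.Agent.H4.AR.SizeR

/-!
H37/SI/GoodN [GOODN]: from curves to exceptional approximations.

`GoodC n d F b a T C`: for all P, Q of degree ≤ d whose leading forms have no common zero and all G with
deg G ≤ d (nD - 4) - 1 (D = natDegree F), coefficients ≤ H: all integer points of Phi(b P^n, a Q^n) = G are ≤ (T H)^C.
PROOF of good_of_num (compare Pool/Agent/H4/AR/Fin2.lean, main2, which has the same last step). N = d (nD - 4) - 1,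
kap = 4 + 1/(2d). curve_exc2 with CN: constant C''. Let T ≥ C, b, a ≤ T, and suppose that for all th > 0 with th or -th root
of F neither b r^n = th a (r > 0 rational) nor Exc n b a th kap (T^CN) r (r rational). Let G, P, Q, H and (x,y) be as in GoodC,
X = P(x,y), Y = Q(x,y), M = max(|X|,|Y|), N0 = max(|x|,|y|). size_res: N0^d ≤ (c H)^c max(1,M). The equation says
V := |sum F_i (b X^n)^i (a Y^n)^(D-i)| = |G(x,y)|. U = ((N+1)^2 H)^d ((c H)^c)^N ≥ 1 (real).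
If M < (T U)^C'': N0 ≤ N0^d ≤ (c H)^c (T U)^C'' (or N0 = 0) ≤ (T H)^C (T ≥ C large: constants are ≤ T).
If M ≥ (T U)^C'' then M ≥ 1; with B = max(1,N0): B^d ≤ (c H)^c M, |G(x,y)| ≤ (N+1)^2 H B^N (eval_size), so
V^d ≤ ((N+1)^2 H)^d (B^d)^N ≤ U M^N, and curve_exc2 gives th with one of the two excluded alternatives.
-/

namespace H37SI

open MvPolynomial H4AR

/-- all integer points of all the curves Phi(b P^n, a Q^n) = G are at most (T H)^C -/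
def GoodC (n d : ℕ) (F : Polynomial ℤ) (b a T C : ℕ) : Prop :=
  ∀ (G P Q : MvPolynomial (Fin 2) ℤ) (H : ℕ), 1 ≤ H →
    G.totalDegree ≤ d * (n * F.natDegree - 4) - 1 → P.totalDegree ≤ d → Q.totalDegree ≤ d →
    (∀ z w : ℂ, aeval ![z, w] (homogeneousComponent d P) = 0 →
      aeval ![z, w] (homogeneousComponent d Q) = 0 → z = 0 ∧ w = 0) →
    (∀ e, |G.coeff e| ≤ H) → (∀ e, |P.coeff e| ≤ H) → (∀ e, |Q.coeff e| ≤ H) →
    ∀ x y : ℤ,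
      ∑ i ∈ Finset.range (F.natDegree + 1),
        F.coeff i * ((b : ℤ) * (eval ![x, y] P) ^ n) ^ i *
          ((a : ℤ) * (eval ![x, y] Q) ^ n) ^ (F.natDegree - i) = eval ![x, y] G →
      max |x| |y| ≤ ((T : ℤ) * H) ^ C

private theorem good_size (N d c C2 T H : ℕ) (hH : 1 ≤ H) (hT0 : 1 ≤ T) (hT1 : c ≤ T)
    (hT2 : (N + 1) ^ 2 ≤ T) (C : ℕ) (hC : c + (1 + (d + c * N)) * C2 ≤ C) :
    ((c : ℝ) * H) ^ c * ((T : ℝ) * ((((N : ℝ) + 1) ^ 2 * H) ^ d * (((c : ℝ) * H) ^ c) ^ N)) ^ C2 ≤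
      ((T : ℝ) * H) ^ C := by
  have hHR : (1 : ℝ) ≤ H := by exact_mod_cast hH
  have hTR : (1 : ℝ) ≤ T := by exact_mod_cast hT0
  have hT1R : (c : ℝ) ≤ T := by exact_mod_cast hT1
  have hT2R : ((N : ℝ) + 1) ^ 2 ≤ T := by exact_mod_cast hT2
  have hTH : (1 : ℝ) ≤ (T : ℝ) * H := by nlinarith
  have hT' : (T : ℝ) ≤ (T : ℝ) * H := by nlinarith
  have h1 : ((c : ℝ) * H) ^ c ≤ ((T : ℝ) * H) ^ c := by gcongr
  have h2 : (((N : ℝ) + 1) ^ 2 * H) ^ d ≤ ((T : ℝ) * H) ^ d := by gcongr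
  have h3 : (((c : ℝ) * H) ^ c) ^ N ≤ (((T : ℝ) * H) ^ c) ^ N := by gcongr
  have h4 : (T : ℝ) * ((((N : ℝ) + 1) ^ 2 * H) ^ d * (((c : ℝ) * H) ^ c) ^ N) ≤
      ((T : ℝ) * H) ^ (1 + (d + c * N)) := by
    calc (T : ℝ) * ((((N : ℝ) + 1) ^ 2 * H) ^ d * (((c : ℝ) * H) ^ c) ^ N) ≤
        ((T : ℝ) * H) * (((T : ℝ) * H) ^ d * (((T : ℝ) * H) ^ c) ^ N) := by
          apply mul_le_mul hT' _ (by positivity) (by positivity)
          exact mul_le_mul h2 h3 (by positivity) (by positivity)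
      _ = ((T : ℝ) * H) ^ (1 + (d + c * N)) := by
          rw [← pow_mul, pow_add, pow_add, pow_one]
  calc ((c : ℝ) * H) ^ c * ((T : ℝ) * ((((N : ℝ) + 1) ^ 2 * H) ^ d * (((c : ℝ) * H) ^ c) ^ N)) ^ C2 ≤
      ((T : ℝ) * H) ^ c * (((T : ℝ) * H) ^ (1 + (d + c * N))) ^ C2 := by
        apply mul_le_mul h1 _ (by positivity) (by positivity)
        exact pow_le_pow_left₀ (by positivity) h4 _
    _ = ((T : ℝ) * H) ^ (c + (1 + (d + c * N)) * C2) := by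
        rw [← pow_mul, ← pow_add]
    _ ≤ ((T : ℝ) * H) ^ C := pow_le_pow_right₀ hTH hC

private theorem good_nat (u v A B w T : ℕ) (h : u + v + 4 + A + B + w ≤ T) :
    u ≤ T ∧ v ≤ T ∧ A ≤ T ∧ B ≤ T ∧ 1 ≤ T := by omega

theorem good_of_num (n d : ℕ) (hn : 2 ≤ n) (hd : 1 ≤ d) (F : Polynomial ℤ) (hnD : 5 ≤ n * F.natDegree)
    (hF0 : F.coeff 0 ≠ 0) (hsq : Squarefree (F.map (Int.castRingHom ℚ))) (CN : ℕ) :
    ∃ C : ℕ, ∀ T : ℕ, C ≤ T → ∀ b a : ℕ, 1 ≤ b → b ≤ T → 1 ≤ a → a ≤ T →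
      (∀ th : ℝ, 0 < th → (Polynomial.aeval th F = 0 ∨ Polynomial.aeval (-th) F = 0) →
        (¬ ∃ r : ℚ, 0 < r ∧ (b : ℝ) * (r : ℝ) ^ n = th * (a : ℝ)) ∧
        ¬ ∃ r : ℚ, Exc n b a th (4 + 1 / (2 * d)) ((T : ℝ) ^ CN) r) →
      GoodC n d F b a T C := by
  obtain ⟨C2, hcurve⟩ := curve_exc2 n d hn hd F hF0 hsq hnD CN
  obtain ⟨c, hc1, hsize⟩ := size_res d hd
  obtain ⟨N, hN⟩ : ∃ N, N = d * (n * F.natDegree - 4) - 1 := ⟨_, rfl⟩
  refine ⟨0 + C2 + 4 + c + (N + 1) ^ 2 + (c + (1 + (d + c * N)) * C2), ?_⟩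
  intro T hT b a hb hbT ha haT hnum
  obtain ⟨t1, t2, t3, t4, t6⟩ := good_nat _ _ _ _ _ _ hT
  intro G P Q H hH hG hP hQ hcop hcG hcP hcQ x y heq
  rw [← hN] at hG
  obtain ⟨X, hX⟩ : ∃ X : ℤ, X = eval ![x, y] P := ⟨_, rfl⟩
  obtain ⟨Y, hY⟩ : ∃ Y : ℤ, Y = eval ![x, y] Q := ⟨_, rfl⟩
  obtain ⟨M, hM⟩ : ∃ M : ℝ, M = max |(X : ℝ)| |(Y : ℝ)| := ⟨_, rfl⟩
  obtain ⟨U, hU⟩ : ∃ U : ℝ, U = (((N : ℝ) + 1) ^ 2 * H) ^ d * (((c : ℝ) * H) ^ c) ^ N := ⟨_, rfl⟩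
  have hHR : (1 : ℝ) ≤ H := by exact_mod_cast hH
  have hcR : (1 : ℝ) ≤ c := by exact_mod_cast hc1
  have hcH : (1 : ℝ) ≤ (c : ℝ) * H := by nlinarith
  have hcHc : (1 : ℝ) ≤ ((c : ℝ) * H) ^ c := one_le_pow₀ hcH
  have hN1 : (1 : ℝ) ≤ ((N : ℝ) + 1) ^ 2 := one_le_pow₀ (by linarith [Nat.cast_nonneg (α := ℝ) N])
  have hN2 : (1 : ℝ) ≤ ((N : ℝ) + 1) ^ 2 * H := by nlinarith
  have hU1 : 1 ≤ U := by
    rw [hU]
    have h1 : (1 : ℝ) ≤ (((N : ℝ) + 1) ^ 2 * H) ^ d := one_le_pow₀ hN2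
    have h2 : (1 : ℝ) ≤ (((c : ℝ) * H) ^ c) ^ N := one_le_pow₀ hcHc
    nlinarith
  have hTR : (1 : ℝ) ≤ T := by exact_mod_cast t6
  have hTU : 1 ≤ (T : ℝ) * U := by nlinarith
  have hlin := hsize P Q H hH hP hQ hcP hcQ hcop x y
  rw [← hX, ← hY, ← hM] at hlin
  obtain ⟨B, hB⟩ : ∃ B : ℝ, B = max 1 (max |(x : ℝ)| |(y : ℝ)|) := ⟨_, rfl⟩
  have hB1 : 1 ≤ B := by rw [hB]; exact le_max_left _ _
  have hBx : max |(x : ℝ)| |(y : ℝ)| ≤ B := by rw [hB]; exact le_max_right _ _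
  have hmax1 : (1 : ℝ) ≤ max 1 M := le_max_left _ _
  have hBd : B ^ d ≤ ((c : ℝ) * H) ^ c * max 1 M := by
    rw [hB]
    rcases le_total 1 (max |(x : ℝ)| |(y : ℝ)|) with h | h
    · rw [max_eq_right h]
      exact hlin
    · rw [max_eq_left h, one_pow]
      nlinarith
  rcases lt_or_ge M (((T : ℝ) * U) ^ C2) with hlt | hge
  · have h1 : max 1 M ≤ ((T : ℝ) * U) ^ C2 := max_le (one_le_pow₀ hTU) hlt.le
    have h2 : max |(x : ℝ)| |(y : ℝ)| ≤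
        ((T : ℝ) * H) ^ (0 + C2 + 4 + c + (N + 1) ^ 2 + (c + (1 + (d + c * N)) * C2)) := by
      calc max |(x : ℝ)| |(y : ℝ)| ≤ B := hBx
        _ ≤ B ^ d := le_self_pow₀ hB1 (by omega)
        _ ≤ ((c : ℝ) * H) ^ c * max 1 M := hBd
        _ ≤ ((c : ℝ) * H) ^ c * ((T : ℝ) * U) ^ C2 := by
            exact mul_le_mul_of_nonneg_left h1 (by positivity)
        _ ≤ _ := by
            rw [hU]
            exact good_size N d c C2 T H hH t6 t3 t4 _ (Nat.le_add_left _ _)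
    exact_mod_cast h2
  · exfalso
    have hM1 : 1 ≤ M := le_trans (one_le_pow₀ hTU) hge
    rw [max_eq_right hM1] at hBd
    have hev := eval_size G N H hH hG hcG x y B hB1
      ((le_max_left _ _).trans hBx) ((le_max_right _ _).trans hBx)
    have hval : |∑ i ∈ Finset.range (F.natDegree + 1),
        ((F.coeff i : ℤ) : ℝ) * ((b : ℝ) * (X : ℝ) ^ n) ^ i *
          ((a : ℝ) * (Y : ℝ) ^ n) ^ (F.natDegree - i)| ^ d ≤ U * M ^ N := by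
      have h1 : ∑ i ∈ Finset.range (F.natDegree + 1),
        ((F.coeff i : ℤ) : ℝ) * ((b : ℝ) * (X : ℝ) ^ n) ^ i *
          ((a : ℝ) * (Y : ℝ) ^ n) ^ (F.natDegree - i) = ((eval ![x, y] G : ℤ) : ℝ) := by
        rw [← heq, hX, hY]
        push_cast
        rfl
      rw [h1]
      have h2 : |((eval ![x, y] G : ℤ) : ℝ)| ^ d ≤ (((N : ℝ) + 1) ^ 2 * H * B ^ N) ^ d :=
        pow_le_pow_left₀ (abs_nonneg _) hev _
      have h3 : (((N : ℝ) + 1) ^ 2 * H * B ^ N) ^ d = (((N : ℝ) + 1) ^ 2 * H) ^ d * (B ^ d) ^ N := by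
        rw [mul_pow (((N : ℝ) + 1) ^ 2 * H), ← pow_mul, ← pow_mul, mul_comm N d]
      have h4 : (B ^ d) ^ N ≤ (((c : ℝ) * H) ^ c * M) ^ N :=
        pow_le_pow_left₀ (by positivity) hBd _
      calc |((eval ![x, y] G : ℤ) : ℝ)| ^ d ≤ (((N : ℝ) + 1) ^ 2 * H) ^ d * (B ^ d) ^ N := by
            rw [← h3]
            exact h2
        _ ≤ (((N : ℝ) + 1) ^ 2 * H) ^ d * (((c : ℝ) * H) ^ c * M) ^ N :=
            mul_le_mul_of_nonneg_left h4 (by positivity)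
        _ = U * M ^ N := by
            rw [hU, mul_pow _ M]
            ring
    rw [hM] at hge hval
    rw [hN] at hval
    obtain ⟨th, hth, hroot, hor⟩ := hcurve T t2 b a hb hbT ha haT U hU1 X Y hge hval
    rcases hor with h | h
    · exact (hnum th hth hroot).1 h
    · exact (hnum th hth hroot).2 h

end H37SI
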