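import Pool.Agent.H37.SI.CurveG
import Pool.Agent.H4.AR.LinB
import Pool.Agent.H4.AR.SizeR

/-!
H37/SI/GoodW [GOODW]: windows, from numbers to curves.

`GoodW n d F b a T C S`: for all P, Q of degree ≤ d whose leading forms have no common zero and all G with
deg G ≤ d (nD - 3) (D = natDegree F), coefficients ≤ H, every integer point (x,y) of Phi(b P^n, a Q^n) = G is ≤ (T H)^C or in a window:
M ≤ max(|x|,|y|)^C and max(|x|,|y|) ≤ M^C for some M in S.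
PROOF (compare good_of_num in Pool/Agent/H37/SI/GoodN.lean and main2 in Pool/Agent/H4/AR/Fin2.lean). N = d (nD - 3).
curve_exc3 with CN: constant C''. Given (x,y): X = P(x,y), Y = Q(x,y), M = max(|X|,|Y|), N0 = max(|x|,|y|). size_res:
N0^d ≤ (c H)^c max(1,M). eval_size: M ≤ (d+1)^2 H max(1,N0)^d. V = |sum F_i ...| = |G(x,y)|,
U = ((N+1)^2 H)^d ((c H)^c)^N ≥ 1. If M < (T U)^C'': N0 ≤ (T H)^C as in good_of_num. If M ≥ (T U)^C'': with B = max(1,N0),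
V^d ≤ U M^N, curve_exc3 gives th and either b r^n = th a (excluded by the hypothesis) or r with Exc n b a th (14/5) (T^CN) r,
ht r ≤ M ≤ ht(r)^(nD). The hypothesis gives M1 in S with M1 ≤ ht r ≤ M1^CW. So M1 ≤ M ≤ M1^(CW nD). If N0 > (T H)^C (C large, else we are
done): (c H)^c ≤ N0 (T H)^... : N0^(d) ≤ (cH)^c M and (cH)^c ≤ (T H)^(2c) ≤ N0^(1/2), i.e. ((c H)^c)^2 ≤ N0, so
N0 ≤ M^2 ≤ M1^(2 CW nD) ≤ M1^C (M1 ≥ 1 because ht r ≤ M1^CW and ht r ≥ 1), and M1 ≤ M ≤ (d+1)^2 H N0^d ≤ N0^(d+1) ≤ N0^C.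
-/

namespace H37SI

open MvPolynomial H4AR

/-- all integer points of all the curves Phi(b P^n, a Q^n) = G, deg G ≤ d (nD - 3), are at most (T H)^C or in a window -/
def GoodW (n d : ℕ) (F : Polynomial ℤ) (b a T C : ℕ) (S : Finset ℕ) : Prop :=
  ∀ (G P Q : MvPolynomial (Fin 2) ℤ) (H : ℕ), 1 ≤ H →
    G.totalDegree ≤ d * (n * F.natDegree - 3) → P.totalDegree ≤ d → Q.totalDegree ≤ d →
    (∀ z w : ℂ, aeval ![z, w] (homogeneousComponent d P) = 0 →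
      aeval ![z, w] (homogeneousComponent d Q) = 0 → z = 0 ∧ w = 0) →
    (∀ e, |G.coeff e| ≤ H) → (∀ e, |P.coeff e| ≤ H) → (∀ e, |Q.coeff e| ≤ H) →
    ∀ x y : ℤ,
      ∑ i ∈ Finset.range (F.natDegree + 1),
        F.coeff i * ((b : ℤ) * (eval ![x, y] P) ^ n) ^ i *
          ((a : ℤ) * (eval ![x, y] Q) ^ n) ^ (F.natDegree - i) = eval ![x, y] G →
      max |x| |y| ≤ ((T : ℤ) * H) ^ C ∨
        ∃ M ∈ S, (M : ℤ) ≤ (max |x| |y|) ^ C ∧ max |x| |y| ≤ (M : ℤ) ^ C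

private theorem good_size (N d c C2 T H : ℕ) (hH : 1 ≤ H) (hT0 : 1 ≤ T) (hT1 : c ≤ T)
    (hT2 : (N + 1) ^ 2 ≤ T) (C : ℕ) (hC : c + (1 + (d + c * N)) * C2 ≤ C) :
    ((c : ℝ) * H) ^ c * ((T : ℝ) * ((((N : ℝ) + 1) ^ 2 * H) ^ d * (((c : ℝ) * H) ^ c) ^ N)) ^ C2 ≤
      ((T : ℝ) * H) ^ C := by
  have hHR : (1 : ℝ) ≤ H := by exact_mod_cast hH
  have hTR : (1 : ℝ) ≤ T := by exact_mod_cast hT0
  have hT1R : (c : ℝ) ≤ T := by exact_mod_cast hT1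
  have hT2R : ((N : ℝ) + 1) ^ 2 ≤ T := by exact_mod_cast hT2
  have hTH : (1 : ℝ) ≤ (T : ℝ) * H := by nlinarith
  have hT' : (T : ℝ) ≤ (T : ℝ) * H := by nlinarith
  have h1 : ((c : ℝ) * H) ^ c ≤ ((T : ℝ) * H) ^ c := by gcongr
  have h2 : (((N : ℝ) + 1) ^ 2 * H) ^ d ≤ ((T : ℝ) * H) ^ d := by gcongr
  have h3 : (((c : ℝ) * H) ^ c) ^ N ≤ (((T : ℝ) * H) ^ c) ^ N := by gcongr
  have h4 : (T : ℝ) * ((((N : ℝ) + 1) ^ 2 * H) ^ d * (((c : ℝ) * H) ^ c) ^ N) ≤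
      ((T : ℝ) * H) ^ (1 + (d + c * N)) := by
    calc (T : ℝ) * ((((N : ℝ) + 1) ^ 2 * H) ^ d * (((c : ℝ) * H) ^ c) ^ N) ≤
        ((T : ℝ) * H) * (((T : ℝ) * H) ^ d * (((T : ℝ) * H) ^ c) ^ N) := by
          apply mul_le_mul hT' _ (by positivity) (by positivity)
          exact mul_le_mul h2 h3 (by positivity) (by positivity)
      _ = ((T : ℝ) * H) ^ (1 + (d + c * N)) := by
          rw [← pow_mul, pow_add, pow_add, pow_one]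
  calc ((c : ℝ) * H) ^ c * ((T : ℝ) * ((((N : ℝ) + 1) ^ 2 * H) ^ d * (((c : ℝ) * H) ^ c) ^ N)) ^ C2 ≤
      ((T : ℝ) * H) ^ c * (((T : ℝ) * H) ^ (1 + (d + c * N))) ^ C2 := by
        apply mul_le_mul h1 _ (by positivity) (by positivity)
        exact pow_le_pow_left₀ (by positivity) h4 _
    _ = ((T : ℝ) * H) ^ (c + (1 + (d + c * N)) * C2) := by
        rw [← pow_mul, ← pow_add]
    _ ≤ ((T : ℝ) * H) ^ C := pow_le_pow_right₀ hTH hC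

private theorem goodw_nat (u v A B w c2 e k T : ℕ) (h : u + v + 4 + A + B + w + c2 + e + k ≤ T) :
    u ≤ T ∧ v ≤ T ∧ A ≤ T ∧ B ≤ T ∧ e ≤ T ∧ 1 ≤ T := by omega

/-- the window: real inequalities -/
private theorem goodw_win (d c nD CW T H C M1 : ℕ) (N0 M0 h K : ℝ) (hK1 : 1 ≤ K)
    (hTH : 1 ≤ (T : ℝ) * H) (hKT : K ≤ ((T : ℝ) * H) ^ c)
    (hC : 2 * c ≤ C) (hCW : 2 * (CW * nD) ≤ C) (hCd : d + 1 ≤ C) (hM0 : 0 ≤ M0)
    (hbig : ((T : ℝ) * H) ^ C < N0) (hd : 1 ≤ d)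
    (h1 : N0 ^ d ≤ K * M0) (h2 : M0 ≤ h ^ nD) (h3 : h ≤ (M1 : ℝ) ^ CW) (h0 : 0 ≤ h)
    (h4 : (M1 : ℝ) ≤ h) (h5 : h ≤ M0) (h6 : M0 ≤ ((d : ℝ) + 1) ^ 2 * H * N0 ^ d)
    (h7 : ((d : ℝ) + 1) ^ 2 ≤ T) (hH : 1 ≤ (H : ℝ)) :
    (M1 : ℝ) ≤ N0 ^ C ∧ N0 ≤ (M1 : ℝ) ^ C := by
  have hN1 : 1 ≤ N0 := (one_le_pow₀ hTH).trans hbig.le
  have hN1' : 1 < N0 := lt_of_le_of_lt (one_le_pow₀ hTH) hbig
  constructor
  · have h8 : ((d : ℝ) + 1) ^ 2 * H ≤ N0 := by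
      have h9 : ((d : ℝ) + 1) ^ 2 * H ≤ (T : ℝ) * H :=
        mul_le_mul_of_nonneg_right h7 (by linarith)
      have h10 : (T : ℝ) * H ≤ ((T : ℝ) * H) ^ C := le_self_pow₀ hTH (by omega)
      linarith
    calc (M1 : ℝ) ≤ M0 := h4.trans h5
      _ ≤ ((d : ℝ) + 1) ^ 2 * H * N0 ^ d := h6
      _ ≤ N0 * N0 ^ d := mul_le_mul_of_nonneg_right h8 (by positivity)
      _ = N0 ^ (d + 1) := by ring
      _ ≤ N0 ^ C := pow_le_pow_right₀ hN1 hCd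
  · have hKN : K ^ 2 ≤ N0 := by
      calc K ^ 2 ≤ (((T : ℝ) * H) ^ c) ^ 2 := pow_le_pow_left₀ (by linarith) hKT 2
        _ = ((T : ℝ) * H) ^ (2 * c) := by rw [← pow_mul]; ring_nf
        _ ≤ ((T : ℝ) * H) ^ C := pow_le_pow_right₀ hTH hC
        _ ≤ N0 := hbig.le
    have h8 : N0 ≤ K * M0 := (le_self_pow₀ hN1 (by omega)).trans h1
    have h9 : N0 ^ 2 ≤ N0 * M0 ^ 2 := by
      calc N0 ^ 2 ≤ (K * M0) ^ 2 := pow_le_pow_left₀ (by linarith) h8 2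
        _ = K ^ 2 * M0 ^ 2 := by ring
        _ ≤ N0 * M0 ^ 2 := mul_le_mul_of_nonneg_right hKN (by positivity)
    have h10 : N0 ≤ M0 ^ 2 := by
      have h11 : 0 < N0 := by linarith
      have h12 : N0 * N0 ≤ N0 * M0 ^ 2 := by rw [← sq]; exact h9
      exact le_of_mul_le_mul_left h12 h11
    have h13 : N0 ≤ (M1 : ℝ) ^ (2 * (CW * nD)) := by
      calc N0 ≤ M0 ^ 2 := h10
        _ ≤ (h ^ nD) ^ 2 := pow_le_pow_left₀ hM0 h2 2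
        _ ≤ (((M1 : ℝ) ^ CW) ^ nD) ^ 2 :=
            pow_le_pow_left₀ (by positivity) (pow_le_pow_left₀ h0 h3 nD) 2
        _ = (M1 : ℝ) ^ (2 * (CW * nD)) := by
            rw [← pow_mul, ← pow_mul]
            congr 1
            ring
    have h14 : (1 : ℝ) ≤ M1 := by
      rcases Nat.lt_or_ge M1 1 with h15 | h15
      · exfalso
        have h16 : M1 = 0 := by omega
        have h17 : (M1 : ℝ) ^ (2 * (CW * nD)) ≤ 1 := by
          rw [h16, Nat.cast_zero]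
          exact pow_le_one₀ le_rfl zero_le_one
        linarith
      · exact_mod_cast h15
    exact h13.trans (pow_le_pow_right₀ h14 hCW)

theorem goodw_of_num (n d : ℕ) (hn : 2 ≤ n) (hd : 1 ≤ d) (F : Polynomial ℤ) (hnD : 3 ≤ n * F.natDegree)
    (hF0 : F.coeff 0 ≠ 0) (hsq : Squarefree (F.map (Int.castRingHom ℚ))) (CN CW : ℕ) :
    ∃ C : ℕ, ∀ T : ℕ, C ≤ T → ∀ b a : ℕ, 1 ≤ b → b ≤ T → 1 ≤ a → a ≤ T → ∀ S : Finset ℕ,
      (∀ th : ℝ, 0 < th → (Polynomial.aeval th F = 0 ∨ Polynomial.aeval (-th) F = 0) →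
        (¬ ∃ r : ℚ, 0 < r ∧ (b : ℝ) * (r : ℝ) ^ n = th * (a : ℝ)) ∧
        ∀ r : ℚ, Exc n b a th (14 / 5) ((T : ℝ) ^ CN) r → ∃ M ∈ S, (M : ℝ) ≤ ht r ∧ ht r ≤ (M : ℝ) ^ CW) →
      GoodW n d F b a T C S := by
  obtain ⟨C2, hcurve⟩ := curve_exc3 n d hn hd F hF0 hsq hnD CN
  obtain ⟨c, hc1, hsize⟩ := size_res d hd
  obtain ⟨N, hN⟩ : ∃ N, N = d * (n * F.natDegree - 3) := ⟨_, rfl⟩
  obtain ⟨CC, hCC⟩ : ∃ CC, CC = 0 + C2 + 4 + c + (N + 1) ^ 2 + (c + (1 + (d + c * N)) * C2) + 2 * c +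
    (d + 1) ^ 2 + 2 * (CW * (n * F.natDegree)) := ⟨_, rfl⟩
  refine ⟨CC, ?_⟩
  intro T hT b a hb hbT ha haT S hnum
  obtain ⟨t1, t2, t3, t4, t5, t6⟩ := goodw_nat _ _ _ _ _ _ _ _ _ (hCC ▸ hT)
  intro G P Q H hH hG hP hQ hcop hcG hcP hcQ x y heq
  rw [← hN] at hG
  obtain ⟨X, hX⟩ : ∃ X : ℤ, X = eval ![x, y] P := ⟨_, rfl⟩
  obtain ⟨Y, hY⟩ : ∃ Y : ℤ, Y = eval ![x, y] Q := ⟨_, rfl⟩
  obtain ⟨M, hM⟩ : ∃ M : ℝ, M = max |(X : ℝ)| |(Y : ℝ)| := ⟨_, rfl⟩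
  obtain ⟨U, hU⟩ : ∃ U : ℝ, U = (((N : ℝ) + 1) ^ 2 * H) ^ d * (((c : ℝ) * H) ^ c) ^ N := ⟨_, rfl⟩
  have hHR : (1 : ℝ) ≤ H := by exact_mod_cast hH
  have hcR : (1 : ℝ) ≤ c := by exact_mod_cast hc1
  have hcH : (1 : ℝ) ≤ (c : ℝ) * H := by nlinarith
  have hcHc : (1 : ℝ) ≤ ((c : ℝ) * H) ^ c := one_le_pow₀ hcH
  have hN1 : (1 : ℝ) ≤ ((N : ℝ) + 1) ^ 2 := one_le_pow₀ (by linarith [Nat.cast_nonneg (α := ℝ) N])
  have hN2 : (1 : ℝ) ≤ ((N : ℝ) + 1) ^ 2 * H := by nlinarith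
  have hU1 : 1 ≤ U := by
    rw [hU]
    have h1 : (1 : ℝ) ≤ (((N : ℝ) + 1) ^ 2 * H) ^ d := one_le_pow₀ hN2
    have h2 : (1 : ℝ) ≤ (((c : ℝ) * H) ^ c) ^ N := one_le_pow₀ hcHc
    nlinarith
  have hTR : (1 : ℝ) ≤ T := by exact_mod_cast t6
  have hTU : 1 ≤ (T : ℝ) * U := by nlinarith
  have hTH : 1 ≤ (T : ℝ) * H := by nlinarith
  have hlin := hsize P Q H hH hP hQ hcP hcQ hcop x y
  rw [← hX, ← hY, ← hM] at hlin
  obtain ⟨B, hB⟩ : ∃ B : ℝ, B = max 1 (max |(x : ℝ)| |(y : ℝ)|) := ⟨_, rfl⟩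
  have hB1 : 1 ≤ B := by rw [hB]; exact le_max_left _ _
  have hBx : max |(x : ℝ)| |(y : ℝ)| ≤ B := by rw [hB]; exact le_max_right _ _
  have hmax1 : (1 : ℝ) ≤ max 1 M := le_max_left _ _
  have hBd : B ^ d ≤ ((c : ℝ) * H) ^ c * max 1 M := by
    rw [hB]
    rcases le_total 1 (max |(x : ℝ)| |(y : ℝ)|) with h | h
    · rw [max_eq_right h]
      exact hlin
    · rw [max_eq_left h, one_pow]
      nlinarith
  rcases le_or_gt (max |(x : ℝ)| |(y : ℝ)|) (((T : ℝ) * H) ^ CC) with hsm | hbig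
  · left
    exact_mod_cast hsm
  right
  rcases lt_or_ge M (((T : ℝ) * U) ^ C2) with hlt | hge
  · exfalso
    have h1 : max 1 M ≤ ((T : ℝ) * U) ^ C2 := max_le (one_le_pow₀ hTU) hlt.le
    have h2 : max |(x : ℝ)| |(y : ℝ)| ≤ ((T : ℝ) * H) ^ CC := by
      calc max |(x : ℝ)| |(y : ℝ)| ≤ B := hBx
        _ ≤ B ^ d := le_self_pow₀ hB1 (by omega)
        _ ≤ ((c : ℝ) * H) ^ c * max 1 M := hBd
        _ ≤ ((c : ℝ) * H) ^ c * ((T : ℝ) * U) ^ C2 := by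
            exact mul_le_mul_of_nonneg_left h1 (by positivity)
        _ ≤ _ := by
            rw [hU]
            exact good_size N d c C2 T H hH t6 t3 t4 _ (by omega)
    linarith
  · have hM1 : 1 ≤ M := le_trans (one_le_pow₀ hTU) hge
    rw [max_eq_right hM1] at hBd
    have hev := eval_size G N H hH hG hcG x y B hB1
      ((le_max_left _ _).trans hBx) ((le_max_right _ _).trans hBx)
    have hval : |∑ i ∈ Finset.range (F.natDegree + 1),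
        ((F.coeff i : ℤ) : ℝ) * ((b : ℝ) * (X : ℝ) ^ n) ^ i *
          ((a : ℝ) * (Y : ℝ) ^ n) ^ (F.natDegree - i)| ^ d ≤ U * M ^ N := by
      have h1 : ∑ i ∈ Finset.range (F.natDegree + 1),
        ((F.coeff i : ℤ) : ℝ) * ((b : ℝ) * (X : ℝ) ^ n) ^ i *
          ((a : ℝ) * (Y : ℝ) ^ n) ^ (F.natDegree - i) = ((eval ![x, y] G : ℤ) : ℝ) := by
        rw [← heq, hX, hY]
        push_cast
        rfl
      rw [h1]
      have h2 : |((eval ![x, y] G : ℤ) : ℝ)| ^ d ≤ (((N : ℝ) + 1) ^ 2 * H * B ^ N) ^ d :=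
        pow_le_pow_left₀ (abs_nonneg _) hev _
      have h3 : (((N : ℝ) + 1) ^ 2 * H * B ^ N) ^ d = (((N : ℝ) + 1) ^ 2 * H) ^ d * (B ^ d) ^ N := by
        rw [mul_pow (((N : ℝ) + 1) ^ 2 * H), ← pow_mul, ← pow_mul, mul_comm N d]
      have h4 : (B ^ d) ^ N ≤ (((c : ℝ) * H) ^ c * M) ^ N :=
        pow_le_pow_left₀ (by positivity) hBd _
      calc |((eval ![x, y] G : ℤ) : ℝ)| ^ d ≤ (((N : ℝ) + 1) ^ 2 * H) ^ d * (B ^ d) ^ N := by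
            rw [← h3]
            exact h2
        _ ≤ (((N : ℝ) + 1) ^ 2 * H) ^ d * (((c : ℝ) * H) ^ c * M) ^ N :=
            mul_le_mul_of_nonneg_left h4 (by positivity)
        _ = U * M ^ N := by
            rw [hU, mul_pow _ M]
            ring
    rw [hM] at hge hval
    rw [hN] at hval
    obtain ⟨th, hth, hroot, hor⟩ := hcurve T t2 b a hb hbT ha haT U hU1 X Y hge hval
    rcases hor with h | ⟨r, hr, hrM, hMr⟩
    · exact absurd h (hnum th hth hroot).1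
    obtain ⟨M1, hM1S, hM1l, hM1u⟩ := (hnum th hth hroot).2 r hr
    rw [← hM] at hrM hMr
    have hTHC : (1 : ℝ) ≤ ((T : ℝ) * H) ^ CC := one_le_pow₀ hTH
    have hBeq : B = max |(x : ℝ)| |(y : ℝ)| := by
      rw [hB]
      exact max_eq_right (by linarith)
    rw [← hBeq] at hbig
    have hxB : |(x : ℝ)| ≤ B := (le_max_left _ _).trans hBx
    have hyB : |(y : ℝ)| ≤ B := (le_max_right _ _).trans hBx
    have hMup : M ≤ ((d : ℝ) + 1) ^ 2 * H * B ^ d := by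
      rw [hM, hX, hY]
      exact max_le (eval_size P d H hH hP hcP x y B hB1 hxB hyB)
        (eval_size Q d H hH hQ hcQ x y B hB1 hxB hyB)
    have hht1 : 1 ≤ ht r := one_le_ht r
    have hcT : (c : ℝ) ≤ T := by exact_mod_cast t3
    have hKT : ((c : ℝ) * H) ^ c ≤ ((T : ℝ) * H) ^ c :=
      pow_le_pow_left₀ (by positivity) (mul_le_mul_of_nonneg_right hcT (by linarith)) c
    have hdd : d + 1 ≤ (d + 1) ^ 2 := by nlinarith
    obtain ⟨g1, g2⟩ := goodw_win d c (n * F.natDegree) CW T H CC M1 B M (ht r) (((c : ℝ) * H) ^ c)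
      hcHc hTH hKT (by omega) (by omega) (by omega) (by linarith) hbig hd hBd hMr hM1u (by linarith)
      hM1l hrM hMup (by exact_mod_cast t5) hHR
    rw [hBeq] at g1 g2
    refine ⟨M1, hM1S, ?_, ?_⟩
    · exact_mod_cast g1
    · exact_mod_cast g2

end H37SI
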