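import Pool.Agent.H37.SI.Bin

/-!
H37/SI/IntL [INTL]: integrality of the coefficients. `IntS N p`: N^k p_k is an integer for all k.

PROOFS. IntS_mul: coefficient k of p q is the sum over i + j = k of p_i q_j, N^k = N^i N^j. IntS_one, IntS_pow, IntS_prod:
induction. IntS_rescale: `PowerSeries.coeff_rescale`: coefficient c^k p_k, (N M)^k c^k p_k = (M c)^k N^k p_k.
IntS_mono: M integer: (M N)^k p_k = M^k (N^k p_k).
bs_int: n^(2k) b_k is an integer, b = bs n. By bs_pow, b^n = 1 + X. Let g_k = n^(2k) b_k / n for k ≥ 1, g_0 = 0,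
G = sum g_k X^k, so b(n^2 X) = 1 + n G (rescale by n^2) and (1 + n G)^n = 1 + n^2 X. Binomial theorem:
n * n G + sum_{j=2}^n binom(n,j) n^j G^j = n^2 X, so G = X - sum_{j=2}^n binom(n,j) n^(j-2) G^j. As G has constant term 0,
the coefficient of X^k in G^j, j ≥ 2, is a polynomial with integer coefficients in g_1, ..., g_(k-1). By strong
induction all g_k are integers. (Formally: suppose g_i is an integer for i < k; let G' be the polynomial sum_{i<k} g_i X^i,
an integer polynomial; G - G' is divisible by X^k and G, G' are divisible by X, so G^j - G'^j is divisible by X^(k+1) for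
j ≥ 2 and the k-th coefficients of G^j and G'^j agree.)
Another proof: n^(2k) choose(1/n, k) = n^k prod_{s<k} (1 - s n) / k!; for a prime p dividing n the exponent of p in k! is
< k or k = 0; for a prime p not dividing n choose n' with n n' = 1 mod a high power of p: prod (1 - s n) is congruent to
n^k prod (n' - s) = n^k k! binom(n', k).
-/

namespace H37SI

theorem IntS_one (N : ℚ) : IntS N 1 := by
  intro k
  rw [PowerSeries.coeff_one]
  by_cases hk : k = 0
  · exact ⟨1, by rw [if_pos hk, hk]; norm_num⟩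
  · exact ⟨0, by rw [if_neg hk]; norm_num⟩

theorem IntS_mul {N : ℚ} {p q : PowerSeries ℚ} (hp : IntS N p) (hq : IntS N q) : IntS N (p * q) := by
  intro k
  choose z hz using hp
  choose z' hz' using hq
  refine ⟨∑ kl ∈ Finset.HasAntidiagonal.antidiagonal k, z kl.1 * z' kl.2, ?_⟩
  rw [PowerSeries.coeff_mul, Finset.mul_sum]
  push_cast
  refine Finset.sum_congr rfl fun kl hkl => ?_
  rw [← hz, ← hz', ← Finset.HasAntidiagonal.mem_antidiagonal.1 hkl, pow_add]
  ring

theorem IntS_pow {N : ℚ} {p : PowerSeries ℚ} (hp : IntS N p) (a : ℕ) : IntS N (p ^ a) := by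
  induction a with
  | zero =>
    rw [pow_zero]
    exact IntS_one N
  | succ a ih =>
    rw [pow_succ]
    exact IntS_mul ih hp

theorem IntS_prod {N : ℚ} {ι : Type} (s : Finset ι) (p : ι → PowerSeries ℚ) (hp : ∀ i ∈ s, IntS N (p i)) :
    IntS N (∏ i ∈ s, p i) := by
  classical
  induction s using Finset.induction_on with
  | empty =>
    rw [Finset.prod_empty]
    exact IntS_one N
  | insert a s ha ih =>
    rw [Finset.prod_insert ha]
    exact IntS_mul (hp a (Finset.mem_insert_self a s))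
      (ih fun i hi => hp i (Finset.mem_insert_of_mem hi))

theorem IntS_rescale {N M c : ℚ} {p : PowerSeries ℚ} (hp : IntS N p) (hc : ∃ z : ℤ, M * c = z) :
    IntS (N * M) (PowerSeries.rescale c p) := by
  intro k
  obtain ⟨z, hz⟩ := hc
  obtain ⟨z', hz'⟩ := hp k
  refine ⟨z ^ k * z', ?_⟩
  rw [PowerSeries.coeff_rescale]
  push_cast
  rw [← hz, ← hz', mul_pow, mul_pow]
  ring

theorem IntS_mono {N : ℚ} {p : PowerSeries ℚ} (hp : IntS N p) (M : ℤ) : IntS (M * N) p := by
  intro k
  obtain ⟨z', hz'⟩ := hp k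
  refine ⟨M ^ k * z', ?_⟩
  push_cast
  rw [← hz', mul_pow]
  ring

private theorem itl_low (G : PowerSeries ℚ) (k : ℕ)
    (hG : ∀ i < k, PowerSeries.coeff i G ∈ (Int.castRingHom ℚ).range) (j : ℕ) :
    ∀ i < k, PowerSeries.coeff i (G ^ j) ∈ (Int.castRingHom ℚ).range := by
  induction j with
  | zero =>
    intro i _
    rw [pow_zero, PowerSeries.coeff_one]
    split_ifs
    · exact Subring.one_mem _
    · exact Subring.zero_mem _
  | succ j ih =>
    intro i hi
    rw [pow_succ, PowerSeries.coeff_mul]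
    refine Subring.sum_mem _ fun kl hkl => ?_
    have h := Finset.HasAntidiagonal.mem_antidiagonal.1 hkl
    exact Subring.mul_mem _ (ih kl.1 (by omega)) (hG kl.2 (by omega))

private theorem itl_top (G : PowerSeries ℚ) (h0 : PowerSeries.coeff 0 G = 0) (k : ℕ)
    (hG : ∀ i < k, PowerSeries.coeff i G ∈ (Int.castRingHom ℚ).range) (j : ℕ) :
    PowerSeries.coeff k (G ^ (j + 2)) ∈ (Int.castRingHom ℚ).range := by
  rw [pow_succ, PowerSeries.coeff_mul]
  refine Subring.sum_mem _ fun kl hkl => ?_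
  have h := Finset.HasAntidiagonal.mem_antidiagonal.1 hkl
  by_cases h1 : kl.1 = k
  · have h2 : kl.2 = 0 := by omega
    rw [h2, h0, mul_zero]
    exact Subring.zero_mem _
  · by_cases h2 : kl.1 = 0
    · rw [h2, PowerSeries.coeff_zero_eq_constantCoeff, map_pow,
        ← PowerSeries.coeff_zero_eq_constantCoeff, h0, zero_pow (Nat.succ_ne_zero j), zero_mul]
      exact Subring.zero_mem _
    · exact Subring.mul_mem _ (itl_low G k hG (j + 1) kl.1 (by omega)) (hG kl.2 (by omega))

theorem bs_int (n : ℕ) (hn : 1 ≤ n) : IntS ((n : ℚ) ^ 2) (bs n) := by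
  have hn0 : (n : ℚ) ≠ 0 := by exact_mod_cast (by omega : n ≠ 0)
  obtain ⟨B, hB⟩ : ∃ B, B = PowerSeries.rescale ((n : ℚ) ^ 2) (bs n) := ⟨_, rfl⟩
  obtain ⟨G, hG⟩ : ∃ G, G = PowerSeries.C ((n : ℚ)⁻¹) * (B - 1) := ⟨_, rfl⟩
  have hBG : B = PowerSeries.C (n : ℚ) * G + 1 := by
    rw [hG, ← mul_assoc, ← map_mul, mul_inv_cancel₀ hn0, map_one, one_mul, sub_add_cancel]
  have hB0 : PowerSeries.coeff 0 B = 1 := by
    rw [hB, PowerSeries.coeff_rescale, pow_zero, one_mul, PowerSeries.coeff_zero_eq_constantCoeff,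
      bs_const]
  have hG0 : PowerSeries.coeff 0 G = 0 := by
    rw [hG, PowerSeries.coeff_C_mul, map_sub, hB0, PowerSeries.coeff_one, if_pos rfl, sub_self,
      mul_zero]
  have hBn : B ^ n = 1 + PowerSeries.C ((n : ℚ) ^ 2) * PowerSeries.X := by
    rw [hB, ← map_pow, bs_pow n hn, map_add, map_one, PowerSeries.rescale_X]
  obtain ⟨n', rfl⟩ : ∃ n', n = n' + 1 := ⟨n - 1, by omega⟩
  have hkey : ∀ k, 1 ≤ k → PowerSeries.coeff k G = (if k = 1 then 1 else 0) -
      ∑ m ∈ Finset.range n', ((n' + 1 : ℕ) : ℚ) ^ m * ((n' + 1).choose (m + 2) : ℚ) *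
        PowerSeries.coeff k (G ^ (m + 2)) := by
    intro k hk
    have h1 := congrArg (PowerSeries.coeff k) hBn
    rw [hBG, add_pow] at h1
    simp only [one_pow, mul_one] at h1
    rw [Finset.sum_range_succ', Finset.sum_range_succ', map_add, map_add, map_sum] at h1
    have e1 : ∀ m ∈ Finset.range n', PowerSeries.coeff k
        ((PowerSeries.C ((n' + 1 : ℕ) : ℚ) * G) ^ (m + 1 + 1) *
          ((n' + 1).choose (m + 1 + 1) : PowerSeries ℚ)) =
        ((n' + 1 : ℕ) : ℚ) ^ 2 * (((n' + 1 : ℕ) : ℚ) ^ m * ((n' + 1).choose (m + 2) : ℚ) *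
          PowerSeries.coeff k (G ^ (m + 2))) := by
      intro m _
      have e2 : ((n' + 1).choose (m + 1 + 1) : PowerSeries ℚ) =
          PowerSeries.C (((n' + 1).choose (m + 1 + 1) : ℕ) : ℚ) := (map_natCast _ _).symm
      rw [e2, mul_pow, ← map_pow, mul_comm, ← mul_assoc, ← map_mul, PowerSeries.coeff_C_mul]
      ring
    have e3 : PowerSeries.coeff k ((PowerSeries.C ((n' + 1 : ℕ) : ℚ) * G) ^ (0 + 1) *
        ((n' + 1).choose (0 + 1) : PowerSeries ℚ)) =
        ((n' + 1 : ℕ) : ℚ) ^ 2 * PowerSeries.coeff k G := by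
      have e2 : ((n' + 1).choose (0 + 1) : PowerSeries ℚ) =
          PowerSeries.C (((n' + 1).choose (0 + 1) : ℕ) : ℚ) := (map_natCast _ _).symm
      rw [e2, zero_add, pow_one, mul_comm, ← mul_assoc, ← map_mul, PowerSeries.coeff_C_mul,
        Nat.choose_one_right]
      ring
    have e4 : PowerSeries.coeff k ((PowerSeries.C ((n' + 1 : ℕ) : ℚ) * G) ^ 0 *
        ((n' + 1).choose 0 : PowerSeries ℚ)) = 0 := by
      rw [pow_zero, one_mul, Nat.choose_zero_right, Nat.cast_one, PowerSeries.coeff_one,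
        if_neg (by omega)]
    have e5 : PowerSeries.coeff k (1 + PowerSeries.C (((n' + 1 : ℕ) : ℚ) ^ 2) *
        PowerSeries.X) = ((n' + 1 : ℕ) : ℚ) ^ 2 * (if k = 1 then 1 else 0) := by
      rw [map_add, PowerSeries.coeff_one, if_neg (by omega), zero_add, PowerSeries.coeff_C_mul,
        PowerSeries.coeff_X]
    rw [Finset.sum_congr rfl e1, e3, e4, e5, ← Finset.mul_sum, add_zero, ← mul_add] at h1
    have h2 := mul_left_cancel₀ (pow_ne_zero 2 hn0) h1
    linarith
  have hint : ∀ k, PowerSeries.coeff k G ∈ (Int.castRingHom ℚ).range := by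
    intro k
    induction k using Nat.strong_induction_on with
    | _ k ih =>
      by_cases hk : k = 0
      · rw [hk, hG0]
        exact Subring.zero_mem _
      · rw [hkey k (by omega)]
        refine Subring.sub_mem _ ?_ (Subring.sum_mem _ fun m _ => ?_)
        · split_ifs
          · exact Subring.one_mem _
          · exact Subring.zero_mem _
        · refine Subring.mul_mem _ (Subring.mul_mem _ (Subring.pow_mem _ ?_ m) ?_)
            (itl_top G hG0 k ih m)
          · exact ⟨((n' + 1 : ℕ) : ℤ), by simp⟩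
          · exact ⟨(((n' + 1).choose (m + 2) : ℕ) : ℤ), by simp⟩
  intro k
  have h1 : (((n' + 1 : ℕ) : ℚ) ^ 2) ^ k * PowerSeries.coeff k (bs (n' + 1)) =
      PowerSeries.coeff k B := by
    rw [hB, PowerSeries.coeff_rescale]
  rw [h1, hBG, map_add, PowerSeries.coeff_C_mul]
  have h2 : ((n' + 1 : ℕ) : ℚ) * PowerSeries.coeff k G + PowerSeries.coeff k 1 ∈
      (Int.castRingHom ℚ).range := by
    refine Subring.add_mem _ (Subring.mul_mem _ ⟨((n' + 1 : ℕ) : ℤ), by simp⟩ (hint k)) ?_
    rw [PowerSeries.coeff_one]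
    split_ifs
    · exact Subring.one_mem _
    · exact Subring.zero_mem _
  obtain ⟨z, hz⟩ := h2
  exact ⟨z, hz.symm⟩

end H37SI
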