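import Pool.Agent.H37.SI.Def

/-!
H37/SI/Iota [IOTA]: one variable power series inside the ring of power series in m+1 variables.

`PowerSeries.toMvPowerSeries j p` is p(X_j) (an algebra homomorphism, see Mathlib RingTheory/MvPowerSeries/Equiv, Rename).
PROOFS. coeff_iota: coefficient of the exponent J in p(X_j): coefficient J_j of p if J is supported in {j}, otherwise 0
(`MvPowerSeries.coeff_rename`, `coeff_embDomain_rename`, `coeff_rename_eq_zero`).
coeff_prod_iota: induction on the finset s: the product over j in s of p_j(X_j) has coefficient prod_{j in s} (p_j)_(J_j) if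
J vanishes outside s, and 0 otherwise. Step: in `MvPowerSeries.coeff_mul` for insert a s the only nonzero term is
(single a (J a), J.erase a).
-/

namespace H37SI

theorem coeff_iota {M : ℕ} (j : Fin M) (p : PowerSeries ℚ) (J : Fin M →₀ ℕ) :
    MvPowerSeries.coeff J (PowerSeries.toMvPowerSeries j p) =
      if J = Finsupp.single j (J j) then PowerSeries.coeff (J j) p else 0 := by
  have h0 : MvPowerSeries.coeff J (PowerSeries.toMvPowerSeries j p) =
      MvPowerSeries.coeff J (MvPowerSeries.rename (Function.Embedding.punit j) p) := rfl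
  by_cases hJ : J = Finsupp.single j (J j)
  · rw [if_pos hJ, h0]
    have h1 : J = Finsupp.embDomain (Function.Embedding.punit j) (Finsupp.single () (J j)) := by
      rw [Finsupp.embDomain_single]
      exact hJ
    conv_lhs => rw [h1]
    rw [MvPowerSeries.coeff_embDomain_rename]
    rfl
  · rw [if_neg hJ, h0]
    refine MvPowerSeries.coeff_rename_eq_zero (f := (Function.Embedding.punit j : Unit → Fin M)) p ?_
    rintro ⟨x, hx⟩
    apply hJ
    have h2 : x = Finsupp.single () (x ()) := by
      ext u
      rw [Finsupp.single_eq_same]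
    rw [h2, Finsupp.mapDomain_single] at hx
    subst hx
    change Finsupp.single j (x ()) = Finsupp.single j (Finsupp.single j (x ()) j)
    rw [Finsupp.single_eq_same]

theorem coeff_prod_iota {M : ℕ} (p : Fin M → PowerSeries ℚ) (J : Fin M →₀ ℕ) :
    MvPowerSeries.coeff J (∏ j, PowerSeries.toMvPowerSeries j (p j)) = ∏ j, PowerSeries.coeff (J j) (p j) := by
  classical
  rw [MvPowerSeries.coeff_prod]
  obtain ⟨l₀, hl₀⟩ : ∃ l₀ : Fin M →₀ (Fin M →₀ ℕ),
      l₀ = Finsupp.equivFunOnFinite.symm fun i => Finsupp.single i (J i) := ⟨_, rfl⟩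
  have hl₀i : ∀ i, l₀ i = Finsupp.single i (J i) := fun i => by rw [hl₀]; rfl
  have hsum : ∑ i, Finsupp.single i (J i) = J := by
    ext k
    rw [Finsupp.finsetSum_apply, Finset.sum_eq_single k]
    · simp
    · intro b _ hb
      rw [Finsupp.single_apply, if_neg hb]
    · intro h
      exact absurd (Finset.mem_univ k) h
  rw [Finset.sum_eq_single l₀]
  · refine Finset.prod_congr rfl fun i _ => ?_
    rw [coeff_iota, hl₀i, if_pos (by simp)]
    simp
  · intro l hl hne
    rw [Finset.mem_finsuppAntidiag] at hl
    by_contra hprod
    apply hne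
    have h1 : ∀ i, l i = Finsupp.single i (l i i) := by
      intro i
      by_contra h2
      apply hprod
      refine Finset.prod_eq_zero (Finset.mem_univ i) ?_
      rw [coeff_iota, if_neg h2]
    have h2 : ∀ k, l k k = J k := by
      intro k
      rw [← hl.1, Finsupp.finsetSum_apply, Finset.sum_eq_single k]
      · intro b _ hb
        rw [h1 b, Finsupp.single_apply, if_neg hb]
      · intro h
        exact absurd (Finset.mem_univ k) h
    ext i : 1
    rw [hl₀i, h1 i, h2 i]
  · intro h
    exfalso
    apply h
    rw [Finset.mem_finsuppAntidiag]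
    refine ⟨?_, Finset.subset_univ _⟩
    refine Eq.trans (Finset.sum_congr rfl fun i _ => hl₀i i) hsum

end H37SI
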