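import Pool.Agent.H37.SI.Pls

/-!
# ALL OF SIEGEL: three places separated by an `l`-th root
-/

namespace Pool.Agent.H37.SI

open Polynomial

/-- An `l`-th root (`l` prime, at least three) which is not an `l`-th root of an `l`-th power of `K` and
which is a unit over `x⁻¹ = 0` is separated by three places. -/
theorem sep_kummer {k Ω : Type} [Field k] [CharZero k] [Field Ω] [Algebra k Ω] [IsAlgClosed Ω] (x : Ω)
    (hx : Transcendental k x) (K : IntermediateField k Ω) (hxK : x ∈ K)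
    (hE : ∀ e : Ω, IsAlgebraic k e → e ∈ K) (l : ℕ) (hl : l.Prime) (h3 : 3 ≤ l) (κ : ℕ) (v : Ω)
    (hv : v ^ l ∈ K) (hn : ∀ h ∈ K, h ^ l ≠ v ^ l) (ht : v / x ^ κ ∈ TI k x)
    (hu : ∃ a b : TI k x, (a : Ω) * (v / x ^ κ) ^ l + (b : Ω) * x⁻¹ = 1) :
    Sep k x (v / x ^ κ) := by
  classical
  have hcz : CharZero Ω := charZero_of_injective_algebraMap (algebraMap k Ω).injective
  have hl0 : NeZero (l : Ω) := ⟨by exact_mod_cast hl.ne_zero⟩
  have hl1 : NeZero l := ⟨hl.ne_zero⟩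
  obtain ⟨ζ, hζ⟩ := HasEnoughRootsOfUnity.exists_primitiveRoot Ω l
  have hζa : ∀ j : ℕ, IsAlgebraic k (ζ ^ j) := by
    intro j
    have h1 : IsIntegral k ζ := (hζ.isIntegral hl.pos).tower_top
    exact (h1.pow j).isAlgebraic
  -- the minimal polynomial
  have hirr : Irreducible (X ^ l - C (⟨v ^ l, hv⟩ : K)) := by
    apply X_pow_sub_C_irreducible_of_prime hl
    intro b hb
    exact hn b b.2 (congrArg Subtype.val hb)
  have hmon : (X ^ l - C (⟨v ^ l, hv⟩ : K)).Monic := monic_X_pow_sub_C _ hl.ne_zero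
  have hroot : aeval v (X ^ l - C (⟨v ^ l, hv⟩ : K)) = 0 := by
    simp only [map_sub, map_pow, aeval_X, aeval_C]
    exact sub_self _
  have hmin : minpoly K v = X ^ l - C (⟨v ^ l, hv⟩ : K) :=
    (minpoly.eq_of_irreducible_of_monic hirr hroot hmon).symm
  have hva : IsAlgebraic K v := ⟨_, hmon.ne_zero, hroot⟩
  have hconj : ∀ j : ℕ, aeval (ζ ^ j * v) (minpoly K v) = 0 := by
    intro j
    rw [hmin]
    simp only [map_sub, map_pow, aeval_X, aeval_C]
    rw [mul_pow, ← pow_mul, mul_comm j l, pow_mul, hζ.pow_eq_one, one_pow, one_mul]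
    exact sub_self _
  have hg : ∀ j : ℕ, ∃ g : TI k x →+* TI k x, (∀ t : TI k x, (t : Ω) ∈ K → (g t : Ω) = t) ∧
      ∀ t : TI k x, ∀ c ∈ K, (t : Ω) = v * c → (g t : Ω) = ζ ^ j * v * c :=
    fun j => exists_conj K hxK hva (hconj j)
  choose g hg1 hg2 using hg
  obtain ⟨π, hπ⟩ := exists_place_inf (F := Ω) hx
  have hc : (x ^ κ)⁻¹ ∈ K := K.inv_mem (pow_mem hxK κ)
  have hcz' : ∀ j : ℕ, ζ ^ j ∈ TI k x := fun j => alg_mem_TI x (hζa j)
  let t : TI k x := ⟨v / x ^ κ, ht⟩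
  have hgt : ∀ j : ℕ, g j t = ⟨ζ ^ j, hcz' j⟩ * t := by
    intro j
    apply Subtype.ext
    rw [hg2 j t _ hc (div_eq_mul_inv _ _)]
    change ζ ^ j * v * (x ^ κ)⁻¹ = ζ ^ j * (v / x ^ κ)
    rw [div_eq_mul_inv, mul_assoc]
  have hπt : π t ≠ 0 := by
    intro h0
    obtain ⟨a, b, hab⟩ := hu
    have h1 : a * t ^ l + b * ⟨x⁻¹, inv_mem_TI x⟩ = 1 := Subtype.ext hab
    have h2 := congrArg π h1
    rw [RingHom.map_add, RingHom.map_mul, RingHom.map_mul, RingHom.map_pow, h0,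
      zero_pow hl.ne_zero, mul_zero, zero_add,
      hπ ⟨x⁻¹, inv_mem_TI x⟩ rfl, mul_zero, RingHom.map_one] at h2
    exact zero_ne_one h2
  refine ⟨Ω, inferInstance, fun j => π.comp (g (j : ℕ)), t, rfl, ?_, ?_, ?_⟩
  · intro j s hs
    have h1 : (g (j : ℕ) s : Ω) = x⁻¹ := by
      rw [hg1 _ s (by rw [hs]; exact K.inv_mem hxK), hs]
    exact hπ _ h1
  · intro j s hs
    have h1 : ∀ i : ℕ, g i s = s := fun i => Subtype.ext (hg1 i s (hE _ hs))
    change π (g _ s) = π (g _ s)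
    rw [h1, h1]
  · intro i j hij
    have h1 : π (g (i : ℕ) t) = π (g (j : ℕ) t) := hij
    rw [hgt, hgt, map_mul, map_mul] at h1
    have h2 := mul_right_cancel₀ hπt h1
    have h4 := place_inj π (hζa i) (hζa j) h2
    have h5 : ζ ^ (i : ℕ) = ζ ^ (j : ℕ) := congrArg Subtype.val h4
    exact Fin.ext (hζ.pow_inj (lt_of_lt_of_le i.2 h3) (lt_of_lt_of_le j.2 h3) h5)

end Pool.Agent.H37.SI
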