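import Mathlib

/-!
H37/SI/Latt [LATT]: number of lattice points in a simplex.

PROOF of latt. Induction on M. M = 0: card S ≤ 1 (functions from Fin 0), and 0! * 1 = 1, (T + 0)^0 = 1; S nonempty or empty.
Step M -> M+1: split S according to k = K 0 ∈ ℕ (k g_0 < T, because the other terms are ≥ 0); the fibre over k injects into
functions Fin M → ℕ with sum < T - k g_0 =: T_k ≥ 0, so card fibre * (M! prod_{j≥1} g_j) ≤ (T_k + G')^M, G' = sum_{j ≥ 1} g_j.
Sum over the finitely many k with k g_0 < T: (M+1) g_0 (T + G' - k g_0)^M ≤ (T + G' - (k-1) g_0)^(M+1) - (T + G' - k g_0)^(M+1)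
(a^(M+1) - b^(M+1) ≥ (M+1) b^M (a - b) for a ≥ b ≥ 0, Bernoulli), telescoping: the sum over k = 0..N is at most
(T + G' + g_0)^(M+1).
PROOF of cond_count. KK = all (K,k) with K_l ≤ N, k ≤ N and k g0 + sum K_l g_l < T, N large (T/g0, T/g_l). Map (K,k) to the
function Fin (m+1) → ℕ, snoc K k, g = snoc g g0, and apply latt; the sum and the product over Fin (m+1) split by
Fin.sum_univ_castSucc, Fin.prod_univ_castSucc.
-/

namespace H37SI

private theorem lt_bern (M : ℕ) (b g : ℝ) (hb : 0 ≤ b) (hg : 0 ≤ g) :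
    b ^ (M + 1) + (M + 1) * b ^ M * g ≤ (b + g) ^ (M + 1) := by
  induction M with
  | zero => simp
  | succ M ih =>
    have h1 : (b + g) * (b ^ (M + 1) + (M + 1) * b ^ M * g) ≤ (b + g) * (b + g) ^ (M + 1) :=
      mul_le_mul_of_nonneg_left ih (by positivity)
    have h2 : (b + g) ^ (M + 1 + 1) = (b + g) * (b + g) ^ (M + 1) := by ring
    rw [h2]
    refine le_trans ?_ h1
    have h3 : 0 ≤ ((M : ℝ) + 1) * b ^ M * g ^ 2 := by positivity
    push_cast
    have h4 : (b + g) * (b ^ (M + 1) + (M + 1) * b ^ M * g) =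
        b ^ (M + 1 + 1) + (M + 1 + 1) * b ^ (M + 1) * g + ((M : ℝ) + 1) * b ^ M * g ^ 2 := by ring
    rw [h4]
    linarith

theorem latt (M : ℕ) (g : Fin M → ℝ) (hg : ∀ j, 0 < g j) (T : ℝ) (hT : 0 ≤ T) (S : Finset (Fin M → ℕ))
    (hS : ∀ K ∈ S, ∑ j, (K j : ℝ) * g j < T) :
    (S.card : ℝ) * ((M.factorial : ℝ) * ∏ j, g j) ≤ (T + ∑ j, g j) ^ M := by
  classical
  induction M generalizing T with
  | zero =>
    have h1 : S.card ≤ 1 := by
      rw [Finset.card_le_one]
      intro a _ b _
      exact Subsingleton.elim _ _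
    have h2 : (S.card : ℝ) ≤ 1 := by exact_mod_cast h1
    simp only [Nat.factorial_zero, Nat.cast_one, Finset.univ_eq_empty, Finset.prod_empty, mul_one,
      Finset.sum_empty, add_zero, pow_zero]
    exact h2
  | succ M ih =>
    obtain ⟨G, hG⟩ : ∃ G : ℝ, G = ∑ j : Fin M, g j.succ := ⟨_, rfl⟩
    obtain ⟨Pr, hPr⟩ : ∃ Pr : ℝ, Pr = ∏ j : Fin M, g j.succ := ⟨_, rfl⟩
    have hG0 : 0 ≤ G := by
      rw [hG]
      exact Finset.sum_nonneg fun j _ => (hg _).le
    have hg0 := hg 0
    obtain ⟨I, hI⟩ : ∃ I : Finset ℕ, I = S.image (fun K => K 0) := ⟨_, rfl⟩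
    have hfib : ∀ k : ℕ, k ∈ I → (k : ℝ) * g 0 < T ∧
        (((S.filter (fun K => K 0 = k)).card : ℝ)) * ((M.factorial : ℝ) * Pr) ≤
          (T + G - k * g 0) ^ M := by
      intro k hk
      rw [hI] at hk
      obtain ⟨K0, hK0, hk0⟩ := Finset.mem_image.1 hk
      have hsum : ∀ K ∈ S, K 0 = k → (k : ℝ) * g 0 + ∑ j : Fin M, (K j.succ : ℝ) * g j.succ < T := by
        intro K hK hKk
        have h1 := hS K hK
        rw [Fin.sum_univ_succ, hKk] at h1
        exact h1
      have hpos : (k : ℝ) * g 0 < T := by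
        have h1 := hsum K0 hK0 hk0
        have h2 : 0 ≤ ∑ j : Fin M, (K0 j.succ : ℝ) * g j.succ :=
          Finset.sum_nonneg fun j _ => mul_nonneg (Nat.cast_nonneg _) (hg _).le
        linarith
      refine ⟨hpos, ?_⟩
      have h3 := ih (fun j => g j.succ) (fun j => hg _) (T - k * g 0) (by linarith)
        ((S.filter (fun K => K 0 = k)).image Fin.tail) (by
          intro K hK
          obtain ⟨K1, hK1, rfl⟩ := Finset.mem_image.1 hK
          rw [Finset.mem_filter] at hK1
          have h4 := hsum K1 hK1.1 hK1.2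
          have h5 : ∑ j : Fin M, ((Fin.tail K1 j : ℕ) : ℝ) * g j.succ =
              ∑ j : Fin M, (K1 j.succ : ℝ) * g j.succ := rfl
          rw [h5]
          linarith)
      have h6 : ((S.filter (fun K => K 0 = k)).image Fin.tail).card =
          (S.filter (fun K => K 0 = k)).card := by
        refine Finset.card_image_of_injOn ?_
        intro K1 h1 K2 h2 h12
        rw [Finset.mem_coe, Finset.mem_filter] at h1 h2
        funext j
        refine Fin.cases ?_ (fun i => ?_) j
        · rw [h1.2, h2.2]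
        · exact congrFun h12 i
      rw [h6, ← hG, ← hPr] at h3
      have h7 : T - k * g 0 + G = T + G - k * g 0 := by ring
      rw [h7] at h3
      exact h3
    have hcard : (S.card : ℝ) = ∑ k ∈ I, ((S.filter (fun K => K 0 = k)).card : ℝ) := by
      have h1 := Finset.card_eq_sum_card_image (fun K : Fin (M + 1) → ℕ => K 0) S
      rw [← hI] at h1
      exact_mod_cast h1
    -- the telescoping sum
    obtain ⟨φ, hφ⟩ : ∃ φ : ℕ → ℝ, φ = fun k : ℕ => (T + G + g 0 - (k : ℝ) * g 0) ^ (M + 1) :=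
      ⟨_, rfl⟩
    have hterm : ∀ k : ℕ, (k : ℝ) * g 0 ≤ T →
        ((M : ℝ) + 1) * g 0 * (T + G - k * g 0) ^ M ≤ φ k - φ (k + 1) := by
      intro k hk
      have h1 := lt_bern M (T + G - k * g 0) (g 0) (by linarith) hg0.le
      have h2 : φ k = (T + G - k * g 0 + g 0) ^ (M + 1) := by
        rw [hφ]
        simp only
        congr 1
        ring
      have h3 : φ (k + 1) = (T + G - k * g 0) ^ (M + 1) := by
        rw [hφ]
        simp only
        congr 1
        push_cast
        ring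
      rw [h2, h3]
      linarith
    have hsumle : ∑ k ∈ I,
        ((M : ℝ) + 1) * g 0 * (T + G - (k : ℝ) * g 0) ^ M ≤ (T + G + g 0) ^ (M + 1) := by
      obtain ⟨N, hN⟩ : ∃ N : ℕ, N = I.sup id := ⟨_, rfl⟩
      by_cases hne : I.Nonempty
      · have hNmem : (N : ℝ) * g 0 < T := by
          obtain ⟨k, hk, hk2⟩ := Finset.exists_mem_eq_sup _ hne id
          rw [hN, hk2]
          exact (hfib k hk).1
        have hall : ∀ k ∈ Finset.range (N + 1), (k : ℝ) * g 0 ≤ T := by
          intro k hk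
          rw [Finset.mem_range] at hk
          have h1 : (k : ℝ) ≤ N := by exact_mod_cast (by omega : k ≤ N)
          have h2 := mul_le_mul_of_nonneg_right h1 hg0.le
          linarith
        have hsub : I ⊆ Finset.range (N + 1) := by
          intro k hk
          rw [Finset.mem_range, hN]
          exact Nat.lt_succ_of_le (Finset.le_sup (f := id) hk)
        have h1 : ∑ k ∈ I, ((M : ℝ) + 1) * g 0 * (T + G - k * g 0) ^ M ≤
            ∑ k ∈ Finset.range (N + 1), ((M : ℝ) + 1) * g 0 * (T + G - k * g 0) ^ M := by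
          refine Finset.sum_le_sum_of_subset_of_nonneg hsub fun k hk _ => ?_
          have h2 := hall k hk
          have h3 : 0 ≤ T + G - k * g 0 := by linarith
          positivity
        have h2 : ∑ k ∈ Finset.range (N + 1), ((M : ℝ) + 1) * g 0 * (T + G - k * g 0) ^ M ≤
            ∑ k ∈ Finset.range (N + 1), (φ k - φ (k + 1)) :=
          Finset.sum_le_sum fun k hk => hterm k (hall k hk)
        rw [Finset.sum_range_sub'] at h2
        have h3 : φ 0 = (T + G + g 0) ^ (M + 1) := by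
          rw [hφ]
          simp
        have h4 : 0 ≤ φ (N + 1) := by
          rw [hφ]
          simp only
          have h5 : T + G + g 0 - ((N + 1 : ℕ) : ℝ) * g 0 = T + G - N * g 0 := by
            push_cast
            ring
          rw [h5]
          have h6 : 0 ≤ T + G - N * g 0 := by linarith
          positivity
        linarith
      · rw [Finset.not_nonempty_iff_eq_empty] at hne
        rw [hne, Finset.sum_empty]
        positivity
    have hfac : (((M + 1).factorial : ℕ) : ℝ) * ∏ j, g j =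
        ((M.factorial : ℝ) * Pr) * (((M : ℝ) + 1) * g 0) := by
      rw [Fin.prod_univ_succ, ← hPr, Nat.factorial_succ]
      push_cast
      ring
    have hGsum : T + ∑ j, g j = T + G + g 0 := by
      rw [Fin.sum_univ_succ, ← hG]
      ring
    rw [hfac, hGsum, hcard, Finset.sum_mul]
    refine le_trans (Finset.sum_le_sum fun k hk => ?_) hsumle
    have h1 := (hfib k hk).2
    calc ((S.filter (fun K => K 0 = k)).card : ℝ) * (((M.factorial : ℝ) * Pr) * (((M : ℝ) + 1) * g 0)) =
          (((S.filter (fun K => K 0 = k)).card : ℝ) * ((M.factorial : ℝ) * Pr)) *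
            (((M : ℝ) + 1) * g 0) := by ring
      _ ≤ (T + G - k * g 0) ^ M * (((M : ℝ) + 1) * g 0) :=
          mul_le_mul_of_nonneg_right h1 (by positivity)
      _ = ((M : ℝ) + 1) * g 0 * (T + G - k * g 0) ^ M := by ring

theorem cond_count (m : ℕ) (g0 : ℝ) (g : Fin m → ℝ) (hg0 : 0 < g0) (hg : ∀ l, 0 < g l) (T : ℝ) (hT : 0 ≤ T) :
    ∃ KK : Finset ((Fin m → ℕ) × ℕ),
      (∀ (K : Fin m → ℕ) (k : ℕ), (k : ℝ) * g0 + ∑ l, (K l : ℝ) * g l < T → (K, k) ∈ KK) ∧
      (∀ p ∈ KK, (p.2 : ℝ) * g0 ≤ T) ∧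
      (KK.card : ℝ) * (((m + 1).factorial : ℝ) * (g0 * ∏ l, g l)) ≤ (T + g0 + ∑ l, g l) ^ (m + 1) := by
  classical
  obtain ⟨N, hN0, hN⟩ : ∃ N : ℕ, T ≤ N * g0 ∧ ∀ l, T ≤ N * g l := by
    obtain ⟨N1, h1⟩ := exists_nat_ge (T / g0)
    have h2 : ∀ l, ∃ N2 : ℕ, T / g l ≤ N2 := fun l => exists_nat_ge _
    choose N2 h2 using h2
    refine ⟨N1 + ∑ l, N2 l, ?_, fun l => ?_⟩
    · rw [div_le_iff₀ hg0] at h1
      refine h1.trans (mul_le_mul_of_nonneg_right ?_ hg0.le)
      push_cast
      have : (0 : ℝ) ≤ ∑ l, (N2 l : ℝ) := Finset.sum_nonneg fun _ _ => Nat.cast_nonneg _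
      linarith
    · have h3 := h2 l
      rw [div_le_iff₀ (hg l)] at h3
      refine h3.trans (mul_le_mul_of_nonneg_right ?_ (hg l).le)
      have h4 : N2 l ≤ ∑ l, N2 l := Finset.single_le_sum (fun _ _ => Nat.zero_le _) (Finset.mem_univ l)
      exact_mod_cast h4.trans (Nat.le_add_left _ _)
  obtain ⟨KK, hKK⟩ : ∃ KK : Finset ((Fin m → ℕ) × ℕ), KK =
      ((Fintype.piFinset fun _ : Fin m => Finset.range N) ×ˢ Finset.range N).filter
        (fun p => (p.2 : ℝ) * g0 + ∑ l, (p.1 l : ℝ) * g l < T) := ⟨_, rfl⟩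
  have hmem : ∀ p : (Fin m → ℕ) × ℕ, p ∈ KK → (p.2 : ℝ) * g0 + ∑ l, (p.1 l : ℝ) * g l < T := by
    intro p hp
    rw [hKK, Finset.mem_filter] at hp
    exact hp.2
  refine ⟨KK, ?_, ?_, ?_⟩
  · intro K k h
    have hs : ∀ l, 0 ≤ (K l : ℝ) * g l := fun l => mul_nonneg (Nat.cast_nonneg _) (hg l).le
    have hs0 : 0 ≤ (k : ℝ) * g0 := mul_nonneg (Nat.cast_nonneg _) hg0.le
    have hsum : 0 ≤ ∑ l, (K l : ℝ) * g l := Finset.sum_nonneg fun l _ => hs l
    rw [hKK, Finset.mem_filter, Finset.mem_product, Fintype.mem_piFinset, Finset.mem_range]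
    refine ⟨⟨fun l => ?_, ?_⟩, h⟩
    · rw [Finset.mem_range]
      have h1 : (K l : ℝ) * g l ≤ ∑ l, (K l : ℝ) * g l :=
        Finset.single_le_sum (fun l _ => hs l) (Finset.mem_univ l)
      have h2 : (K l : ℝ) * g l < N * g l := by linarith [hN l]
      have h3 : (K l : ℝ) < N := lt_of_mul_lt_mul_right h2 (hg l).le
      exact_mod_cast h3
    · have h2 : (k : ℝ) * g0 < N * g0 := by linarith
      have h3 : (k : ℝ) < N := lt_of_mul_lt_mul_right h2 hg0.le
      exact_mod_cast h3
  · intro p hp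
    have h1 := hmem p hp
    have hsum : 0 ≤ ∑ l, (p.1 l : ℝ) * g l :=
      Finset.sum_nonneg fun l _ => mul_nonneg (Nat.cast_nonneg _) (hg l).le
    linarith
  · have h1 := latt (m + 1) (Fin.snoc (α := fun _ => ℝ) g g0) (by
      intro j
      refine Fin.lastCases ?_ (fun i => ?_) j
      · rw [Fin.snoc_last]
        exact hg0
      · rw [Fin.snoc_castSucc]
        exact hg i) T hT
      (KK.image fun p => (Fin.snoc (α := fun _ => ℕ) p.1 p.2 : Fin (m + 1) → ℕ)) (by
        intro K hK
        obtain ⟨p, hp, rfl⟩ := Finset.mem_image.1 hK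
        rw [Fin.sum_univ_castSucc]
        simp only [Fin.snoc_castSucc, Fin.snoc_last]
        have := hmem p hp
        linarith)
    have h2 : (KK.image fun p => (Fin.snoc (α := fun _ => ℕ) p.1 p.2 : Fin (m + 1) → ℕ)).card =
        KK.card := by
      refine Finset.card_image_of_injective _ ?_
      intro p q hpq
      simp only at hpq
      have h3 : p.1 = q.1 := by
        funext l
        have := congrFun hpq l.castSucc
        simpa only [Fin.snoc_castSucc] using this
      have h4 : p.2 = q.2 := by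
        have := congrFun hpq (Fin.last m)
        simpa only [Fin.snoc_last] using this
      exact Prod.ext h3 h4
    rw [h2, Fin.prod_univ_castSucc, Fin.sum_univ_castSucc] at h1
    simp only [Fin.snoc_castSucc, Fin.snoc_last] at h1
    have e1 : (∏ l, g l) * g0 = g0 * ∏ l, g l := mul_comm _ _
    have e2 : T + (∑ l, g l + g0) = T + g0 + ∑ l, g l := by ring
    rw [e1, e2] at h1
    exact h1

end H37SI
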