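import Mathlib

/-!
# ALL OF SIEGEL: extension of the coefficients of Laurent polynomials
-/

namespace Pool.Agent.H37.SI

open Polynomial

private theorem exists_M (E Ω : Type*) [Field E] [Field Ω] [Algebra E Ω] :
    ∃ M : LaurentPolynomial E →+* LaurentPolynomial Ω,
      (∀ e : E, M (LaurentPolynomial.C e) = LaurentPolynomial.C (algebraMap E Ω e)) ∧
      M (LaurentPolynomial.T 1) = LaurentPolynomial.T 1 := by
  let u : (LaurentPolynomial Ω)ˣ :=
    ⟨LaurentPolynomial.T 1, LaurentPolynomial.T (-1), by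
      rw [← LaurentPolynomial.T_add, add_neg_cancel, LaurentPolynomial.T_zero], by
      rw [← LaurentPolynomial.T_add, neg_add_cancel, LaurentPolynomial.T_zero]⟩
  refine ⟨LaurentPolynomial.eval₂ ((LaurentPolynomial.C).comp (algebraMap E Ω)) u, ?_, ?_⟩
  · intro e
    exact LaurentPolynomial.eval₂_C _ _ _
  · rw [LaurentPolynomial.eval₂_T, zpow_one]

private theorem M_poly {E Ω : Type*} [Field E] [Field Ω] [Algebra E Ω]
    (M : LaurentPolynomial E →+* LaurentPolynomial Ω)
    (hMC : ∀ e : E, M (LaurentPolynomial.C e) = LaurentPolynomial.C (algebraMap E Ω e))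
    (hMT : M (LaurentPolynomial.T 1) = LaurentPolynomial.T 1) (p : E[X]) :
    M (toLaurent p) = toLaurent (p.map (algebraMap E Ω)) := by
  induction p using Polynomial.induction_on' with
  | add p q hp hq => rw [map_add, map_add, Polynomial.map_add, map_add, hp, hq]
  | monomial n a =>
    rw [← C_mul_X_pow_eq_monomial, map_mul, map_mul, toLaurent_C, hMC, map_pow, map_pow, toLaurent_X,
      hMT, Polynomial.map_mul, map_C, Polynomial.map_pow, map_X, map_mul, toLaurent_C, map_pow,
      toLaurent_X]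

private theorem M_inj {E Ω : Type*} [Field E] [Field Ω] [Algebra E Ω]
    (M : LaurentPolynomial E →+* LaurentPolynomial Ω)
    (hMP : ∀ p : E[X], M (toLaurent p) = toLaurent (p.map (algebraMap E Ω))) :
    Function.Injective M := by
  rw [injective_iff_map_eq_zero]
  intro f hf
  obtain ⟨n, f', hf'⟩ := LaurentPolynomial.exists_T_pow f
  have h1 : toLaurent (f'.map (algebraMap E Ω)) = 0 := by
    rw [← hMP, hf', map_mul, hf, zero_mul]
  have h2 : f'.map (algebraMap E Ω) = 0 := by
    apply toLaurent_injective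
    rw [h1, map_zero]
  have h4 : f' = 0 := (Polynomial.map_eq_zero _).mp h2
  rw [h4, map_zero] at hf'
  have h3 : f * LaurentPolynomial.T n * LaurentPolynomial.T (-n) = 0 := by
    rw [← hf', zero_mul]
  rw [LaurentPolynomial.mul_T_assoc, add_neg_cancel, LaurentPolynomial.T_zero, mul_one] at h3
  exact h3

private theorem exists_eps (R : Type*) [Field R] :
    ∃ ε : LaurentPolynomial R →+* R, (∀ e : R, ε (LaurentPolynomial.C e) = e) ∧
      ∀ p : R[X], ε (toLaurent p) = p.eval 1 := by
  refine ⟨LaurentPolynomial.eval₂ (RingHom.id R) 1, ?_, ?_⟩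
  · intro e
    rw [LaurentPolynomial.eval₂_C]
    rfl
  · intro p
    rw [LaurentPolynomial.eval₂_toLaurent]
    rfl

/-- Extension of the coefficients of Laurent polynomials. -/
theorem laurent_map (E Ω : Type*) [Field E] [Field Ω] [Algebra E Ω] :
    ∃ M : LaurentPolynomial E →+* LaurentPolynomial Ω,
      (∀ e : E, M (LaurentPolynomial.C e) = LaurentPolynomial.C (algebraMap E Ω e)) ∧
      ∀ (A : LaurentPolynomial E) (c : Ω), M A = LaurentPolynomial.C c →
        ∃ e : E, A = LaurentPolynomial.C e := by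
  obtain ⟨M, hMC, hMT⟩ := exists_M E Ω
  have hMP := M_poly M hMC hMT
  have hinj := M_inj M hMP
  refine ⟨M, hMC, ?_⟩
  intro A c hA
  obtain ⟨ε, hε1, hε2⟩ := exists_eps Ω
  obtain ⟨ε', -, hε2'⟩ := exists_eps E
  have h0 : ∀ q : E[X], ε (M (toLaurent q)) = algebraMap E Ω (ε' (toLaurent q)) := by
    intro q
    rw [hMP, hε2, hε2', eval_map, ← eval₂_at_one]
  have h1 : ∀ f : LaurentPolynomial E, ε (M f) = algebraMap E Ω (ε' f) := by
    intro f
    obtain ⟨n, f', hf'⟩ := LaurentPolynomial.exists_T_pow f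
    have h2 := h0 f'
    have hT1 : ε' (LaurentPolynomial.T n) = 1 := by
      rw [← toLaurent_X_pow, hε2', eval_pow, eval_X, one_pow]
    have hT2 : ε (M (LaurentPolynomial.T n)) = 1 := by
      rw [← toLaurent_X_pow, h0, hε2', eval_pow, eval_X, one_pow, map_one]
    rw [hf', map_mul, map_mul, map_mul, map_mul, hT1, hT2, mul_one, map_one, mul_one] at h2
    exact h2
  have h2 : c = algebraMap E Ω (ε' A) := by
    rw [← h1, hA, hε1]
  refine ⟨ε' A, hinj ?_⟩
  rw [hA, hMC, h2]

end Pool.Agent.H37.SI
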