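import Pool.Agent.H37.SI.Pls
import Pool.Agent.H37.SI.IntB

/-!
# ALL OF SIEGEL: a rational curve with at least three points at infinity is separated
-/

namespace Pool.Agent.H37.SI

open Polynomial

private theorem int_div {E Ω : Type*} [Field E] [Field Ω] [Algebra E Ω] (R : Subalgebra E Ω)
    {σ c : Ω} {m : ℕ} (a b : E[X]) (ha : a.natDegree ≤ m) (hb : b.natDegree ≤ m) (c1 c2 : R)
    (hP : (c1 : Ω) * aeval σ b = c2 * aeval σ a)
    (hc : (c1 : Ω) * algebraMap E Ω (b.coeff m) - c2 * algebraMap E Ω (a.coeff m) = c) (hc0 : c ≠ 0) :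
    IsIntegral R (c * σ) := by
  set P : R[X] := C c1 * b.map (algebraMap E R) - C c2 * a.map (algebraMap E R) with hPdef
  have h0 : aeval σ P = 0 := by
    rw [hPdef]
    simp only [map_sub, map_mul, aeval_C, aeval_map_algebraMap]
    exact sub_eq_zero.mpr hP
  have hd : P.natDegree ≤ m := by
    refine (natDegree_sub_le _ _).trans (max_le ?_ ?_)
    · exact (natDegree_C_mul_le _ _).trans (natDegree_map_le.trans hb)
    · exact (natDegree_C_mul_le _ _).trans (natDegree_map_le.trans ha)
  have hcf : ((P.coeff m : R) : Ω) = c := by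
    rw [hPdef, coeff_sub, coeff_C_mul, coeff_C_mul, coeff_map, coeff_map, ← hc]
    rfl
  have h1 : P.coeff m ≠ 0 := by
    intro h0
    apply hc0
    rw [← hcf, h0]
    rfl
  have h2 : P.natDegree = m := natDegree_eq_of_le_of_coeff_ne_zero hd h1
  have h3 := isIntegral_leadingCoeff_smul P σ h0
  have h4 : P.leadingCoeff • σ = c * σ := by
    rw [leadingCoeff, h2, Subalgebra.smul_def, hcf, smul_eq_mul]
  rwa [h4] at h3

/-- `x = a(σ)/b(σ)` with three different poles `ρ j`: `v = (x - x_∞) σ` is integral over `k[x]` and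
`v / x` is separated by the three places `σ = ρ j`. -/
theorem sep_rat {k Ω : Type} [Field k] [Field Ω] [Algebra k Ω] [IsAlgClosed Ω]
    (E : IntermediateField k Ω) (hE : E = algebraicClosure k Ω) {σ x : Ω} (hσ : Transcendental E σ)
    (hxt : Transcendental E x) {a b : E[X]} (hab : a.natDegree ≤ b.natDegree) (hco : IsCoprime a b)
    (hx : x * aeval σ b = aeval σ a) (ρ : Fin 3 → E) (hρ : Function.Injective ρ)
    (hroot : ∀ j, b.IsRoot (ρ j)) :
    ∃ c : E, IsIntegral (Algebra.adjoin k {x}) ((x - c) * σ) ∧ Sep k x ((x - c) * σ / x ^ 1) := by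
  classical
  have hb0 : b ≠ 0 := by
    rintro rfl
    rw [map_zero, mul_zero] at hx
    have h1 : a = 0 := by
      by_contra h0
      exact hσ ⟨a, h0, hx.symm⟩
    rw [h1] at hco
    exact not_isCoprime_zero_zero hco
  have hx0 : x ≠ 0 := by
    rintro rfl
    exact hxt isAlgebraic_zero
  set m := b.natDegree with hm
  have hlc : b.coeff m ≠ 0 := by
    rw [hm]
    exact leadingCoeff_ne_zero.mpr hb0
  set c : E := a.coeff m / b.coeff m with hc
  have hlc' : algebraMap E Ω (b.coeff m) ≠ 0 := by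
    rw [Ne, map_eq_zero]
    exact hlc
  have hxc : x - algebraMap E Ω c ≠ 0 := by
    intro h0
    apply hxt
    rw [sub_eq_zero.mp h0]
    exact isAlgebraic_algebraMap c
  have hbσ0 : aeval σ b ≠ 0 := fun h0 => hσ ⟨b, hb0, h0⟩
  have hac : algebraMap E Ω (a.coeff m) = algebraMap E Ω (b.coeff m) * algebraMap E Ω c := by
    rw [hc, map_div₀]
    field_simp
  have hEa : ∀ e ∈ E, IsAlgebraic k e := by
    intro e he
    rw [hE] at he
    exact mem_algebraicClosure_iff.mp he
  have hEi : ∀ (R : Subalgebra E Ω) (e : E), IsIntegral R (algebraMap E Ω e) := fun R e =>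
    (isIntegral_algebraMap (R := E) (A := Ω) (x := e)).tower_top
  -- integrality over E[x]
  have hv1 : IsIntegral (Algebra.adjoin E {x}) ((x - algebraMap E Ω c) * σ) := by
    have h4 : IsIntegral (Algebra.adjoin E {x})
        (algebraMap E Ω (b.coeff m) * (x - algebraMap E Ω c) * σ) := by
      refine int_div (m := m) (Algebra.adjoin E {x}) a b hab le_rfl ⟨x, Algebra.subset_adjoin rfl⟩ 1
        ?_ ?_ (mul_ne_zero hlc' hxc)
      · change x * aeval σ b = 1 * aeval σ a
        rw [hx, one_mul]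
      · change x * algebraMap E Ω (b.coeff m) - 1 * algebraMap E Ω (a.coeff m) = _
        rw [hac]
        ring
    have h5 : (x - algebraMap E Ω c) * σ = algebraMap E Ω (b.coeff m)⁻¹ *
        (algebraMap E Ω (b.coeff m) * (x - algebraMap E Ω c) * σ) := by
      rw [map_inv₀]
      field_simp
    rw [h5]
    exact (hEi _ _).mul h4
  have hv2 : IsIntegral (Algebra.adjoin E {x⁻¹}) ((x - algebraMap E Ω c) * σ / x ^ 1) := by
    have h4 : IsIntegral (Algebra.adjoin E {x⁻¹})
        (algebraMap E Ω (b.coeff m) * ((x - algebraMap E Ω c) * x⁻¹) * σ) := by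
      refine int_div (m := m) (Algebra.adjoin E {x⁻¹}) a b hab le_rfl 1
        ⟨x⁻¹, Algebra.subset_adjoin rfl⟩ ?_ ?_ (mul_ne_zero hlc' (mul_ne_zero hxc (inv_ne_zero hx0)))
      · change 1 * aeval σ b = x⁻¹ * aeval σ a
        rw [← hx, one_mul, ← mul_assoc, inv_mul_cancel₀ hx0, one_mul]
      · change 1 * algebraMap E Ω (b.coeff m) - x⁻¹ * algebraMap E Ω (a.coeff m) = _
        rw [hac]
        field_simp
    have h5 : (x - algebraMap E Ω c) * σ / x ^ 1 = algebraMap E Ω (b.coeff m)⁻¹ *
        (algebraMap E Ω (b.coeff m) * ((x - algebraMap E Ω c) * x⁻¹) * σ) := by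
      rw [map_inv₀, pow_one]
      field_simp
    rw [h5]
    exact (hEi _ _).mul h4
  refine ⟨c, int_base E hEa hv1, ?_⟩
  have hv2' : (x - algebraMap E Ω c) * σ / x ^ 1 ∈ TI k x := int_base E hEa hv2
  -- the places
  have haσ0 : aeval σ a ≠ 0 := by
    rw [← hx]
    exact mul_ne_zero hx0 hbσ0
  let gσ : E[X] →+* Ω := (aeval σ : E[X] →ₐ[E] Ω).toRingHom
  let iσ : Localization.Away a →+* Ω := IsLocalization.Away.lift a (g := gσ) (isUnit_iff_ne_zero.mpr haσ0)
  have hiσ : ∀ p : E[X], iσ (algebraMap _ _ p) = aeval σ p := fun p =>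
    IsLocalization.Away.lift_eq a (g := gσ) (isUnit_iff_ne_zero.mpr haσ0) p
  have hinj : Function.Injective iσ := by
    rw [injective_iff_map_eq_zero]
    intro z hz
    obtain ⟨p, s, rfl⟩ := IsLocalization.exists_mk'_eq (Submonoid.powers a) z
    have h1 : iσ (algebraMap _ _ p) = 0 := by
      rw [← IsLocalization.mk'_spec (Localization.Away a) p s, map_mul, hz, zero_mul]
    rw [hiσ] at h1
    have h2 : p = 0 := by
      by_contra h0
      exact hσ ⟨p, h0, h1⟩
    rw [h2, IsLocalization.mk'_zero]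
  have haρ : ∀ j, a.eval (ρ j) ≠ 0 := by
    intro j h0
    obtain ⟨u, v, huv⟩ := hco
    have h1 := congrArg (eval (ρ j)) huv
    rw [eval_add, eval_mul, eval_mul, h0, (hroot j : eval (ρ j) b = 0), mul_zero, mul_zero, add_zero,
      eval_one] at h1
    exact zero_ne_one h1
  have haρ' : ∀ j, IsUnit ((aeval (algebraMap E Ω (ρ j)) : E[X] →ₐ[E] Ω).toRingHom a) := by
    intro j
    rw [isUnit_iff_ne_zero]
    change aeval (algebraMap E Ω (ρ j)) a ≠ 0
    rw [aeval_algebraMap_apply, Ne, map_eq_zero]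
    exact haρ j
  let f : Fin 3 → (Localization.Away a →+* Ω) := fun j => IsLocalization.Away.lift a (haρ' j)
  have hf : ∀ j (p : E[X]), f j (algebraMap _ _ p) = algebraMap E Ω (p.eval (ρ j)) := by
    intro j p
    have h1 := IsLocalization.Away.lift_eq a (S := Localization.Away a) (haρ' j) p
    change f j (algebraMap _ _ p) = aeval (algebraMap E Ω (ρ j)) p at h1
    rw [h1, aeval_algebraMap_apply]
    rfl
  let zi : Localization.Away a := IsLocalization.Away.invSelf a
  have hzi : algebraMap E[X] (Localization.Away a) a * zi = 1 := IsLocalization.Away.mul_invSelf a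
  let xi : Localization.Away a := algebraMap _ _ b * zi
  have hxi1 : iσ xi = x⁻¹ := by
    have h1 := congrArg iσ hzi
    rw [map_mul, hiσ, map_one] at h1
    change iσ (algebraMap _ _ b * zi) = x⁻¹
    rw [map_mul, hiσ, eq_inv_of_mul_eq_one_right h1, ← hx]
    field_simp
  have hxi2 : ∀ j, f j xi = 0 := by
    intro j
    change f j (algebraMap _ _ b * zi) = 0
    rw [map_mul, hf, (hroot j : eval (ρ j) b = 0), map_zero, zero_mul]
  have hpl : ∀ j, ∃ π : TI k x →+* Ω, ∀ (t : TI k x) (z : Localization.Away a),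
      (t : Ω) = iσ z → π t = f j z := by
    intro j
    apply exists_place iσ hinj (f j) x
    · intro c
      refine ⟨algebraMap _ _ (C (algebraMap k E c)), ?_⟩
      rw [hiσ, aeval_C]
      rfl
    · exact ⟨xi, hxi1⟩
  choose π hπ using hpl
  let tv : TI k x := ⟨(x - algebraMap E Ω c) * σ / x ^ 1, hv2'⟩
  refine ⟨Ω, inferInstance, π, tv, rfl, ?_, ?_, ?_⟩
  · intro j s hs
    rw [hπ j s xi (by rw [hs, hxi1]), hxi2]
  · intro j s hs
    have h1 : (s : Ω) ∈ E := by
      rw [hE]
      exact mem_algebraicClosure_iff.mpr hs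
    have h2 : ∀ j, π j s = s := by
      intro j
      have h3 := hπ j s (algebraMap _ _ (C (⟨(s : Ω), h1⟩ : E))) (by rw [hiσ, aeval_C]; rfl)
      rw [h3, hf, eval_C]
      rfl
    rw [h2, h2]
  · intro i j hij
    let t0 : Localization.Away a := algebraMap E[X] (Localization.Away a) X * (1 - algebraMap E[X] (Localization.Away a) (C c) * xi)
    have h1 : ∀ j, π j tv = algebraMap E Ω (ρ j) := by
      intro j
      rw [hπ j tv t0 ?_]
      · change f j (algebraMap E[X] (Localization.Away a) X * (1 - algebraMap E[X] (Localization.Away a) (C c) * xi)) = _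
        rw [map_mul, map_sub, map_mul, map_one, hxi2, mul_zero, sub_zero, mul_one, hf, eval_X]
      · change (x - algebraMap E Ω c) * σ / x ^ 1 =
          iσ (algebraMap E[X] (Localization.Away a) X * (1 - algebraMap E[X] (Localization.Away a) (C c) * xi))
        rw [map_mul, map_sub, map_mul, map_one, hxi1, hiσ, hiσ, aeval_X, aeval_C, pow_one]
        field_simp
    have h2 : algebraMap E Ω (ρ i) = algebraMap E Ω (ρ j) := by
      rw [← h1 i, ← h1 j]
      exact hij
    exact hρ ((algebraMap E Ω).injective h2)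

end Pool.Agent.H37.SI
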