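import Mathlib

/-!
# ALL OF SIEGEL: a rational curve with at most two points at infinity has a Laurent parametrisation
-/

namespace Pool.Agent.H37.SI

open Polynomial IntermediateField

/-- `x = a(σ)/b(σ)`, `deg a ≤ deg b`, at most two different zeros of `b`, `y` in `E(σ)` integral over
`E[x]`: `x` and `y` are Laurent polynomials in a Moebius transform of `σ`. -/
theorem laurent_rep {E Ω : Type*} [Field E] [Field Ω] [Algebra E Ω] {σ x y : Ω}
    (hσ : Transcendental E σ) {a b : E[X]} (hb : b.Splits) (hb0 : b ≠ 0)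
    (hab : a.natDegree ≤ b.natDegree) (hx : x * aeval σ b = aeval σ a) {ρ1 ρ2 : E} (hρ : ρ1 ≠ ρ2)
    (hroots : ∀ ρ, b.IsRoot ρ → ρ = ρ1 ∨ ρ = ρ2) (hy : y ∈ E⟮σ⟯)
    (hyi : IsIntegral (Algebra.adjoin E {x}) y) :
    ∃ (Φ : LaurentPolynomial E →+* Ω) (A B : LaurentPolynomial E), Function.Injective Φ ∧
      (∀ e, Φ (LaurentPolynomial.C e) = algebraMap E Ω e) ∧ Φ A = x ∧ Φ B = y := by
  classical
  set i := algebraMap E Ω with hi
  have hσe : ∀ e : E, σ - i e ≠ 0 := by
    intro e h0
    apply hσ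
    rw [sub_eq_zero.mp h0]
    exact isAlgebraic_algebraMap e
  have hρ' : i ρ1 - i ρ2 ≠ 0 := by
    rw [← map_sub, Ne, map_eq_zero, sub_eq_zero]
    exact hρ
  set τ : Ω := (σ - i ρ1) / (σ - i ρ2) with hτ
  have hτ0 : τ ≠ 0 := div_ne_zero (hσe _) (hσe _)
  set u : Ω := (σ - i ρ2)⁻¹ with hu
  have hu1 : u = (1 - τ) * (i ρ1 - i ρ2)⁻¹ := by
    rw [hu, hτ]
    have := hσe ρ2
    field_simp
    ring
  have hσu : σ * u = 1 + i ρ2 * u := by
    rw [hu]
    have := hσe ρ2
    field_simp
    ring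
  have hτt : Transcendental E τ := by
    intro h
    apply hσ
    have h1 : τ - 1 ≠ 0 := by
      intro h0
      have h2 : u = 0 := by
        rw [hu1]
        have h3 : 1 - τ = 0 := by
          rw [← neg_sub, h0, neg_zero]
        rw [h3, zero_mul]
      rw [hu, inv_eq_zero] at h2
      exact hσe _ h2
    have h2 : σ = (i ρ2 * τ - i ρ1) * (τ - 1)⁻¹ := by
      have h3 : σ * (τ - 1) = i ρ2 * τ - i ρ1 := by
        rw [hτ]
        have := hσe ρ2
        field_simp
        ring
      rw [← h3, mul_assoc, mul_inv_cancel₀ h1, mul_one]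
    rw [h2]
    exact (((isAlgebraic_algebraMap ρ2).mul h).sub (isAlgebraic_algebraMap ρ1)).mul
      ((h.sub isAlgebraic_one).inv)
  let Φ : LaurentPolynomial E →+* Ω := LaurentPolynomial.eval₂ i (Units.mk0 τ hτ0)
  have hΦC : ∀ e, Φ (LaurentPolynomial.C e) = i e := fun e => LaurentPolynomial.eval₂_C _ _ _
  have hΦP : ∀ p : E[X], Φ (toLaurent p) = aeval τ p := fun p => LaurentPolynomial.eval₂_toLaurent _ _ _
  have hΦT : ∀ n : ℤ, Φ (LaurentPolynomial.T n) = τ ^ n := by
    intro n
    change LaurentPolynomial.eval₂ i (Units.mk0 τ hτ0) (LaurentPolynomial.T n) = _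
    rw [LaurentPolynomial.eval₂_T]
    simp
  have hinj : Function.Injective Φ := by
    rw [injective_iff_map_eq_zero]
    intro f hf
    obtain ⟨n, f', hf'⟩ := LaurentPolynomial.exists_T_pow f
    have h1 : aeval τ f' = 0 := by
      rw [← hΦP, hf', map_mul, hf, zero_mul]
    have h2 : f' = 0 := by
      by_contra h0
      exact hτt ⟨f', h0, h1⟩
    rw [h2, map_zero] at hf'
    have h3 : f * LaurentPolynomial.T n * LaurentPolynomial.T (-n) = 0 := by
      rw [← hf', zero_mul]
    rw [LaurentPolynomial.mul_T_assoc, add_neg_cancel, LaurentPolynomial.T_zero, mul_one] at h3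
    exact h3
  -- the range
  have hSE : ∀ e, i e ∈ Φ.range := fun e => ⟨_, hΦC e⟩
  have hSτ : τ ∈ Φ.range := ⟨LaurentPolynomial.T 1, by rw [hΦT, zpow_one]⟩
  have hSτ' : τ⁻¹ ∈ Φ.range := ⟨LaurentPolynomial.T (-1), by rw [hΦT, zpow_neg_one]⟩
  have hSu : u ∈ Φ.range := by
    rw [hu1, ← map_sub, ← map_inv₀]
    exact Φ.range.mul_mem (Φ.range.sub_mem Φ.range.one_mem hSτ) (hSE _)
  have hSσu : σ * u ∈ Φ.range := by
    rw [hσu]
    exact Φ.range.add_mem Φ.range.one_mem (Φ.range.mul_mem (hSE _) hSu)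
  have hSp : ∀ (p : E[X]) (m : ℕ), p.natDegree ≤ m → aeval σ p * u ^ m ∈ Φ.range := by
    intro p m hm
    rw [aeval_eq_sum_range, Finset.sum_mul]
    apply Φ.range.sum_mem
    intro r hr
    have hr' : r ≤ m := by
      rw [Finset.mem_range] at hr
      omega
    have h1 : p.coeff r • σ ^ r * u ^ m = i (p.coeff r) * ((σ * u) ^ r * u ^ (m - r)) := by
      rw [Algebra.smul_def, mul_pow, mul_assoc]
      congr 1
      rw [mul_assoc, ← pow_add]
      congr 2
      omega
    rw [h1]
    exact Φ.range.mul_mem (hSE _) (Φ.range.mul_mem (Φ.range.pow_mem hSσu _) (Φ.range.pow_mem hSu _))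
  -- products over the roots
  have hSr : ∀ s : Multiset E, (∀ ρ ∈ s, ρ = ρ1 ∨ ρ = ρ2) →
      ((s.map fun ρ => σ - i ρ).prod * u ^ Multiset.card s)⁻¹ ∈ Φ.range := by
    intro s
    induction s using Multiset.induction_on with
    | empty =>
      intro _
      simp
    | cons ρ s ih =>
      intro hs
      have h1 := ih (fun ρ' hρ' => hs ρ' (Multiset.mem_cons_of_mem hρ'))
      have h2 : ((σ - i ρ) * u)⁻¹ ∈ Φ.range := by
        rcases hs ρ (Multiset.mem_cons_self _ _) with rfl | rfl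
        · have h3 : (σ - i ρ) * u = τ := by rw [hu, hτ, div_eq_mul_inv]
          rw [h3]
          exact hSτ'
        · have h3 : (σ - i ρ) * u = 1 := by rw [hu, mul_inv_cancel₀ (hσe _)]
          rw [h3, inv_one]
          exact Φ.range.one_mem
      have h4 : (((ρ ::ₘ s).map fun ρ => σ - i ρ).prod * u ^ Multiset.card (ρ ::ₘ s))⁻¹ =
          ((σ - i ρ) * u)⁻¹ * ((s.map fun ρ => σ - i ρ).prod * u ^ Multiset.card s)⁻¹ := by
        rw [Multiset.map_cons, Multiset.prod_cons, Multiset.card_cons, pow_succ, ← mul_inv]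
        congr 1
        ring
      rw [h4]
      exact Φ.range.mul_mem h2 h1
  have hbσ : aeval σ b = i b.leadingCoeff * (b.roots.map fun ρ => σ - i ρ).prod := by
    have h1 := congrArg (aeval σ) hb.eq_prod_roots
    rw [h1, map_mul, aeval_C, map_multiset_prod, Multiset.map_map]
    congr 2
    apply Multiset.map_congr rfl
    intro ρ _
    simp [hi]
  have hcard : Multiset.card b.roots = b.natDegree := hb.natDegree_eq_card_roots.symm
  have hlc : i b.leadingCoeff ≠ 0 := by
    rw [Ne, map_eq_zero]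
    exact leadingCoeff_ne_zero.mpr hb0
  have hbinv : (aeval σ b * u ^ b.natDegree)⁻¹ ∈ Φ.range := by
    have h1 : (aeval σ b * u ^ b.natDegree)⁻¹ = i (b.leadingCoeff)⁻¹ *
        ((b.roots.map fun ρ => σ - i ρ).prod * u ^ Multiset.card b.roots)⁻¹ := by
      rw [hbσ, hcard, map_inv₀, ← mul_inv, mul_assoc]
    rw [h1]
    refine Φ.range.mul_mem (hSE _) (hSr _ ?_)
    intro ρ hρ
    exact hroots ρ (isRoot_of_mem_roots hρ)
  have hbσ0 : aeval σ b ≠ 0 := fun h0 => hσ ⟨b, hb0, h0⟩
  have hu0 : u ≠ 0 := inv_ne_zero (hσe _)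
  have hxS : x ∈ Φ.range := by
    have h1 : x = (aeval σ a * u ^ b.natDegree) * (aeval σ b * u ^ b.natDegree)⁻¹ := by
      rw [← hx]
      have h2 : u ^ b.natDegree ≠ 0 := pow_ne_zero _ hu0
      field_simp
    rw [h1]
    exact Φ.range.mul_mem (hSp a _ hab) hbinv
  -- y
  have hsub : ∀ z : Algebra.adjoin E {x}, (z : Ω) ∈ Φ.range := by
    rintro ⟨z, hz⟩
    induction hz using Algebra.adjoin_induction with
    | mem z hz =>
      rw [Set.mem_singleton_iff] at hz
      subst hz
      exact hxS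
    | algebraMap c => exact hSE c
    | add a b _ _ ha hb => exact Φ.range.add_mem ha hb
    | mul a b _ _ ha hb => exact Φ.range.mul_mem ha hb
  let e : LaurentPolynomial E ≃+* Φ.range := RingEquiv.ofBijective Φ.rangeRestrict
    ⟨fun a b hab => hinj (congrArg Subtype.val hab), Φ.rangeRestrict_surjective⟩
  let j0 : Algebra.adjoin E {x} →+* Φ.range :=
    { toFun := fun z => ⟨z, hsub z⟩
      map_one' := rfl
      map_zero' := rfl
      map_mul' := fun _ _ => rfl
      map_add' := fun _ _ => rfl }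
  let j : Algebra.adjoin E {x} →+* LaurentPolynomial E := e.symm.toRingHom.comp j0
  have hj : Φ.comp j = algebraMap (Algebra.adjoin E {x}) Ω := by
    apply RingHom.ext
    intro z
    have h1 : e (e.symm (j0 z)) = j0 z := e.apply_symm_apply _
    exact congrArg Subtype.val h1
  obtain ⟨P, hP, hPy⟩ := hyi
  have hic : IsIntegrallyClosed (LaurentPolynomial E) := by
    apply isIntegrallyClosed_of_isLocalization (R := E[X]) (LaurentPolynomial E)
      (Submonoid.powers (X : E[X]))
    rw [Submonoid.powers_le]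
    exact mem_nonZeroDivisors_of_ne_zero X_ne_zero
  let Ψ : FractionRing (LaurentPolynomial E) →+* Ω := IsFractionRing.lift hinj
  have hΨ : ∀ f, Ψ (algebraMap _ _ f) = Φ f := fun f => IsFractionRing.lift_algebraMap hinj f
  obtain ⟨p, q, hpq⟩ := (mem_adjoin_simple_iff (F := E) y).mp hy
  set N := max p.natDegree q.natDegree with hN
  obtain ⟨c, hc⟩ := hSp p N (le_max_left _ _)
  obtain ⟨d, hd⟩ := hSp q N (le_max_right _ _)
  let z : FractionRing (LaurentPolynomial E) := algebraMap _ _ c / algebraMap _ _ d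
  have hz : Ψ z = y := by
    change Ψ (algebraMap _ _ c / algebraMap _ _ d) = y
    rw [map_div₀, hΨ, hΨ, hc, hd, hpq, mul_div_mul_right _ _ (pow_ne_zero _ hu0)]
  have hzi : IsIntegral (LaurentPolynomial E) z := by
    refine ⟨P.map j, hP.map j, ?_⟩
    apply Ψ.injective
    rw [map_zero, hom_eval₂, eval₂_map, hz]
    have h1 : (Ψ.comp (algebraMap (LaurentPolynomial E) (FractionRing (LaurentPolynomial E)))).comp j =
        algebraMap (Algebra.adjoin E {x}) Ω := by
      rw [← hj]
      congr 1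
      apply RingHom.ext
      intro f
      exact hΨ f
    rw [h1]
    exact hPy
  obtain ⟨B, hB⟩ := IsIntegrallyClosed.isIntegral_iff.mp hzi
  obtain ⟨A, hA⟩ := hxS
  refine ⟨Φ, A, B, hinj, hΦC, hA, ?_⟩
  rw [← hΨ, hB, hz]

end Pool.Agent.H37.SI
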