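import Mathlib

/-!
# ALL OF SIEGEL: a generator of `E(s)` at which `x` has no pole at infinity; primitive elements
-/

namespace Pool.Agent.H37.SI

open Polynomial IntermediateField

theorem rat_normal {E Ω : Type*} [Field E] [Infinite E] [Field Ω] [Algebra E Ω] {s x : Ω}
    (hs : Transcendental E s) (hx : x ∈ E⟮s⟯) :
    ∃ σ : Ω, Transcendental E σ ∧ E⟮σ⟯ = E⟮s⟯ ∧ ∃ a b : E[X], b ≠ 0 ∧ a.natDegree ≤ b.natDegree ∧
      IsCoprime a b ∧ x * aeval σ b = aeval σ a := by
  classical
  obtain ⟨p, q, hq0, hpq⟩ : ∃ p q : E[X], q ≠ 0 ∧ x * aeval s q = aeval s p := by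
    obtain ⟨p, q, hpq⟩ := (mem_adjoin_simple_iff (F := E) x).mp hx
    by_cases hq : q = 0
    · refine ⟨0, 1, one_ne_zero, ?_⟩
      rw [hpq, hq, map_zero, div_zero, zero_mul]
    · refine ⟨p, q, hq, ?_⟩
      have h1 : aeval s q ≠ 0 := fun h0 => hs ⟨q, hq, h0⟩
      rw [hpq, div_mul_cancel₀ _ h1]
  obtain ⟨c, hc⟩ : ∃ c : E, q.eval c ≠ 0 := by
    by_contra hno
    push Not at hno
    exact hq0 (Polynomial.funext fun r => by rw [hno r, eval_zero])
  have hsc : s - algebraMap E Ω c ≠ 0 := by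
    intro h0
    apply hs
    rw [sub_eq_zero.mp h0]
    exact isAlgebraic_algebraMap c
  set σ : Ω := (s - algebraMap E Ω c)⁻¹ with hσ
  have hσ0 : σ ≠ 0 := inv_ne_zero hsc
  have hs' : s = σ⁻¹ + algebraMap E Ω c := by
    rw [hσ, inv_inv]
    ring
  have hσt : Transcendental E σ := by
    intro h
    apply hs
    rw [hs']
    exact h.inv.add (isAlgebraic_algebraMap c)
  have hEE : E⟮σ⟯ = E⟮s⟯ := by
    apply le_antisymm
    · rw [adjoin_simple_le_iff]
      exact inv_mem (sub_mem (mem_adjoin_simple_self E s) (IntermediateField.algebraMap_mem _ c))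
    · rw [adjoin_simple_le_iff, hs']
      exact add_mem (inv_mem (mem_adjoin_simple_self E σ)) (IntermediateField.algebraMap_mem _ c)
  refine ⟨σ, hσt, hEE, ?_⟩
  set m := max p.natDegree q.natDegree with hm
  have hrefl : ∀ f : E[X], f.natDegree ≤ m →
      aeval σ (reflect m (f.comp (X + C c))) = σ ^ m * aeval s f := by
    intro f hf
    let _ : Invertible (σ⁻¹) := invertibleOfNonzero (inv_ne_zero hσ0)
    have hd : (f.comp (X + C c)).natDegree ≤ m := by
      rw [natDegree_comp, natDegree_X_add_C, mul_one]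
      exact hf
    have h3 := eval₂_reflect_mul_pow (algebraMap E Ω) σ⁻¹ m (f.comp (X + C c)) hd
    rw [invOf_eq_inv, inv_inv] at h3
    have h4 : eval₂ (algebraMap E Ω) σ⁻¹ (f.comp (X + C c)) = aeval s f := by
      change aeval σ⁻¹ (f.comp (X + C c)) = _
      rw [aeval_comp, map_add, aeval_X, aeval_C, ← hs']
    rw [h4] at h3
    rw [← h3, mul_left_comm, ← mul_pow, mul_inv_cancel₀ hσ0, one_pow, mul_one]
    rfl
  have hdeg : ∀ f : E[X], f.natDegree ≤ m → (reflect m (f.comp (X + C c))).natDegree ≤ m := by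
    intro f hf
    have hd : (f.comp (X + C c)).natDegree ≤ m := by
      rw [natDegree_comp, natDegree_X_add_C, mul_one]
      exact hf
    rw [natDegree_le_iff_coeff_eq_zero]
    intro i hi
    rw [coeff_reflect, revAt_eq_self_of_lt hi]
    exact coeff_eq_zero_of_natDegree_lt (lt_of_le_of_lt hd hi)
  set a1 := reflect m (p.comp (X + C c)) with ha1
  set b1 := reflect m (q.comp (X + C c)) with hb1
  have hb1c : b1.coeff m ≠ 0 := by
    rw [hb1, coeff_reflect, revAt_le le_rfl, Nat.sub_self, coeff_zero_eq_eval_zero, eval_comp]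
    simpa using hc
  have hb1d : b1.natDegree = m :=
    natDegree_eq_of_le_of_coeff_ne_zero (hdeg q (le_max_right _ _)) hb1c
  have hb10 : b1 ≠ 0 := by
    intro h0
    rw [h0, coeff_zero] at hb1c
    exact hb1c rfl
  have hev : x * aeval σ b1 = aeval σ a1 := by
    rw [hb1, ha1, hrefl q (le_max_right _ _), hrefl p (le_max_left _ _), ← hpq]
    ring
  -- divide by the gcd
  set g := EuclideanDomain.gcd a1 b1 with hg
  have hg0 : g ≠ 0 := by
    intro h0
    exact hb10 (EuclideanDomain.gcd_eq_zero_iff.mp h0).2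
  obtain ⟨a, ha⟩ := EuclideanDomain.gcd_dvd_left a1 b1
  obtain ⟨b, hb⟩ := EuclideanDomain.gcd_dvd_right a1 b1
  rw [← hg] at ha hb
  have hb0 : b ≠ 0 := by
    rintro rfl
    rw [mul_zero] at hb
    exact hb10 hb
  refine ⟨a, b, hb0, ?_, ?_, ?_⟩
  · by_cases ha0 : a = 0
    · rw [ha0, natDegree_zero]
      exact Nat.zero_le _
    · have h1 : a1.natDegree ≤ m := hdeg p (le_max_left _ _)
      rw [ha, natDegree_mul hg0 ha0] at h1
      rw [← hb1d, hb, natDegree_mul hg0 hb0] at h1
      omega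
  · have h1 := EuclideanDomain.gcd_eq_gcd_ab a1 b1
    rw [← hg] at h1
    refine ⟨EuclideanDomain.gcdA a1 b1, EuclideanDomain.gcdB a1 b1, ?_⟩
    generalize EuclideanDomain.gcdA a1 b1 = U at h1 ⊢
    generalize EuclideanDomain.gcdB a1 b1 = V at h1 ⊢
    apply mul_left_cancel₀ hg0
    calc g * (U * a + V * b) = (g * a) * U + (g * b) * V := by ring
      _ = a1 * U + b1 * V := by rw [← ha, ← hb]
      _ = g * 1 := by rw [← h1, mul_one]
  · have h1 : aeval σ g ≠ 0 := fun h0 => hσt ⟨g, hg0, h0⟩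
    apply mul_left_cancel₀ h1
    rw [ha, hb, map_mul, map_mul] at hev
    rw [← hev]
    ring

end Pool.Agent.H37.SI
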