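import Pool.Agent.H37.SI.Kum
import Pool.Agent.H37.SI.Trc
import Pool.Agent.H37.SI.Rts
import Pool.Agent.H37.SI.Nrm
import Pool.Agent.H37.SI.RatA
import Pool.Agent.H37.SI.RatB
import Pool.Agent.H37.SI.RatC
import Pool.Agent.H37.SI.Gen
import Pool.Agent.H37.SI.Lau
import Pool.Agent.H37.SI.Cov

/-!
# ALL OF SIEGEL: main theorem of the chapter (trace, weights, three roots; rational case)

`k ⊆ ks ⊆ Ω`, `x, y` in `ks`, `E` the algebraic closure of `k` in `Ω`, `K = E(x, y)` in `Ω`.
`hE1` is the conclusion of E1 for `K`, `hCW` the Chevalley-Weil theorem at the point `(x, y)`.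
-/

namespace Pool.Agent.H37.SI

open Polynomial

theorem main {k ks Ω : Type} [Field k] [CharZero k] [Field ks] [Field Ω] [IsAlgClosed Ω]
    [Algebra k ks] [Algebra ks Ω] [Algebra k Ω] [IsScalarTower k ks Ω] (x y : ks)
    (hx : Transcendental k x) (hy : IsIntegral (Algebra.adjoin k {x}) y)
    (E : IntermediateField k Ω) (hE : E = algebraicClosure k Ω)
    (hE1 : (∃ s : IntermediateField.adjoin E ({algebraMap ks Ω x, algebraMap ks Ω y} : Set Ω),
        IntermediateField.adjoin E {s} = ⊤) ∨
      ∃ (l : ℕ) (f : IntermediateField.adjoin E ({algebraMap ks Ω x, algebraMap ks Ω y} : Set Ω)),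
        l.Prime ∧ 3 ≤ l ∧ f ≠ 0 ∧ (∀ h, f ≠ h ^ l) ∧
        ∀ V : ValuationSubring
            (IntermediateField.adjoin E ({algebraMap ks Ω x, algebraMap ks Ω y} : Set Ω)),
          (∀ e : E, algebraMap E _ e ∈ V) → ∃ s, s ≠ 0 ∧ f * s ^ l ∈ V ∧ (f * s ^ l)⁻¹ ∈ V)
    (hCW : ∀ l : ℕ, 1 ≤ l → ∀ f f' p A B : Ω,
      (∀ z ∈ ({f, f', p, A, B} : Set Ω),
        z ∈ IntermediateField.adjoin E ({algebraMap ks Ω x, algebraMap ks Ω y} : Set Ω)) →
      (∀ z ∈ ({f, f', A, B} : Set Ω), IsIntegral (Algebra.adjoin E {algebraMap ks Ω x}) z) →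
      f ≠ 0 → A * f + B * f' = 1 → f' = f * p ^ l →
      ∃ c ∈ E, c ≠ 0 ∧ ∃ v : Ω, v ^ l = c * f ∧ ∃ θ ∈ E, v ∈ IntermediateField.adjoin ks {θ}) :
    (∃ (w : ks) (κ : ℕ) (G : k[X][X]), Model x w κ G ∧ Three (lf κ G)) ∨
      ∃ A B : LaurentPolynomial Ω, ¬ (∃ a b : Ω, A = LaurentPolynomial.C a ∧ B = LaurentPolynomial.C b) ∧
        ∀ F : k[X][X], ev x y F = 0 →
          eval₂ (eval₂RingHom ((LaurentPolynomial.C).comp (algebraMap k Ω)) A) B F = 0 := by
  classical
  have hEcl : IsAlgClosed E := by
    rw [hE]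
    exact IsAlgClosure.isAlgClosed k
  set x' : Ω := algebraMap ks Ω x with hx'
  set y' : Ω := algebraMap ks Ω y with hy'
  set K : IntermediateField E Ω := IntermediateField.adjoin E ({x', y'} : Set Ω) with hK
  have hcE : CharZero E := charZero_of_injective_algebraMap (algebraMap k E).injective
  have hEa : ∀ e ∈ E, IsAlgebraic k e := by
    intro e he
    rw [hE] at he
    exact mem_algebraicClosure_iff.mp he
  have hEa' : ∀ e : Ω, IsAlgebraic k e → e ∈ E := by
    intro e he
    rw [hE]
    exact mem_algebraicClosure_iff.mpr he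
  have hxk : Transcendental k x' := by
    intro h
    exact hx ((isAlgebraic_algebraMap_iff (algebraMap ks Ω).injective).mp h)
  have hxE : Transcendental E x' := by
    rw [hE]
    exact hxk.algebraicClosure
  have hxK : x' ∈ K := IntermediateField.subset_adjoin E _ (Set.mem_insert _ _)
  have hyK : y' ∈ K := IntermediateField.subset_adjoin E _ (Set.mem_insert_of_mem _ rfl)
  have hyi : IsIntegral (Algebra.adjoin E {x'}) y' := by
    apply int_base'
    obtain ⟨p, hp, hpy⟩ := hy
    have h1 : ∀ t : ks, t ∈ Algebra.adjoin k {x} → algebraMap ks Ω t ∈ Algebra.adjoin k {x'} := by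
      intro t ht
      induction ht using Algebra.adjoin_induction with
      | mem t ht =>
        rw [Set.mem_singleton_iff] at ht
        subst ht
        exact Algebra.subset_adjoin rfl
      | algebraMap c =>
        rw [← IsScalarTower.algebraMap_apply k ks Ω c]
        exact (Algebra.adjoin k {x'}).algebraMap_mem c
      | add a b _ _ ha hb =>
        rw [map_add]
        exact add_mem ha hb
      | mul a b _ _ ha hb =>
        rw [map_mul]
        exact mul_mem ha hb
    let j : Algebra.adjoin k {x} →+* Algebra.adjoin k {x'} :=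
      { toFun := fun t => ⟨algebraMap ks Ω t, h1 t t.2⟩
        map_one' := Subtype.ext (map_one _)
        map_zero' := Subtype.ext (map_zero _)
        map_mul' := fun a b => Subtype.ext (map_mul _ (a : ks) b)
        map_add' := fun a b => Subtype.ext (map_add _ (a : ks) b) }
    refine ⟨p.map j, hp.map j, ?_⟩
    rw [eval₂_map]
    have h2 : (algebraMap (Algebra.adjoin k {x'}) Ω).comp j =
        (algebraMap ks Ω).comp (algebraMap (Algebra.adjoin k {x}) ks) := rfl
    rw [h2, hy', ← hom_eval₂, hpy, map_zero]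
  rcases hE1 with ⟨s, hs⟩ | ⟨l, f, hl, hl3, hf0, hfn, hfV⟩
  · -- the rational case
    have hKs : ∀ z ∈ K, z ∈ IntermediateField.adjoin E {(s : Ω)} := by
      intro z hz
      have h2 : (⟨z, hz⟩ : K) ∈ IntermediateField.adjoin E {s} := by
        rw [hs]
        exact IntermediateField.mem_top
      obtain ⟨p, q, hpq⟩ := (IntermediateField.mem_adjoin_simple_iff E _).mp h2
      rw [IntermediateField.mem_adjoin_simple_iff]
      refine ⟨p, q, ?_⟩
      have h3 := congrArg (algebraMap K Ω) hpq
      rw [map_div₀, ← aeval_algebraMap_apply, ← aeval_algebraMap_apply] at h3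
      exact h3
    have hst : Transcendental E (s : Ω) := by
      intro h
      have h1 : Algebra.IsAlgebraic E (IntermediateField.adjoin E {(s : Ω)}) :=
        IntermediateField.isAlgebraic_adjoin_simple h.isIntegral
      have h2 : IsAlgebraic E (⟨x', hKs x' hxK⟩ : IntermediateField.adjoin E {(s : Ω)}) :=
        Algebra.IsAlgebraic.isAlgebraic _
      exact hxE h2.algebraMap
    obtain ⟨σ, hσ, hσs, a, b, hb0, hab, hco, hxab⟩ := rat_normal hst (hKs x' hxK)
    have hbs : b.Splits := IsAlgClosed.splits b
    by_cases h3 : 3 ≤ b.roots.toFinset.card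
    · left
      obtain ⟨ρ, hρ⟩ : ∃ ρ : Fin 3 → E, Function.Injective ρ ∧ ∀ j, b.IsRoot (ρ j) := by
        obtain ⟨t, ht1, ht2⟩ := Finset.exists_subset_card_eq h3
        refine ⟨fun j => (t.equivFinOfCardEq ht2).symm j, ?_, ?_⟩
        · intro i j hij
          exact (t.equivFinOfCardEq ht2).symm.injective (Subtype.ext hij)
        · intro j
          have h4 := ht1 ((t.equivFinOfCardEq ht2).symm j).2
          rw [Multiset.mem_toFinset] at h4
          exact isRoot_of_mem_roots h4
      obtain ⟨c, hc1, hc2⟩ := sep_rat E hE hσ hxE hab hco hxab ρ hρ.1 hρ.2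
      have hσK : σ ∈ K := by
        have h4 : IntermediateField.adjoin E {(s : Ω)} ≤ K := by
          rw [IntermediateField.adjoin_simple_le_iff]
          exact s.2
        apply h4
        rw [← hσs]
        exact IntermediateField.mem_adjoin_simple_self E σ
      have hvK : (x' - c) * σ ∈ K := mul_mem (sub_mem hxK (K.algebraMap_mem c)) hσK
      obtain ⟨θ, hθ1, hθ2⟩ := mem_ks E hEa x y hvK
      obtain ⟨w, hw1, hw2⟩ := exists_trace x 1 _ θ hθ1 hθ2 hc1 hc2
      obtain ⟨G, hG1, hG2⟩ := exists_model_three hx 1 hw1 hw2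
      exact ⟨w, 1, G, hG1, hG2⟩
    · right
      have hinf : Infinite E := inferInstance
      obtain ⟨t, ht1, ht2⟩ := Infinite.exists_superset_card_eq b.roots.toFinset 2 (by omega)
      obtain ⟨ρ1, ρ2, hρ, rfl⟩ := Finset.card_eq_two.mp ht2
      obtain ⟨Φ, A, B, hΦ, hΦC, hA, hB⟩ := laurent_rep hσ hbs hb0 hab hxab hρ (by
        intro ρ hr
        have h4 : ρ ∈ b.roots.toFinset := by
          rw [Multiset.mem_toFinset, mem_roots hb0]
          exact hr
        simpa using ht1 h4) (y := y') (by rw [hσs]; exact hKs y' hyK) hyi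
      obtain ⟨M, hMC, hMc⟩ := laurent_map E Ω
      refine ⟨M A, M B, ?_, ?_⟩
      · rintro ⟨c, d, hc, -⟩
        obtain ⟨e, he⟩ := hMc A c hc
        rw [he, hΦC] at hA
        apply hxE
        rw [← hA]
        exact isAlgebraic_algebraMap e
      · intro F hF
        have h4 : eval₂ (eval₂RingHom ((LaurentPolynomial.C).comp (algebraMap k E)) A) B F = 0 := by
          apply hΦ
          rw [map_zero, hom_eval₂, hB]
          have h5 : Φ.comp (eval₂RingHom ((LaurentPolynomial.C).comp (algebraMap k E)) A) =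
              (aeval x' : k[X] →ₐ[k] Ω).toRingHom := by
            apply ringHom_ext
            · intro c
              change Φ (eval₂ ((LaurentPolynomial.C).comp (algebraMap k E)) A (C c)) =
                aeval x' (C c)
              rw [eval₂_C, RingHom.comp_apply, hΦC, aeval_C]
              rfl
            · change Φ (eval₂ ((LaurentPolynomial.C).comp (algebraMap k E)) A X) = aeval x' X
              rw [eval₂_X, hA, aeval_X]
          rw [h5]
          have h6 := ev_map (Ω := Ω) x y F
          rw [hF, map_zero] at h6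
          exact h6
        have h7 := congrArg M h4
        rw [map_zero, hom_eval₂] at h7
        rw [← h7]
        congr 1
        apply ringHom_ext
        · intro c
          change eval₂ ((LaurentPolynomial.C).comp (algebraMap k Ω)) (M A) (C c) =
            M (eval₂ ((LaurentPolynomial.C).comp (algebraMap k E)) A (C c))
          rw [eval₂_C, eval₂_C, RingHom.comp_apply, RingHom.comp_apply, hMC]
          rfl
        · change eval₂ ((LaurentPolynomial.C).comp (algebraMap k Ω)) (M A) X =
            M (eval₂ ((LaurentPolynomial.C).comp (algebraMap k E)) A X)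
          rw [eval₂_X, eval₂_X]
  · -- the cover
    left
    exact cover x hx E hEcl hcE hEa hEa' hxk hxE K hxK (fin_ext hyi hxK hyK) l f hl hl3 hf0 hfn hfV
      hCW

end Pool.Agent.H37.SI
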