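import Pool.Agent.H37.SI.NumS
import Pool.Agent.H37.SI.GoodN

/-!
H37/SI/MainS [MAINS]: curves: the theorem in short intervals.

PROOF of main_short. The set R of th > 0 with th or -th root of F is finite; for th in R: num_short with kap and F or
F.comp(-X): constants C_th, J_th, del_th. CN ≥ all C_th; C'' = constant of good_of_num for CN. del = min of the del_th and 1/4,
J = sum over R of (J_th + 1), C large. Given X ≥ C, b ≤ X^2, let E = set of the a in [X, X + X^del] such that for some th in R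
either b r^n = th a for some r > 0 (at most one a for each th: exact_one) or Exc n b a th kap (X^(2 CN)) r for some r (implies Exc with
X^(C_th), so at most J_th of them). For a not in E: good_of_num with T := X^2 (b ≤ X^2, a ≤ 2X ≤ X^2, T^CN = X^(2 CN)):
bound (X^2 H)^C3 ≤ (X H)^(2 C3).
-/

namespace H37SI

open MvPolynomial H4AR

private theorem mains_roots (P : Polynomial ℤ) (hP : P ≠ 0) :
    {th : ℝ | 0 < th ∧ (Polynomial.aeval th P = 0 ∨ Polynomial.aeval (-th) P = 0)}.Finite := by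
  have h1 : {th : ℝ | Polynomial.aeval th P = 0}.Finite := by
    refine (Polynomial.rootSet_finite P ℝ).subset fun th hth => ?_
    exact (Polynomial.mem_rootSet).2 ⟨hP, hth⟩
  have h2 : {th : ℝ | Polynomial.aeval (-th) P = 0}.Finite := by
    have h3 : ((fun x : ℝ => -x) '' {th : ℝ | Polynomial.aeval th P = 0}).Finite := h1.image _
    refine h3.subset fun th hth => ?_
    exact ⟨-th, hth, neg_neg th⟩
  refine (h1.union h2).subset fun th hth => ?_
  exact hth.2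

private theorem mains_neg (P : Polynomial ℤ) (hP : P ≠ 0) : P.comp (-Polynomial.X) ≠ 0 := by
  intro h
  apply hP
  have h1 : (P.comp (-Polynomial.X)).comp (-Polynomial.X) = P := by
    rw [Polynomial.comp_assoc]
    simp
  rw [← h1, h, Polynomial.zero_comp]

private theorem mains_num (n : ℕ) (hn : 2 ≤ n) (kap : ℝ) (hkap : 4 < kap) (P : Polynomial ℤ) (hP : P ≠ 0)
    (th : ℝ) (hth : 0 < th) (hroot : Polynomial.aeval th P = 0 ∨ Polynomial.aeval (-th) P = 0) :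
    ∃ (C J : ℕ) (del : ℝ), 1 ≤ C ∧ 0 < del ∧ ∀ X b : ℕ, C ≤ X → 1 ≤ b → b ≤ X ^ 2 →
      ∀ E : Finset ℕ, (∀ a ∈ E, X ≤ a ∧ (a : ℝ) ≤ X + (X : ℝ) ^ del) →
      (∀ a ∈ E, ∃ r : ℚ, Exc n b a th kap ((X : ℝ) ^ C) r) → E.card ≤ J := by
  rcases hroot with h | h
  · exact num_short n hn kap hkap P hP th hth h
  · refine num_short n hn kap hkap (P.comp (-Polynomial.X)) (mains_neg P hP) th hth ?_
    rw [Polynomial.aeval_comp]
    simpa using h

private theorem mains_ex (n : ℕ) (hn : 2 ≤ n) (X b : ℕ) (hX : 2 ≤ X) (hb : 1 ≤ b) (th : ℝ) (hth : 0 < th)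
    (A : Finset ℕ) (hA : ∀ a ∈ A, X ≤ a ∧ (a : ℝ) ≤ X + (X : ℝ) ^ ((1 : ℝ) / 4))
    (hA2 : ∀ a ∈ A, ∃ r : ℚ, 0 < r ∧ (b : ℝ) * (r : ℝ) ^ n = th * (a : ℝ)) : A.card ≤ 1 := by
  rw [Finset.card_le_one]
  intro a ha a' ha'
  by_contra hne
  obtain ⟨r, hr, he⟩ := hA2 a ha
  obtain ⟨r', hr', he'⟩ := hA2 a' ha'
  exact exact_one n hn X a a' b hX (hA a ha).1 (hA a' ha').1 hne (hA a ha).2 (hA a' ha').2 hb th hth r r' hr hr'
    he he'

private theorem mains_min (R : Finset ℝ) (g : ℝ → ℝ) (hg : ∀ th ∈ R, 0 < g th) :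
    ∃ del : ℝ, 0 < del ∧ del ≤ 1 / 4 ∧ ∀ th ∈ R, del ≤ g th := by
  classical
  induction R using Finset.induction_on with
  | empty => exact ⟨1 / 4, by norm_num, le_refl _, by simp⟩
  | insert a s ha ih =>
    obtain ⟨d, h0, h1, h2⟩ := ih (fun th h => hg th (Finset.mem_insert_of_mem h))
    refine ⟨min d (g a), lt_min h0 (hg a (Finset.mem_insert_self _ _)), (min_le_left _ _).trans h1, ?_⟩
    intro th hth
    rcases Finset.mem_insert.1 hth with rfl | h
    · exact min_le_right _ _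
    · exact (min_le_left _ _).trans (h2 th h)

private theorem mains_rpow (X : ℕ) (hX : 1 ≤ X) (u v : ℝ) (huv : u ≤ v) : (X : ℝ) ^ u ≤ (X : ℝ) ^ v :=
  Real.rpow_le_rpow_of_exponent_le (by exact_mod_cast hX) huv

/-- the exceptional set -/
private theorem mains_set (kap : ℝ) (hkap : 4 < kap) (n : ℕ) (hn : 2 ≤ n) (P : Polynomial ℤ) (hP : P ≠ 0) :
    ∃ (CN J : ℕ) (del : ℝ), 2 ≤ CN ∧ 0 < del ∧ del ≤ 1 / 4 ∧ ∀ X : ℕ, CN ≤ X → ∀ b : ℕ, 1 ≤ b → b ≤ X ^ 2 →
      ∃ E : Finset ℕ, E.card ≤ J ∧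
        ∀ a : ℕ, X ≤ a → (a : ℝ) ≤ X + (X : ℝ) ^ del → a ∉ E → ∀ th : ℝ, 0 < th →
          (Polynomial.aeval th P = 0 ∨ Polynomial.aeval (-th) P = 0) →
          (¬ ∃ r : ℚ, 0 < r ∧ (b : ℝ) * (r : ℝ) ^ n = th * (a : ℝ)) ∧
            ¬ ∃ r : ℚ, Exc n b a th kap (((X ^ 2 : ℕ) : ℝ) ^ CN) r := by
  classical
  set R : Finset ℝ := (mains_roots P hP).toFinset with hR
  have hmem : ∀ th : ℝ, th ∈ R ↔
      0 < th ∧ (Polynomial.aeval th P = 0 ∨ Polynomial.aeval (-th) P = 0) := by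
    intro th
    rw [hR, Set.Finite.mem_toFinset]
    exact Iff.rfl
  have hex : ∀ th : ℝ, ∃ (C J : ℕ) (del : ℝ), th ∈ R → (1 ≤ C ∧ 0 < del ∧ ∀ X b : ℕ, C ≤ X → 1 ≤ b →
      b ≤ X ^ 2 → ∀ E : Finset ℕ, (∀ a ∈ E, X ≤ a ∧ (a : ℝ) ≤ X + (X : ℝ) ^ del) →
      (∀ a ∈ E, ∃ r : ℚ, Exc n b a th kap ((X : ℝ) ^ C) r) → E.card ≤ J) := by
    intro th
    by_cases h : th ∈ R
    · obtain ⟨C, J, del, hC⟩ := mains_num n hn kap hkap P hP th ((hmem th).1 h).1 ((hmem th).1 h).2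
      exact ⟨C, J, del, fun _ => hC⟩
    · exact ⟨0, 0, 0, fun hh => absurd hh h⟩
  choose f g e hf using hex
  obtain ⟨del, hd0, hd1, hd2⟩ := mains_min R e (fun th hth => (hf th hth).2.1)
  refine ⟨R.sup f + 2, ∑ th ∈ R, (g th + 1), del, by omega, hd0, hd1, fun X hX b hb hbX => ?_⟩
  have hX2 : 2 ≤ X := by omega
  have hX1 : 1 ≤ X := by omega
  have hX1R : (1 : ℝ) ≤ X := by exact_mod_cast hX1
  set A : ℝ → Finset ℕ := fun th => (Finset.Icc X (2 * X)).filter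
    (fun a => (a : ℝ) ≤ X + (X : ℝ) ^ del ∧ ∃ r : ℚ, Exc n b a th kap (((X ^ 2 : ℕ) : ℝ) ^ (R.sup f + 2)) r)
    with hA
  set B : ℝ → Finset ℕ := fun th => (Finset.Icc X (2 * X)).filter
    (fun a => (a : ℝ) ≤ X + (X : ℝ) ^ del ∧ ∃ r : ℚ, 0 < r ∧ (b : ℝ) * (r : ℝ) ^ n = th * (a : ℝ)) with hB
  refine ⟨R.biUnion (fun th => A th ∪ B th), ?_, ?_⟩
  · refine Finset.card_biUnion_le.trans ?_
    apply Finset.sum_le_sum
    intro th hth
    refine (Finset.card_union_le _ _).trans (add_le_add ?_ ?_)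
    · have hle : f th ≤ R.sup f := Finset.le_sup hth
      refine (hf th hth).2.2 X b (by omega) hb hbX (A th) ?_ ?_
      · intro a ha
        have h1 := Finset.mem_filter.1 ha
        refine ⟨(Finset.mem_Icc.1 h1.1).1, h1.2.1.trans ?_⟩
        have := mains_rpow X hX1 _ _ (hd2 th hth)
        linarith
      · intro a ha
        obtain ⟨r, h0, h1, h2⟩ := (Finset.mem_filter.1 ha).2.2
        refine ⟨r, h0, le_trans ?_ h1, h2⟩
        push_cast
        rw [← pow_mul]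
        exact pow_le_pow_right₀ hX1R (by omega)
    · refine mains_ex n hn X b hX2 hb th ((hmem th).1 hth).1 (B th) ?_ ?_
      · intro a ha
        have h1 := Finset.mem_filter.1 ha
        refine ⟨(Finset.mem_Icc.1 h1.1).1, h1.2.1.trans ?_⟩
        have := mains_rpow X hX1 _ _ hd1
        linarith
      · intro a ha
        exact (Finset.mem_filter.1 ha).2.2
  · intro a haX ha haE th hth hroot
    have ha2 : a ≤ 2 * X := by
      have h1 := mains_rpow X hX1 del 1 (by linarith)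
      rw [Real.rpow_one] at h1
      have h2 : (a : ℝ) ≤ 2 * X := by linarith
      exact_mod_cast h2
    constructor
    · intro h
      apply haE
      rw [Finset.mem_biUnion]
      refine ⟨th, (hmem th).2 ⟨hth, hroot⟩, ?_⟩
      rw [Finset.mem_union]
      right
      exact Finset.mem_filter.2 ⟨Finset.mem_Icc.2 ⟨haX, ha2⟩, ha, h⟩
    · intro h
      apply haE
      rw [Finset.mem_biUnion]
      refine ⟨th, (hmem th).2 ⟨hth, hroot⟩, ?_⟩
      rw [Finset.mem_union]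
      left
      exact Finset.mem_filter.2 ⟨Finset.mem_Icc.2 ⟨haX, ha2⟩, ha, h⟩

private theorem mains_good (n d : ℕ) (F : Polynomial ℤ) (b a X C C1 : ℕ) (hX : 1 ≤ X) (hC : 2 * C ≤ C1)
    (h : GoodC n d F b a (X ^ 2) C) : GoodC n d F b a X C1 := by
  intro G P Q H hH hG hP hQ hcop hcG hcP hcQ x y heq
  refine (h G P Q H hH hG hP hQ hcop hcG hcP hcQ x y heq).trans ?_
  have hX' : (1 : ℤ) ≤ X := by exact_mod_cast hX
  have hH' : (1 : ℤ) ≤ H := by exact_mod_cast hH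
  have hXH : (1 : ℤ) ≤ (X : ℤ) * H := by nlinarith
  calc (((X ^ 2 : ℕ) : ℤ) * H) ^ C ≤ (((X : ℤ) * H) ^ 2) ^ C := by
        apply pow_le_pow_left₀ (by positivity)
        push_cast
        rw [mul_pow]
        apply mul_le_mul_of_nonneg_left _ (by positivity)
        nlinarith
    _ = ((X : ℤ) * H) ^ (2 * C) := by rw [← pow_mul]
    _ ≤ ((X : ℤ) * H) ^ C1 := pow_le_pow_right₀ hXH hC

theorem main_short (n d : ℕ) (hn : 2 ≤ n) (hd : 1 ≤ d) (F : Polynomial ℤ) (hnD : 5 ≤ n * F.natDegree)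
    (hF0 : F.coeff 0 ≠ 0) (hsq : Squarefree (F.map (Int.castRingHom ℚ))) :
    ∃ (C J : ℕ) (del : ℝ), 1 ≤ C ∧ 0 < del ∧ del ≤ 1 / 4 ∧ ∀ X : ℕ, C ≤ X → ∀ b : ℕ, 1 ≤ b → b ≤ X ^ 2 →
      ∃ E : Finset ℕ, E.card ≤ J ∧
        ∀ a : ℕ, X ≤ a → (a : ℝ) ≤ X + (X : ℝ) ^ del → a ∉ E → GoodC n d F b a X C := by
  have hF : F ≠ 0 := by
    rintro rfl
    exact hF0 (by simp)
  have hkap : (4 : ℝ) < 4 + 1 / (2 * (d : ℝ)) := by
    have : (0 : ℝ) < d := by exact_mod_cast hd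
    have h2 : (0 : ℝ) < 1 / (2 * (d : ℝ)) := by positivity
    linarith
  obtain ⟨CN, J, del, hCN, hd0, hd1, hset⟩ := mains_set (4 + 1 / (2 * (d : ℝ))) hkap n hn F hF
  obtain ⟨C2, hgood⟩ := good_of_num n d hn hd F hnD hF0 hsq CN
  refine ⟨CN + 2 * C2, J, del, by omega, hd0, hd1, ?_⟩
  intro X hX b hb hbX
  obtain ⟨E, hE, hEa⟩ := hset X (by omega) b hb hbX
  refine ⟨E, hE, ?_⟩
  intro a haX ha haE
  have hX2 : 2 ≤ X := by omega
  have hXX : X ≤ X ^ 2 := by nlinarith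
  have ha2 : a ≤ X ^ 2 := by
    have h1 := mains_rpow X (by omega) del 1 (by linarith)
    rw [Real.rpow_one] at h1
    have h2 : (a : ℝ) ≤ 2 * X := by linarith
    have h3 : a ≤ 2 * X := by exact_mod_cast h2
    nlinarith
  refine mains_good n d F b a X C2 _ (by omega) (by omega) ?_
  refine hgood (X ^ 2) (by omega) b a hb hbX (by omega) ha2 ?_
  intro th hth hroot
  exact hEa a haX ha haE th hth hroot

end H37SI
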