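import Pool.Agent.H37.SI.WinN
import Pool.Agent.H37.SI.GoodW
import Pool.Agent.H37.SI.Gap

/-!
H37/SI/MainW [MAINW]: windows for curves in short intervals.

PROOF (compare main_short in Pool/Agent/H37/SI/MainS.lean). The set R of th > 0 with th or -th root of F is finite; for th in R: win_short with
F or F.comp(-X): C_th, J_th, del_th. CN, CW ≥ all C_th; C'' = constant of goodw_of_num for CN, CW. del = min of the del_th and 1/4,
J = sum over R of (J_th + 1), C large. Given X ≥ C, b ≤ X^2: E = set of the a in [X, X + X^del] such that b r^n = th a for some th in R,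
r > 0 (at most one for each th: exact_one), S = union of the S_th of win_short, without 0 (S.erase 0 is not needed: M = 0 would give ht r ≤ 0
or CW = 0; just keep the union). For a not in E: goodw_of_num with T := X^2 (b ≤ X^2, a ≤ 2X ≤ X^2; T^CN = X^(2 CN), Exc with
X^(2 CN) implies Exc with X^(C_th); ht r ≤ M^(C_th) ≤ M^CW as M ≥ 1): bound (X^2 H)^C'' ≤ (X H)^(2 C''); windows with exponent C'' ≤ C.
-/

namespace H37SI

open MvPolynomial H4AR

private theorem mainw_roots (P : Polynomial ℤ) (hP : P ≠ 0) :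
    {th : ℝ | 0 < th ∧ (Polynomial.aeval th P = 0 ∨ Polynomial.aeval (-th) P = 0)}.Finite := by
  have h1 : {th : ℝ | Polynomial.aeval th P = 0}.Finite := by
    refine (Polynomial.rootSet_finite P ℝ).subset fun th hth => ?_
    exact (Polynomial.mem_rootSet).2 ⟨hP, hth⟩
  have h2 : {th : ℝ | Polynomial.aeval (-th) P = 0}.Finite := by
    have h3 : ((fun x : ℝ => -x) '' {th : ℝ | Polynomial.aeval th P = 0}).Finite := h1.image _
    refine h3.subset fun th hth => ?_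
    exact ⟨-th, hth, neg_neg th⟩
  refine (h1.union h2).subset fun th hth => ?_
  exact hth.2

private theorem mainw_neg (P : Polynomial ℤ) (hP : P ≠ 0) : P.comp (-Polynomial.X) ≠ 0 := by
  intro h
  apply hP
  have h1 : (P.comp (-Polynomial.X)).comp (-Polynomial.X) = P := by
    rw [Polynomial.comp_assoc]
    simp
  rw [← h1, h, Polynomial.zero_comp]

private theorem mainw_num (n : ℕ) (hn : 1 ≤ n) (P : Polynomial ℤ) (hP : P ≠ 0)
    (th : ℝ) (hth : 0 < th) (hroot : Polynomial.aeval th P = 0 ∨ Polynomial.aeval (-th) P = 0) :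
    ∃ (C J : ℕ) (del : ℝ), 1 ≤ C ∧ 0 < del ∧ ∀ X b : ℕ, C ≤ X → 1 ≤ b → b ≤ X ^ 2 →
      ∃ S : Finset ℕ, S.card ≤ J ∧ ∀ a : ℕ, X ≤ a → (a : ℝ) ≤ X + (X : ℝ) ^ del → ∀ r : ℚ,
        Exc n b a th (14 / 5) ((X : ℝ) ^ C) r → ∃ M ∈ S, (M : ℝ) ≤ ht r ∧ ht r ≤ (M : ℝ) ^ C := by
  rcases hroot with h | h
  · exact win_short n hn P hP th hth h
  · refine win_short n hn (P.comp (-Polynomial.X)) (mainw_neg P hP) th hth ?_
    rw [Polynomial.aeval_comp]
    simpa using h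

private theorem mainw_ex (n : ℕ) (hn : 2 ≤ n) (X b : ℕ) (hX : 2 ≤ X) (hb : 1 ≤ b) (th : ℝ) (hth : 0 < th)
    (A : Finset ℕ) (hA : ∀ a ∈ A, X ≤ a ∧ (a : ℝ) ≤ X + (X : ℝ) ^ ((1 : ℝ) / 4))
    (hA2 : ∀ a ∈ A, ∃ r : ℚ, 0 < r ∧ (b : ℝ) * (r : ℝ) ^ n = th * (a : ℝ)) : A.card ≤ 1 := by
  rw [Finset.card_le_one]
  intro a ha a' ha'
  by_contra hne
  obtain ⟨r, hr, he⟩ := hA2 a ha
  obtain ⟨r', hr', he'⟩ := hA2 a' ha'
  exact exact_one n hn X a a' b hX (hA a ha).1 (hA a' ha').1 hne (hA a ha).2 (hA a' ha').2 hb th hth r r' hr hr'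
    he he'

private theorem mainw_min (R : Finset ℝ) (g : ℝ → ℝ) (hg : ∀ th ∈ R, 0 < g th) :
    ∃ del : ℝ, 0 < del ∧ del ≤ 1 / 4 ∧ ∀ th ∈ R, del ≤ g th := by
  classical
  induction R using Finset.induction_on with
  | empty => exact ⟨1 / 4, by norm_num, le_refl _, by simp⟩
  | insert a s ha ih =>
    obtain ⟨d, h0, h1, h2⟩ := ih (fun th h => hg th (Finset.mem_insert_of_mem h))
    refine ⟨min d (g a), lt_min h0 (hg a (Finset.mem_insert_self _ _)), (min_le_left _ _).trans h1, ?_⟩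
    intro th hth
    rcases Finset.mem_insert.1 hth with rfl | h
    · exact min_le_right _ _
    · exact (min_le_left _ _).trans (h2 th h)

private theorem mainw_rpow (X : ℕ) (hX : 1 ≤ X) (u v : ℝ) (huv : u ≤ v) : (X : ℝ) ^ u ≤ (X : ℝ) ^ v :=
  Real.rpow_le_rpow_of_exponent_le (by exact_mod_cast hX) huv

/-- the exceptional set and the windows -/
private theorem mainw_set (n : ℕ) (hn : 2 ≤ n) (P : Polynomial ℤ) (hP : P ≠ 0) :
    ∃ (CN J : ℕ) (del : ℝ), 2 ≤ CN ∧ 0 < del ∧ del ≤ 1 / 4 ∧ ∀ X : ℕ, CN ≤ X → ∀ b : ℕ, 1 ≤ b → b ≤ X ^ 2 →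
      ∃ E S : Finset ℕ, E.card ≤ J ∧ S.card ≤ J ∧
        ∀ a : ℕ, X ≤ a → (a : ℝ) ≤ X + (X : ℝ) ^ del → a ∉ E → ∀ th : ℝ, 0 < th →
          (Polynomial.aeval th P = 0 ∨ Polynomial.aeval (-th) P = 0) →
          (¬ ∃ r : ℚ, 0 < r ∧ (b : ℝ) * (r : ℝ) ^ n = th * (a : ℝ)) ∧
            ∀ r : ℚ, Exc n b a th (14 / 5) (((X ^ 2 : ℕ) : ℝ) ^ CN) r →
              ∃ M ∈ S, (M : ℝ) ≤ ht r ∧ ht r ≤ (M : ℝ) ^ CN := by
  classical
  set R : Finset ℝ := (mainw_roots P hP).toFinset with hR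
  have hmem : ∀ th : ℝ, th ∈ R ↔
      0 < th ∧ (Polynomial.aeval th P = 0 ∨ Polynomial.aeval (-th) P = 0) := by
    intro th
    rw [hR, Set.Finite.mem_toFinset]
    exact Iff.rfl
  have hex : ∀ th : ℝ, ∃ (C J : ℕ) (del : ℝ), th ∈ R → (1 ≤ C ∧ 0 < del ∧ ∀ X b : ℕ, C ≤ X → 1 ≤ b →
      b ≤ X ^ 2 → ∃ S : Finset ℕ, S.card ≤ J ∧ ∀ a : ℕ, X ≤ a → (a : ℝ) ≤ X + (X : ℝ) ^ del → ∀ r : ℚ,
        Exc n b a th (14 / 5) ((X : ℝ) ^ C) r → ∃ M ∈ S, (M : ℝ) ≤ ht r ∧ ht r ≤ (M : ℝ) ^ C) := by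
    intro th
    by_cases h : th ∈ R
    · obtain ⟨C, J, del, hC⟩ := mainw_num n (by omega) P hP th ((hmem th).1 h).1 ((hmem th).1 h).2
      exact ⟨C, J, del, fun _ => hC⟩
    · exact ⟨0, 0, 0, fun hh => absurd hh h⟩
  choose f g e hf using hex
  obtain ⟨del, hd0, hd1, hd2⟩ := mainw_min R e (fun th hth => (hf th hth).2.1)
  refine ⟨R.sup f + 2, ∑ th ∈ R, (g th + 1), del, by omega, hd0, hd1, fun X hX b hb hbX => ?_⟩
  have hX2 : 2 ≤ X := by omega
  have hX1 : 1 ≤ X := by omega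
  have hX1R : (1 : ℝ) ≤ X := by exact_mod_cast hX1
  have hwin : ∀ th : ℝ, ∃ S : Finset ℕ, th ∈ R → (S.card ≤ g th ∧ ∀ a : ℕ, X ≤ a →
      (a : ℝ) ≤ X + (X : ℝ) ^ (e th) → ∀ r : ℚ,
        Exc n b a th (14 / 5) ((X : ℝ) ^ (f th)) r → ∃ M ∈ S, (M : ℝ) ≤ ht r ∧ ht r ≤ (M : ℝ) ^ (f th)) := by
    intro th
    by_cases h : th ∈ R
    · have hle : f th ≤ R.sup f := Finset.le_sup h
      obtain ⟨S, hS⟩ := (hf th h).2.2 X b (by omega) hb hbX
      exact ⟨S, fun _ => hS⟩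
    · exact ⟨∅, fun hh => absurd hh h⟩
  choose W hW using hwin
  set B : ℝ → Finset ℕ := fun th => (Finset.Icc X (2 * X)).filter
    (fun a => (a : ℝ) ≤ X + (X : ℝ) ^ del ∧ ∃ r : ℚ, 0 < r ∧ (b : ℝ) * (r : ℝ) ^ n = th * (a : ℝ)) with hB
  refine ⟨R.biUnion B, R.biUnion W, ?_, ?_, ?_⟩
  · refine Finset.card_biUnion_le.trans ?_
    apply Finset.sum_le_sum
    intro th hth
    have h1 : (B th).card ≤ 1 := by
      refine mainw_ex n hn X b hX2 hb th ((hmem th).1 hth).1 (B th) ?_ ?_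
      · intro a ha
        have h1 := Finset.mem_filter.1 ha
        refine ⟨(Finset.mem_Icc.1 h1.1).1, h1.2.1.trans ?_⟩
        have := mainw_rpow X hX1 _ _ hd1
        linarith
      · intro a ha
        exact (Finset.mem_filter.1 ha).2.2
    omega
  · refine Finset.card_biUnion_le.trans ?_
    apply Finset.sum_le_sum
    intro th hth
    have h1 := (hW th hth).1
    omega
  · intro a haX ha haE th hth hroot
    have hthR : th ∈ R := (hmem th).2 ⟨hth, hroot⟩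
    have ha2 : a ≤ 2 * X := by
      have h1 := mainw_rpow X hX1 del 1 (by linarith)
      rw [Real.rpow_one] at h1
      have h2 : (a : ℝ) ≤ 2 * X := by linarith
      exact_mod_cast h2
    constructor
    · intro h
      apply haE
      rw [Finset.mem_biUnion]
      exact ⟨th, hthR, Finset.mem_filter.2 ⟨Finset.mem_Icc.2 ⟨haX, ha2⟩, ha, h⟩⟩
    · intro r hr
      have hle : f th ≤ R.sup f := Finset.le_sup hthR
      have hae : (a : ℝ) ≤ X + (X : ℝ) ^ (e th) := by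
        have := mainw_rpow X hX1 _ _ (hd2 th hthR)
        linarith
      obtain ⟨h0, h1, h2⟩ := hr
      obtain ⟨M, hM, h3, h4⟩ := (hW th hthR).2 a haX hae r ⟨h0, le_trans (by
        push_cast
        rw [← pow_mul]
        exact pow_le_pow_right₀ hX1R (by omega)) h1, h2⟩
      refine ⟨M, Finset.mem_biUnion.2 ⟨th, hthR, hM⟩, h3, h4.trans ?_⟩
      have hf1 : 1 ≤ f th := (hf th hthR).1
      have hM1 : 1 ≤ M := by
        rcases Nat.eq_zero_or_pos M with h5 | h5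
        · exfalso
          rw [h5, Nat.cast_zero, zero_pow (by omega)] at h4
          have := one_le_ht r
          linarith
        · exact h5
      exact pow_le_pow_right₀ (by exact_mod_cast hM1) (by omega)

private theorem mainw_good (n d : ℕ) (F : Polynomial ℤ) (b a X C C1 : ℕ) (S : Finset ℕ) (hX : 1 ≤ X)
    (hC : 2 * C ≤ C1) (h : GoodW n d F b a (X ^ 2) C S) : GoodW n d F b a X C1 S := by
  intro G P Q H hH hG hP hQ hcop hcG hcP hcQ x y heq
  have hX' : (1 : ℤ) ≤ X := by exact_mod_cast hX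
  have hH' : (1 : ℤ) ≤ H := by exact_mod_cast hH
  have hXH : (1 : ℤ) ≤ (X : ℤ) * H := by nlinarith
  rcases le_or_gt (max |x| |y|) 1 with hsm | hbig
  · left
    exact hsm.trans (one_le_pow₀ hXH)
  rcases h G P Q H hH hG hP hQ hcop hcG hcP hcQ x y heq with h1 | ⟨M, hM, h1, h2⟩
  · left
    refine h1.trans ?_
    calc (((X ^ 2 : ℕ) : ℤ) * H) ^ C ≤ (((X : ℤ) * H) ^ 2) ^ C := by
          apply pow_le_pow_left₀ (by positivity)
          push_cast
          rw [mul_pow]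
          apply mul_le_mul_of_nonneg_left _ (by positivity)
          nlinarith
      _ = ((X : ℤ) * H) ^ (2 * C) := by rw [← pow_mul]
      _ ≤ ((X : ℤ) * H) ^ C1 := pow_le_pow_right₀ hXH hC
  · right
    refine ⟨M, hM, h1.trans (pow_le_pow_right₀ hbig.le (by omega)), h2.trans ?_⟩
    have hM1 : 1 ≤ M := by
      rcases Nat.eq_zero_or_pos M with h5 | h5
      · exfalso
        rw [h5, Nat.cast_zero] at h2
        have h6 : (0 : ℤ) ^ C ≤ 1 := pow_le_one₀ (le_refl _) (by norm_num)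
        linarith
      · exact h5
    exact pow_le_pow_right₀ (by exact_mod_cast hM1) (by omega)

theorem main_win (n d : ℕ) (hn : 2 ≤ n) (hd : 1 ≤ d) (F : Polynomial ℤ) (hnD : 3 ≤ n * F.natDegree)
    (hF0 : F.coeff 0 ≠ 0) (hsq : Squarefree (F.map (Int.castRingHom ℚ))) :
    ∃ (C J : ℕ) (del : ℝ), 1 ≤ C ∧ 0 < del ∧ del ≤ 1 / 4 ∧ ∀ X : ℕ, C ≤ X → ∀ b : ℕ, 1 ≤ b → b ≤ X ^ 2 →
      ∃ E S : Finset ℕ, E.card ≤ J ∧ S.card ≤ J ∧
        ∀ a : ℕ, X ≤ a → (a : ℝ) ≤ X + (X : ℝ) ^ del → a ∉ E → GoodW n d F b a X C S := by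
  have hF : F ≠ 0 := by
    rintro rfl
    exact hF0 (by simp)
  obtain ⟨CN, J, del, hCN, hd0, hd1, hset⟩ := mainw_set n hn F hF
  obtain ⟨C2, hgood⟩ := goodw_of_num n d hn hd F hnD hF0 hsq CN CN
  refine ⟨CN + 2 * C2, J, del, by omega, hd0, hd1, ?_⟩
  intro X hX b hb hbX
  obtain ⟨E, S, hE, hS, hEa⟩ := hset X (by omega) b hb hbX
  refine ⟨E, S, hE, hS, ?_⟩
  intro a haX ha haE
  have hX2 : 2 ≤ X := by omega
  have hXX : X ≤ X ^ 2 := by nlinarith
  have ha2 : a ≤ X ^ 2 := by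
    have h1 := mainw_rpow X (by omega) del 1 (by linarith)
    rw [Real.rpow_one] at h1
    have h2 : (a : ℝ) ≤ 2 * X := by linarith
    have h3 : a ≤ 2 * X := by exact_mod_cast h2
    nlinarith
  refine mainw_good n d F b a X C2 _ S (by omega) (by omega) ?_
  refine hgood (X ^ 2) (by omega) b a hb hbX (by omega) ha2 S ?_
  intro th hth hroot
  exact hEa a haX ha haE th hth hroot

end H37SI
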