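import Pool.Agent.H37.SI.Defs

/-!
# ALL OF SIEGEL: the model of an element which is integral over `k[x]` and, after division by `x ^ κ`,
integral over `k[x⁻¹]`
-/

namespace Pool.Agent.H37.SI

open Polynomial

private theorem minex {A K : Type*} [CommRing A] [IsDomain A] [IsIntegrallyClosed A] [Field K]
    (i : A →+* K) (hi : Function.Injective i) {w : K} (hw : ∃ p : A[X], p.Monic ∧ eval₂ i w p = 0) :
    ∃ G : A[X], G.Monic ∧ eval₂ i w G = 0 ∧ ∀ f : A[X], eval₂ i w f = 0 → G ∣ f := by
  let _ : Algebra A K := i.toAlgebra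
  have h1 : IsIntegral A w := hw
  have h2 : FaithfulSMul A K := (faithfulSMul_iff_algebraMap_injective A K).mpr hi
  have h3 : Module.IsTorsionFree A K := Module.isTorsionFree_iff_algebraMap_injective.mpr hi
  exact ⟨minpoly A w, minpoly.monic h1, minpoly.aeval A w,
    fun f hf => minpoly.isIntegrallyClosed_dvd h1 hf⟩

variable {k K : Type*} [Field k] [Field K] [Algebra k K]

/-- The polynomial `x^N f(x⁻¹, w/x^κ)`. -/
private noncomputable def flp (κ N : ℕ) (f : k[X][X]) : k[X][X] :=
  ∑ j ∈ Finset.range (f.natDegree + 1), C ((f.coeff j).reflect (N - κ * j)) * X ^ j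

private theorem flp_coeff (κ N : ℕ) (f : k[X][X]) (j : ℕ) :
    (flp κ N f).coeff j = if j ≤ f.natDegree then (f.coeff j).reflect (N - κ * j) else 0 := by
  unfold flp
  rw [finsetSum_coeff]
  simp only [coeff_C_mul, coeff_X_pow, mul_ite, mul_one, mul_zero]
  rw [Finset.sum_ite_eq]
  simp

private theorem reflect_natDegree_le (N : ℕ) (p : k[X]) (hp : p.natDegree ≤ N) :
    (reflect N p).natDegree ≤ N := by
  rw [natDegree_le_iff_coeff_eq_zero]
  intro i hi
  rw [coeff_reflect, revAt_eq_self_of_lt hi]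
  exact coeff_eq_zero_of_natDegree_lt (lt_of_le_of_lt hp hi)

private theorem flp_ev {x w : K} (hx0 : x ≠ 0) (κ N : ℕ) (f : k[X][X])
    (hN : ∀ j ≤ f.natDegree, (f.coeff j).natDegree + κ * j ≤ N) :
    ev x w (flp κ N f) = x ^ N * ev x⁻¹ (w / x ^ κ) f := by
  unfold ev flp
  rw [eval₂_finsetSum, eval₂_eq_sum_range, Finset.mul_sum]
  apply Finset.sum_congr rfl
  intro j hj
  have hj' : j ≤ f.natDegree := by
    rw [Finset.mem_range] at hj
    omega
  have hN' := hN j hj'
  rw [eval₂_mul, eval₂_C, eval₂_pow, eval₂_X]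
  have h1 : (aeval x : k[X] →ₐ[k] K).toRingHom ((f.coeff j).reflect (N - κ * j)) =
      x ^ (N - κ * j) * (aeval x⁻¹ : k[X] →ₐ[k] K).toRingHom (f.coeff j) := by
    let _ : Invertible (x⁻¹) := invertibleOfNonzero (inv_ne_zero hx0)
    have h2 := eval₂_reflect_mul_pow (algebraMap k K) x⁻¹ (N - κ * j) (f.coeff j) (by omega)
    rw [invOf_eq_inv, inv_inv] at h2
    change eval₂ (algebraMap k K) x _ = x ^ (N - κ * j) * eval₂ (algebraMap k K) x⁻¹ _
    rw [← h2, mul_left_comm, ← mul_pow, mul_inv_cancel₀ hx0, one_pow, mul_one]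
  rw [h1]
  have h3 : x ^ N = x ^ (N - κ * j) * (x ^ κ) ^ j := by
    rw [← pow_mul, ← pow_add]
    congr 1
    omega
  rw [h3, div_pow]
  have h4 : (x ^ κ) ^ j ≠ 0 := pow_ne_zero _ (pow_ne_zero _ hx0)
  field_simp

/-- The model of `w` at `x`. -/
theorem exists_model {x w : K} (hx : Transcendental k x) (κ : ℕ)
    (h1 : ∃ p : k[X][X], p.Monic ∧ ev x w p = 0)
    (h2 : ∃ p : k[X][X], p.Monic ∧ ev x⁻¹ (w / x ^ κ) p = 0) :
    ∃ G : k[X][X], Model x w κ G := by
  classical
  have hx0 : x ≠ 0 := by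
    rintro rfl
    exact hx isAlgebraic_zero
  have hx' : Transcendental k x⁻¹ := fun h => hx (by simpa using h.inv)
  obtain ⟨G, hG1, hG2, hG3⟩ := minex (aeval x : k[X] →ₐ[k] K).toRingHom
    (transcendental_iff_injective.mp hx) h1
  obtain ⟨G', hG1', hG2', hG3'⟩ := minex (aeval x⁻¹ : k[X] →ₐ[k] K).toRingHom
    (transcendental_iff_injective.mp hx') h2
  -- a large N
  obtain ⟨N, hN, hN'⟩ : ∃ N : ℕ, (∀ j ≤ G.natDegree, (G.coeff j).natDegree + κ * j ≤ N) ∧
      ∀ j ≤ G'.natDegree, (G'.coeff j).natDegree + κ * j ≤ N := by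
    refine ⟨(∑ j ∈ Finset.range (G.natDegree + 1), (G.coeff j).natDegree) +
      (∑ j ∈ Finset.range (G'.natDegree + 1), (G'.coeff j).natDegree) +
      κ * G.natDegree + κ * G'.natDegree, ?_, ?_⟩
    · intro j hj
      have h3 : (G.coeff j).natDegree ≤ ∑ j ∈ Finset.range (G.natDegree + 1), (G.coeff j).natDegree :=
        Finset.single_le_sum (f := fun j => (G.coeff j).natDegree) (fun _ _ => Nat.zero_le _)
          (Finset.mem_range.mpr (by omega))
      have h4 : κ * j ≤ κ * G.natDegree := Nat.mul_le_mul_left _ hj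
      omega
    · intro j hj
      have h3 : (G'.coeff j).natDegree ≤
          ∑ j ∈ Finset.range (G'.natDegree + 1), (G'.coeff j).natDegree :=
        Finset.single_le_sum (f := fun j => (G'.coeff j).natDegree) (fun _ _ => Nat.zero_le _)
          (Finset.mem_range.mpr (by omega))
      have h4 : κ * j ≤ κ * G'.natDegree := Nat.mul_le_mul_left _ hj
      omega
  have hdeg : ∀ f : k[X][X], f.Monic → (∀ j ≤ f.natDegree, (f.coeff j).natDegree + κ * j ≤ N) →
      (flp κ N f).natDegree = f.natDegree ∧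
        (flp κ N f).coeff f.natDegree = X ^ (N - κ * f.natDegree) := by
    intro f hf hfN
    have h3 : (flp κ N f).coeff f.natDegree = X ^ (N - κ * f.natDegree) := by
      rw [flp_coeff, if_pos le_rfl, hf.coeff_natDegree, ← C_1, reflect_C, C_1, one_mul]
    refine ⟨?_, h3⟩
    apply natDegree_eq_of_le_of_coeff_ne_zero
    · rw [natDegree_le_iff_coeff_eq_zero]
      intro i hi
      rw [flp_coeff, if_neg (by omega)]
    · rw [h3]
      exact pow_ne_zero _ X_ne_zero
  obtain ⟨hd1, hc1⟩ := hdeg G hG1 hN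
  obtain ⟨hd2, hc2⟩ := hdeg G' hG1' hN'
  have hne1 : flp κ N G ≠ 0 := by
    intro h0
    rw [h0, coeff_zero] at hc1
    exact (pow_ne_zero _ X_ne_zero) hc1.symm
  have hne2 : flp κ N G' ≠ 0 := by
    intro h0
    rw [h0, coeff_zero] at hc2
    exact (pow_ne_zero _ X_ne_zero) hc2.symm
  have hdvd2 : G ∣ flp κ N G' := by
    apply hG3
    change ev x w (flp κ N G') = 0
    rw [flp_ev hx0 κ N G' hN']
    change x ^ N * eval₂ _ _ _ = 0
    rw [hG2', mul_zero]
  have hdvd1 : G' ∣ flp κ N G := by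
    apply hG3'
    change ev x⁻¹ (w / x ^ κ) (flp κ N G) = 0
    rw [flp_ev (inv_ne_zero hx0) κ N G hN]
    have h3 : w / x ^ κ / (x⁻¹) ^ κ = w := by
      rw [inv_pow]
      have h4 : x ^ κ ≠ 0 := pow_ne_zero _ hx0
      field_simp
    rw [inv_inv, h3]
    change (x⁻¹) ^ N * eval₂ _ _ _ = 0
    rw [hG2, mul_zero]
  have hDD : G.natDegree = G'.natDegree := by
    apply le_antisymm
    · rw [← hd2]
      exact natDegree_le_of_dvd hdvd2 hne2
    · rw [← hd1]
      exact natDegree_le_of_dvd hdvd1 hne1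
  obtain ⟨q, hq⟩ := hdvd2
  have hq0 : q ≠ 0 := by
    rintro rfl
    rw [mul_zero] at hq
    exact hne2 hq
  have hqd : q.natDegree = 0 := by
    have h3 := congrArg natDegree hq
    rw [hd2, natDegree_mul hG1.ne_zero hq0] at h3
    omega
  obtain ⟨c, rfl⟩ : ∃ c, q = C c := ⟨q.coeff 0, eq_C_of_natDegree_eq_zero hqd⟩
  have hc : c = X ^ (N - κ * G.natDegree) := by
    have h3 := congrArg (fun p => coeff p G.natDegree) hq
    simp only [coeff_mul_C, hG1.coeff_natDegree, one_mul] at h3
    rw [← h3, hDD, hc2]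
  refine ⟨G, hG1, ?_, hG2, ?_⟩
  · intro j
    by_cases hj : j ≤ G.natDegree
    · by_cases hg : G.coeff j = 0
      · rw [hg, natDegree_zero]
        exact Nat.zero_le _
      · have h3 := congrArg (fun p => coeff p j) hq
        simp only [coeff_mul_C] at h3
        rw [flp_coeff, if_pos (by omega), hc] at h3
        have h4 : (reflect (N - κ * j) (G'.coeff j)).natDegree ≤ N - κ * j := by
          apply reflect_natDegree_le
          have := hN' j (by omega)
          omega
        rw [h3, natDegree_mul hg (pow_ne_zero _ X_ne_zero), natDegree_X_pow] at h4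
        have h5 := hN j hj
        have h6 : κ * G.natDegree ≤ N := by
          have := hN G.natDegree le_rfl
          omega
        have h7 : κ * (G.natDegree - j) = κ * G.natDegree - κ * j := Nat.mul_sub _ _ _
        have h8 : κ * j ≤ κ * G.natDegree := Nat.mul_le_mul_left _ hj
        rw [h7]
        omega
    · rw [coeff_eq_zero_of_natDegree_lt (by omega), natDegree_zero]
      exact Nat.zero_le _
  · intro f hf hf0
    exact eq_zero_of_dvd_of_natDegree_lt (hG3 f hf0) hf

end Pool.Agent.H37.SI
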