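import Pool.Agent.H37.SI.Def
import Pool.Agent.H4.AR.L1Det

/-!
H37/SI/Norm [NORM]: a multiple of F which is a polynomial in the n-th powers of the variables (norm from
Z[x] to Z[x^n]).

PROOF. Let I = (Fin M → Fin n), card n^M. For a, a' in I let A a a' be the polynomial with coefficient at the exponent e
equal to the coefficient of F at (n e + a' - a) when a ≤ n e + a' componentwise, and 0 otherwise (a finite sum over
F.support: A a a' = sum over f in F.support with f_j + a_j congruent to a'_j mod n and f_j + a_j ≥ a'_j for all j, of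
monomial e_f F_f, e_f j = (f_j + a_j - a'_j)/n). Then in Z[x]: F * x^a = sum over a' of expand n (A a a') * x^(a')
(group the exponents f + a by their residues a' mod n). Let N = det A, S = N (reindex I by Fin (n^M) to use l1_det_le and
degreeOf_det_le). With v_a = x^a: (expand A) mulVec v = F • v; multiply by the adjugate: det(expand A) • v =
F • (adjugate mulVec v); at a = 0 (v_0 = 1): expand n S = det (expand A) = F * (adjugate mulVec v)_0 =: F * F'
(`RingHom.map_det`, `Matrix.adjugate_mul`).
S ≠ 0: if det A = 0 there is u ≠ 0 with vecMul u A = 0 (`Matrix.exists_vecMul_eq_zero_iff`). Then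
F * sum_a expand n (u a) x^a = sum_{a'} (expand n (vecMul u A a')) x^(a') = 0, so sum_a expand n (u a) x^a = 0 (domain,
F ≠ 0), and all u a = 0, because the exponents of expand n (u a) x^a are congruent to a mod n, so there is no
cancellation between different a (compare the coefficients at n e + a). Contradiction.
Degrees: degreeOf j (A a a') ≤ (degreeOf j F + n - 1)/n ≤ degreeOf j F + 1, then degreeOf_det_le. l1 (A a a') ≤ l1 F,
then l1_det_le.
-/

namespace H37SI

open MvPolynomial H4AR

/-- exponents of a residue class -/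
private noncomputable def emb {M n : ℕ} (a : Fin M → Fin n) : Fin M →₀ ℕ :=
  Finsupp.equivFunOnFinite.symm (fun j => (a j : ℕ))

private theorem emb_apply {M n : ℕ} (a : Fin M → Fin n) (j : Fin M) : emb a j = (a j : ℕ) := rfl

/-- residues of exponents -/
private def res {M n : ℕ} (hn : 0 < n) (g : Fin M →₀ ℕ) : Fin M → Fin n :=
  fun j => ⟨g j % n, Nat.mod_lt _ hn⟩

/-- quotients of exponents -/
private noncomputable def quo {M : ℕ} (n : ℕ) (g : Fin M →₀ ℕ) : Fin M →₀ ℕ :=
  Finsupp.equivFunOnFinite.symm (fun j => g j / n)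

private theorem quo_apply {M : ℕ} (n : ℕ) (g : Fin M →₀ ℕ) (j : Fin M) : quo n g j = g j / n := rfl

private theorem quo_res {M n : ℕ} (hn : 0 < n) (g : Fin M →₀ ℕ) : n • quo n g + emb (res hn g) = g := by
  ext j
  rw [Finsupp.add_apply, Finsupp.smul_apply, quo_apply, emb_apply, smul_eq_mul]
  exact Nat.div_add_mod (g j) n

/-- the matrix entry -/
private noncomputable def En {M n : ℕ} (hn : 0 < n) (F : MvPolynomial (Fin M) ℤ) (a a' : Fin M → Fin n) :
    MvPolynomial (Fin M) ℤ :=
  ∑ f ∈ F.support, if res hn (f + emb a) = a' then monomial (quo n (f + emb a)) (F.coeff f) else 0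

private theorem En_sum {M n : ℕ} (hn : 0 < n) (F : MvPolynomial (Fin M) ℤ) (a : Fin M → Fin n) :
    ∑ a' : Fin M → Fin n, MvPolynomial.expand n (En hn F a a') * monomial (emb a') 1 =
      F * monomial (emb a) 1 := by
  have h1 : ∀ a' : Fin M → Fin n, MvPolynomial.expand n (En hn F a a') * monomial (emb a') 1 =
      ∑ f ∈ F.support, if res hn (f + emb a) = a' then monomial (f + emb a) (F.coeff f) else 0 := by
    intro a'
    unfold En
    rw [map_sum, Finset.sum_mul]
    refine Finset.sum_congr rfl fun f _ => ?_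
    split_ifs with h
    · rw [MvPolynomial.expand_monomial, ← h, MvPolynomial.monomial_mul, quo_res, mul_one]
    · rw [map_zero, zero_mul]
  rw [Finset.sum_congr rfl fun a' _ => h1 a', Finset.sum_comm]
  have h2 : ∀ f ∈ F.support, (∑ a' : Fin M → Fin n,
      if res hn (f + emb a) = a' then monomial (f + emb a) (F.coeff f) else 0) =
      monomial (f + emb a) (F.coeff f) := by
    intro f _
    rw [Finset.sum_ite_eq Finset.univ (res hn (f + emb a)) (fun _ => monomial (f + emb a) (F.coeff f)),
      if_pos (Finset.mem_univ _)]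
  rw [Finset.sum_congr rfl h2]
  conv_rhs => rw [← MvPolynomial.support_sum_monomial_coeff F]
  rw [Finset.sum_mul]
  refine Finset.sum_congr rfl fun f _ => ?_
  rw [MvPolynomial.monomial_mul, mul_one]

private theorem l1_monomial_le {M : ℕ} (u : Fin M →₀ ℕ) (z : ℤ) : l1 (monomial u z) ≤ |(z : ℝ)| := by
  classical
  unfold l1
  calc ∑ e ∈ (monomial u z).support, |((MvPolynomial.coeff e (monomial u z) : ℤ) : ℝ)|
      ≤ ∑ e ∈ {u}, |((MvPolynomial.coeff e (monomial u z) : ℤ) : ℝ)| :=
        Finset.sum_le_sum_of_subset_of_nonneg MvPolynomial.support_monomial_subset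
          fun _ _ _ => abs_nonneg _
    _ = |(z : ℝ)| := by rw [Finset.sum_singleton, MvPolynomial.coeff_monomial, if_pos rfl]

private theorem En_l1 {M n : ℕ} (hn : 0 < n) (F : MvPolynomial (Fin M) ℤ) (a a' : Fin M → Fin n) :
    l1 (En hn F a a') ≤ l1 F := by
  unfold En
  refine (l1_sum_le _ _).trans ?_
  conv_rhs => unfold l1
  refine Finset.sum_le_sum fun f _ => ?_
  split_ifs with h
  · exact l1_monomial_le _ _
  · rw [l1_zero]; exact abs_nonneg _

private theorem En_deg {M n : ℕ} (hn : 0 < n) (F : MvPolynomial (Fin M) ℤ) (a a' : Fin M → Fin n)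
    (j : Fin M) : (En hn F a a').degreeOf j ≤ F.degreeOf j + 1 := by
  classical
  unfold En
  refine (MvPolynomial.degreeOf_sum_le j _ _).trans ?_
  refine Finset.sup_le fun f hf => ?_
  split_ifs with h
  · refine MvPolynomial.degreeOf_le_iff.2 fun g hg => ?_
    have hg1 := MvPolynomial.support_monomial_subset hg
    rw [Finset.mem_singleton] at hg1
    rw [hg1, quo_apply, Finsupp.add_apply, emb_apply]
    have h1 : f j ≤ F.degreeOf j := MvPolynomial.monomial_le_degreeOf j hf
    have h2 : (a j : ℕ) < n := (a j).2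
    rw [Nat.div_le_iff_le_mul_add_pred hn]
    have h3 : F.degreeOf j + 1 ≤ n * (F.degreeOf j + 1) := Nat.le_mul_of_pos_left _ hn
    omega
  · rw [MvPolynomial.degreeOf_zero]; exact Nat.zero_le _

private theorem coeff_expand_mul {M n : ℕ} (hn : 0 < n) (P : MvPolynomial (Fin M) ℤ) (a b : Fin M → Fin n)
    (e : Fin M →₀ ℕ) :
    (MvPolynomial.expand n P * monomial (emb b) 1).coeff (n • e + emb a) =
      if b = a then P.coeff e else 0 := by
  classical
  rw [MvPolynomial.coeff_mul_monomial', mul_one]
  split_ifs with h1 h2 h2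
  · rw [h2, add_tsub_cancel_right, MvPolynomial.coeff_expand_smul _ hn.ne']
  · have h3 : ∃ j, b j ≠ a j := Function.ne_iff.1 h2
    obtain ⟨j, hj⟩ := h3
    have h4 : emb b j ≤ (n • e + emb a) j := h1 j
    rw [emb_apply, Finsupp.add_apply, Finsupp.smul_apply, emb_apply, smul_eq_mul] at h4
    refine MvPolynomial.coeff_expand_of_not_dvd (i := j) _ ?_
    rw [Finsupp.tsub_apply, Finsupp.add_apply, Finsupp.smul_apply, emb_apply, emb_apply, smul_eq_mul]
    rintro ⟨q, hq⟩
    apply hj
    apply Fin.ext
    have h5 : n * e j + (a j : ℕ) = n * q + (b j : ℕ) := by omega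
    have h6 : (n * e j + (a j : ℕ)) % n = (n * q + (b j : ℕ)) % n := by rw [h5]
    rw [Nat.mul_add_mod, Nat.mul_add_mod, Nat.mod_eq_of_lt (a j).2, Nat.mod_eq_of_lt (b j).2] at h6
    exact h6.symm
  · exfalso
    apply h1
    rw [h2]
    exact le_add_self
  · rfl

private theorem indep {M n : ℕ} (hn : 0 < n) (u : (Fin M → Fin n) → MvPolynomial (Fin M) ℤ)
    (h : ∑ a, MvPolynomial.expand n (u a) * monomial (emb a) 1 = 0) : u = 0 := by
  funext a
  ext e
  have h1 := congrArg (MvPolynomial.coeff (n • e + emb a)) h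
  rw [MvPolynomial.coeff_sum, Finset.sum_congr rfl fun b _ => coeff_expand_mul hn (u b) a b e,
    Finset.sum_ite_eq' Finset.univ a (fun b => (u b).coeff e), if_pos (Finset.mem_univ _)] at h1
  rw [h1, Pi.zero_apply, MvPolynomial.coeff_zero, MvPolynomial.coeff_zero]

theorem norm_poly {M : ℕ} (n : ℕ) (hn : 1 ≤ n) (F : MvPolynomial (Fin M) ℤ) (hF : F ≠ 0) :
    ∃ S F' : MvPolynomial (Fin M) ℤ, S ≠ 0 ∧ MvPolynomial.expand n S = F * F' ∧
      (∀ j, S.degreeOf j ≤ n ^ M * (F.degreeOf j + 1)) ∧
      l1 S ≤ ((n ^ M).factorial : ℝ) * l1 F ^ (n ^ M) := by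
  classical
  have hn0 : 0 < n := hn
  set A : Matrix (Fin M → Fin n) (Fin M → Fin n) (MvPolynomial (Fin M) ℤ) := Matrix.of (En hn0 F) with hA
  set eq : (Fin M → Fin n) ≃ Fin (n ^ M) := finFunctionFinEquiv with heq
  have hdet : (Matrix.reindex eq eq A).det = A.det := Matrix.det_reindex_self eq A
  set v : (Fin M → Fin n) → MvPolynomial (Fin M) ℤ := fun a => monomial (emb a) 1 with hv
  set B : Matrix (Fin M → Fin n) (Fin M → Fin n) (MvPolynomial (Fin M) ℤ) :=
    (MvPolynomial.expand n).mapMatrix A with hB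
  have hBv : B.mulVec v = F • v := by
    funext a
    rw [Pi.smul_apply, smul_eq_mul, hv]
    exact En_sum hn0 F a
  have hadj : B.det • v = F • (B.adjugate.mulVec v) := by
    rw [← Matrix.mulVec_smul, ← hBv, Matrix.mulVec_mulVec, Matrix.adjugate_mul, Matrix.smul_mulVec,
      Matrix.one_mulVec]
  have hz := congrFun hadj (fun _ => ⟨0, hn0⟩)
  rw [Pi.smul_apply, Pi.smul_apply, smul_eq_mul, smul_eq_mul] at hz
  have hv0 : v (fun _ => ⟨0, hn0⟩) = 1 := by
    rw [hv]
    show monomial (emb (fun _ : Fin M => (⟨0, hn0⟩ : Fin n))) (1 : ℤ) = 1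
    have : emb (fun _ : Fin M => (⟨0, hn0⟩ : Fin n)) = 0 := by
      ext j
      rfl
    rw [this]
    rfl
  rw [hv0, mul_one] at hz
  refine ⟨A.det, B.adjugate.mulVec v (fun _ => ⟨0, hn0⟩), ?_, ?_, ?_, ?_⟩
  · intro h0
    obtain ⟨u, hu, huA⟩ := Matrix.exists_vecMul_eq_zero_iff.2 h0
    apply hu
    apply indep hn0
    have h1 : F * ∑ a, MvPolynomial.expand n (u a) * monomial (emb a) 1 = 0 := by
      calc F * ∑ a, MvPolynomial.expand n (u a) * monomial (emb a) 1
          = ∑ a, MvPolynomial.expand n (u a) * (F * monomial (emb a) 1) := by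
            rw [Finset.mul_sum]
            refine Finset.sum_congr rfl fun a _ => ?_
            ring
        _ = ∑ a, ∑ a', MvPolynomial.expand n (u a) *
              (MvPolynomial.expand n (En hn0 F a a') * monomial (emb a') 1) := by
            refine Finset.sum_congr rfl fun a _ => ?_
            rw [← En_sum hn0 F a, Finset.mul_sum]
        _ = ∑ a', ∑ a, MvPolynomial.expand n (u a) *
              (MvPolynomial.expand n (En hn0 F a a') * monomial (emb a') 1) := Finset.sum_comm
        _ = ∑ a' : Fin M → Fin n, MvPolynomial.expand n (Matrix.vecMul u A a') * monomial (emb a') 1 := by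
            refine Finset.sum_congr rfl fun a' _ => ?_
            unfold Matrix.vecMul dotProduct
            rw [map_sum, Finset.sum_mul]
            refine Finset.sum_congr rfl fun a _ => ?_
            rw [map_mul, mul_assoc]
            rfl
        _ = 0 := by
            rw [huA]
            refine Finset.sum_eq_zero fun a' _ => ?_
            rw [Pi.zero_apply, map_zero, zero_mul]
    exact (mul_eq_zero.1 h1).resolve_left hF
  · rw [AlgHom.map_det, ← hB]
    exact hz
  · intro j
    rw [← hdet]
    exact degreeOf_det_le _ j _ fun a b => En_deg hn0 F _ _ j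
  · rw [← hdet]
    exact l1_det_le _ _ (l1_nonneg F) fun i j => En_l1 hn0 F _ _

end H37SI
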