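import Pool.Agent.H37.SI.Def
import Pool.Agent.H4.AR.L1

/-!
H37/SI/RpL [RPL]: the polynomial Rp n c S = S(w^n; (1 + c_l w) x_l).

PROOFS. Rp_deg, Rp_deg_last, Rp_l1: write S as the sum of its monomials; the image of the monomial e is
S_e w^(n e_w) prod_l (1 + c_l w)^(e_l) x_l^(e_l): degree in x_l is e_l, degree in w at most n e_w + sum e_l, and
l1 ≤ |S_e| prod (1+|c_l|)^(e_l) (l1_mul_le, l1_prod_le, l1_sum_le of H4/AR/L1).
Rp_ne: suppose Rp n c S = 0. For all w in ℕ, w ≥ w1 := 1 + sum |c_l| (so that 1 + c_l w ≠ 0: |c_l w| ≥ w > 1 or c_l = 0)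
and all rationals V_l, put x_l = V_l/(1 + c_l w): eval gives S(w^n; V) = 0. So S (over ℚ) vanishes on the product of the
infinite set {w^n : w ≥ w1} with ℚ^m, and S = 0: `MvPolynomial.funext_set` (product of infinite sets) or view S as a
polynomial in the last variable.
-/

namespace H37SI

open MvPolynomial H4AR

theorem aeval_sum {k : ℕ} (G : Fin k → MvPolynomial (Fin k) ℤ) (S : MvPolynomial (Fin k) ℤ) :
    aeval G S = ∑ e ∈ S.support, C (S.coeff e) * ∏ i, G i ^ e i := by
  rw [MvPolynomial.aeval_def, MvPolynomial.eval₂_eq']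
  rfl

theorem deg_aeval {k : ℕ} (G : Fin k → MvPolynomial (Fin k) ℤ) (S : MvPolynomial (Fin k) ℤ) (j : Fin k) :
    (aeval G S).degreeOf j ≤ ∑ i, S.degreeOf i * (G i).degreeOf j := by
  rw [aeval_sum]
  refine (degreeOf_sum_le _ _ _).trans ?_
  refine Finset.sup_le fun e he => ?_
  refine (degreeOf_C_mul_le _ _ _).trans ?_
  refine (degreeOf_prod_le _ _ _).trans ?_
  refine Finset.sum_le_sum fun i _ => ?_
  refine (degreeOf_pow_le _ _ _).trans ?_
  exact Nat.mul_le_mul_right _ (MvPolynomial.monomial_le_degreeOf i he)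

theorem l1_C (a : ℤ) {k : ℕ} : l1 (C a : MvPolynomial (Fin k) ℤ) = |(a : ℝ)| := by
  classical
  have h : (C a : MvPolynomial (Fin k) ℤ).support ⊆ {0} := by
    intro e he
    rw [MvPolynomial.mem_support_iff, MvPolynomial.coeff_C] at he
    rw [Finset.mem_singleton]
    by_contra h
    exact he (if_neg fun h' => h h'.symm)
  rw [l1_eq_sum _ {0} h, Finset.sum_singleton, MvPolynomial.coeff_zero_C]

theorem l1_X {k : ℕ} (i : Fin k) : l1 (X i : MvPolynomial (Fin k) ℤ) = 1 := by
  classical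
  have h : (X i : MvPolynomial (Fin k) ℤ).support ⊆ {Finsupp.single i 1} := by
    intro e he
    rw [MvPolynomial.mem_support_iff, MvPolynomial.coeff_X] at he
    rw [Finset.mem_singleton]
    by_contra h
    exact he (if_neg fun h' => h h'.symm)
  rw [l1_eq_sum _ {Finsupp.single i 1} h, Finset.sum_singleton, MvPolynomial.coeff_X, if_pos rfl, Int.cast_one, abs_one]

theorem l1_pow_le {k : ℕ} (f : MvPolynomial (Fin k) ℤ) (n : ℕ) : l1 (f ^ n) ≤ l1 f ^ n := by
  induction n with
  | zero => rw [pow_zero, pow_zero, l1_one]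
  | succ n ih =>
    rw [pow_succ, pow_succ]
    exact (l1_mul_le _ _).trans (mul_le_mul_of_nonneg_right ih (l1_nonneg _))

theorem l1_aeval {k : ℕ} (G : Fin k → MvPolynomial (Fin k) ℤ) (S : MvPolynomial (Fin k) ℤ) (B : Fin k → ℝ)
    (hB : ∀ i, 1 ≤ B i) (hG : ∀ i, l1 (G i) ≤ B i) :
    l1 (aeval G S) ≤ l1 S * ∏ i, B i ^ S.degreeOf i := by
  rw [aeval_sum]
  refine (l1_sum_le _ _).trans ?_
  rw [l1, Finset.sum_mul]
  refine Finset.sum_le_sum fun e he => ?_
  refine (l1_mul_le _ _).trans ?_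
  rw [l1_C]
  refine mul_le_mul_of_nonneg_left ?_ (abs_nonneg _)
  refine (l1_prod_le _ _).trans ?_
  refine Finset.prod_le_prod (fun i _ => l1_nonneg _) fun i _ => ?_
  refine (l1_pow_le _ _).trans ?_
  refine (pow_le_pow_left₀ (l1_nonneg _) (hG i) _).trans ?_
  exact pow_le_pow_right₀ (hB i) (MvPolynomial.monomial_le_degreeOf i he)

theorem Rs_castSucc {m : ℕ} (n : ℕ) (c : Fin m → ℤ) (l : Fin m) :
    Rs n c l.castSucc = (1 + C (c l) * X (Fin.last m)) * X l.castSucc := by
  unfold Rs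
  rw [Fin.snoc_castSucc]

theorem Rs_last {m : ℕ} (n : ℕ) (c : Fin m → ℤ) :
    Rs n c (Fin.last m) = X (Fin.last m) ^ n := by
  unfold Rs
  rw [Fin.snoc_last]

theorem Rp_ne {m : ℕ} (n : ℕ) (hn : 1 ≤ n) (c : Fin m → ℤ) (S : MvPolynomial (Fin (m + 1)) ℤ) (hS : S ≠ 0) :
    Rp n c S ≠ 0 := by
  intro h0
  apply hS
  have hinj : Function.Injective (MvPolynomial.map (σ := Fin (m + 1)) (Int.castRingHom ℚ)) :=
    MvPolynomial.map_injective _ Int.cast_injective
  apply hinj
  rw [map_zero]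
  let s : Fin (m + 1) → Set ℚ := Fin.snoc (fun _ => Set.univ) (Set.range fun w : ℕ => ((w : ℚ) + 2) ^ n)
  have hs : ∀ i, (s i).Infinite := by
    intro i
    refine Fin.lastCases ?_ (fun l => ?_) i
    · simp only [s, Fin.snoc_last]
      refine Set.infinite_range_of_injective ?_
      intro a b hab
      have hab' : ((a : ℚ) + 2) ^ n = ((b : ℚ) + 2) ^ n := hab
      have h1 : (a : ℚ) + 2 = (b : ℚ) + 2 :=
        (pow_left_inj₀ (by positivity) (by positivity) (by omega)).1 hab'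
      have h2 : (a : ℚ) = b := by linarith
      exact_mod_cast h2
    · simp only [s, Fin.snoc_castSucc]
      exact Set.infinite_univ
  refine MvPolynomial.funext_set s hs ?_
  intro x hx
  rw [map_zero]
  have hxl := hx (Fin.last m) (Set.mem_univ _)
  simp only [s, Fin.snoc_last] at hxl
  obtain ⟨w, hw⟩ := hxl
  have hw' : ((w : ℚ) + 2) ^ n = x (Fin.last m) := hw
  let y : Fin (m + 1) → ℚ := Fin.snoc (fun l => x l.castSucc / (1 + (c l : ℚ) * ((w : ℚ) + 2))) ((w : ℚ) + 2)
  have hne : ∀ l, (1 + (c l : ℚ) * ((w : ℚ) + 2)) ≠ 0 := by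
    intro l hl
    have h1 : (1 + c l * ((w : ℤ) + 2)) = 0 := by exact_mod_cast hl
    have h2 : ((w : ℤ) + 2) ∣ 1 := ⟨- c l, by linarith⟩
    have h3 := Int.le_of_dvd (by norm_num) h2
    omega
  have hev : MvPolynomial.aeval y (Rp n c S) = MvPolynomial.aeval x S := by
    unfold Rp
    rw [← AlgHom.comp_apply]
    have : (MvPolynomial.aeval (R := ℤ) y).comp (MvPolynomial.aeval (Rs n c)) = MvPolynomial.aeval (R := ℤ) x := by
      apply MvPolynomial.algHom_ext
      intro i
      rw [AlgHom.comp_apply, MvPolynomial.aeval_X, MvPolynomial.aeval_X]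
      refine Fin.lastCases ?_ (fun l => ?_) i
      · rw [Rs_last, map_pow, MvPolynomial.aeval_X, ← hw']
        simp only [y, Fin.snoc_last]
      · rw [Rs_castSucc, map_mul, map_add, map_mul, map_one, MvPolynomial.aeval_X, MvPolynomial.aeval_X,
          MvPolynomial.aeval_C]
        simp only [y, Fin.snoc_last, Fin.snoc_castSucc]
        rw [eq_intCast]
        exact mul_div_cancel₀ _ (hne l)
    rw [this]
  rw [h0, map_zero] at hev
  rw [MvPolynomial.eval_map]
  rw [MvPolynomial.aeval_def] at hev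
  exact hev.symm

theorem Rp_deg {m : ℕ} (n : ℕ) (c : Fin m → ℤ) (S : MvPolynomial (Fin (m + 1)) ℤ) (l : Fin m) :
    (Rp n c S).degreeOf l.castSucc ≤ S.degreeOf l.castSucc := by
  refine (deg_aeval _ _ _).trans ?_
  rw [Fin.sum_univ_castSucc, Rs_last, degreeOf_X_pow_of_ne _ (Fin.castSucc_lt_last l).ne, mul_zero, add_zero]
  have h1 : ∀ i : Fin m, (Rs n c i.castSucc).degreeOf l.castSucc ≤ if i = l then 1 else 0 := by
    intro i
    rw [Rs_castSucc]
    refine (degreeOf_mul_le _ _ _).trans ?_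
    have h2 : (1 + C (c i) * X (Fin.last m) : MvPolynomial (Fin (m + 1)) ℤ).degreeOf l.castSucc = 0 := by
      refine Nat.eq_zero_of_le_zero ((degreeOf_add_le _ _ _).trans ?_)
      rw [degreeOf_one]
      refine max_le le_rfl ((degreeOf_C_mul_le _ _ _).trans ?_)
      rw [degreeOf_X_of_ne (Fin.castSucc_lt_last l).ne]
    rw [h2, zero_add, degreeOf_X]
    split_ifs with h3 h4 h4
    · exact le_rfl
    · exact absurd (Fin.castSucc_injective m h3).symm h4
    · exact Nat.zero_le _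
    · exact le_rfl
  refine (Finset.sum_le_sum fun i _ => Nat.mul_le_mul_left _ (h1 i)).trans ?_
  rw [Finset.sum_eq_single l]
  · rw [if_pos rfl, mul_one]
  · intro b _ hb
    rw [if_neg hb, mul_zero]
  · intro h
    exact absurd (Finset.mem_univ _) h

theorem Rp_deg_last {m : ℕ} (n : ℕ) (c : Fin m → ℤ) (S : MvPolynomial (Fin (m + 1)) ℤ) :
    (Rp n c S).degreeOf (Fin.last m) ≤
      n * S.degreeOf (Fin.last m) + ∑ l : Fin m, S.degreeOf l.castSucc := by
  refine (deg_aeval _ _ _).trans ?_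
  rw [Fin.sum_univ_castSucc, add_comm]
  refine add_le_add ?_ (Finset.sum_le_sum fun l _ => ?_)
  · rw [Rs_last, mul_comm n]
    refine Nat.mul_le_mul_left _ ((degreeOf_pow_le _ _ _).trans ?_)
    rw [degreeOf_X, if_pos rfl, mul_one]
  · rw [Rs_castSucc]
    have h1 : ((1 + C (c l) * X (Fin.last m)) * X l.castSucc : MvPolynomial (Fin (m + 1)) ℤ).degreeOf
        (Fin.last m) ≤ 1 := by
      refine (degreeOf_mul_le _ _ _).trans ?_
      rw [degreeOf_X_of_ne (Fin.castSucc_lt_last l).ne', add_zero]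
      refine (degreeOf_add_le _ _ _).trans ?_
      rw [degreeOf_one]
      refine max_le (Nat.zero_le _) ((degreeOf_C_mul_le _ _ _).trans ?_)
      rw [degreeOf_X, if_pos rfl]
    exact (Nat.mul_le_mul_left _ h1).trans (mul_one _).le

theorem Rp_l1 {m : ℕ} (n : ℕ) (c : Fin m → ℤ) (S : MvPolynomial (Fin (m + 1)) ℤ) :
    l1 (Rp n c S) ≤ l1 S * ∏ l : Fin m, (1 + |(c l : ℝ)|) ^ (S.degreeOf l.castSucc) := by
  let B : Fin (m + 1) → ℝ := Fin.snoc (fun l => 1 + |(c l : ℝ)|) 1
  have hB : ∀ i, 1 ≤ B i := by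
    intro i
    refine Fin.lastCases ?_ (fun l => ?_) i
    · simp only [B, Fin.snoc_last, le_refl]
    · simp only [B, Fin.snoc_castSucc]
      exact le_add_of_nonneg_right (abs_nonneg _)
  have hG : ∀ i, l1 (Rs n c i) ≤ B i := by
    intro i
    refine Fin.lastCases ?_ (fun l => ?_) i
    · rw [Rs_last]
      simp only [B, Fin.snoc_last]
      refine (l1_pow_le _ _).trans ?_
      rw [l1_X, one_pow]
    · rw [Rs_castSucc]
      simp only [B, Fin.snoc_castSucc]
      refine (l1_mul_le _ _).trans ?_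
      rw [l1_X, mul_one]
      refine (l1_add_le _ _).trans ?_
      rw [l1_one]
      refine add_le_add le_rfl ((l1_mul_le _ _).trans ?_)
      rw [l1_X, mul_one, l1_C]
  have h := l1_aeval (Rs n c) S B hB hG
  rw [Fin.prod_univ_castSucc] at h
  simp only [B, Fin.snoc_last, Fin.snoc_castSucc, one_pow, mul_one] at h
  exact h

end H37SI
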