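import Pool.Agent.H37.SI.Trans
import Pool.Agent.H37.SI.Norm
import Pool.Agent.H37.SI.RpL
import Pool.Agent.H4.AR.Roth
import Pool.Agent.H4.AR.LogH
import Pool.Agent.H37.SI.HtL

/-!
H37/SI/Nonv [NONV]: non-vanishing: some ZJ of small weight is not 0.

PROOF. M = m + 1, q = n^M, Q0 = 2 M n^(M+1) (natural number ≥ 1). roth M with del = iota/(2 Q0): constant c ≤ 1. Take
c1 > 0, c1 ≤ 1/8, c1 ≤ c and c1 * (log q! + 3 q + 2 Q0 + 1) ≤ c * Q0/8.
Suppose ZJ = 0 for all J with wt d J < iota. norm_poly: S, F'. R = Rp n c S ≠ 0 (Rp_ne). Put d' j = Q0 * d j.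
Degrees: S.degreeOf j ≤ q (F.degreeOf j + 1) ≤ q (d j + 1) ≤ 2 q d j. Rp_deg: degreeOf in x_l at most 2 q d_l ≤ d'_l;
Rp_deg_last: at most 2 n q d_w + sum_l 2 q d_l ≤ 2 n q d_w (1 + m) = d'_w (d_l ≤ c1 d_w ≤ d_w by hsep).
Roth's lemma (RothP M): its D := Q0 * d_w + 1 is at least 1 and at least all d'_j (hsep with c1 ≤ 1);
d' i ≤ c d' j for i < j by hsep and c1 ≤ c. Heights of the point Pt:
 last coordinate 1/X: ht = X, d'_w log X ≥ Q0 DD/2 (hDw).
 coordinate l: ht (r^n X/(X+c)) : from r^n = U (X+c)/X we get ht(r)^n = ht(r^n) ≤ ht(U) * ht((X+c)/X) ≤ ht(U) * 2X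
 (ht of a product ≤ product of the hts; ht(p/q) ≤ max(|p|,|q|) for integers; |c| ≤ X/2), so
 log ht(U) ≥ n log ht(r) - log(2X) ≥ log ht(r) - 2 log X ≥ log ht(r)/2, as log ht(r) ≥ (1/c1) log X ≥ 8 log X and X ≥ 2.
 So d'_l log ht ≥ Q0 d_l log ht(r_l)/2 ≥ Q0 DD/4 (hDl).
 log l1(R) ≤ log l1(S) + sum_l (degreeOf_l S) log(1+|c_l|) ≤ log q! + q log l1(F) + sum_l 2 q d_l log X
 ≤ log q! + q c1 DD + 2 q c1 DD (1 + |c_l| ≤ X: for X ≥ 2, 1 + X/2 ≤ X). DD ≥ 1/c1 (from 1 ≤ d_w ≤ c1 DD), so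
 log q! ≤ c1 DD log q! and 1 ≤ c1 DD, Q0 d_w + 1 ≤ (Q0 + 1) c1 DD.
 Total log l1(R) + D ≤ c1 (log q! + 3 q + Q0 + 1) DD ≤ c * Q0 DD/8 ≤ c * d'_j log ht.
Roth gives e with wt d' e ≤ del, coefficient of sh Pt (toQ R) at e not 0. wt d e = Q0 * wt d' e ≤ iota/2 < iota, contradiction
to trans_index.
-/

namespace H37SI

open MvPolynomial H4AR

/-- the height of the first coordinates -/
theorem nonv_ht (n X : ℕ) (hn : 1 ≤ n) (hX : 2 ≤ X) (c : ℤ) (hc : 2 * |(c : ℝ)| ≤ X) (r : ℚ)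
    (h : 8 * Real.log X ≤ Real.log (ht r)) :
    Real.log (ht r) ≤ 2 * Real.log (ht (r ^ n * X / (X + c))) := by
  have hXr : (2 : ℝ) ≤ X := by exact_mod_cast hX
  have hXc : (1 : ℝ) ≤ (X : ℝ) + c := by
    have := neg_abs_le (c : ℝ)
    linarith
  have hXcq : ((X : ℚ) + c) ≠ 0 := by
    intro h0
    have : ((X : ℝ) + c) = 0 := by exact_mod_cast congrArg (fun q : ℚ => (q : ℝ)) h0
    linarith
  have hXq : (X : ℚ) ≠ 0 := by
    have : X ≠ 0 := by omega
    exact_mod_cast this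
  have e1 : r ^ n = (r ^ n * X / (X + c)) * ((((X : ℤ) + c : ℤ) : ℚ) / ((X : ℤ) : ℚ)) := by
    push_cast
    field_simp
  have h1 : ht r ^ n ≤ ht (r ^ n * X / (X + c)) * (2 * X) := by
    rw [← ht_pow]
    conv_lhs => rw [e1]
    refine (ht_mul_le _ _).trans ?_
    apply mul_le_mul_of_nonneg_left _ (by linarith [one_le_ht (r ^ n * X / (X + c))])
    refine (ht_div_int _ _ (by exact_mod_cast (by omega : X ≠ 0))).trans ?_
    push_cast
    refine max_le ?_ ?_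
    · rw [abs_of_nonneg (by linarith)]
      have := le_abs_self (c : ℝ)
      linarith
    · rw [abs_of_nonneg (by linarith)]
      linarith
  have hr1 := one_le_ht r
  have hu1 := one_le_ht (r ^ n * X / (X + c))
  have h2 := Real.log_le_log (by positivity) h1
  rw [Real.log_pow, Real.log_mul (by linarith) (by linarith), Real.log_mul (by norm_num) (by linarith)] at h2
  have h3 : Real.log 2 ≤ Real.log X := Real.log_le_log (by norm_num) hXr
  have h4 : 0 ≤ Real.log (ht r) := Real.log_nonneg hr1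
  have h5 : Real.log (ht r) ≤ n * Real.log (ht r) := by
    have : (1 : ℝ) ≤ n := by exact_mod_cast hn
    nlinarith
  linarith

/-- the bound for `l1 (Rp n c S)` -/
theorem nonv_l1 {m : ℕ} (n X : ℕ) (hX : 2 ≤ X) (c : Fin m → ℤ) (hc : ∀ l, 2 * |(c l : ℝ)| ≤ X)
    (S : MvPolynomial (Fin (m + 1)) ℤ) (hS : S ≠ 0) (q : ℕ) (d : Fin (m + 1) → ℕ)
    (hd : ∀ j, S.degreeOf j ≤ 2 * q * d j) :
    Real.log (l1 (Rp n c S)) ≤ Real.log (l1 S) + 2 * q * ((∑ l : Fin m, (d l.castSucc : ℝ)) * Real.log X) := by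
  have hXr : (2 : ℝ) ≤ X := by exact_mod_cast hX
  have hlX : 0 ≤ Real.log X := Real.log_nonneg (by linarith)
  have hS1 : 1 ≤ l1 S := one_le_l1 hS
  have hpos : ∀ l : Fin m, (0 : ℝ) < 1 + |(c l : ℝ)| := fun l => by positivity
  have hprod : (0 : ℝ) < ∏ l : Fin m, (1 + |(c l : ℝ)|) ^ (S.degreeOf l.castSucc) :=
    Finset.prod_pos fun l _ => pow_pos (hpos l) _
  have h0 : Real.log (l1 (Rp n c S)) ≤
      Real.log (l1 S * ∏ l : Fin m, (1 + |(c l : ℝ)|) ^ (S.degreeOf l.castSucc)) := by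
    rcases (l1_nonneg (Rp n c S)).eq_or_lt with h | h
    · rw [← h, Real.log_zero]
      apply Real.log_nonneg
      have : (1 : ℝ) ≤ ∏ l : Fin m, (1 + |(c l : ℝ)|) ^ (S.degreeOf l.castSucc) := by
        have h1 : (1 : ℝ) = ∏ l : Fin m, (1 : ℝ) := by simp
        rw [h1]
        apply Finset.prod_le_prod
        · intro i _; norm_num
        · intro i _
          apply one_le_pow₀
          have := abs_nonneg (c i : ℝ)
          linarith
      nlinarith
    · exact Real.log_le_log h (Rp_l1 n c S)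
  refine h0.trans ?_
  rw [Real.log_mul (by linarith) hprod.ne', Real.log_prod (fun l _ => (pow_pos (hpos l) _).ne')]
  apply add_le_add le_rfl
  rw [Finset.sum_mul, Finset.mul_sum]
  apply Finset.sum_le_sum
  intro l _
  rw [Real.log_pow]
  have h1 : Real.log (1 + |(c l : ℝ)|) ≤ Real.log X := by
    apply Real.log_le_log (hpos l)
    have := hc l
    linarith
  have h2 : 0 ≤ Real.log (1 + |(c l : ℝ)|) := Real.log_nonneg (by linarith [abs_nonneg (c l : ℝ)])
  have h3 : ((S.degreeOf l.castSucc : ℕ) : ℝ) ≤ 2 * q * d l.castSucc := by exact_mod_cast hd l.castSucc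
  calc ((S.degreeOf l.castSucc : ℕ) : ℝ) * Real.log (1 + |(c l : ℝ)|)
      ≤ (2 * q * d l.castSucc) * Real.log X := mul_le_mul h3 h1 h2 (by positivity)
    _ = 2 * q * (d l.castSucc * Real.log X) := by ring

/-- the degrees -/
theorem nonv_deg {m : ℕ} (n : ℕ) (hn : 1 ≤ n) (c : Fin m → ℤ) (S : MvPolynomial (Fin (m + 1)) ℤ) (q : ℕ)
    (d : Fin (m + 1) → ℕ) (hd : ∀ j, S.degreeOf j ≤ 2 * q * d j)
    (hdl : ∀ j, d j ≤ d (Fin.last m)) (j : Fin (m + 1)) :
    (Rp n c S).degreeOf j ≤ 2 * (m + 1) * (n * q) * d j := by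
  have hq : ∀ j, 2 * q * d j ≤ 2 * (m + 1) * (n * q) * d j := by
    intro j
    apply Nat.mul_le_mul_right
    calc 2 * q = 2 * 1 * (1 * q) := by ring
      _ ≤ 2 * (m + 1) * (n * q) := Nat.mul_le_mul (by omega) (Nat.mul_le_mul_right _ hn)
  rcases Fin.eq_castSucc_or_eq_last j with ⟨l, rfl⟩ | rfl
  · exact (Rp_deg n c S l).trans ((hd _).trans (hq _))
  · refine (Rp_deg_last n c S).trans ?_
    have h1 : ∑ l : Fin m, S.degreeOf l.castSucc ≤ ∑ l : Fin m, n * (2 * q * d (Fin.last m)) := by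
      apply Finset.sum_le_sum
      intro l _
      calc S.degreeOf l.castSucc ≤ 2 * q * d l.castSucc := hd _
        _ ≤ 2 * q * d (Fin.last m) := Nat.mul_le_mul_left _ (hdl _)
        _ = 1 * (2 * q * d (Fin.last m)) := (one_mul _).symm
        _ ≤ n * (2 * q * d (Fin.last m)) := Nat.mul_le_mul_right _ hn
    have h2 : n * S.degreeOf (Fin.last m) ≤ n * (2 * q * d (Fin.last m)) := Nat.mul_le_mul_left _ (hd _)
    rw [Finset.sum_const, Finset.card_univ, Fintype.card_fin, smul_eq_mul] at h1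
    calc n * S.degreeOf (Fin.last m) + ∑ l : Fin m, S.degreeOf l.castSucc
        ≤ n * (2 * q * d (Fin.last m)) + m * (n * (2 * q * d (Fin.last m))) := Nat.add_le_add h2 h1
      _ = 2 * (m + 1) * (n * q) * d (Fin.last m) := by ring

/-- the real arithmetic -/
theorem nonv_arith (L q Q0 c c1 DD lS lR lF s dw H : ℝ) (hL : 0 ≤ L) (hq : 0 ≤ q) (hQ : 0 ≤ Q0)
    (hc : 0 < c) (hc1 : 0 < c1) (hcc : c1 * (L + 3 * q + 2 * Q0 + 1) ≤ c * Q0 / 8)
    (hw : 1 ≤ dw) (hdw : dw ≤ c1 * DD) (hlF : lF ≤ c1 * DD) (hs : s ≤ c1 * DD)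
    (hlS : lS ≤ L + q * lF) (hlR : lR ≤ lS + 2 * q * s) (hH : Q0 * DD / 4 ≤ H) :
    lR + (Q0 * dw + 1) ≤ c * H := by
  have h1 : 1 ≤ c1 * DD := hw.trans hdw
  have hDD : 0 < DD := by
    by_contra h
    have : c1 * DD ≤ 0 := mul_nonpos_of_nonneg_of_nonpos hc1.le (not_lt.1 h)
    linarith
  have h2 : q * lF ≤ q * (c1 * DD) := mul_le_mul_of_nonneg_left hlF hq
  have h3 : q * s ≤ q * (c1 * DD) := mul_le_mul_of_nonneg_left hs hq
  have h4 : L ≤ L * (c1 * DD) := by nlinarith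
  have h5 : Q0 * dw ≤ Q0 * (c1 * DD) := mul_le_mul_of_nonneg_left hdw hQ
  have h6 : c1 * (L + 3 * q + 2 * Q0 + 1) * DD ≤ c * Q0 / 8 * DD := mul_le_mul_of_nonneg_right hcc hDD.le
  have h7 : c * (Q0 * DD / 4) ≤ c * H := mul_le_mul_of_nonneg_left hH hc.le
  have h8 : 0 ≤ Q0 * (c1 * DD) := by positivity
  have h9 : 0 ≤ c * Q0 * DD := by positivity
  nlinarith

theorem nonvan (n m : ℕ) (hn : 1 ≤ n) (iota : ℝ) (hi : 0 < iota) :
    ∃ c1 : ℝ, 0 < c1 ∧ c1 ≤ 1 / 8 ∧ ∀ (X : ℕ) (c : Fin m → ℤ) (r : Fin m → ℚ)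
      (F : MvPolynomial (Fin (m + 1)) ℤ) (d : Fin (m + 1) → ℕ) (DD : ℝ), 2 ≤ X →
      (∀ l, 2 * |(c l : ℝ)| ≤ X) → (∀ l, 0 < r l) → F ≠ 0 → (∀ j, F.degreeOf j ≤ d j) → (∀ j, 1 ≤ d j) →
      (∀ i j, i < j → (d i : ℝ) ≤ c1 * d j) →
      (∀ l : Fin m, DD ≤ 2 * ((d l.castSucc : ℝ) * Real.log (ht (r l)))) →
      DD ≤ 2 * ((d (Fin.last m) : ℝ) * Real.log X) → Real.log (l1 F) ≤ c1 * DD →
      (d (Fin.last m) : ℝ) ≤ c1 * DD → (∑ l : Fin m, (d l.castSucc : ℝ)) * Real.log X ≤ c1 * DD →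
      (∀ l, Real.log X ≤ c1 * Real.log (ht (r l))) →
      ∃ J : Fin (m + 1) →₀ ℕ, wt d J < iota ∧ ZJ n X c r F J ≠ 0 := by
  set q : ℕ := n ^ (m + 1) with hq
  set Q0 : ℕ := 2 * (m + 1) * (n * q) with hQ0
  have hq1 : 1 ≤ q := Nat.one_le_pow _ _ (by omega)
  have hQ1 : 1 ≤ Q0 := by
    have : 1 ≤ n * q := Nat.mul_pos (by omega) (by omega)
    calc 1 = 1 * 1 := rfl
      _ ≤ (2 * (m + 1)) * (n * q) := Nat.mul_le_mul (by omega) this
  have hQr : (1 : ℝ) ≤ Q0 := by exact_mod_cast hQ1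
  set L : ℝ := Real.log (q.factorial : ℝ) with hL
  have hL0 : 0 ≤ L := Real.log_nonneg (by exact_mod_cast Nat.factorial_pos q)
  obtain ⟨cc, hcc0, hcc1, hroth⟩ := roth (m + 1) (iota / (2 * Q0)) (by positivity)
  set c1 : ℝ := min (min (1 / 8) cc) (cc * Q0 / 8 / (L + 3 * q + 2 * Q0 + 1)) with hc1
  have hden : 0 < L + 3 * q + 2 * Q0 + 1 := by positivity
  have hc1p : 0 < c1 := by
    rw [hc1]
    refine lt_min (lt_min (by norm_num) hcc0) (by positivity)
  have hc18 : c1 ≤ 1 / 8 := (min_le_left _ _).trans (min_le_left _ _)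
  have hc1c : c1 ≤ cc := (min_le_left _ _).trans (min_le_right _ _)
  have hc1q : c1 * (L + 3 * q + 2 * Q0 + 1) ≤ cc * Q0 / 8 := by
    rw [← le_div_iff₀ hden]
    exact min_le_right _ _
  refine ⟨c1, hc1p, hc18, ?_⟩
  intro X c r F d DD hX hc hr hF hFd hd hsep hDl hDw hlF hdw hsum hlX
  by_contra hcon
  push Not at hcon
  obtain ⟨S, F', hS, hSF, hSd, hSl⟩ := norm_poly n hn F hF
  have hXr : (2 : ℝ) ≤ X := by exact_mod_cast hX
  have hlX0 : 0 ≤ Real.log X := Real.log_nonneg (by linarith)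
  have hSd' : ∀ j, S.degreeOf j ≤ 2 * q * d j := by
    intro j
    refine (hSd j).trans ?_
    have h1 := hFd j
    have h2 := hd j
    calc n ^ (m + 1) * (F.degreeOf j + 1) ≤ q * (2 * d j) := Nat.mul_le_mul le_rfl (by omega)
      _ = 2 * q * d j := by ring
  have hdl : ∀ j, d j ≤ d (Fin.last m) := by
    intro j
    rcases (Fin.le_last j).eq_or_lt with h | h
    · rw [h]
    · have h1 := hsep j _ h
      have h2 : (d j : ℝ) ≤ d (Fin.last m) := by
        have : (0 : ℝ) ≤ d (Fin.last m) := Nat.cast_nonneg _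
        nlinarith
      exact_mod_cast h2
  have hR := Rp_ne n hn c S hS
  have hRl := nonv_l1 n X hX c hc S hS q d hSd'
  have hl1F : 1 ≤ l1 F := one_le_l1 hF
  have hlS : Real.log (l1 S) ≤ L + q * Real.log (l1 F) := by
    have h1 := Real.log_le_log (by linarith [one_le_l1 hS]) hSl
    rw [Real.log_mul (by positivity) (by positivity), Real.log_pow] at h1
    exact_mod_cast h1
  have hdw1 : (1 : ℝ) ≤ d (Fin.last m) := by exact_mod_cast hd (Fin.last m)
  have hH : ∀ j, (Q0 : ℝ) * DD / 4 ≤ ((Q0 * d j : ℕ) : ℝ) * Real.log (ht (Pt n X c r j)) := by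
    intro j
    rcases Fin.eq_castSucc_or_eq_last j with ⟨l, rfl⟩ | rfl
    · unfold Pt
      rw [Fin.snoc_castSucc]
      have h8 : 8 * Real.log X ≤ Real.log (ht (r l)) := by
        have h1 := hlX l
        have h2 : 0 ≤ Real.log (ht (r l)) := Real.log_nonneg (one_le_ht _)
        nlinarith
      have h1 := nonv_ht n X hn hX (c l) (hc l) (r l) h8
      have h2 := hDl l
      have h3 : (0 : ℝ) ≤ d l.castSucc := Nat.cast_nonneg _
      have h4 := mul_le_mul_of_nonneg_left h1 h3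
      have h5 : DD ≤ 4 * (d l.castSucc * Real.log (ht (r l ^ n * X / (X + c l)))) := by linarith
      have h6 := mul_le_mul_of_nonneg_left h5 (show (0 : ℝ) ≤ Q0 by positivity)
      push_cast
      linarith
    · unfold Pt
      rw [Fin.snoc_last, ht_inv_nat X (by omega)]
      have h6 := mul_le_mul_of_nonneg_left hDw (show (0 : ℝ) ≤ Q0 by positivity)
      have h7 : 0 ≤ (Q0 : ℝ) * (d (Fin.last m) * Real.log X) := by positivity
      push_cast
      linarith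
  obtain ⟨e, he1, he2⟩ := hroth (fun j => Q0 * d j) (Pt n X c r) (Rp n c S) (Q0 * d (Fin.last m) + 1)
    (by
      have : (0 : ℝ) ≤ Q0 * d (Fin.last m) := by positivity
      linarith)
    (fun j => Nat.mul_pos (by omega) (hd j))
    (fun j => by
      have h1 : (d j : ℝ) ≤ d (Fin.last m) := by exact_mod_cast hdl j
      push_cast
      nlinarith)
    (fun i j hij => by
      have h1 := hsep i j hij
      have h2 : (d i : ℝ) ≤ cc * d j := h1.trans (mul_le_mul_of_nonneg_right hc1c (Nat.cast_nonneg _))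
      push_cast
      nlinarith)
    hR
    (fun j => nonv_deg n hn c S q d hSd' hdl j)
    (fun j => by
      exact nonv_arith L q Q0 cc c1 DD (Real.log (l1 S)) (Real.log (l1 (Rp n c S))) (Real.log (l1 F))
        ((∑ l : Fin m, (d l.castSucc : ℝ)) * Real.log X) (d (Fin.last m)) _ hL0 (Nat.cast_nonneg _)
        (Nat.cast_nonneg _) hcc0 hc1p hc1q hdw1 hdw hlF hsum hlS hRl (hH j))
  apply he2
  have hwt : wt d e < iota := by
    have h1 : wt d e = Q0 * wt (fun j => Q0 * d j) e := by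
      unfold wt
      rw [Finset.mul_sum]
      refine Finset.sum_congr rfl fun j _ => ?_
      have : (0 : ℝ) < d j := by exact_mod_cast hd j
      push_cast
      field_simp
    rw [h1]
    have h2 := mul_le_mul_of_nonneg_left he1 (show (0 : ℝ) ≤ Q0 by positivity)
    have h3 : (Q0 : ℝ) * (iota / (2 * Q0)) = iota / 2 := by field_simp
    rw [h3] at h2
    linarith
  exact trans_index n X hn (by omega) c (fun l h0 => by
    have h1 := hc l
    have h2 : ((X : ℝ) + c l) = 0 := by exact_mod_cast congrArg (fun z : ℤ => (z : ℝ)) h0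
    have h3 := neg_abs_le (c l : ℝ)
    linarith) r hr F F' S hSF d iota (fun J hJ => hcon J hJ) e hwt

end H37SI
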