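import Pool.Agent.H37.SI.Cmp
import Pool.Agent.H37.SI.Chain
import Pool.Agent.H4.AR.Close
import Pool.Agent.H4.AR.AlgD

/-!
H37/SI/NumS [NUMS]: in every short interval at most J numbers a are exceptional.

PROOF of num_short. cmp: C1, del1, lam. alg_data: D, c0, B, w for P, th. vol with N = n D: m. prp with n, n1 = n, m, D, kap := 4:
C2, del2. t with lam^t ≥ C2. J = t m, del = min del1 del2 (1/4), C large. Let E be a set of more than J exceptional a, choose r_a;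
x a = log ht(r_a) > 0. cmp gives the hypothesis of chain (order two different a, a' by x). chain: f : Fin m → E. Apply prp with
X, b, c l = f l - X (0 ≤ c l ≤ X^del ≤ X^del2), xi = (th X/b)^(1/n) (xi^n b = th X), r l = r_(f l): heights ≥ X^C so
log ≥ C log X ≥ C2 log X; |r - xi (1 + c/X)^(1/n)|: xi (1+c/X)^(1/n) = (th a/b)^(1/n) (Real.mul_rpow), `close` with T := X^2
(b ≤ X^2, a ≤ 2X ≤ X^2, 1/X^2 ≤ th ≤ X^2 for X large): ≤ exp(-(kap h - 4 log X)) ≤ exp(-4h), as (kap-4) h ≥ (kap-4) C log X ≥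
4 log X. Contradiction.
-/

namespace H37SI

open H4AR

theorem num_short (n : ℕ) (hn : 2 ≤ n) (kap : ℝ) (hkap : 4 < kap) (P : Polynomial ℤ) (hP : P ≠ 0) (th : ℝ)
    (hth : 0 < th) (hroot : Polynomial.aeval th P = 0) :
    ∃ (C J : ℕ) (del : ℝ), 1 ≤ C ∧ 0 < del ∧ ∀ X b : ℕ, C ≤ X → 1 ≤ b → b ≤ X ^ 2 →
      ∀ E : Finset ℕ, (∀ a ∈ E, X ≤ a ∧ (a : ℝ) ≤ X + (X : ℝ) ^ del) →
      (∀ a ∈ E, ∃ r : ℚ, Exc n b a th kap ((X : ℝ) ^ C) r) → E.card ≤ J := by
  obtain ⟨C1, del1, lam, hC1, hdel1, hlam, Hcmp⟩ := cmp n hn kap hkap th hth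
  obtain ⟨D, c0, B, w, hD, hc0, hB, hcB, hw, hwB⟩ := alg_data P hP th hroot
  obtain ⟨m, hm, hvol⟩ := vol (n * D)
  have hn1 : 1 ≤ n := by omega
  obtain ⟨C2, del2, hC2, hdel2, Hprp⟩ := prp n n m D hn1 hn1 hm hD 4 (by norm_num)
    (by have h := hvol; push_cast at h; exact h) th hth c0 hc0 B hB hcB w hw hwB
  obtain ⟨t, htt⟩ := pow_unbounded_of_one_lt (C2 : ℝ) hlam
  refine ⟨C1 + C2 + 2 + ⌈th⌉₊ + ⌈1 / th⌉₊ + ⌈4 / (kap - 4)⌉₊, t * m, min (min del1 del2) 1,
    by omega, lt_min (lt_min hdel1 hdel2) one_pos, ?_⟩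
  set C : ℕ := C1 + C2 + 2 + ⌈th⌉₊ + ⌈1 / th⌉₊ + ⌈4 / (kap - 4)⌉₊ with hCdef
  set del : ℝ := min (min del1 del2) 1 with hdel
  have hd1 : del ≤ del1 := (min_le_left _ _).trans (min_le_left _ _)
  have hd2 : del ≤ del2 := (min_le_left _ _).trans (min_le_right _ _)
  have hd3 : del ≤ 1 := min_le_right _ _
  intro X b hX hb hbX E hE hEx
  by_contra hcard
  push Not at hcard
  have hXC : (C : ℝ) ≤ X := by exact_mod_cast hX
  have hX2n : 2 ≤ X := by omega
  have hX2 : (2 : ℝ) ≤ X := by exact_mod_cast hX2n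
  have hX0 : (0 : ℝ) < X := by linarith
  have hX1 : (1 : ℝ) ≤ X := by linarith
  have hXth : th ≤ X := by
    have h1 : th ≤ (⌈th⌉₊ : ℝ) := Nat.le_ceil th
    have h2 : ((⌈th⌉₊ : ℕ) : ℝ) ≤ C := by exact_mod_cast (show ⌈th⌉₊ ≤ C by omega)
    linarith
  have hXth' : 1 / th ≤ X := by
    have h1 : 1 / th ≤ (⌈1 / th⌉₊ : ℝ) := Nat.le_ceil _
    have h2 : ((⌈1 / th⌉₊ : ℕ) : ℝ) ≤ C := by exact_mod_cast (show ⌈1 / th⌉₊ ≤ C by omega)
    linarith
  have hCk : 4 ≤ (kap - 4) * C := by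
    have h1 : 4 / (kap - 4) ≤ (⌈4 / (kap - 4)⌉₊ : ℝ) := Nat.le_ceil _
    have h2 : ((⌈4 / (kap - 4)⌉₊ : ℕ) : ℝ) ≤ C := by
      exact_mod_cast (show ⌈4 / (kap - 4)⌉₊ ≤ C by omega)
    have h3 : 0 < kap - 4 := by linarith
    have h4 : 4 / (kap - 4) ≤ C := h1.trans h2
    rw [div_le_iff₀ h3] at h4
    linarith
  have hlogX : 0 < Real.log X := Real.log_pos (by linarith)
  have hXX : (X : ℝ) ≤ (X : ℝ) ^ 2 := by nlinarith
  have hpow : ∀ e : ℝ, del ≤ e → (X : ℝ) ^ del ≤ (X : ℝ) ^ e := fun e he =>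
    Real.rpow_le_rpow_of_exponent_le hX1 he
  -- the chosen approximations
  choose! r hr using hEx
  have hhtpos : ∀ a, 0 < ht (r a) := fun a => lt_of_lt_of_le one_pos (one_le_ht (r a))
  have hlog : ∀ a ∈ E, (C : ℝ) * Real.log X ≤ Real.log (ht (r a)) := by
    intro a ha
    rw [← Real.log_pow]
    exact Real.log_le_log (by positivity) (hr a ha).2.1
  have hmono : ∀ C' : ℕ, C' ≤ C → ∀ a ∈ E, Exc n b a th kap ((X : ℝ) ^ C') (r a) := by
    intro C' hC' a ha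
    refine ⟨(hr a ha).1, le_trans ?_ (hr a ha).2.1, (hr a ha).2.2⟩
    exact pow_le_pow_right₀ hX1 hC'
  have hpos : ∀ a ∈ E, 0 < Real.log (ht (r a)) := by
    intro a ha
    refine lt_of_lt_of_le ?_ (hlog a ha)
    have : (0 : ℝ) < C := by exact_mod_cast (show 0 < C by omega)
    positivity
  obtain ⟨f, hf1, hf2⟩ := chain t m hm lam C2 hlam htt.le E hcard
    (fun a => Real.log (ht (r a))) hpos (by
      intro a ha a' ha' hne hle
      exact Hcmp X b (by omega) hb hbX a a' hne (hE a ha).1 (hE a' ha').1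
        ((hE a ha).2.trans (by linarith [hpow del1 hd1]))
        ((hE a' ha').2.trans (by linarith [hpow del1 hd1])) (r a) (r a')
        (hmono C1 (by omega) a ha) (hmono C1 (by omega) a' ha') hle)
  have hb1 : (1 : ℝ) ≤ b := by exact_mod_cast hb
  have hb0 : (0 : ℝ) < b := by linarith
  have hq : 0 < th * X / b := by positivity
  have hn0 : (n : ℝ) ≠ 0 := by
    have : 0 < n := by omega
    exact_mod_cast this.ne'
  refine Hprp X b (by omega) hb hbX (fun l => (f l : ℤ) - X) ?_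
    ((th * X / b) ^ ((1 : ℝ) / n)) (Real.rpow_pos_of_pos hq _) ?_ (fun l => r (f l))
    (fun l => (hr _ (hf1 l)).1) ?_ (fun i j hij => hf2 i j hij) ?_
  · intro l
    have h1 := hE _ (hf1 l)
    have h2 : (X : ℝ) ≤ f l := by exact_mod_cast h1.1
    push_cast
    rw [abs_of_nonneg (by linarith)]
    linarith [hpow del2 hd2, h1.2]
  · rw [← Real.rpow_natCast, ← Real.rpow_mul hq.le, one_div, inv_mul_cancel₀ hn0, Real.rpow_one]
    field_simp
  · intro l
    refine le_trans ?_ (hlog _ (hf1 l))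
    have : (C2 : ℝ) ≤ C := by exact_mod_cast (show C2 ≤ C by omega)
    exact mul_le_mul_of_nonneg_right this hlogX.le
  · intro l
    set a := f l with ha
    have hEa := hE a (hf1 l)
    have haX : (X : ℝ) ≤ a := by exact_mod_cast hEa.1
    have ha0 : (0 : ℝ) < a := by linarith
    have haX2 : (a : ℝ) ≤ (X : ℝ) ^ 2 := by
      have h1 := hpow 1 hd3
      rw [Real.rpow_one] at h1
      nlinarith [hEa.2]
    have e1 : (1 + (((a : ℤ) - (X : ℤ) : ℤ) : ℝ) / X) = a / X := by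
      push_cast
      field_simp
      ring
    have e2 : (th * X / b) ^ ((1 : ℝ) / n) * (1 + (((a : ℤ) - (X : ℤ) : ℤ) : ℝ) / X) ^ ((1 : ℝ) / n) =
        (th * (a : ℝ) / b) ^ ((1 : ℝ) / n) := by
      rw [e1, ← Real.mul_rpow hq.le (by positivity)]
      congr 1
      field_simp
    have hcl := close n b a (X ^ 2) hn1 (by nlinarith) hb hbX (by omega)
      (by exact_mod_cast haX2) th kap ((X : ℝ) ^ C) (by
        push_cast
        rw [div_le_iff₀ (by positivity)]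
        rw [div_le_iff₀ hth] at hXth'
        nlinarith) (by push_cast; linarith) (r a) (hr a (hf1 l))
    have h3 := hcl.1
    show |((r a : ℚ) : ℝ) - (th * X / b) ^ ((1 : ℝ) / n) *
      (1 + (((a : ℤ) - (X : ℤ) : ℤ) : ℝ) / X) ^ ((1 : ℝ) / n)| ≤ _
    rw [e2]
    refine h3.trans (Real.exp_le_exp.2 ?_)
    push_cast
    rw [Real.log_pow]
    push_cast
    have h4 := hlog a (hf1 l)
    have h5 : (kap - 4) * ((C : ℝ) * Real.log X) ≤ (kap - 4) * Real.log (ht (r a)) :=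
      mul_le_mul_of_nonneg_left h4 (by linarith)
    nlinarith [mul_le_mul_of_nonneg_right hCk hlogX.le]

end H37SI
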