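import Mathlib

/-!
H37/SI/Par [PAR]: choice of eps, sig, and the numerical comparison of the number of conditions with the number of unknowns.

PROOF of par. Both sides are continuous in (eps, sig); at (0,0) the inequality is D n1 (m+1)^(m+1) < (m+1)! kap^m (hV); take
eps = sig = x with x > 0 small (tendsto of the difference as x → 0+, `ContinuousAt.eventually`, intersect with x ≤ 1/10).
PROOF of card_ok. Let M = m+1, P = prod_j h_j. hKK: KC * M! (1-eps)^M kap^m P ≤ ((M+sig) DD + (1-eps) h_w +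
sum (1-eps) kap h_l)^M ≤ ((M + 2 sig) DD)^M by hDD2. Multiply par by KC... : (1+eps) D n1 KC * M! (1-eps)^M kap^m P ≤
(1+eps) D n1 (M+2 sig)^M DD^M ≤ (1-eps)^(M+1) M! kap^m DD^M, so (1+eps) D n1 KC ≤ (1-eps) DD^M/P
(divide by M! (1-eps)^M kap^m > 0). And (d 0 + 1 - n1) ≥ DD/h_0 - n1 ≥ (1-eps) DD/h_0 (hDD1), d j + 1 ≥ DD/h_j, so the right
side is at least (1-eps) prod_j DD/h_j = (1-eps) DD^M/P.
-/

namespace H37SI

theorem par (n1 D m : ℕ) (kap : ℝ) (hkap : 0 < kap)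
    (hV : (n1 : ℝ) * D * ((m : ℝ) + 1) ^ (m + 1) < ((m + 1).factorial : ℝ) * kap ^ m) :
    ∃ eps sig : ℝ, 0 < eps ∧ eps ≤ 1 / 10 ∧ 0 < sig ∧ sig ≤ 1 ∧
      (1 + eps) * (D : ℝ) * n1 * ((m : ℝ) + 1 + 2 * sig) ^ (m + 1) ≤
        (1 - eps) ^ (m + 2) * ((m + 1).factorial : ℝ) * kap ^ m := by
  set f : ℝ → ℝ := fun x => (1 - x) ^ (m + 2) * ((m + 1).factorial : ℝ) * kap ^ m -
    (1 + x) * (D : ℝ) * n1 * ((m : ℝ) + 1 + 2 * x) ^ (m + 1) with hf
  have hc : ContinuousAt f 0 := by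
    have : Continuous f := by
      rw [hf]
      fun_prop
    exact this.continuousAt
  have hf0 : 0 < f 0 := by
    rw [hf]
    simp only [sub_zero, one_pow, one_mul, add_zero, mul_zero]
    linarith
  obtain ⟨r, hr, hr'⟩ := Metric.eventually_nhds_iff.mp (hc.eventually (lt_mem_nhds hf0))
  have hx : dist (min (r / 2) (1 / 10)) 0 < r := by
    rw [Real.dist_eq, sub_zero, abs_of_pos (lt_min (by linarith) (by norm_num))]
    exact lt_of_le_of_lt (min_le_left _ _) (by linarith)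
  have h1 := hr' hx
  refine ⟨min (r / 2) (1 / 10), min (r / 2) (1 / 10), lt_min (by linarith) (by norm_num),
    min_le_right _ _, lt_min (by linarith) (by norm_num),
    (min_le_right _ _).trans (by norm_num), ?_⟩
  rw [hf] at h1
  simp only at h1
  linarith

theorem card_ok (n1 D m : ℕ) (hm : 1 ≤ m) (kap : ℝ) (hkap : 0 < kap) (eps sig : ℝ) (h0 : 0 < eps)
    (h1 : eps ≤ 1 / 10) (h2 : 0 < sig) (h3 : sig ≤ 1)
    (hpar : (1 + eps) * (D : ℝ) * n1 * ((m : ℝ) + 1 + 2 * sig) ^ (m + 1) ≤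
        (1 - eps) ^ (m + 2) * ((m + 1).factorial : ℝ) * kap ^ m)
    (h : Fin (m + 1) → ℝ) (hh : ∀ j, 0 < h j) (DD : ℝ) (hDD : 0 < DD) (hDD1 : (n1 : ℝ) * h 0 ≤ eps * DD)
    (hDD2 : (kap + 1) * ∑ j, h j ≤ sig * DD) (KC : ℝ) (hKC : 0 ≤ KC)
    (hKK : KC * (((m + 1).factorial : ℝ) *
        (((1 - eps) * h (Fin.last m)) * ∏ l : Fin m, ((1 - eps) * kap * h l.castSucc))) ≤
      (((m : ℝ) + 1 + sig) * DD + (1 - eps) * h (Fin.last m) + ∑ l : Fin m, (1 - eps) * kap * h l.castSucc)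
        ^ (m + 1))
    (d : Fin (m + 1) → ℕ) (hd : ∀ j, DD / h j ≤ (d j : ℝ) + 1) :
    (1 + eps) * (D * KC) * n1 ≤
      ((d 0 : ℝ) + 1 - n1) * ∏ j ∈ Finset.univ.erase (0 : Fin (m + 1)), ((d j : ℝ) + 1) := by
  set P : ℝ := ∏ j, h j with hP
  have hP0 : 0 < P := Finset.prod_pos fun j _ => hh j
  have h1e : 0 < 1 - eps := by linarith
  have hM : (0 : ℝ) < ((m + 1).factorial : ℝ) := by exact_mod_cast Nat.factorial_pos _
  -- left side of hKK
  have e1 : (1 - eps) * h (Fin.last m) * ∏ l : Fin m, ((1 - eps) * kap * h l.castSucc) =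
      (1 - eps) ^ (m + 1) * kap ^ m * P := by
    rw [Finset.prod_mul_distrib, Finset.prod_const, Finset.card_univ, Fintype.card_fin, hP,
      Fin.prod_univ_castSucc, mul_pow]
    ring
  have e2 : ((m : ℝ) + 1 + sig) * DD + (1 - eps) * h (Fin.last m) +
      ∑ l : Fin m, (1 - eps) * kap * h l.castSucc ≤ ((m : ℝ) + 1 + 2 * sig) * DD := by
    have h4 : ∑ l : Fin m, (1 - eps) * kap * h l.castSucc ≤
        ∑ l : Fin m, (kap + 1) * h l.castSucc := by
      refine Finset.sum_le_sum fun l _ => mul_le_mul_of_nonneg_right ?_ (hh _).le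
      nlinarith
    have h5 : (1 - eps) * h (Fin.last m) ≤ (kap + 1) * h (Fin.last m) :=
      mul_le_mul_of_nonneg_right (by linarith) (hh _).le
    rw [Fin.sum_univ_castSucc, mul_add, Finset.mul_sum] at hDD2
    nlinarith
  have e3 : 0 ≤ ((m : ℝ) + 1 + sig) * DD + (1 - eps) * h (Fin.last m) +
      ∑ l : Fin m, (1 - eps) * kap * h l.castSucc := by
    have h4 : 0 ≤ ∑ l : Fin m, (1 - eps) * kap * h l.castSucc :=
      Finset.sum_nonneg fun l _ => mul_nonneg (mul_nonneg h1e.le hkap.le) (hh _).le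
    have h5 := mul_pos h1e (hh (Fin.last m))
    have h6 : 0 ≤ ((m : ℝ) + 1 + sig) * DD := by positivity
    linarith
  rw [e1] at hKK
  have e4 : KC * (((m + 1).factorial : ℝ) * ((1 - eps) ^ (m + 1) * kap ^ m * P)) ≤
      (((m : ℝ) + 1 + 2 * sig) * DD) ^ (m + 1) := hKK.trans (pow_le_pow_left₀ e3 e2 _)
  set W : ℝ := ((m + 1).factorial : ℝ) * (1 - eps) ^ (m + 1) * kap ^ m with hW
  have hW0 : 0 < W := by positivity
  have e5 : (1 + eps) * (D * KC) * n1 * P * W ≤ (1 - eps) * DD ^ (m + 1) * W := by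
    have h6 : 0 ≤ (1 + eps) * (D : ℝ) * n1 := by positivity
    have h7 := mul_le_mul_of_nonneg_left e4 h6
    have h8 : 0 ≤ DD ^ (m + 1) := by positivity
    have h9 := mul_le_mul_of_nonneg_right hpar h8
    rw [mul_pow] at h7
    calc (1 + eps) * (D * KC) * n1 * P * W = (1 + eps) * (D : ℝ) * n1 *
          (KC * (((m + 1).factorial : ℝ) * ((1 - eps) ^ (m + 1) * kap ^ m * P))) := by
          rw [hW]; ring
      _ ≤ (1 + eps) * (D : ℝ) * n1 * (((m : ℝ) + 1 + 2 * sig) ^ (m + 1) * DD ^ (m + 1)) := h7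
      _ = (1 + eps) * (D : ℝ) * n1 * ((m : ℝ) + 1 + 2 * sig) ^ (m + 1) * DD ^ (m + 1) := by ring
      _ ≤ (1 - eps) ^ (m + 2) * ((m + 1).factorial : ℝ) * kap ^ m * DD ^ (m + 1) := h9
      _ = (1 - eps) * DD ^ (m + 1) * W := by rw [hW]; ring
  have e6 := le_of_mul_le_mul_right e5 hW0
  -- right side
  have hP2 : P = h 0 * ∏ j ∈ Finset.univ.erase (0 : Fin (m + 1)), h j :=
    (Finset.mul_prod_erase _ _ (Finset.mem_univ _)).symm
  have e7 : (1 - eps) * DD ≤ ((d 0 : ℝ) + 1 - n1) * h 0 := by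
    have h4 := hd 0
    rw [div_le_iff₀ (hh 0)] at h4
    nlinarith
  have e8 : DD ^ m ≤ (∏ j ∈ Finset.univ.erase (0 : Fin (m + 1)), ((d j : ℝ) + 1)) *
      ∏ j ∈ Finset.univ.erase (0 : Fin (m + 1)), h j := by
    rw [← Finset.prod_mul_distrib]
    have h4 : DD ^ m = ∏ _j ∈ Finset.univ.erase (0 : Fin (m + 1)), DD := by
      rw [Finset.prod_const, Finset.card_erase_of_mem (Finset.mem_univ _), Finset.card_univ,
        Fintype.card_fin, Nat.add_sub_cancel]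
    rw [h4]
    refine Finset.prod_le_prod (fun _ _ => hDD.le) fun j _ => ?_
    have h5 := hd j
    rwa [div_le_iff₀ (hh j)] at h5
  have e9 : (1 - eps) * DD ^ (m + 1) ≤ (((d 0 : ℝ) + 1 - n1) *
      ∏ j ∈ Finset.univ.erase (0 : Fin (m + 1)), ((d j : ℝ) + 1)) * P := by
    calc (1 - eps) * DD ^ (m + 1) = ((1 - eps) * DD) * DD ^ m := by ring
      _ ≤ (((d 0 : ℝ) + 1 - n1) * h 0) *
          ((∏ j ∈ Finset.univ.erase (0 : Fin (m + 1)), ((d j : ℝ) + 1)) *
          ∏ j ∈ Finset.univ.erase (0 : Fin (m + 1)), h j) :=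
          mul_le_mul e7 e8 (by positivity) ((by positivity : 0 ≤ (1 - eps) * DD).trans e7)
      _ = _ := by rw [hP2]; ring
  exact le_of_mul_le_mul_right (e6.trans e9) hP0

end H37SI
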