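import Mathlib

/-!
# ALL OF SIEGEL: places of the ring `TI k x`

`TI k x` is the integral closure of `k[x⁻¹]` in `Ω`. `Sep k x t`: `t` is in `TI k x` and there are three
homomorphisms of `TI k x` to a field which vanish at `x⁻¹`, agree on the elements algebraic over `k` and
take three different values at `t`.
-/

namespace Pool.Agent.H37.SI

open Polynomial

variable (k : Type*) {Ω : Type*} [Field k] [Field Ω] [Algebra k Ω]

/-- The integral closure of `k[x⁻¹]` in `Ω`. -/
noncomputable abbrev TI (x : Ω) : Subalgebra (Algebra.adjoin k {x⁻¹}) Ω :=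
  integralClosure (Algebra.adjoin k {x⁻¹}) Ω

/-- `t` in `TI k x` is separated by three homomorphisms over `x⁻¹ = 0` which agree on constants. -/
def Sep (x t : Ω) : Prop :=
  ∃ (Ω' : Type) (_ : Field Ω') (π : Fin 3 → (TI k x →+* Ω')) (t' : TI k x), (t' : Ω) = t ∧
    (∀ j, ∀ s : TI k x, (s : Ω) = x⁻¹ → π j s = 0) ∧
    (∀ j, ∀ s : TI k x, IsAlgebraic k (s : Ω) → π j s = π 0 s) ∧
    Function.Injective fun j => π j t'

end Pool.Agent.H37.SI
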