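import Mathlib

/-!
H37/SI/Scale [SCALE]: choice of the scale DD and of the degrees d_j = floor(DD/h_j).

PROOF. Take DD larger than L, 1, all 2 h_j and so large that sum_j log(DD/h_j + 1) ≤ nu DD (log is o(DD):
`Real.isLittleO_log_id_atTop`, for each j: log(DD/h_j + 1) ≤ nu DD/(M+1) eventually; filter atTop, finite intersection).
d j = floor(DD/h j) (Nat.floor): d j ≤ DD/h j < d j + 1; DD/h j ≥ 2 so d j ≥ 1 and d j ≥ DD/h j - 1 ≥ DD/(2 h j).
log(d j + 1) ≤ log(DD/h j + 1).
-/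

namespace H37SI

theorem scale (M : ℕ) (h : Fin M → ℝ) (hh : ∀ j, 0 < h j) (L nu : ℝ) (hnu : 0 < nu) :
    ∃ (DD : ℝ) (d : Fin M → ℕ), L ≤ DD ∧ 1 ≤ DD ∧ (∀ j, 1 ≤ d j) ∧ (∀ j, (d j : ℝ) * h j ≤ DD) ∧
      (∀ j, DD ≤ 2 * ((d j : ℝ) * h j)) ∧ (∀ j, DD / h j ≤ (d j : ℝ) + 1) ∧
      ∑ j, Real.log ((d j : ℝ) + 1) ≤ nu * DD := by
  have hM : (0 : ℝ) < (M : ℝ) + 1 := by positivity
  have hev : ∀ᶠ x : ℝ in Filter.atTop, ∀ j : Fin M,
      2 * h j ≤ x ∧ Real.log (x / h j + 1) ≤ nu / (M + 1) * x := by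
    rw [Filter.eventually_all]
    intro j
    have h1 : Filter.Tendsto (fun x : ℝ => x / h j + 1) Filter.atTop Filter.atTop :=
      Filter.tendsto_atTop_add_const_right _ _ (Filter.tendsto_id.atTop_div_const (hh j))
    have hc : 0 < nu * h j / (2 * ((M : ℝ) + 1)) := by have := hh j; positivity
    have h2 := (Real.isLittleO_log_id_atTop.comp_tendsto h1).def hc
    filter_upwards [h2, Filter.eventually_ge_atTop (2 * h j), Filter.eventually_gt_atTop 0] with x h3 h4 h5
    refine ⟨h4, ?_⟩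
    have hj := hh j
    have h6 : (0 : ℝ) < x / h j + 1 := by positivity
    simp only [Function.comp_apply, id_eq] at h3
    rw [Real.norm_eq_abs, Real.norm_eq_abs, abs_of_pos h6] at h3
    refine (le_abs_self _).trans (h3.trans ?_)
    have h7 : nu * h j / (2 * ((M : ℝ) + 1)) * (x / h j + 1) =
        nu / (2 * (M + 1)) * (x + h j) := by
      field_simp
    rw [h7]
    have h8 : nu / ((M : ℝ) + 1) * x = nu / (2 * (M + 1)) * (2 * x) := by
      field_simp
    rw [h8]
    refine mul_le_mul_of_nonneg_left ?_ (by positivity)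
    linarith
  obtain ⟨DD, hDD, h1, h2⟩ := (hev.and ((Filter.eventually_ge_atTop L).and
    (Filter.eventually_ge_atTop (1 : ℝ)))).exists
  have hlo : ∀ j, DD / h j < (⌊DD / h j⌋₊ : ℝ) + 1 := fun j => Nat.lt_floor_add_one _
  have hup : ∀ j, (⌊DD / h j⌋₊ : ℝ) ≤ DD / h j := fun j =>
    Nat.floor_le (div_nonneg (by linarith) (hh j).le)
  have h2D : ∀ j, 2 ≤ DD / h j := fun j => by
    rw [le_div_iff₀ (hh j)]
    exact (hDD j).1
  refine ⟨DD, fun j => ⌊DD / h j⌋₊, h1, h2, fun j => ?_, fun j => ?_, fun j => ?_, fun j => ?_, ?_⟩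
  · refine Nat.le_floor ?_
    have := h2D j
    push_cast
    linarith
  · have := hup j
    rwa [le_div_iff₀ (hh j)] at this
  · have h3 := hlo j
    have h4 := h2D j
    have h5 : DD / h j ≤ 2 * (⌊DD / h j⌋₊ : ℝ) := by linarith
    rw [div_le_iff₀ (hh j)] at h5
    linarith
  · exact (hlo j).le
  · calc ∑ j, Real.log ((⌊DD / h j⌋₊ : ℝ) + 1) ≤ ∑ _j : Fin M, nu / (M + 1) * DD := by
          refine Finset.sum_le_sum fun j _ => le_trans ?_ (hDD j).2
          exact Real.log_le_log (by positivity) (by linarith [hup j])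
      _ = (M : ℝ) / (M + 1) * (nu * DD) := by
          rw [Finset.sum_const, Finset.card_univ, Fintype.card_fin, nsmul_eq_mul]
          ring
      _ ≤ 1 * (nu * DD) := by
          refine mul_le_mul_of_nonneg_right ?_ (by positivity)
          rw [div_le_one hM]
          linarith
      _ = nu * DD := one_mul _

end H37SI
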