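import Pool.Agent.H37.SI.IntL

/-!
H37/SI/ZLow [ZLOW]: lower bound for a nonzero ZJ.

PROOF. The rational number ZJ times N = X^(d_w) * prod_l den(r_l)^(d_l) * (n^2 prod_l (X + c_l))^(J_w) * n^(2 sum_l J_l) is an
integer: consider one term e of the sum (e_j ≤ degreeOf ≤ d_j). F_e integer; r_l^(e_l) den^(d_l) integer;
n^(2 J_l) * coeff (J_l) (b^(e_l)) integer (bs_int, IntS_pow); the last coefficient is
sum over i + k = J_w of [binom(e_w, i) (1/X)^(e_w - i)] * [coefficient k of prod_l (rescale ct_l b)^(e_l)]: the first bracket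
times X^(d_w) is an integer; P = prod_l (X + c_l) (integer): (P * ct_l) is an integer (ct_l = c_l X/(X + c_l)), so
rescale ct_l b is IntS (n^2 * P) (IntS_rescale) and so are powers and products; so the second bracket times (n^2 P)^k is an
integer, hence times (n^2 P)^(J_w), k ≤ J_w. A nonzero integer has absolute value at least 1; cast to the reals.
-/

namespace H37SI

open MvPolynomial H4AR

/-- a rational number that is an integer -/
def IsI (q : ℚ) : Prop := ∃ z : ℤ, q = z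

theorem IsI.mul {p q : ℚ} (hp : IsI p) (hq : IsI q) : IsI (p * q) := by
  obtain ⟨a, rfl⟩ := hp
  obtain ⟨b, rfl⟩ := hq
  exact ⟨a * b, by push_cast; ring⟩

theorem IsI.sum {ι : Type} {s : Finset ι} {f : ι → ℚ} (h : ∀ i ∈ s, IsI (f i)) : IsI (∑ i ∈ s, f i) := by
  classical
  induction s using Finset.induction_on with
  | empty => exact ⟨0, by simp⟩
  | insert a s ha ih =>
    rw [Finset.sum_insert ha]
    obtain ⟨x, hx⟩ := h a (Finset.mem_insert_self _ _)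
    obtain ⟨y, hy⟩ := ih fun i hi => h i (Finset.mem_insert_of_mem hi)
    exact ⟨x + y, by rw [hx, hy]; push_cast; ring⟩

theorem IsI.prod {ι : Type} {s : Finset ι} {f : ι → ℚ} (h : ∀ i ∈ s, IsI (f i)) : IsI (∏ i ∈ s, f i) := by
  classical
  induction s using Finset.induction_on with
  | empty => exact ⟨1, by simp⟩
  | insert a s ha ih =>
    rw [Finset.prod_insert ha]
    exact (h a (Finset.mem_insert_self _ _)).mul (ih fun i hi => h i (Finset.mem_insert_of_mem hi))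

theorem zlow_a (r : ℚ) (e d : ℕ) (h : e ≤ d) : IsI ((r.den : ℚ) ^ d * r ^ e) := by
  have hd : (r.den : ℚ) ≠ 0 := by exact_mod_cast r.den_nz
  refine ⟨(r.den : ℤ) ^ (d - e) * r.num ^ e, ?_⟩
  have h1 : (r.den : ℚ) * r = r.num := by
    rw [mul_comm]
    exact Rat.mul_den_eq_num r
  have h2 : d = (d - e) + e := by omega
  conv_lhs => rw [h2]
  rw [pow_add, mul_assoc, ← mul_pow, h1]
  push_cast
  ring

theorem zlow_b (n : ℕ) (hn : 1 ≤ n) (e J : ℕ) :
    IsI ((n : ℚ) ^ (2 * J) * PowerSeries.coeff J ((bs n) ^ e)) := by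
  obtain ⟨z, hz⟩ := IntS_pow (bs_int n hn) e J
  exact ⟨z, by rw [pow_mul]; exact hz⟩

theorem zlow_lin (N : ℚ) (hN : IsI N) (X : ℕ) :
    IntS N (1 + PowerSeries.C (X : ℚ) * PowerSeries.X) := by
  intro k
  rcases k with _ | _ | k
  · exact ⟨1, by simp⟩
  · obtain ⟨z, rfl⟩ := hN
    refine ⟨z * X, ?_⟩
    rw [map_add, PowerSeries.coeff_C_mul, PowerSeries.coeff_one_X, PowerSeries.coeff_one]
    simp
  · refine ⟨0, ?_⟩
    rw [map_add, PowerSeries.coeff_C_mul, PowerSeries.coeff_X, PowerSeries.coeff_one]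
    simp

theorem zlow_c (N : ℚ) (hN : IsI N) (X : ℕ) (hX : 1 ≤ X) (e d J : ℕ) (h : e ≤ d) (Q : PowerSeries ℚ)
    (hQ : IntS N Q) :
    IsI ((X : ℚ) ^ d * N ^ J *
      PowerSeries.coeff J ((PowerSeries.C ((X : ℚ)⁻¹) + PowerSeries.X) ^ e * Q)) := by
  have hX0 : (X : ℚ) ≠ 0 := by
    have : X ≠ 0 := by omega
    exact_mod_cast this
  have h1 : (PowerSeries.C ((X : ℚ)⁻¹) + PowerSeries.X : PowerSeries ℚ) =
      PowerSeries.C ((X : ℚ)⁻¹) * (1 + PowerSeries.C (X : ℚ) * PowerSeries.X) := by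
    rw [mul_add, mul_one, ← mul_assoc, ← map_mul, inv_mul_cancel₀ hX0, map_one, one_mul]
  have h2 : PowerSeries.coeff J ((PowerSeries.C ((X : ℚ)⁻¹) + PowerSeries.X) ^ e * Q) =
      ((X : ℚ)⁻¹) ^ e *
        PowerSeries.coeff J ((1 + PowerSeries.C (X : ℚ) * PowerSeries.X) ^ e * Q) := by
    rw [h1, mul_pow, ← map_pow, mul_assoc, PowerSeries.coeff_C_mul]
  obtain ⟨z, hz⟩ := IntS_mul (IntS_pow (zlow_lin N hN X) e) hQ J
  refine ⟨(X : ℤ) ^ (d - e) * z, ?_⟩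
  rw [h2]
  have h3 : d = (d - e) + e := by omega
  conv_lhs => rw [h3]
  rw [pow_add]
  push_cast
  rw [← hz]
  have h4 : (X : ℚ) ^ e * ((X : ℚ)⁻¹) ^ e = 1 := by
    rw [← mul_pow, mul_inv_cancel₀ hX0, one_pow]
  calc (X : ℚ) ^ (d - e) * (X : ℚ) ^ e * N ^ J * (((X : ℚ)⁻¹) ^ e *
        PowerSeries.coeff J ((1 + PowerSeries.C (X : ℚ) * PowerSeries.X) ^ e * Q))
      = (X : ℚ) ^ (d - e) * ((X : ℚ) ^ e * ((X : ℚ)⁻¹) ^ e) * (N ^ J *
        PowerSeries.coeff J ((1 + PowerSeries.C (X : ℚ) * PowerSeries.X) ^ e * Q)) := by ring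
    _ = _ := by rw [h4, mul_one]

theorem zlow_ct {m : ℕ} (X : ℕ) (c : Fin m → ℤ) (hc : ∀ l, 0 < (X : ℤ) + c l) (l : Fin m) :
    IsI ((∏ k : Fin m, ((X : ℚ) + c k)) * ct X c l) := by
  classical
  have h0 : ((X : ℚ) + c l) ≠ 0 := by
    have := (hc l).ne'
    exact_mod_cast this
  refine ⟨(∏ k ∈ Finset.univ.erase l, ((X : ℤ) + c k)) * (c l * X), ?_⟩
  rw [← Finset.mul_prod_erase Finset.univ (fun k => (X : ℚ) + c k) (Finset.mem_univ l)]
  unfold ct
  push_cast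
  field_simp

theorem Z_lower {m : ℕ} (n X : ℕ) (hn : 1 ≤ n) (hX : 1 ≤ X) (c : Fin m → ℤ) (hc : ∀ l, 0 < (X : ℤ) + c l)
    (r : Fin m → ℚ) (F : MvPolynomial (Fin (m + 1)) ℤ) (d : Fin (m + 1) → ℕ) (hdeg : ∀ j, F.degreeOf j ≤ d j)
    (J : Fin (m + 1) →₀ ℕ) (hne : ZJ n X c r F J ≠ 0) :
    1 ≤ |((ZJ n X c r F J : ℚ) : ℝ)| *
      ((X : ℝ) ^ (d (Fin.last m)) * (∏ l : Fin m, (((r l).den : ℕ) : ℝ) ^ (d l.castSucc)) *
        ((n : ℝ) ^ 2 * ∏ l : Fin m, ((X : ℝ) + c l)) ^ (J (Fin.last m)) *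
        (n : ℝ) ^ (2 * ∑ l : Fin m, J l.castSucc)) := by
  classical
  set P : ℚ := ∏ l : Fin m, ((X : ℚ) + c l) with hP
  have hPI : IsI P := IsI.prod fun l _ => ⟨(X : ℤ) + c l, by push_cast; ring⟩
  have hNI : IsI ((n : ℚ) ^ 2 * P) := IsI.mul ⟨(n : ℤ) ^ 2, by push_cast; ring⟩ hPI
  set NQ : ℚ := (X : ℚ) ^ (d (Fin.last m)) * (∏ l : Fin m, ((r l).den : ℚ) ^ (d l.castSucc)) *
    ((n : ℚ) ^ 2 * P) ^ (J (Fin.last m)) * (n : ℚ) ^ (2 * ∑ l : Fin m, J l.castSucc) with hNQ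
  have hint : IsI (NQ * ZJ n X c r F J) := by
    unfold ZJ
    rw [Finset.mul_sum]
    refine IsI.sum fun e he => ?_
    have hed : ∀ j, e j ≤ d j := fun j => (MvPolynomial.monomial_le_degreeOf _ he).trans (hdeg _)
    have h1 : IsI (∏ l : Fin m, ((((r l).den : ℚ) ^ (d l.castSucc) * r l ^ (e l.castSucc)) *
        ((n : ℚ) ^ (2 * J l.castSucc) * PowerSeries.coeff (J l.castSucc) ((bs n) ^ (e l.castSucc))))) :=
      IsI.prod fun l _ => (zlow_a _ _ _ (hed _)).mul (zlow_b n hn _ _)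
    have h2 := zlow_c ((n : ℚ) ^ 2 * P) hNI X hX (e (Fin.last m)) (d (Fin.last m)) (J (Fin.last m))
      (hed _) (∏ l : Fin m, (PowerSeries.rescale (ct X c l) (bs n)) ^ (e l.castSucc))
      (IntS_prod _ _ fun l _ => IntS_pow (IntS_rescale (bs_int n hn) (zlow_ct X c hc l)) _)
    have h3 := (IsI.mul ⟨F.coeff e, rfl⟩ h1).mul h2
    have h4 : (n : ℚ) ^ (2 * ∑ l : Fin m, J l.castSucc) = ∏ l : Fin m, (n : ℚ) ^ (2 * J l.castSucc) := by
      rw [Finset.mul_sum, Finset.prod_pow_eq_pow_sum]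
    have h5 : NQ * (((F.coeff e : ℤ) : ℚ) *
        (∏ l : Fin m, (r l ^ (e l.castSucc) * PowerSeries.coeff (J l.castSucc) ((bs n) ^ (e l.castSucc)))) *
        PowerSeries.coeff (J (Fin.last m)) ((PowerSeries.C ((X : ℚ)⁻¹) + PowerSeries.X) ^ (e (Fin.last m)) *
          ∏ l : Fin m, (PowerSeries.rescale (ct X c l) (bs n)) ^ (e l.castSucc))) =
        (((F.coeff e : ℤ) : ℚ) * ∏ l : Fin m, ((((r l).den : ℚ) ^ (d l.castSucc) * r l ^ (e l.castSucc)) *
        ((n : ℚ) ^ (2 * J l.castSucc) * PowerSeries.coeff (J l.castSucc) ((bs n) ^ (e l.castSucc))))) *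
        ((X : ℚ) ^ (d (Fin.last m)) * ((n : ℚ) ^ 2 * P) ^ (J (Fin.last m)) *
          PowerSeries.coeff (J (Fin.last m)) ((PowerSeries.C ((X : ℚ)⁻¹) + PowerSeries.X) ^ (e (Fin.last m)) *
          ∏ l : Fin m, (PowerSeries.rescale (ct X c l) (bs n)) ^ (e l.castSucc))) := by
      rw [hNQ, h4, Finset.prod_mul_distrib, Finset.prod_mul_distrib, Finset.prod_mul_distrib,
        Finset.prod_mul_distrib]
      ring
    rw [h5]
    exact h3
  have hNQ0 : NQ ≠ 0 := by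
    have hX0 : (X : ℚ) ≠ 0 := by exact_mod_cast (by omega : X ≠ 0)
    have hn0 : (n : ℚ) ≠ 0 := by exact_mod_cast (by omega : n ≠ 0)
    have hP0 : P ≠ 0 := by
      rw [hP]
      refine Finset.prod_ne_zero_iff.2 fun l _ => ?_
      have := (hc l).ne'
      exact_mod_cast this
    have hd0 : (∏ l : Fin m, ((r l).den : ℚ) ^ (d l.castSucc)) ≠ 0 :=
      Finset.prod_ne_zero_iff.2 fun l _ => pow_ne_zero _ (by exact_mod_cast (r l).den_nz)
    rw [hNQ]
    exact mul_ne_zero (mul_ne_zero (mul_ne_zero (pow_ne_zero _ hX0) hd0)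
      (pow_ne_zero _ (mul_ne_zero (pow_ne_zero _ hn0) hP0))) (pow_ne_zero _ hn0)
  have hNQpos : (0 : ℝ) < (NQ : ℝ) := by
    have : 0 < NQ := by
      have hP0 : 0 < P := by
        rw [hP]
        refine Finset.prod_pos fun l _ => ?_
        have := hc l
        exact_mod_cast this
      have hn0 : (0 : ℚ) < n := by exact_mod_cast (by omega : 0 < n)
      have hX0 : (0 : ℚ) < X := by exact_mod_cast (by omega : 0 < X)
      have hd0 : 0 < (∏ l : Fin m, ((r l).den : ℚ) ^ (d l.castSucc)) :=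
        Finset.prod_pos fun l _ => pow_pos (by exact_mod_cast (r l).den_pos) _
      rw [hNQ]
      positivity
    exact_mod_cast this
  obtain ⟨z, hz⟩ := hint
  have hz0 : z ≠ 0 := by
    rintro rfl
    rw [Int.cast_zero] at hz
    exact (mul_ne_zero hNQ0 hne) hz
  have h1 : (1 : ℝ) ≤ |(z : ℝ)| := by exact_mod_cast Int.one_le_abs hz0
  have h2 : (z : ℝ) = (NQ : ℝ) * ((ZJ n X c r F J : ℚ) : ℝ) := by
    have := congrArg (fun q : ℚ => (q : ℝ)) hz
    simp only [Rat.cast_mul, Rat.cast_intCast] at this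
    exact this.symm
  rw [h2, abs_mul, abs_of_pos hNQpos, mul_comm] at h1
  refine h1.trans (le_of_eq ?_)
  congr 1
  rw [hNQ, hP]
  push_cast
  rfl

end H37SI
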