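import Pool.Agent.H37.SI.Bin

/-!
H37/SI/TK [TK]: bound for the coefficients of (y b - xi)^K, b = bsR n.

PROOF. C y * b - C xi = C (y - xi) + C y * (b - 1), so (binomial theorem) coefficient j of the K-th power is
sum over s ≤ K of binom(K,s) (y-xi)^(K-s) y^s * [coefficient j of (b-1)^s].
b - 1 has constant term 0 (bs_const) and all coefficients of absolute value ≤ 1 (bsR_abs). So |coefficient j of (b-1)^s| is
0 for s > j (X^s divides (b-1)^s) and at most binom(j-1, s-1) ≤ 2^j in general. Simplest: by induction on s,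
|coeff j ((b-1)^s)| ≤ coeff j of (X * (1/(1-X)))^s ; or: the claim |coeff j ((b-1)^s)| ≤ binom(j,s) by induction on s:
coeff j ((b-1)^(s+1)) = sum over i + k = j, k ≥ 1, of coeff i ((b-1)^s) * coeff k (b-1), so |.| ≤ sum_{i<j} binom(i,s) =
binom(j,s+1) (`Finset.sum_range_choose`-type identity, `Nat.sum_range_choose_...`, hockey stick) ≤ 2^j. This bound is 0 for s > j.
So the total is at most sum_{s ≤ min(K,j)} binom(K,s) exp(-g(K-s)) Y^s 2^j ≤ 2^K (2Y)^j exp(-gK + gj), using s ≤ j, g ≥ 0,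
Y ≥ 1.
-/

namespace H37SI

private theorem tk_hockey (s j : ℕ) : ∑ i ∈ Finset.range j, (i.choose s : ℝ) = (j.choose (s + 1) : ℝ) := by
  induction j with
  | zero => simp
  | succ j ih =>
    rw [Finset.sum_range_succ, ih, Nat.choose_succ_succ]
    push_cast
    ring

private theorem tk_pow (b : PowerSeries ℝ) (h0 : PowerSeries.coeff 0 b = 0) (hb : ∀ k, |PowerSeries.coeff k b| ≤ 1)
    (s j : ℕ) : |PowerSeries.coeff j (b ^ s)| ≤ (j.choose s : ℝ) := by
  induction s generalizing j with
  | zero =>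
    rw [pow_zero, PowerSeries.coeff_one, Nat.choose_zero_right, Nat.cast_one]
    split_ifs
    · rw [abs_one]
    · rw [abs_zero]
      exact zero_le_one
  | succ s ih =>
    rw [pow_succ, PowerSeries.coeff_mul, Finset.Nat.sum_antidiagonal_eq_sum_range_succ_mk, Finset.sum_range_succ,
      Nat.sub_self, h0, mul_zero, add_zero, ← tk_hockey]
    refine (Finset.abs_sum_le_sum_abs _ _).trans (Finset.sum_le_sum fun i _ => ?_)
    rw [abs_mul]
    calc |PowerSeries.coeff i (b ^ s)| * |PowerSeries.coeff (j - i) b| ≤ (i.choose s : ℝ) * 1 :=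
          mul_le_mul (ih i) (hb _) (abs_nonneg _) (by positivity)
      _ = _ := mul_one _

theorem tk_bound (n : ℕ) (hn : 1 ≤ n) (y xi g Y : ℝ) (hg : 0 ≤ g) (hY : 1 ≤ Y) (hy : |y| ≤ Y)
    (hyx : |y - xi| ≤ Real.exp (-g)) (K j : ℕ) :
    |PowerSeries.coeff j ((PowerSeries.C y * bsR n - PowerSeries.C xi) ^ K)| ≤
      2 ^ K * (2 * Y) ^ j * Real.exp (-(g * K) + g * j) := by
  obtain ⟨b, hb⟩ : ∃ b : PowerSeries ℝ, b = bsR n - 1 := ⟨_, rfl⟩
  have hb0 : PowerSeries.coeff 0 b = 0 := by
    rw [hb, map_sub, bsR_coeff, PowerSeries.coeff_zero_eq_constantCoeff_apply,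
      PowerSeries.coeff_zero_eq_constantCoeff_apply, bs_const, map_one]
    simp
  have hbk : ∀ k, |PowerSeries.coeff k b| ≤ 1 := by
    intro k
    rcases Nat.eq_zero_or_pos k with h | h
    · rw [h, hb0, abs_zero]
      exact zero_le_one
    · rw [hb, map_sub, PowerSeries.coeff_one, if_neg h.ne', sub_zero]
      exact bsR_abs n hn k
  have h1 : PowerSeries.C y * bsR n - PowerSeries.C xi = PowerSeries.C y * b + PowerSeries.C (y - xi) := by
    rw [hb, map_sub]
    ring
  have h2 : ∀ s ∈ Finset.range (K + 1), |PowerSeries.coeff j ((PowerSeries.C y * b) ^ s *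
      PowerSeries.C (y - xi) ^ (K - s) * (K.choose s : PowerSeries ℝ))| ≤
      (K.choose s : ℝ) * ((2 * Y) ^ j * Real.exp (-(g * K) + g * j)) := by
    intro s hs
    have hsK : s ≤ K := Nat.lt_succ_iff.1 (Finset.mem_range.1 hs)
    have h3 : (PowerSeries.C y * b) ^ s * PowerSeries.C (y - xi) ^ (K - s) * (K.choose s : PowerSeries ℝ) =
        PowerSeries.C ((K.choose s : ℝ) * (y ^ s * (y - xi) ^ (K - s))) * b ^ s := by
      rw [mul_pow, map_mul, map_mul, map_pow, map_pow, map_natCast]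
      ring
    rw [h3, PowerSeries.coeff_C_mul, abs_mul, abs_mul, abs_mul, abs_pow, abs_pow, Nat.abs_cast, mul_assoc]
    refine mul_le_mul_of_nonneg_left ?_ (Nat.cast_nonneg _)
    have h4 := tk_pow b hb0 hbk s j
    rcases Nat.lt_or_ge j s with hjs | hjs
    · rw [Nat.choose_eq_zero_of_lt hjs, Nat.cast_zero] at h4
      have h5 : |PowerSeries.coeff j (b ^ s)| = 0 := le_antisymm h4 (abs_nonneg _)
      rw [h5, mul_zero]
      positivity
    · have h5 : |PowerSeries.coeff j (b ^ s)| ≤ 2 ^ j := by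
        refine h4.trans ?_
        exact_mod_cast Nat.choose_le_two_pow j s
      have h6 : |y| ^ s ≤ Y ^ j :=
        (pow_le_pow_left₀ (abs_nonneg _) hy s).trans (pow_le_pow_right₀ hY hjs)
      have h7 : |y - xi| ^ (K - s) ≤ Real.exp (-(g * K) + g * j) := by
        refine (pow_le_pow_left₀ (abs_nonneg _) hyx _).trans ?_
        rw [← Real.exp_nat_mul, Real.exp_le_exp, Nat.cast_sub hsK]
        have h8 : (s : ℝ) ≤ j := by exact_mod_cast hjs
        nlinarith [mul_le_mul_of_nonneg_left h8 hg]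
      calc |y| ^ s * |y - xi| ^ (K - s) * |PowerSeries.coeff j (b ^ s)|
          ≤ Y ^ j * Real.exp (-(g * K) + g * j) * 2 ^ j := by
            refine mul_le_mul (mul_le_mul h6 h7 (by positivity) (by positivity)) h5 (abs_nonneg _) (by positivity)
        _ = (2 * Y) ^ j * Real.exp (-(g * K) + g * j) := by
            rw [mul_pow]
            ring
  rw [h1, add_pow, map_sum]
  refine (Finset.abs_sum_le_sum_abs _ _).trans ((Finset.sum_le_sum h2).trans (le_of_eq ?_))
  rw [← Finset.sum_mul]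
  have h3 : ∑ s ∈ Finset.range (K + 1), (K.choose s : ℝ) = 2 ^ K := by
    exact_mod_cast Nat.sum_range_choose K
  rw [h3]
  ring

end H37SI
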