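import Pool.Agent.H37.SI.ZForm
import Pool.Agent.H37.SI.TK
import Pool.Agent.H37.SI.GKn

/-!
H37/SI/ZUp [ZUP]: upper bound for ZJ when the coefficients of the G_K vanish in the region k g0 + sum K_l g_l < T.

PROOF. w0 = 1/X, y_l = r_l/(1 + c_l/X)^(1/n). Z_formula (8|c_l| ≤ 8A ≤ X). For K ≤ d:
(1) tk_bound with Y = 2 Xi (|y_l| ≤ xi + 1 ≤ 2 Xi): the product over l is at most
2^(sum K_l) (4 Xi)^(sum J_l) exp(-sum g_l K_l + sum g_l J_l), and (4 Xi)^(sum J_l) ≤ (4 Xi)^(sum d_l) as J_l ≤ d_l.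
(2) coeff_Sh_le: |coefficient J_w of Sh w0 G_K| ≤ X^(J_w) Nm (2 w0) G_K (GK_cv: |c_l| 2 w0 ≤ 1/4). Let
E = T - sum K_l g_l. By hvan the coefficient k of G_K is 0 unless k g0 ≥ E. GK_bound: Nm (2 w0) G_K ≤
L sum over k with k g0 ≥ E of (4A/X)^k, L = l1 F (4 Xi)^(sum d). 4A/X ≤ 1/2 and 4A/X ≤ exp(-g0). If k1 is the least k with
k g0 ≥ E (or if there is none, the norm is 0): sum ≤ 2 (4A/X)^(k1) ≤ 2 exp(-g0 k1) ≤ 2 exp(-E). So Nm ≤ 2 L exp(-E) in all
cases (if E ≤ 0 then k1 = 0 and 1 ≤ exp(-E)).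
(3) Sum over K ≤ d: exp(-sum g_l K_l) exp(-E) = exp(-T). sum over K of 2^(sum K_l) = prod_l (2^(d_l+1) - 1) ≤ 2^m 2^(sum d_l).
Total ≤ exp(-T + sum g_l J_l) X^(J_w) * 2 l1 F (4 Xi)^(sum d) (4 Xi)^(sum d) 2^m 2^(sum d) and
2^(sum d) (4 Xi)^(2 sum d) = (32 Xi^2)^(sum d).
-/

namespace H37SI

open MvPolynomial H4AR

/-- the norm of a series with vanishing first coefficients -/
theorem zup_Nm (p : PowerSeries ℝ) (s rho L0 g0 E : ℝ) (hs : 0 ≤ s) (hL : 0 ≤ L0) (hrho0 : 0 ≤ rho)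
    (hrho : rho ≤ 1 / 2) (hrg : rho ≤ Real.exp (-g0))
    (hb : ∀ k : ℕ, |PowerSeries.coeff k p| * s ^ k ≤ L0 * rho ^ k)
    (hv : ∀ k : ℕ, (k : ℝ) * g0 < E → PowerSeries.coeff k p = 0) :
    Nm s p ≤ 2 * L0 * Real.exp (-E) := by
  have hE := Real.exp_pos (-E)
  have hnn : ∀ k : ℕ, 0 ≤ |PowerSeries.coeff k p| * s ^ k := fun k => by positivity
  by_cases hex : ∃ k : ℕ, E ≤ (k : ℝ) * g0
  · classical
    obtain ⟨k1, hk1, hmin⟩ : ∃ k1 : ℕ, E ≤ (k1 : ℝ) * g0 ∧ ∀ k < k1, (k : ℝ) * g0 < E :=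
      ⟨Nat.find hex, Nat.find_spec hex, fun k hk => not_le.1 (Nat.find_min hex hk)⟩
    have hsum : Summable fun k : ℕ => |PowerSeries.coeff k p| * s ^ k := by
      refine Summable.of_nonneg_of_le hnn hb ?_
      exact (summable_geometric_of_lt_one hrho0 (by linarith)).mul_left L0
    have h0 : ∑ k ∈ Finset.range k1, |PowerSeries.coeff k p| * s ^ k = 0 := by
      refine Finset.sum_eq_zero fun k hk => ?_
      rw [hv k (hmin k (Finset.mem_range.1 hk)), abs_zero, zero_mul]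
    have h1 := hsum.sum_add_tsum_nat_add k1
    rw [h0, zero_add] at h1
    unfold Nm
    rw [← h1]
    have hgeo : HasSum (fun j : ℕ => L0 * Real.exp (-E) * (1 / 2 : ℝ) ^ j) (L0 * Real.exp (-E) * 2) :=
      hasSum_geometric_two.mul_left _
    have h2 : ∑' j : ℕ, |PowerSeries.coeff (j + k1) p| * s ^ (j + k1) ≤ L0 * Real.exp (-E) * 2 := by
      rw [← hgeo.tsum_eq]
      refine Summable.tsum_le_tsum ?_ ((summable_nat_add_iff k1).2 hsum) hgeo.summable
      intro j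
      refine (hb _).trans ?_
      rw [mul_assoc]
      apply mul_le_mul_of_nonneg_left _ hL
      rw [pow_add, mul_comm]
      have h3 : rho ^ k1 ≤ Real.exp (-E) := by
        calc rho ^ k1 ≤ Real.exp (-g0) ^ k1 := pow_le_pow_left₀ hrho0 hrg k1
          _ = Real.exp (k1 * (-g0)) := by rw [Real.exp_nat_mul]
          _ ≤ Real.exp (-E) := by
              apply Real.exp_le_exp.2
              linarith
      exact mul_le_mul h3 (pow_le_pow_left₀ hrho0 hrho j) (by positivity) hE.le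
    linarith
  · push Not at hex
    have h0 : Nm s p = 0 := by
      unfold Nm
      have : (fun k : ℕ => |PowerSeries.coeff k p| * s ^ k) = fun _ => 0 := by
        funext k
        rw [hv k (hex k), abs_zero, zero_mul]
      rw [this, tsum_zero]
    rw [h0]
    positivity

/-- the sum over `K` -/
theorem zup_sum {m : ℕ} (D : Fin m → ℕ) :
    ∑ K ∈ Fintype.piFinset (fun l : Fin m => Finset.range (D l + 1)), (2 : ℝ) ^ (∑ l, K l) ≤
      2 ^ m * 2 ^ (∑ l, D l) := by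
  have h1 : ∀ K : Fin m → ℕ, (2 : ℝ) ^ (∑ l, K l) = ∏ l, (2 : ℝ) ^ (K l) := fun K =>
    (Finset.prod_pow_eq_pow_sum _ _ _).symm
  rw [Finset.sum_congr rfl fun K _ => h1 K,
    ← Finset.prod_univ_sum (fun l : Fin m => Finset.range (D l + 1)) (fun _ k => (2 : ℝ) ^ k)]
  have h2 : (2 : ℝ) ^ m * 2 ^ (∑ l, D l) = ∏ l : Fin m, 2 ^ (D l + 1) := by
    rw [Finset.prod_pow_eq_pow_sum, Finset.sum_add_distrib, pow_add]
    simp [mul_comm]
  rw [h2]
  apply Finset.prod_le_prod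
  · intro l _
    positivity
  · intro l _
    have h3 := geom_sum_eq (show (2 : ℝ) ≠ 1 by norm_num) (D l + 1)
    rw [h3]
    have : (2 : ℝ) - 1 = 1 := by norm_num
    rw [this, div_one]
    linarith

theorem Z_upper {m : ℕ} (n X : ℕ) (hn : 1 ≤ n) (hX : 1 ≤ X) (c : Fin m → ℤ) (A : ℝ) (hA : 1 ≤ A)
    (hAX : 8 * A ≤ X) (hc : ∀ l, |(c l : ℝ)| ≤ A) (r : Fin m → ℚ) (F : MvPolynomial (Fin (m + 1)) ℤ)
    (d : Fin (m + 1) → ℕ) (hdeg : ∀ j, F.degreeOf j ≤ d j) (J : Fin (m + 1) →₀ ℕ)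
    (hJ : ∀ l : Fin m, J l.castSucc ≤ d l.castSucc) (xi Xi : ℝ) (hxi : 0 < xi) (hXi : 1 ≤ Xi) (hxX : xi ≤ Xi)
    (g : Fin m → ℝ) (hg : ∀ l, 0 ≤ g l)
    (hy : ∀ l, |(r l : ℝ) / (1 + (c l : ℝ) / X) ^ ((1 : ℝ) / n) - xi| ≤ Real.exp (-(g l))) (g0 : ℝ)
    (hg0 : 0 ≤ g0) (hg0X : Real.exp g0 * (4 * A) ≤ X) (T : ℝ)
    (hvan : ∀ (K : Fin m → ℕ) (k : ℕ), (k : ℝ) * g0 + ∑ l, (K l : ℝ) * g l < T →
      PowerSeries.coeff k (GK n c xi F K) = 0) :
    |((ZJ n X c r F J : ℚ) : ℝ)| ≤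
      2 ^ (m + 1) * (32 * Xi ^ 2) ^ (∑ l : Fin m, d l.castSucc) * l1 F * (X : ℝ) ^ (J (Fin.last m)) *
        Real.exp (-T + ∑ l : Fin m, (J l.castSucc : ℝ) * g l) := by
  have hXr : (1 : ℝ) ≤ X := by exact_mod_cast hX
  have hX0 : (0 : ℝ) < X := by linarith
  have hA0 : 0 < A := by linarith
  have hc8 : ∀ l, 8 * |(c l : ℝ)| ≤ X := fun l => (mul_le_mul_of_nonneg_left (hc l) (by norm_num)).trans hAX
  rw [Z_formula n X hn hX c hc8 r F d hdeg J xi hxi]
  refine (Finset.abs_sum_le_sum_abs _ _).trans ?_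
  have hl1 : 0 ≤ l1 F := l1_nonneg F
  set SD : ℕ := ∑ l : Fin m, d l.castSucc with hSD
  set SJ : ℕ := ∑ l : Fin m, J l.castSucc with hSJ
  have hSJD : SJ ≤ SD := Finset.sum_le_sum fun l _ => hJ l
  set L0 : ℝ := l1 F * (4 * Xi) ^ SD with hL0
  have hL00 : 0 ≤ L0 := by positivity
  have h4X : 1 ≤ 4 * Xi := by linarith
  have hrho : 4 * A / X ≤ 1 / 2 := by
    rw [div_le_iff₀ hX0]
    linarith
  have hrho0 : 0 ≤ 4 * A / X := by positivity
  have hrg : 4 * A / X ≤ Real.exp (-g0) := by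
    rw [div_le_iff₀ hX0, Real.exp_neg, inv_mul_eq_div, le_div_iff₀ (Real.exp_pos _)]
    linarith
  have hw0 : (0 : ℝ) < (X : ℝ)⁻¹ := by positivity
  -- one factor
  have hone : ∀ K : Fin m → ℕ, |∏ l : Fin m, PowerSeries.coeff (J l.castSucc)
          ((PowerSeries.C ((r l : ℝ) / (1 + (c l : ℝ) / X) ^ ((1 : ℝ) / n)) * bsR n -
            PowerSeries.C xi) ^ (K l))| ≤
      2 ^ (∑ l, K l) * (4 * Xi) ^ SD * Real.exp (-(∑ l, (K l : ℝ) * g l) + ∑ l, (J l.castSucc : ℝ) * g l) := by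
    intro K
    rw [Finset.abs_prod]
    have h1 : ∏ l : Fin m, |PowerSeries.coeff (J l.castSucc)
          ((PowerSeries.C ((r l : ℝ) / (1 + (c l : ℝ) / X) ^ ((1 : ℝ) / n)) * bsR n -
            PowerSeries.C xi) ^ (K l))| ≤
        ∏ l : Fin m, (2 ^ K l * (2 * (2 * Xi)) ^ (J l.castSucc) *
          Real.exp (-(g l * K l) + g l * (J l.castSucc : ℕ))) := by
      apply Finset.prod_le_prod
      · intro l _
        exact abs_nonneg _
      · intro l _
        refine tk_bound n hn _ xi (g l) (2 * Xi) (hg l) (by linarith) ?_ (hy l) (K l) (J l.castSucc)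
        have h2 := hy l
        have h3 : Real.exp (-(g l)) ≤ 1 := Real.exp_le_one_iff.2 (by linarith [hg l])
        have h4 := abs_sub_abs_le_abs_sub ((r l : ℝ) / (1 + (c l : ℝ) / X) ^ ((1 : ℝ) / n)) xi
        rw [abs_of_pos hxi] at h4
        linarith
    refine h1.trans (le_of_eq_of_le ?_ (mul_le_mul_of_nonneg_right (mul_le_mul_of_nonneg_left
      (pow_le_pow_right₀ h4X hSJD) (by positivity)) (Real.exp_pos _).le))
    rw [Finset.prod_mul_distrib, Finset.prod_mul_distrib, Finset.prod_pow_eq_pow_sum,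
      Finset.prod_pow_eq_pow_sum, ← Real.exp_sum, Finset.sum_add_distrib, Finset.sum_neg_distrib]
    have e1 : (2 : ℝ) * (2 * Xi) = 4 * Xi := by ring
    have e2 : ∑ l : Fin m, g l * (K l : ℝ) = ∑ l, (K l : ℝ) * g l :=
      Finset.sum_congr rfl fun l _ => mul_comm _ _
    have e3 : ∑ l : Fin m, g l * ((J l.castSucc : ℕ) : ℝ) = ∑ l, (J l.castSucc : ℝ) * g l :=
      Finset.sum_congr rfl fun l _ => mul_comm _ _
    rw [e1, e2, e3]
  -- the other factor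
  have htwo : ∀ K : Fin m → ℕ, |PowerSeries.coeff (J (Fin.last m)) (Sh ((X : ℝ)⁻¹) (GK n c xi F K))| ≤
      (X : ℝ) ^ (J (Fin.last m)) * (2 * L0 * Real.exp (-(T - ∑ l, (K l : ℝ) * g l))) := by
    intro K
    have hcv : Cv (2 * (X : ℝ)⁻¹) (GK n c xi F K) := by
      refine GK_cv n hn c _ (by positivity) ?_ xi F K
      intro l
      have h1 := hc8 l
      rw [← mul_assoc, ← div_eq_mul_inv, div_le_iff₀ hX0]
      have := abs_nonneg (c l : ℝ)
      linarith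
    have h1 := coeff_Sh_le hw0 hcv (J (Fin.last m))
    have h2 := zup_Nm (GK n c xi F K) (2 * (X : ℝ)⁻¹) (4 * A / X) L0 g0 (T - ∑ l, (K l : ℝ) * g l)
      (by positivity) hL00 hrho0 hrho hrg (by
        intro k
        have h3 := GK_bound n hn c A hA hc xi Xi hxi.le hXi hxX F d hdeg K k
        calc |PowerSeries.coeff k (GK n c xi F K)| * (2 * (X : ℝ)⁻¹) ^ k
            ≤ (l1 F * (4 * Xi) ^ SD * (2 * A) ^ k) * (2 * (X : ℝ)⁻¹) ^ k :=
              mul_le_mul_of_nonneg_right h3 (by positivity)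
          _ = L0 * (4 * A / X) ^ k := by
              rw [hL0, mul_assoc, ← mul_pow]
              congr 2
              rw [div_eq_mul_inv]
              ring) (by
        intro k hk
        exact hvan K k (by linarith))
    have h3 := h1.trans h2
    rw [inv_pow, ← div_eq_mul_inv, div_le_iff₀ (by positivity)] at h3
    rw [mul_comm ((X : ℝ) ^ (J (Fin.last m)))]
    exact h3
  -- the sum
  have hall : ∀ K : Fin m → ℕ, |(∏ l : Fin m, PowerSeries.coeff (J l.castSucc)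
          ((PowerSeries.C ((r l : ℝ) / (1 + (c l : ℝ) / X) ^ ((1 : ℝ) / n)) * bsR n -
            PowerSeries.C xi) ^ (K l))) *
        PowerSeries.coeff (J (Fin.last m)) (Sh ((X : ℝ)⁻¹) (GK n c xi F K))| ≤
      2 ^ (∑ l, K l) * (2 * (4 * Xi) ^ SD * (4 * Xi) ^ SD * l1 F * (X : ℝ) ^ (J (Fin.last m)) *
        Real.exp (-T + ∑ l : Fin m, (J l.castSucc : ℝ) * g l)) := by
    intro K
    rw [abs_mul]
    refine (mul_le_mul (hone K) (htwo K) (abs_nonneg _) (by positivity)).trans (le_of_eq ?_)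
    have e1 : Real.exp (-(∑ l, (K l : ℝ) * g l) + ∑ l, (J l.castSucc : ℝ) * g l) *
        Real.exp (-(T - ∑ l, (K l : ℝ) * g l)) =
        Real.exp (-T + ∑ l : Fin m, (J l.castSucc : ℝ) * g l) := by
      rw [← Real.exp_add]
      congr 1
      ring
    rw [← e1, hL0]
    ring
  refine (Finset.sum_le_sum fun K _ => hall K).trans ?_
  rw [← Finset.sum_mul]
  refine (mul_le_mul_of_nonneg_right (zup_sum fun l : Fin m => d l.castSucc) (by positivity)).trans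
    (le_of_eq ?_)
  have e2 : (32 * Xi ^ 2) ^ SD = 2 ^ SD * ((4 * Xi) ^ SD * (4 * Xi) ^ SD) := by
    rw [← mul_pow, ← mul_pow]
    congr 1
    ring
  rw [e2, pow_succ]
  ring

end H37SI
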