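import Pool.Agent.H37.SI.Nonv
import Pool.Agent.H37.SI.ZLow
import Pool.Agent.H37.SI.ZUp
import Pool.Agent.H37.SI.Latt
import Pool.Agent.H37.SI.AuxPoly
import Pool.Agent.H37.SI.Par
import Pool.Agent.H37.SI.FinIneq
import Pool.Agent.H37.SI.Scale

/-!
H37/SI/Prp [PRP]: the main proposition (separated scales, fields merging at w = 0).

n, n1, m, D ≥ 1, kap > 0, (V) n1 D (m+1)^(m+1) < (m+1)! kap^m. There are C and del > 0: for X ≥ C, 1 ≤ b ≤ X^2, integers
|c_l| ≤ X^del, xi > 0 with xi^n1 b = th X, positive rationals r_0, ..., r_(m-1) with log ht r_l ≥ C log X and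
log ht r_i ≥ C log ht r_j for i < j: not all |r_l - xi (1 + c_l/X)^(1/n)| ≤ exp(-kap log ht r_l).

ORDER OF THE CONSTANTS. par (V) gives eps, sig. iota = sig/(4(4m+3+m kap)) > 0 . nonvan n m iota gives c1 ≤ 1/8. mu > 0 with
11 mu ≤ sig/4, mu ≤ c1. del > 0 with del ≤ eps/2 and (1 + 1/eps) 4 (m+2) del ≤ mu/4. Then the natural number C large (in terms
of n, n1, m, D, kap, th, B, eps, sig, c1, mu, del).
SETUP. Suppose all approximations hold. hw = log X ≥ 1 (X ≥ C), h_l = log ht r_l ≥ C hw, h : Fin (m+1) → ℝ,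
h = snoc h_l hw, all > 0, h i ≥ C h j for i < j (for j = last by h_i ≥ C hw). A = X^del ≥ 1. g0 = (1-eps) hw,
g_l = (1-eps) kap h_l > 0. DD a real number, as large as we like in terms of EVERYTHING (X, r, h, constants): d j = floor(DD/h j),
so DD/h j - 1 < d j ≤ DD/h j, d j ≥ 1, 2 d j h j ≥ DD (DD ≥ 2 h j), DD/h j ≤ d j + 1: lemma scale. T = (m+1+sig) DD.
cond_count (g0, g, T): KK. M0 = floor(T/g0) (p.2 ≤ M0 for p in KK), M0 ≤ 2 (m+2) DD/hw (1-eps ≥ 1/2).
card_ok with h, KC = card KK gives hcard (n1 h 0 ≤ eps DD, (kap+1) sum h ≤ sig DD: DD large). aux_poly (with M0) gives F.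
BOUND OF log l1 F ≤ mu DD: log l1 F ≤ (1+1/eps) [sum_j log(d j + 1) + (sum d_l) log(4 X^3 B^2) + M0 log(2 n^2 A)].
 sum_j log(d j+1) ≤ (m+1) log(DD/h_min + 1) ≤ (mu/4)/(1+1/eps) DD for DD large; log(4 X^3 B^2) ≤ 8 hw if X ≥ max(4,B) and
 sum d_l ≤ m DD/(C hw) so the second term is ≤ 8 m DD/C; log(2 n^2 A) = log(2n^2) + del hw ≤ 2 del hw if hw ≥ log(2n^2)/del, so
 the third term is ≤ 4 (m+2) del DD. With C large: total ≤ mu DD.
NONVAN (d, DD): 2|c_l| ≤ 2 X^del ≤ X; d i ≤ c1 d j for i < j: d i ≤ DD/h i ≤ DD/(C h j) ≤ (2/C) d j; DD ≤ 2 d_l h_l;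
 log l1 F ≤ mu DD ≤ c1 DD; d_w ≤ DD/hw ≤ c1 DD (hw ≥ 1/c1); (sum d_l) hw ≤ m DD/C ≤ c1 DD; hw ≤ h_l/C ≤ c1 h_l.
 It gives J with wt d J < iota and ZJ ≠ 0: so J_j ≤ iota d_j for all j (one term of the sum of nonnegative terms; iota ≤ 1,
 so J_l ≤ d_l).
Z_lower and Z_upper (Xi = X^2: xi ≤ max(1, xi^n1) ≤ max(1, th X) ≤ X^2 if X ≥ th and X ≥ 1; |r_l/(1+c_l/X)^(1/n) - xi| ≤
 2 exp(-kap h_l) ≤ exp(-(1-eps) kap h_l) because (1+c_l/X)^(1/n) ≥ 1/2 and eps kap h_l ≥ log 2; exp(g0) 4A = 4 X^(1-eps+del) ≤ X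
 because X^(eps - del) ≥ X^(eps/2) ≥ 4; 8A ≤ X; hvan from aux_poly and cond_count).
Take logarithms (ZJ ≠ 0, l1 F ≥ 1) and apply fin_ineq: ld_l = log den r_l ≤ h_l, lc_l = log(X + c_l) ≤ 2 hw, ln = log n ≤ hw,
 lXi = log(32 X^4) ≤ 9 hw (hw ≥ 1: log 32 ≤ 5 hw), m + 1 ≤ mu DD.
-/

namespace H37SI

open MvPolynomial H4AR

private theorem prp_log {m : ℕ} (d : Fin (m + 1) → ℕ) (X n B M0 : ℕ) (A eps L : ℝ) (hL : 1 ≤ L)
    (hX : 1 ≤ X) (hB : 1 ≤ B) (hn : 1 ≤ n) (hA : 1 ≤ A) (_heps : 0 < eps)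
    (h : L ≤ ((∏ j, ((d j : ℝ) + 1)) * ((4 * (X : ℝ) ^ 3 * (B : ℝ) ^ 2) ^ (∑ l : Fin m, d l.castSucc) *
        (2 * (n : ℝ) ^ 2 * A) ^ M0)) ^ (1 + 1 / eps)) :
    Real.log L ≤ (1 + 1 / eps) * (∑ j, Real.log ((d j : ℝ) + 1) +
      (∑ l : Fin m, (d l.castSucc : ℝ)) * Real.log (4 * (X : ℝ) ^ 3 * (B : ℝ) ^ 2) +
      M0 * Real.log (2 * (n : ℝ) ^ 2 * A)) := by
  have hX0 : (0 : ℝ) < X := by exact_mod_cast hX
  have hB0 : (0 : ℝ) < B := by exact_mod_cast hB
  have hn0 : (0 : ℝ) < n := by exact_mod_cast hn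
  have hA0 : (0 : ℝ) < A := by linarith
  have hP : (0 : ℝ) < ∏ j, ((d j : ℝ) + 1) := Finset.prod_pos fun j _ => by positivity
  have h1 := Real.log_le_log (by linarith) h
  have hp1 : (0 : ℝ) < (4 * (X : ℝ) ^ 3 * (B : ℝ) ^ 2) ^ (∑ l : Fin m, d l.castSucc) := by positivity
  have hp2 : (0 : ℝ) < (2 * (n : ℝ) ^ 2 * A) ^ M0 := by positivity
  rw [Real.log_rpow (mul_pos hP (mul_pos hp1 hp2)), Real.log_mul hP.ne' (mul_pos hp1 hp2).ne',
    Real.log_mul hp1.ne' hp2.ne', Real.log_pow _ (∑ l : Fin m, d l.castSucc), Real.log_pow _ M0,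
    Real.log_prod (fun j _ => by positivity), Nat.cast_sum] at h1
  refine h1.trans (le_of_eq ?_)
  ring

private theorem prp_low {m : ℕ} (n X : ℕ) (hn : 1 ≤ n) (hX : 1 ≤ X) (c : Fin m → ℤ)
    (hc : ∀ l, 0 < (X : ℝ) + c l) (r : Fin m → ℚ) (d : Fin (m + 1) → ℕ) (J : Fin (m + 1) →₀ ℕ) (Z : ℝ)
    (hZ : 0 < Z)
    (h : 1 ≤ Z *
      ((X : ℝ) ^ (d (Fin.last m)) * (∏ l : Fin m, (((r l).den : ℕ) : ℝ) ^ (d l.castSucc)) *
        ((n : ℝ) ^ 2 * ∏ l : Fin m, ((X : ℝ) + c l)) ^ (J (Fin.last m)) *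
        (n : ℝ) ^ (2 * ∑ l : Fin m, J l.castSucc))) :
    0 ≤ Real.log Z + ((d (Fin.last m) : ℝ) * Real.log X +
      ∑ l : Fin m, (d l.castSucc : ℝ) * Real.log (((r l).den : ℕ) : ℝ) +
      (J (Fin.last m) : ℝ) * (2 * Real.log n + ∑ l : Fin m, Real.log ((X : ℝ) + c l)) +
      2 * (∑ l : Fin m, (J l.castSucc : ℝ)) * Real.log n) := by
  have hX0 : (0 : ℝ) < X := by exact_mod_cast hX
  have hn0 : (0 : ℝ) < n := by exact_mod_cast hn
  have hden : ∀ l, (0 : ℝ) < (((r l).den : ℕ) : ℝ) := fun l => by exact_mod_cast (r l).den_pos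
  have hP1 : (0 : ℝ) < ∏ l : Fin m, (((r l).den : ℕ) : ℝ) ^ (d l.castSucc) :=
    Finset.prod_pos fun l _ => pow_pos (hden l) _
  have hP2 : (0 : ℝ) < ∏ l : Fin m, ((X : ℝ) + c l) := Finset.prod_pos fun l _ => hc l
  have h1 := Real.log_le_log one_pos h
  have q1 : (0 : ℝ) < (X : ℝ) ^ (d (Fin.last m)) := by positivity
  have q2 : (0 : ℝ) < (n : ℝ) ^ 2 * ∏ l : Fin m, ((X : ℝ) + c l) := by positivity
  have q3 : (0 : ℝ) < ((n : ℝ) ^ 2 * ∏ l : Fin m, ((X : ℝ) + c l)) ^ (J (Fin.last m)) := pow_pos q2 _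
  have q4 : (0 : ℝ) < (n : ℝ) ^ (2 * ∑ l : Fin m, J l.castSucc) := by positivity
  have e1 : Real.log (∏ l : Fin m, (((r l).den : ℕ) : ℝ) ^ (d l.castSucc)) =
      ∑ l : Fin m, (d l.castSucc : ℝ) * Real.log (((r l).den : ℕ) : ℝ) := by
    rw [Real.log_prod (fun l _ => (pow_pos (hden l) _).ne')]
    exact Finset.sum_congr rfl fun l _ => Real.log_pow _ _
  have e2 : Real.log (((n : ℝ) ^ 2 * ∏ l : Fin m, ((X : ℝ) + c l)) ^ (J (Fin.last m))) =
      (J (Fin.last m) : ℝ) * (2 * Real.log n + ∑ l : Fin m, Real.log ((X : ℝ) + c l)) := by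
    rw [Real.log_pow, Real.log_mul (by positivity) hP2.ne', Real.log_pow,
      Real.log_prod (fun l _ => (hc l).ne')]
    push_cast
    ring
  have e3 : Real.log ((n : ℝ) ^ (2 * ∑ l : Fin m, J l.castSucc)) =
      2 * (∑ l : Fin m, (J l.castSucc : ℝ)) * Real.log n := by
    rw [Real.log_pow]
    push_cast
    ring
  rw [Real.log_one, Real.log_mul hZ.ne' (by positivity), Real.log_mul (by positivity) q4.ne',
    Real.log_mul (by positivity) q3.ne', Real.log_mul q1.ne' hP1.ne', Real.log_pow _ (d (Fin.last m)),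
    e1, e2, e3] at h1
  exact h1

private theorem prp_up {m : ℕ} (X : ℕ) (hX : 1 ≤ X) (d : Fin (m + 1) → ℕ) (J : Fin (m + 1) →₀ ℕ)
    (g : Fin m → ℝ) (Xi L T Z : ℝ) (hXi : 1 ≤ Xi) (hL : 1 ≤ L) (hZ : 0 < Z)
    (h : Z ≤ 2 ^ (m + 1) * (32 * Xi ^ 2) ^ (∑ l : Fin m, d l.castSucc) * L * (X : ℝ) ^ (J (Fin.last m)) *
        Real.exp (-T + ∑ l : Fin m, (J l.castSucc : ℝ) * g l)) :
    Real.log Z ≤ (m + 1) * Real.log 2 + (∑ l : Fin m, (d l.castSucc : ℝ)) * Real.log (32 * Xi ^ 2) +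
      Real.log L + (J (Fin.last m) : ℝ) * Real.log X - T + ∑ l : Fin m, (J l.castSucc : ℝ) * g l := by
  have hX0 : (0 : ℝ) < X := by exact_mod_cast hX
  have hXi0 : (0 : ℝ) < Xi := by linarith
  have hL0 : (0 : ℝ) < L := by linarith
  have h1 := Real.log_le_log hZ h
  have q1 : (0 : ℝ) < (2 : ℝ) ^ (m + 1) := by positivity
  have q2 : (0 : ℝ) < (32 * Xi ^ 2) ^ (∑ l : Fin m, d l.castSucc) := by positivity
  have q3 : (0 : ℝ) < (X : ℝ) ^ (J (Fin.last m)) := by positivity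
  rw [Real.log_mul (by positivity) (Real.exp_pos _).ne', Real.log_exp,
    Real.log_mul (by positivity) q3.ne', Real.log_mul (by positivity) hL0.ne',
    Real.log_mul q1.ne' q2.ne', Real.log_pow _ (m + 1), Real.log_pow _ (∑ l : Fin m, d l.castSucc),
    Real.log_pow _ (J (Fin.last m)), Nat.cast_sum] at h1
  push_cast at h1
  linarith

/-- the n-th root of a number at least 1/2 is at least 1/2 -/
private theorem prp_root (n : ℕ) (hn : 1 ≤ n) {x : ℝ} (hx : 1 / 2 ≤ x) :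
    1 / 2 ≤ x ^ ((1 : ℝ) / n) := by
  have hn0 : (1 : ℝ) ≤ n := by exact_mod_cast hn
  have hn1 : (1 : ℝ) / n ≤ 1 := by rw [div_le_one (by linarith)]; exact hn0
  have hn2 : 0 ≤ (1 : ℝ) / n := by positivity
  by_cases h : x ≤ 1
  · have h1 : x ^ (1 : ℝ) ≤ x ^ ((1 : ℝ) / n) :=
      Real.rpow_le_rpow_of_exponent_ge (by linarith) h hn1
    rw [Real.rpow_one] at h1
    linarith
  · push Not at h
    have h1 := Real.one_le_rpow h.le hn2
    linarith

/-- the approximation of xi -/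
private theorem prp_y {r s xi a b : ℝ} (hs : 1 / 2 ≤ s) (h : |r - xi * s| ≤ Real.exp (-a))
    (hab : Real.log 2 + b ≤ a) : |r / s - xi| ≤ Real.exp (-b) := by
  have hs0 : 0 < s := by linarith
  have e1 : r / s - xi = (r - xi * s) / s := by field_simp
  rw [e1, abs_div, abs_of_pos hs0, div_le_iff₀ hs0]
  have e2 : Real.exp (-b) * (1 / 2) ≤ Real.exp (-b) * s :=
    mul_le_mul_of_nonneg_left hs (Real.exp_pos _).le
  have e3 : Real.exp (-a) ≤ Real.exp (-b) * (1 / 2) := by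
    have e4 : Real.exp (-b) * (1 / 2) = Real.exp (-b - Real.log 2) := by
      rw [Real.exp_sub, Real.exp_log (by norm_num)]; ring
    rw [e4]
    exact Real.exp_le_exp.2 (by linarith)
  linarith

private theorem prp_xi {n1 X b : ℕ} (hn1 : 1 ≤ n1) (hX : 1 ≤ X) (hb : 1 ≤ b) {th xi : ℝ} (hth : 0 < th)
    (hthX : th ≤ X) (hxi : 0 < xi) (h : xi ^ n1 * b = th * X) : xi ≤ (X : ℝ) ^ 2 := by
  have hX1 : (1 : ℝ) ≤ X := by exact_mod_cast hX
  have hb1 : (1 : ℝ) ≤ b := by exact_mod_cast hb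
  by_cases hx : xi ≤ 1
  · nlinarith
  · push Not at hx
    have h1 : xi ≤ xi ^ n1 := le_self_pow₀ hx.le (by omega)
    have h2 : xi ^ n1 ≤ xi ^ n1 * b := le_mul_of_one_le_right (by positivity) hb1
    have h3 : th * X ≤ X * X := mul_le_mul_of_nonneg_right hthX (by linarith)
    nlinarith

theorem prp (n n1 m D : ℕ) (hn : 1 ≤ n) (hn1 : 1 ≤ n1) (hm : 1 ≤ m) (hD : 1 ≤ D) (kap : ℝ) (hkap : 0 < kap)
    (hV : (n1 : ℝ) * D * ((m : ℝ) + 1) ^ (m + 1) < ((m + 1).factorial : ℝ) * kap ^ m) (th : ℝ) (hth : 0 < th)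
    (c0 : ℤ) (hc0 : c0 ≠ 0) (B : ℕ) (hB : 1 ≤ B) (hcB : |c0| ≤ B) (w : ℕ → Fin D → ℤ)
    (hw : ∀ q, (c0 : ℝ) ^ q * th ^ q = ∑ i, (w q i : ℝ) * th ^ (i : ℕ))
    (hwB : ∀ q i, |w q i| ≤ (B : ℤ) ^ q) :
    ∃ (C : ℕ) (del : ℝ), 1 ≤ C ∧ 0 < del ∧ ∀ X b : ℕ, C ≤ X → 1 ≤ b → b ≤ X ^ 2 →
      ∀ c : Fin m → ℤ, (∀ l, |(c l : ℝ)| ≤ (X : ℝ) ^ del) → ∀ xi : ℝ, 0 < xi → xi ^ n1 * b = th * X →
      ∀ r : Fin m → ℚ, (∀ l, 0 < r l) → (∀ l, (C : ℝ) * Real.log X ≤ Real.log (ht (r l))) →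
      (∀ i j, i < j → (C : ℝ) * Real.log (ht (r j)) ≤ Real.log (ht (r i))) →
      (∀ l, |(r l : ℝ) - xi * (1 + (c l : ℝ) / X) ^ ((1 : ℝ) / n)| ≤ Real.exp (-(kap * Real.log (ht (r l))))) →
      False := by
  obtain ⟨eps, sig, heps0, heps1, hsig0, hsig1, hpar⟩ := par n1 D m kap hkap hV
  have hm0 : (0 : ℝ) ≤ m := by positivity
  have hm1 : (1 : ℝ) ≤ m := by exact_mod_cast hm
  have hq0 : 0 < 4 * (m : ℝ) + 3 + m * kap := by positivity
  obtain ⟨iota, hiota⟩ : ∃ iota, iota = sig / (4 * (4 * (m : ℝ) + 3 + m * kap)) := ⟨_, rfl⟩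
  have hi0 : 0 < iota := by rw [hiota]; positivity
  have hi2 : iota * (4 * m + 3 + m * kap) ≤ sig / 4 := by
    rw [hiota]; apply le_of_eq; field_simp
  have hi1 : iota ≤ 1 := by
    rw [hiota, div_le_one (by positivity)]
    have : 0 ≤ (m : ℝ) * kap := by positivity
    linarith only [this, hsig1, hm0]
  obtain ⟨c1, hc10, hc18, hnon⟩ := nonvan n m hn iota hi0
  obtain ⟨mu, hmu⟩ : ∃ mu, mu = min (sig / 44) c1 := ⟨_, rfl⟩
  have hmu0 : 0 < mu := by rw [hmu]; exact lt_min (by positivity) hc10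
  have hmuc : mu ≤ c1 := by rw [hmu]; exact min_le_right _ _
  have hmus : 11 * mu ≤ sig / 4 := by
    have : mu ≤ sig / 44 := by rw [hmu]; exact min_le_left _ _
    linarith only [this]
  obtain ⟨E, hE⟩ : ∃ E, E = 1 + 1 / eps := ⟨_, rfl⟩
  have hE1 : 1 ≤ E := by
    have : 0 ≤ 1 / eps := by positivity
    linarith only [this, hE]
  have hE0 : 0 < E := by linarith only [hE1]
  obtain ⟨del, hdel⟩ : ∃ del, del = min (eps / 2) (mu / (E * (16 * ((m : ℝ) + 2)))) := ⟨_, rfl⟩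
  have hdel0 : 0 < del := by rw [hdel]; exact lt_min (by positivity) (by positivity)
  have hdele : del ≤ eps / 2 := by rw [hdel]; exact min_le_left _ _
  have hdelm : E * (4 * ((m : ℝ) + 2) * del) ≤ mu / 4 := by
    have h1 : del ≤ mu / (E * (16 * ((m : ℝ) + 2))) := by rw [hdel]; exact min_le_right _ _
    rw [le_div_iff₀ (by positivity)] at h1
    linarith only [h1]
  -- the constant
  obtain ⟨H0, hH0⟩ : ∃ H0, H0 = 3 + Real.log (2 * (n : ℝ) ^ 2) / del + 2 * Real.log 4 / eps + 1 / c1 :=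
    ⟨_, rfl⟩
  have hn0 : (0 : ℝ) < n := by exact_mod_cast hn
  have hnr : (1 : ℝ) ≤ n := by exact_mod_cast hn
  have hlog2n : 0 ≤ Real.log (2 * (n : ℝ) ^ 2) := Real.log_nonneg (by nlinarith)
  have hlog4 : 0 ≤ Real.log 4 := Real.log_nonneg (by norm_num)
  obtain ⟨C, hC⟩ := exists_nat_ge (Real.exp H0 + B + th + n + 4 + 32 * m * E / mu + 2 / c1 + m / c1 +
    m / mu + 1 / (eps * kap))
  have p1 : 0 < Real.exp H0 := Real.exp_pos _
  have p2 : (0 : ℝ) ≤ B := by positivity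
  have p3 : 0 ≤ 32 * m * E / mu := by positivity
  have p4 : 0 ≤ 2 / c1 := by positivity
  have p5 : 0 ≤ m / c1 := by positivity
  have p6 : 0 ≤ m / mu := by positivity
  have p7 : 0 ≤ 1 / (eps * kap) := by positivity
  have kB : Real.exp H0 ≤ C := by linarith only [hC, p1, p2, p3, p4, p5, p6, p7, hth, hn0]
  have kC4 : (4 : ℝ) ≤ C := by linarith only [hC, p1, p2, p3, p4, p5, p6, p7, hth, hn0]
  have kCB : (B : ℝ) ≤ C := by linarith only [hC, p1, p2, p3, p4, p5, p6, p7, hth, hn0]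
  have kCn : (n : ℝ) ≤ C := by linarith only [hC, p1, p2, p3, p4, p5, p6, p7, hth, hn0]
  have kCth : th ≤ C := by linarith only [hC, p1, p2, p3, p4, p5, p6, p7, hth, hn0]
  have kC1 : (1 : ℝ) ≤ C := by linarith only [kC4]
  have kC0 : (0 : ℝ) < C := by linarith only [kC4]
  have kCa : E * 8 * m ≤ mu / 4 * C := by
    have : 32 * m * E / mu ≤ C := by linarith only [hC, p1, p2, p3, p4, p5, p6, p7, hth, hn0]
    rw [div_le_iff₀ hmu0] at this
    linarith only [this]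
  have kCb : 2 ≤ c1 * C := by
    have : 2 / c1 ≤ C := by linarith only [hC, p1, p2, p3, p4, p5, p6, p7, hth, hn0]
    rw [div_le_iff₀ hc10] at this
    linarith only [this]
  have kCc : m ≤ c1 * C := by
    have : m / c1 ≤ C := by linarith only [hC, p1, p2, p3, p4, p5, p6, p7, hth, hn0]
    rw [div_le_iff₀ hc10] at this
    linarith only [this]
  have kCd : m ≤ mu * C := by
    have : m / mu ≤ C := by linarith only [hC, p1, p2, p3, p4, p5, p6, p7, hth, hn0]
    rw [div_le_iff₀ hmu0] at this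
    linarith only [this]
  have kCe : 1 ≤ eps * kap * C := by
    have : 1 / (eps * kap) ≤ C := by linarith only [hC, p1, p2, p3, p4, p5, p6, p7, hth, hn0]
    rw [div_le_iff₀ (by positivity)] at this
    linarith only [this]
  refine ⟨C, del, by exact_mod_cast kC1, hdel0, ?_⟩
  intro X b hCX hb hbX c hc xi hxi hxin r hr hrC hrs hap
  have hCX' : (C : ℝ) ≤ X := by exact_mod_cast hCX
  have hX4 : (4 : ℝ) ≤ X := kC4.trans hCX'
  have hXB : (B : ℝ) ≤ X := kCB.trans hCX'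
  have hXn : (n : ℝ) ≤ X := kCn.trans hCX'
  have hXth : th ≤ X := kCth.trans hCX'
  have hX0 : (0 : ℝ) < X := by linarith only [hX4]
  have hX1N : 1 ≤ X := by
    have : (1 : ℝ) ≤ X := by linarith only [hX4]
    exact_mod_cast this
  have hX2N : 2 ≤ X := by
    have : (2 : ℝ) ≤ X := by linarith only [hX4]
    exact_mod_cast this
  obtain ⟨hx, hhx⟩ : ∃ hx, hx = Real.log X := ⟨_, rfl⟩
  have hxH : H0 ≤ hx := by
    rw [hhx, Real.le_log_iff_exp_le hX0]
    exact kB.trans hCX'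
  have t1 : 0 ≤ Real.log (2 * (n : ℝ) ^ 2) / del := by positivity
  have t2 : 0 ≤ 2 * Real.log 4 / eps := by positivity
  have t3 : 0 ≤ 1 / c1 := by positivity
  have kw3 : 3 ≤ hx := by linarith only [hxH, hH0, t1, t2, t3]
  have kw0 : 0 < hx := by linarith only [kw3]
  have kwn : Real.log (2 * (n : ℝ) ^ 2) ≤ del * hx := by
    have : Real.log (2 * (n : ℝ) ^ 2) / del ≤ hx := by linarith only [hxH, hH0, t1, t2, t3]
    rw [div_le_iff₀ hdel0] at this
    linarith only [this]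
  have kwe : 2 * Real.log 4 ≤ eps * hx := by
    have : 2 * Real.log 4 / eps ≤ hx := by linarith only [hxH, hH0, t1, t2, t3]
    rw [div_le_iff₀ heps0] at this
    linarith only [this]
  have kwc : 1 ≤ c1 * hx := by
    have : 1 / c1 ≤ hx := by linarith only [hxH, hH0, t1, t2, t3]
    rw [div_le_iff₀ hc10] at this
    linarith only [this]
  have hXexp : Real.exp hx = X := by rw [hhx, Real.exp_log hX0]
  -- the size of the c
  obtain ⟨A, hA⟩ : ∃ A, A = (X : ℝ) ^ del := ⟨_, rfl⟩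
  have hAexp : A = Real.exp (del * hx) := by
    rw [hA, Real.rpow_def_of_pos hX0, ← hhx, mul_comm]
  have hA1 : 1 ≤ A := by
    rw [hAexp]; exact Real.one_le_exp (by positivity)
  have hcA : ∀ l, |(c l : ℝ)| ≤ A := fun l => by rw [hA]; exact hc l
  have hl2 : Real.log 2 ≤ 0.7 := by have := Real.log_two_lt_d9; linarith only [this]
  have hl20 : 0 < Real.log 2 := Real.log_pos (by norm_num)
  have hA8 : 8 * A ≤ X := by
    have e8 : (8 : ℝ) = Real.exp (3 * Real.log 2) := by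
      rw [mul_comm, Real.exp_mul, Real.exp_log (by norm_num)]; norm_num
    rw [hAexp, e8, ← Real.exp_add, ← hXexp]
    refine Real.exp_le_exp.2 ?_
    have v1 : del * hx ≤ eps / 2 * hx := mul_le_mul_of_nonneg_right hdele kw0.le
    have v2 : eps * hx ≤ 1 / 10 * hx := mul_le_mul_of_nonneg_right heps1 kw0.le
    linarith only [v1, v2, kw3, hl2]
  have hcX : ∀ l, 8 * |(c l : ℝ)| ≤ X := fun l => by linarith only [hcA l, hA8]
  have hXc : ∀ l, (0 : ℝ) < (X : ℝ) + c l := fun l => by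
    have h1 := hcX l
    have h2 := neg_abs_le (c l : ℝ)
    have h3 := abs_nonneg (c l : ℝ)
    linarith only [h1, h2, h3, hX0]
  have hXcZ : ∀ l, (0 : ℤ) < (X : ℤ) + c l := fun l => by
    have h1 := hXc l
    exact_mod_cast h1
  have hXc2 : ∀ l, (X : ℝ) + c l ≤ 2 * X := fun l => by
    have h1 := hcX l
    have h2 := le_abs_self (c l : ℝ)
    have h3 := abs_nonneg (c l : ℝ)
    linarith only [h1, h2, h3, hX0]
  -- heights
  obtain ⟨hl, hhl⟩ : ∃ hl : Fin m → ℝ, hl = fun l => Real.log (ht (r l)) := ⟨_, rfl⟩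
  have hlC : ∀ l, C * hx ≤ hl l := fun l => by rw [hhl, hhx]; exact hrC l
  have hlpos : ∀ l, 0 < hl l := fun l => by
    have := hlC l
    have h2 : 0 < C * hx := by positivity
    linarith only [this, h2]
  have hlw : ∀ l, hx ≤ hl l := fun l => by
    have h1 := hlC l
    have h2 : 1 * hx ≤ C * hx := mul_le_mul_of_nonneg_right kC1 kw0.le
    linarith only [h1, h2]
  obtain ⟨h, hh⟩ : ∃ h : Fin (m + 1) → ℝ, h = Fin.snoc (α := fun _ => ℝ) hl hx := ⟨_, rfl⟩
  have h_last : h (Fin.last m) = hx := by rw [hh, Fin.snoc_last]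
  have h_cs : ∀ l : Fin m, h l.castSucc = hl l := fun l => by rw [hh, Fin.snoc_castSucc]
  have hpos : ∀ j, 0 < h j := by
    intro j
    refine Fin.lastCases ?_ (fun l => ?_) j
    · rw [h_last]; exact kw0
    · rw [h_cs]; exact hlpos l
  have hsep : ∀ i j, i < j → C * h j ≤ h i := by
    intro i j hij
    have hi : i ≠ Fin.last m := fun h0 => by
      rw [h0] at hij
      exact absurd hij (not_lt.2 (Fin.le_last j))
    obtain ⟨i', rfl⟩ := Fin.exists_castSucc_eq.2 hi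
    revert hij
    refine Fin.lastCases ?_ (fun l => ?_) j
    · intro _
      rw [h_last, h_cs]; exact hlC i'
    · intro hij
      rw [h_cs, h_cs]
      have := hrs i' l (by simpa using hij)
      rw [hhl]; exact this
  -- the degrees
  obtain ⟨DD, d, hL, hDD1, hd1, hdh, hdh2, hdd, hlogs⟩ := scale (m + 1) h hpos
    ((n1 : ℝ) * h 0 / eps + (kap + 1) * (∑ j, h j) / sig + ((m : ℝ) + 1) / mu) (mu / (4 * E))
    (by positivity)
  have hDD0 : 0 < DD := by linarith only [hDD1]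
  have hsumh : 0 ≤ ∑ j, h j := Finset.sum_nonneg fun j _ => (hpos j).le
  have u1 : 0 ≤ (n1 : ℝ) * h 0 / eps := by have := hpos 0; positivity
  have u2 : 0 ≤ (kap + 1) * (∑ j, h j) / sig := by positivity
  have u3 : 0 ≤ ((m : ℝ) + 1) / mu := by positivity
  have hDDa : (n1 : ℝ) * h 0 ≤ eps * DD := by
    have : (n1 : ℝ) * h 0 / eps ≤ DD := by linarith only [hL, u1, u2, u3]
    rw [div_le_iff₀ heps0] at this
    linarith only [this]
  have hDDb : (kap + 1) * ∑ j, h j ≤ sig * DD := by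
    have : (kap + 1) * (∑ j, h j) / sig ≤ DD := by linarith only [hL, u1, u2, u3]
    rw [div_le_iff₀ hsig0] at this
    linarith only [this]
  have hDDc : (m : ℝ) + 1 ≤ mu * DD := by
    have : ((m : ℝ) + 1) / mu ≤ DD := by linarith only [hL, u1, u2, u3]
    rw [div_le_iff₀ hmu0] at this
    linarith only [this]
  -- degrees in terms of the heights
  have hdw : (d (Fin.last m) : ℝ) * hx ≤ DD := by
    have := hdh (Fin.last m); rw [h_last] at this; exact this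
  have hdw2 : DD ≤ 2 * ((d (Fin.last m) : ℝ) * hx) := by
    have := hdh2 (Fin.last m); rw [h_last] at this; exact this
  have hdl : ∀ l : Fin m, (d l.castSucc : ℝ) * hl l ≤ DD := fun l => by
    have := hdh l.castSucc; rw [h_cs] at this; exact this
  have hdl2 : ∀ l : Fin m, DD ≤ 2 * ((d l.castSucc : ℝ) * hl l) := fun l => by
    have := hdh2 l.castSucc; rw [h_cs] at this; exact this
  have hsd : C * ((∑ l : Fin m, (d l.castSucc : ℝ)) * hx) ≤ m * DD := by
    have h1 : ∀ l : Fin m, C * ((d l.castSucc : ℝ) * hx) ≤ DD := fun l => by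
      have h2 := hdl l
      have h3 := hlC l
      have h4 : (0 : ℝ) ≤ (d l.castSucc : ℝ) := by positivity
      have h5 := mul_le_mul_of_nonneg_left h3 h4
      linarith only [h5, h2]
    have h2 : C * ((∑ l : Fin m, (d l.castSucc : ℝ)) * hx) =
        ∑ l : Fin m, C * ((d l.castSucc : ℝ) * hx) := by
      rw [Finset.sum_mul, Finset.mul_sum]
    rw [h2]
    refine (Finset.sum_le_sum fun l _ => h1 l).trans ?_
    simp
  have hsdn : 0 ≤ (∑ l : Fin m, (d l.castSucc : ℝ)) * hx :=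
    mul_nonneg (Finset.sum_nonneg fun l _ => by positivity) kw0.le
  have hsdmu : (∑ l : Fin m, (d l.castSucc : ℝ)) * hx ≤ mu * DD := by
    have h1 : (m : ℝ) * DD ≤ mu * C * DD := mul_le_mul_of_nonneg_right kCd hDD0.le
    have h2 : C * ((∑ l : Fin m, (d l.castSucc : ℝ)) * hx) ≤ C * (mu * DD) := by
      linarith only [h1, hsd]
    exact le_of_mul_le_mul_left h2 kC0
  have hsdc1 : (∑ l : Fin m, (d l.castSucc : ℝ)) * hx ≤ c1 * DD := by
    have h1 : mu * DD ≤ c1 * DD := mul_le_mul_of_nonneg_right hmuc hDD0.le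
    exact hsdmu.trans h1
  -- the conditions
  obtain ⟨g0, hg0⟩ : ∃ g0, g0 = (1 - eps) * hx := ⟨_, rfl⟩
  obtain ⟨g, hg⟩ : ∃ g : Fin m → ℝ, g = fun l => (1 - eps) * kap * hl l := ⟨_, rfl⟩
  have h1e : 0 < 1 - eps := by linarith only [heps1]
  have hg00 : 0 < g0 := by rw [hg0]; positivity
  have hgl : ∀ l, 0 < g l := fun l => by
    have := hlpos l
    rw [hg]; positivity
  obtain ⟨T, hT⟩ : ∃ T, T = ((m : ℝ) + 1 + sig) * DD := ⟨_, rfl⟩
  have hT0 : 0 ≤ T := by rw [hT]; positivity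
  obtain ⟨KK, hKK1, hKK2, hKK3⟩ := cond_count m g0 g hg00 hgl T hT0
  obtain ⟨M0, hM0⟩ : ∃ M0, M0 = ⌊T / g0⌋₊ := ⟨_, rfl⟩
  have hKKM : ∀ p ∈ KK, p.2 ≤ M0 := by
    intro p hp
    rw [hM0]
    refine Nat.le_floor ?_
    rw [le_div_iff₀ hg00]
    exact hKK2 p hp
  have hM0le : (M0 : ℝ) * hx ≤ 2 * ((m : ℝ) + 2) * DD := by
    have h1 : (M0 : ℝ) ≤ T / g0 := by rw [hM0]; exact Nat.floor_le (by positivity)
    rw [le_div_iff₀ hg00, hg0, hT] at h1
    have h2 : (M0 : ℝ) * hx * (1 / 2) ≤ (M0 : ℝ) * hx * (1 - eps) :=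
      mul_le_mul_of_nonneg_left (by linarith only [heps1]) (by positivity)
    have h3 : ((m : ℝ) + 1 + sig) * DD ≤ ((m : ℝ) + 2) * DD :=
      mul_le_mul_of_nonneg_right (by linarith only [hsig1]) hDD0.le
    linarith only [h1, h2, h3]
  have hcard := card_ok n1 D m hm kap hkap eps sig heps0 heps1 hsig0 hsig1 hpar h hpos DD hDD0 hDDa
    hDDb (KK.card : ℝ) (by positivity) (by
      rw [h_last]
      simp only [h_cs]
      rw [hT, hg0, hg] at hKK3
      exact hKK3) d hdd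
  obtain ⟨F, hF, hdeg, hl1, hvan⟩ := aux_poly n n1 m D hn hn1 hm hD th hth c0 hc0 B hB hcB w hw hwB X b
    hX2N hb hbX xi hxi hxin c A hA1 hcA d M0 KK hKKM eps heps0 hcard
  have hL1 : 1 ≤ l1 F := one_le_l1 hF
  -- the size of F
  have hlogF : Real.log (l1 F) ≤ mu * DD := by
    have h1 := prp_log d X n B M0 A eps (l1 F) hL1 hX1N hB hn hA1 heps0 hl1
    rw [← hE] at h1
    have hB0 : (0 : ℝ) < B := by exact_mod_cast hB
    have h2 : Real.log (4 * (X : ℝ) ^ 3 * (B : ℝ) ^ 2) ≤ 8 * hx := by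
      have h3 : 4 * (X : ℝ) ^ 3 * (B : ℝ) ^ 2 ≤ (X : ℝ) ^ 6 := by
        have h4 : (B : ℝ) ^ 2 ≤ (X : ℝ) ^ 2 := pow_le_pow_left₀ hB0.le hXB 2
        calc 4 * (X : ℝ) ^ 3 * (B : ℝ) ^ 2 ≤ X * (X : ℝ) ^ 3 * (X : ℝ) ^ 2 := by gcongr
          _ = (X : ℝ) ^ 6 := by ring
      have h5 := Real.log_le_log (by positivity) h3
      rw [Real.log_pow, ← hhx] at h5
      push_cast at h5
      linarith only [h5, kw0]
    have h6 : Real.log (2 * (n : ℝ) ^ 2 * A) ≤ 2 * del * hx := by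
      rw [Real.log_mul (by positivity) (by positivity), hAexp, Real.log_exp]
      linarith only [kwn]
    have hsn : 0 ≤ ∑ l : Fin m, (d l.castSucc : ℝ) := Finset.sum_nonneg fun l _ => by positivity
    have h7 : (∑ l : Fin m, (d l.castSucc : ℝ)) * Real.log (4 * (X : ℝ) ^ 3 * (B : ℝ) ^ 2) ≤
        (∑ l : Fin m, (d l.castSucc : ℝ)) * (8 * hx) := mul_le_mul_of_nonneg_left h2 hsn
    have h8 : (M0 : ℝ) * Real.log (2 * (n : ℝ) ^ 2 * A) ≤ M0 * (2 * del * hx) :=
      mul_le_mul_of_nonneg_left h6 (by positivity)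
    -- E * first
    have a1 : E * ∑ j, Real.log ((d j : ℝ) + 1) ≤ mu / 4 * DD := by
      have := mul_le_mul_of_nonneg_left hlogs hE0.le
      refine this.trans (le_of_eq ?_)
      field_simp
    have a2 : E * ((∑ l : Fin m, (d l.castSucc : ℝ)) * (8 * hx)) ≤ mu / 4 * DD := by
      have b1 : C * (E * ((∑ l : Fin m, (d l.castSucc : ℝ)) * (8 * hx))) ≤ C * (mu / 4 * DD) := by
        calc C * (E * ((∑ l : Fin m, (d l.castSucc : ℝ)) * (8 * hx)))
            = E * 8 * (C * ((∑ l : Fin m, (d l.castSucc : ℝ)) * hx)) := by ring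
          _ ≤ E * 8 * (m * DD) := mul_le_mul_of_nonneg_left hsd (by positivity)
          _ = E * 8 * m * DD := by ring
          _ ≤ mu / 4 * C * DD := mul_le_mul_of_nonneg_right kCa hDD0.le
          _ = C * (mu / 4 * DD) := by ring
      exact le_of_mul_le_mul_left b1 kC0
    have a3 : E * ((M0 : ℝ) * (2 * del * hx)) ≤ mu / 4 * DD := by
      calc E * ((M0 : ℝ) * (2 * del * hx)) = E * (2 * del) * ((M0 : ℝ) * hx) := by ring
        _ ≤ E * (2 * del) * (2 * ((m : ℝ) + 2) * DD) :=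
            mul_le_mul_of_nonneg_left hM0le (by positivity)
        _ = E * (4 * ((m : ℝ) + 2) * del) * DD := by ring
        _ ≤ mu / 4 * DD := mul_le_mul_of_nonneg_right hdelm hDD0.le
    have a4 : E * (∑ j, Real.log ((d j : ℝ) + 1) +
      (∑ l : Fin m, (d l.castSucc : ℝ)) * Real.log (4 * (X : ℝ) ^ 3 * (B : ℝ) ^ 2) +
      M0 * Real.log (2 * (n : ℝ) ^ 2 * A)) ≤ E * (∑ j, Real.log ((d j : ℝ) + 1) +
      (∑ l : Fin m, (d l.castSucc : ℝ)) * (8 * hx) + M0 * (2 * del * hx)) :=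
      mul_le_mul_of_nonneg_left (by linarith only [h7, h8]) hE0.le
    have a5 : 0 ≤ mu / 4 * DD := by positivity
    have a6 := h1.trans a4
    rw [mul_add, mul_add] at a6
    linarith only [a6, a1, a2, a3, a5]
  have hmuDD : mu * DD ≤ c1 * DD := mul_le_mul_of_nonneg_right hmuc hDD0.le
  -- non-vanishing
  obtain ⟨J, hJw, hJne⟩ := hnon X c r F d DD hX2N
    (fun l => by have h1 := hcX l; have h2 := abs_nonneg (c l : ℝ); linarith only [h1, h2]) hr hF hdeg hd1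
    (fun i j hij => by
      have h1 := hsep i j hij
      have h2 := hdh i
      have h3 := hdh2 j
      have h4 := hpos j
      have h5 : (0 : ℝ) ≤ d i := by positivity
      have h6 : (d i : ℝ) * (C * h j) ≤ (d i : ℝ) * h i := mul_le_mul_of_nonneg_left h1 h5
      have h7 : C * (d i : ℝ) * h j ≤ 2 * (d j : ℝ) * h j := by linarith only [h6, h2, h3]
      have h8 : C * (d i : ℝ) ≤ 2 * (d j : ℝ) := le_of_mul_le_mul_right h7 h4
      have h9 : 2 * (d j : ℝ) ≤ c1 * C * d j := mul_le_mul_of_nonneg_right kCb (by positivity)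
      have h10 : C * (d i : ℝ) ≤ C * (c1 * d j) := by linarith only [h8, h9]
      exact le_of_mul_le_mul_left h10 kC0)
    (fun l => by have := hdl2 l; rw [hhl] at this; exact this)
    (by rw [← hhx]; exact hdw2) (hlogF.trans hmuDD)
    (by
      have h1 : (d (Fin.last m) : ℝ) * 1 ≤ (d (Fin.last m) : ℝ) * (c1 * hx) :=
        mul_le_mul_of_nonneg_left kwc (by positivity)
      have h2 := mul_le_mul_of_nonneg_left hdw hc10.le
      linarith only [h1, h2])
    (by rw [← hhx]; exact hsdc1)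
    (fun l => by
      rw [← hhx]
      have h1 := hlC l
      rw [hhl] at h1
      have h2 : c1 * (C * hx) ≤ c1 * Real.log (ht (r l)) := mul_le_mul_of_nonneg_left h1 hc10.le
      have h3 : 2 * hx ≤ c1 * C * hx := mul_le_mul_of_nonneg_right kCb kw0.le
      linarith only [h2, h3, kw0])
  have hJle : ∀ j, (J j : ℝ) ≤ iota * d j := by
    intro j
    have hdj : (0 : ℝ) < d j := by exact_mod_cast (hd1 j)
    have h1 : (J j : ℝ) / d j ≤ wt d J := by
      unfold wt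
      exact Finset.single_le_sum (f := fun j => (J j : ℝ) / (d j : ℝ)) (fun i _ => by positivity)
        (Finset.mem_univ j)
    have h2 : (J j : ℝ) / d j ≤ iota := h1.trans hJw.le
    rwa [div_le_iff₀ hdj] at h2
  have hJnat : ∀ l : Fin m, J l.castSucc ≤ d l.castSucc := by
    intro l
    have h1 := hJle l.castSucc
    have h2 : iota * (d l.castSucc : ℝ) ≤ 1 * (d l.castSucc : ℝ) :=
      mul_le_mul_of_nonneg_right hi1 (by positivity)
    have h3 : (J l.castSucc : ℝ) ≤ (d l.castSucc : ℝ) := by linarith only [h1, h2]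
    exact_mod_cast h3
  have hZpos : 0 < |((ZJ n X c r F J : ℚ) : ℝ)| := by
    rw [abs_pos]
    exact_mod_cast hJne
  have hlow := Z_lower n X hn hX1N c hXcZ r F d hdeg J hJne
  have hXi1 : (1 : ℝ) ≤ (X : ℝ) ^ 2 := one_le_pow₀ (by linarith only [hX4])
  have hup := Z_upper n X hn hX1N c A hA1 hA8 hcA r F d hdeg J hJnat xi ((X : ℝ) ^ 2) hxi hXi1
    (prp_xi hn1 hX1N hb hth hXth hxi hxin) g (fun l => (hgl l).le)
    (fun l => by
      refine prp_y (prp_root n hn ?_) (hap l) ?_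
      · have h1 := hcX l
        have h2 := neg_abs_le (c l : ℝ)
        have h3 := abs_nonneg (c l : ℝ)
        have h4 : -(1 / 2) ≤ (c l : ℝ) / X := by
          rw [le_div_iff₀ hX0]; linarith only [h1, h2, h3, hX0]
        linarith only [h4]
      · have h1 := hlC l
        have h2 := hlpos l
        have e1 : Real.log (ht (r l)) = hl l := by rw [hhl]
        rw [e1, hg]
        have h3 : eps * kap * (C * hx) ≤ eps * kap * hl l :=
          mul_le_mul_of_nonneg_left h1 (by positivity)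
        have h4 : 1 * hx ≤ eps * kap * C * hx := mul_le_mul_of_nonneg_right kCe kw0.le
        have h5 : Real.log 2 + (1 - eps) * kap * hl l ≤ kap * hl l := by
          linarith only [h3, h4, hl2, kw3]
        exact h5)
    g0 hg00.le
    (by
      have e4 : Real.exp g0 * (4 * Real.exp (del * hx)) =
          Real.exp (g0 + (Real.log 4 + del * hx)) := by
        rw [Real.exp_add, Real.exp_add, Real.exp_log (by norm_num)]
      rw [hAexp, e4, ← hXexp, hg0]
      refine Real.exp_le_exp.2 ?_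
      have v1 := mul_le_mul_of_nonneg_right hdele kw0.le
      linarith only [v1, kwe])
    T (fun K k hKk => hvan (K, k) (hKK1 K k hKk))
  have hlow' := prp_low n X hn hX1N c hXc r d J _ hZpos hlow
  have hup' := prp_up X hX1N d J g ((X : ℝ) ^ 2) (l1 F) T _ hXi1 hL1 hZpos hup
  refine fin_ineq m kap sig iota mu DD hx (Real.log |((ZJ n X c r F J : ℚ) : ℝ)|) (Real.log (l1 F))
    (d (Fin.last m) : ℝ) (J (Fin.last m) : ℝ) (Real.log n) (fun l => (d l.castSucc : ℝ)) hl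
    (fun l => (J l.castSucc : ℝ)) (fun l => Real.log (((r l).den : ℕ) : ℝ))
    (fun l => Real.log ((X : ℝ) + c l)) g (Real.log (32 * ((X : ℝ) ^ 2) ^ 2)) hDD0 hsig0 hi0.le hkap.le
    kw0.le (Real.log_nonneg hnr) ?_ hdw (by positivity) (fun l => by positivity) hdl ?_ ?_
    (by positivity) (hJle _) (fun l => by positivity) (fun l => hJle _) hlw (fun l => (hgl l).le) ?_ ?_
    hsdmu hlogF hDDc hi2 hmus ?_ ?_
  · rw [hhx]; exact Real.log_le_log hn0 hXn
  · intro l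
    rw [hhl]
    refine Real.log_le_log (by exact_mod_cast (r l).den_pos) ?_
    exact le_max_right _ _
  · intro l
    have h1 := Real.log_le_log (hXc l) (hXc2 l)
    rw [Real.log_mul (by norm_num) hX0.ne', ← hhx] at h1
    linarith only [h1, hl2, kw3]
  · intro l
    have h2 := hlpos l
    rw [hg]
    have h3 : 0 ≤ eps * (kap * hl l) := by positivity
    show (1 - eps) * kap * hl l ≤ kap * hl l
    linarith only [h3]
  · have e32 : Real.log (32 * ((X : ℝ) ^ 2) ^ 2) = 5 * Real.log 2 + 4 * hx := by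
      rw [Real.log_mul (by norm_num) (by positivity), Real.log_pow, Real.log_pow, ← hhx]
      have : (32 : ℝ) = 2 ^ 5 := by norm_num
      rw [this, Real.log_pow]
      push_cast
      ring
    rw [e32]
    linarith only [hl2, kw3]
  · rw [← hhx] at hlow'
    exact hlow'
  · rw [← hhx, hT] at hup'
    exact hup'

end H37SI
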