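import Pool.Agent.H37.SI.Conv

/-!
H37/SI/ShM [SHM]: the Taylor shift of convergent power series is a ring homomorphism.

(Sh w p)_j = sum over k of p_k binom(k,j) w^(k-j), w > 0, p absolutely convergent at radius 2w.
PROOFS. Summability (sh_summable): binom(k,j) w^(k-j) w^j ≤ 2^k w^k = (2w)^k for j ≤ k, and binom(k,j) = 0 for j > k; so
|p_k binom(k,j) w^(k-j)| ≤ w^(-j) |p_k| (2w)^k. This also gives coeff_Sh_le.
Sh_mul: fix j. For s + t = j the sequences a_k = p_k binom(k,s) w^(k-s), b_k = q_k binom(k,t) w^(k-t) are absolutely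
summable, so (sum a)(sum b) = sum over N of sum_{k+l=N} a_k b_l
(`tsum_mul_tsum_eq_tsum_sum_antidiagonal_of_summable_norm`). Sum over s + t = j (finite sum; `Summable.tsum_finsetSum`):
for k + l = N: sum_{s+t=j} binom(k,s) binom(l,t) w^(k-s) w^(l-t) = binom(N,j) w^(N-j) (Vandermonde `Nat.add_choose_eq`;
in every nonzero term s ≤ k, t ≤ l so (k-s)+(l-t) = N-j), hence the total is sum over N of (pq)_N binom(N,j) w^(N-j).
Sh_add: tsum_add. Sh_C: only k = 0. Sh_X: only k = 1: coefficients w (j = 0) and 1 (j = 1).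
Sh_pow, Sh_prod, Sh_sum: induction with Cv_mul, Cv_pow, Cv_prod, Cv_sum.
-/

namespace H37SI

private theorem shm_le {w : ℝ} (hw : 0 < w) (p : PowerSeries ℝ) (j k : ℕ) :
    |PowerSeries.coeff k p * (k.choose j : ℝ) * w ^ (k - j)| ≤
      (w ^ j)⁻¹ * (|PowerSeries.coeff k p| * (2 * w) ^ k) := by
  have hwj : 0 < w ^ j := pow_pos hw j
  rw [abs_mul, abs_mul, abs_of_nonneg (Nat.cast_nonneg (k.choose j) : (0 : ℝ) ≤ (k.choose j : ℝ)),
    abs_of_pos (pow_pos hw (k - j))]
  by_cases h : j ≤ k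
  · have h1 : (k.choose j : ℝ) ≤ 2 ^ k := by
      have := Nat.choose_le_two_pow k j
      exact_mod_cast this
    have h2 : w ^ (k - j) = (w ^ j)⁻¹ * w ^ k := by
      rw [eq_inv_mul_iff_mul_eq₀ hwj.ne', ← pow_add, Nat.add_sub_cancel' h]
    rw [h2, mul_pow]
    calc |PowerSeries.coeff k p| * (k.choose j : ℝ) * ((w ^ j)⁻¹ * w ^ k) ≤
        |PowerSeries.coeff k p| * 2 ^ k * ((w ^ j)⁻¹ * w ^ k) :=
          mul_le_mul_of_nonneg_right (mul_le_mul_of_nonneg_left h1 (abs_nonneg _)) (by positivity)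
      _ = _ := by ring
  · rw [Nat.choose_eq_zero_of_lt (not_le.1 h), Nat.cast_zero, mul_zero, zero_mul]
    positivity

theorem sh_summable {w : ℝ} (hw : 0 < w) {p : PowerSeries ℝ} (hp : Cv (2 * w) p) (j : ℕ) :
    Summable fun k => |PowerSeries.coeff k p * (k.choose j : ℝ) * w ^ (k - j)| :=
  Summable.of_nonneg_of_le (fun k => abs_nonneg _) (shm_le hw p j) (hp.mul_left _)

theorem coeff_Sh_le {w : ℝ} (hw : 0 < w) {p : PowerSeries ℝ} (hp : Cv (2 * w) p) (j : ℕ) :
    |PowerSeries.coeff j (Sh w p)| * w ^ j ≤ Nm (2 * w) p := by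
  have hwj : 0 < w ^ j := pow_pos hw j
  unfold Sh
  rw [PowerSeries.coeff_mk]
  have h1 : |∑' k, PowerSeries.coeff k p * (k.choose j : ℝ) * w ^ (k - j)| ≤
      ∑' k, |PowerSeries.coeff k p * (k.choose j : ℝ) * w ^ (k - j)| := by
    have h := norm_tsum_le_tsum_norm (f := fun k => PowerSeries.coeff k p * (k.choose j : ℝ) *
      w ^ (k - j)) (sh_summable hw hp j)
    exact h
  have h2 : ∑' k, |PowerSeries.coeff k p * (k.choose j : ℝ) * w ^ (k - j)| ≤
      (w ^ j)⁻¹ * Nm (2 * w) p := by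
    unfold Nm
    rw [← tsum_mul_left]
    exact Summable.tsum_le_tsum (shm_le hw p j) (sh_summable hw hp j) (hp.mul_left _)
  calc _ ≤ (w ^ j)⁻¹ * Nm (2 * w) p * w ^ j :=
        mul_le_mul_of_nonneg_right (h1.trans h2) hwj.le
    _ = Nm (2 * w) p := by
      field_simp

/-- Vandermonde with powers of w -/
private theorem shm_vand (w : ℝ) (j k l : ℕ) :
    ∑ st ∈ Finset.HasAntidiagonal.antidiagonal j,
      ((k.choose st.1 : ℝ) * w ^ (k - st.1)) * ((l.choose st.2 : ℝ) * w ^ (l - st.2)) =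
      ((k + l).choose j : ℝ) * w ^ (k + l - j) := by
  rw [Nat.add_choose_eq, Nat.cast_sum, Finset.sum_mul]
  refine Finset.sum_congr rfl fun st hst => ?_
  have hst' := Finset.HasAntidiagonal.mem_antidiagonal.1 hst
  by_cases h1 : st.1 ≤ k
  · by_cases h2 : st.2 ≤ l
    · have h3 : k + l - j = (k - st.1) + (l - st.2) := by omega
      rw [h3, pow_add]
      push_cast
      ring
    · rw [Nat.choose_eq_zero_of_lt (not_le.1 h2)]
      push_cast
      ring
  · rw [Nat.choose_eq_zero_of_lt (not_le.1 h1)]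
    push_cast
    ring

theorem Sh_mul {w : ℝ} (hw : 0 < w) {p q : PowerSeries ℝ} (hp : Cv (2 * w) p) (hq : Cv (2 * w) q) :
    Sh w (p * q) = Sh w p * Sh w q := by
  ext j
  rw [PowerSeries.coeff_mul]
  unfold Sh
  rw [PowerSeries.coeff_mk]
  simp only [PowerSeries.coeff_mk]
  obtain ⟨a, ha⟩ : ∃ a : ℕ → ℕ → ℝ, a = fun s k => PowerSeries.coeff k p * (k.choose s : ℝ) *
    w ^ (k - s) := ⟨_, rfl⟩
  obtain ⟨b, hb⟩ : ∃ b : ℕ → ℕ → ℝ, b = fun t l => PowerSeries.coeff l q * (l.choose t : ℝ) *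
    w ^ (l - t) := ⟨_, rfl⟩
  have ha' : ∀ s, Summable fun k => ‖a s k‖ := fun s => by
    rw [ha]
    exact sh_summable hw hp s
  have hb' : ∀ t, Summable fun k => ‖b t k‖ := fun t => by
    rw [hb]
    exact sh_summable hw hq t
  have e1 : ∀ st ∈ Finset.HasAntidiagonal.antidiagonal j,
      (∑' k, PowerSeries.coeff k p * (k.choose st.1 : ℝ) * w ^ (k - st.1)) *
        (∑' k, PowerSeries.coeff k q * (k.choose st.2 : ℝ) * w ^ (k - st.2)) =
      ∑' N, ∑ kl ∈ Finset.HasAntidiagonal.antidiagonal N, a st.1 kl.1 * b st.2 kl.2 := by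
    intro st _
    rw [← tsum_mul_tsum_eq_tsum_sum_antidiagonal_of_summable_norm (ha' st.1) (hb' st.2), ha, hb]
  have e2 : ∑' N, ∑ st ∈ Finset.HasAntidiagonal.antidiagonal j,
      ∑ kl ∈ Finset.HasAntidiagonal.antidiagonal N, a st.1 kl.1 * b st.2 kl.2 =
      ∑ st ∈ Finset.HasAntidiagonal.antidiagonal j,
        ∑' N, ∑ kl ∈ Finset.HasAntidiagonal.antidiagonal N, a st.1 kl.1 * b st.2 kl.2 :=
    Summable.tsum_finsetSum (fun st _ =>
      (summable_norm_sum_mul_antidiagonal_of_summable_norm (ha' st.1) (hb' st.2)).of_norm)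
  refine Eq.trans ?_ (e2.trans (Finset.sum_congr rfl fun st hst => (e1 st hst).symm))
  refine tsum_congr fun N => ?_
  rw [PowerSeries.coeff_mul, Finset.sum_mul, Finset.sum_mul, Finset.sum_comm]
  refine Finset.sum_congr rfl fun kl hkl => ?_
  have hN := Finset.HasAntidiagonal.mem_antidiagonal.1 hkl
  have h1 := shm_vand w j kl.1 kl.2
  rw [hN] at h1
  rw [mul_assoc, ← h1, Finset.mul_sum]
  refine Finset.sum_congr rfl fun st _ => ?_
  rw [ha, hb]
  ring

theorem Sh_add {w : ℝ} (hw : 0 < w) {p q : PowerSeries ℝ} (hp : Cv (2 * w) p) (hq : Cv (2 * w) q) :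
    Sh w (p + q) = Sh w p + Sh w q := by
  ext j
  rw [map_add]
  unfold Sh
  simp only [PowerSeries.coeff_mk]
  rw [← Summable.tsum_add (Summable.of_abs (sh_summable hw hp j))
    (Summable.of_abs (sh_summable hw hq j))]
  refine tsum_congr fun k => ?_
  rw [map_add]
  ring

theorem Sh_C (w a : ℝ) : Sh w (PowerSeries.C a) = PowerSeries.C a := by
  ext j
  unfold Sh
  rw [PowerSeries.coeff_mk, tsum_eq_single 0 (fun k hk => by
    rw [PowerSeries.coeff_C, if_neg hk, zero_mul, zero_mul])]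
  rw [PowerSeries.coeff_C, if_pos rfl, PowerSeries.coeff_C]
  cases j with
  | zero => simp
  | succ j => simp

theorem Sh_X (w : ℝ) : Sh w PowerSeries.X = PowerSeries.C w + PowerSeries.X := by
  ext j
  unfold Sh
  rw [PowerSeries.coeff_mk, tsum_eq_single 1 (fun k hk => by
    rw [PowerSeries.coeff_X, if_neg hk, zero_mul, zero_mul])]
  rw [map_add, PowerSeries.coeff_X, if_pos rfl, PowerSeries.coeff_C, PowerSeries.coeff_X]
  rcases j with _ | _ | j
  · simp
  · simp
  · rw [Nat.choose_eq_zero_of_lt (by omega : 1 < j + 1 + 1), if_neg (by omega), if_neg (by omega)]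
    simp

private theorem shm_one (w : ℝ) : Sh w 1 = 1 := by
  rw [← map_one PowerSeries.C, Sh_C]

private theorem shm_zero (w : ℝ) : Sh w 0 = 0 := by
  rw [← map_zero PowerSeries.C, Sh_C]

theorem Sh_pow {w : ℝ} (hw : 0 < w) {p : PowerSeries ℝ} (hp : Cv (2 * w) p) (a : ℕ) :
    Sh w (p ^ a) = Sh w p ^ a := by
  induction a with
  | zero => rw [pow_zero, pow_zero, shm_one]
  | succ a ih =>
    rw [pow_succ, pow_succ, Sh_mul hw (Cv_pow (by positivity) hp a) hp, ih]

theorem Sh_prod {w : ℝ} (hw : 0 < w) {ι : Type} (t : Finset ι) (p : ι → PowerSeries ℝ)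
    (hp : ∀ i ∈ t, Cv (2 * w) (p i)) : Sh w (∏ i ∈ t, p i) = ∏ i ∈ t, Sh w (p i) := by
  classical
  induction t using Finset.induction_on with
  | empty => rw [Finset.prod_empty, Finset.prod_empty, shm_one]
  | insert a t ha ih =>
    have h2 : ∀ i ∈ t, Cv (2 * w) (p i) := fun i hi => hp i (Finset.mem_insert_of_mem hi)
    rw [Finset.prod_insert ha, Finset.prod_insert ha,
      Sh_mul hw (hp a (Finset.mem_insert_self a t)) (Cv_prod (by positivity) t p h2), ih h2]

theorem Sh_sum {w : ℝ} (hw : 0 < w) {ι : Type} (t : Finset ι) (p : ι → PowerSeries ℝ)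
    (hp : ∀ i ∈ t, Cv (2 * w) (p i)) : Sh w (∑ i ∈ t, p i) = ∑ i ∈ t, Sh w (p i) := by
  classical
  induction t using Finset.induction_on with
  | empty => rw [Finset.sum_empty, Finset.sum_empty, shm_zero]
  | insert a t ha ih =>
    have h2 : ∀ i ∈ t, Cv (2 * w) (p i) := fun i hi => hp i (Finset.mem_insert_of_mem hi)
    rw [Finset.sum_insert ha, Finset.sum_insert ha,
      Sh_add hw (hp a (Finset.mem_insert_self a t)) (Cv_sum (by positivity) t p h2), ih h2]

end H37SI
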