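import Pool.Agent.H37.SI.ZEq
import Pool.Agent.H37.SI.Bin
import Pool.Agent.H4.AR.IxL

/-!
H37/SI/Trans [TRANS]: if F divides expand n S and all ZJ F J of weight < t vanish, then the index of Rp n c S at the
rational point Pt is at least t.

PROOF. coeff_scale: both sides are linear in f, on monomials clear (C's and X's to powers).
trans_scale: Let iota_j = toMvPowerSeries j. (Xi l)^n = C(r_l^n) * iota_last(1 + ct_l X) * iota_l(1 + X) by bs_pow
(rescale is a ring homomorphism), which is the image (coercion MvPolynomial → MvPowerSeries, a ring homomorphism) of the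
polynomial C(r_l^n) (1 + C ct_l X_last)(1 + X_l); (Xi last)^n = image of (C (1/X) + X_last)^n. aeval (Xi) (expand n S) =
aeval (Xi^n) S (`MvPolynomial.aeval_expand`?, or expand is the aeval at X_j^n) = image of the polynomial
aeval (these polynomials) S. On the other side, with U_l = r_l^n X/(X + c_l) (≠ 0), u_l = U_l for castSucc l and u_last = 1:
aeval (fun j => C (u j) * X j) (sh Pt (toQ (Rp n c S))) is S at w = (1/X + X_last)^n,
x_l = (1 + c_l (1/X + X_last)) * U_l (1 + X_l), and (1 + c_l/X + c_l X_last) U_l = r_l^n (1 + ct_l X_last) because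
U_l = r_l^n/(1 + c_l/X) and ct_l = c_l/(1 + c_l/X). All maps are ring homomorphisms: compare them on the variables
(`MvPolynomial.algHom_ext`/`ringHom_ext`). Then coeff_scale.
trans_index: coefficient J of aeval Xi (F F') = sum over antidiagonal of ZJ F p.1 * coeff p.2 (..) (map_mul,
MvPowerSeries.coeff_mul, ZJ_eq); wt d p.1 ≤ wt d J < t (wt_add, wt_nonneg in H4/AR/IxL; reprove if needed). So it is 0, and
the product of powers of u_j is not 0.
-/

namespace H37SI

open MvPolynomial H4AR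

theorem coeff_scale {M : ℕ} (u : Fin M → ℚ) (f : MvPolynomial (Fin M) ℚ) (J : Fin M →₀ ℕ) :
    (MvPolynomial.aeval (fun j => C (u j) * X j : Fin M → MvPolynomial (Fin M) ℚ) f).coeff J =
      f.coeff J * ∏ j, u j ^ (J j) := by
  classical
  induction f using MvPolynomial.induction_on' with
  | monomial e a =>
    rw [MvPolynomial.aeval_monomial, MvPolynomial.algebraMap_eq, Finsupp.prod_fintype _ _ (fun j => pow_zero _)]
    have h1 : ∏ j, (C (u j) * X j : MvPolynomial (Fin M) ℚ) ^ (e j) = C (∏ j, u j ^ (e j)) * monomial e 1 := by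
      rw [map_prod, MvPolynomial.monomial_eq (s := e), C_1, one_mul,
        Finsupp.prod_fintype _ _ (fun j => pow_zero _), ← Finset.prod_mul_distrib]
      refine Finset.prod_congr rfl fun j _ => ?_
      rw [mul_pow, C_pow]
    rw [h1, ← mul_assoc, ← C_mul, MvPolynomial.coeff_C_mul, MvPolynomial.coeff_monomial,
      MvPolynomial.coeff_monomial]
    split_ifs with h
    · rw [mul_one, h]
    · rw [mul_zero, zero_mul]
  | add p q hp hq => rw [map_add, MvPolynomial.coeff_add, MvPolynomial.coeff_add, hp, hq, add_mul]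

/-- the polynomials whose images are the n-th powers of Xi -/
private noncomputable def Qp {m : ℕ} (n X : ℕ) (c : Fin m → ℤ) (r : Fin m → ℚ) :
    Fin (m + 1) → MvPolynomial (Fin (m + 1)) ℚ :=
  Fin.snoc (fun l : Fin m => C (r l ^ n) * (1 + C (ct X c l) * MvPolynomial.X (Fin.last m)) *
      (1 + MvPolynomial.X l.castSucc))
    ((C ((X : ℚ)⁻¹) + MvPolynomial.X (Fin.last m)) ^ n)

/-- the scaling factors -/
private noncomputable def us {m : ℕ} (n X : ℕ) (c : Fin m → ℤ) (r : Fin m → ℚ) : Fin (m + 1) → ℚ :=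
  Fin.snoc (fun l : Fin m => r l ^ n * X / (X + c l)) 1

private theorem Xi_pow {m : ℕ} (n X : ℕ) (hn : 1 ≤ n) (c : Fin m → ℤ) (r : Fin m → ℚ) (j : Fin (m + 1)) :
    Xi n X c r j ^ n = ((Qp n X c r j : MvPolynomial (Fin (m + 1)) ℚ) : MvPowerSeries (Fin (m + 1)) ℚ) := by
  refine Fin.lastCases ?_ (fun l => ?_) j
  · unfold Xi Qp
    rw [Fin.snoc_last, Fin.snoc_last, map_add, PowerSeries.toMvPowerSeries_C, PowerSeries.toMvPowerSeries_X]
    push_cast
    rfl
  · unfold Xi Qp
    rw [Fin.snoc_castSucc, Fin.snoc_castSucc, mul_pow, mul_pow, ← map_pow, ← map_pow, ← map_pow, ← map_pow,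
      bs_pow n hn, map_add, map_one, PowerSeries.rescale_X, map_add, map_one, map_mul,
      PowerSeries.toMvPowerSeries_C, PowerSeries.toMvPowerSeries_X, map_add, map_one,
      PowerSeries.toMvPowerSeries_X]
    push_cast
    rfl

private theorem scale_X {m : ℕ} (n X : ℕ) (hX : 1 ≤ X) (c : Fin m → ℤ) (hc : ∀ l, (X : ℤ) + c l ≠ 0)
    (r : Fin m → ℚ) (j : Fin (m + 1)) :
    MvPolynomial.aeval (fun j => C (us n X c r j) * MvPolynomial.X j : Fin (m + 1) → MvPolynomial (Fin (m + 1)) ℚ)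
      (sh (Pt n X c r) (toQ (Rp n c (MvPolynomial.X j)))) = Qp n X c r j := by
  have hX0 : (X : ℚ) ≠ 0 := by
    have : 0 < X := hX
    exact_mod_cast this.ne'
  unfold Rp
  rw [MvPolynomial.aeval_X]
  refine Fin.lastCases ?_ (fun l => ?_) j
  · unfold Rs Qp toQ
    rw [Fin.snoc_last, Fin.snoc_last, map_pow, map_pow, map_pow, MvPolynomial.map_X, sh_X, map_add,
      MvPolynomial.aeval_X, MvPolynomial.aeval_C]
    unfold us Pt
    rw [Fin.snoc_last, Fin.snoc_last, C_1, one_mul, MvPolynomial.algebraMap_eq]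
    ring
  · unfold Rs Qp toQ
    have hcl : (X : ℚ) + c l ≠ 0 := by
      have := hc l
      exact_mod_cast this
    rw [Fin.snoc_castSucc, Fin.snoc_castSucc]
    simp only [map_mul, map_add, map_one, MvPolynomial.map_X, MvPolynomial.map_C, sh_X, sh_C,
      MvPolynomial.aeval_X, MvPolynomial.aeval_C, MvPolynomial.algebraMap_eq]
    unfold us Pt
    simp only [Fin.snoc_last, Fin.snoc_castSucc]
    have h1 : (1 + (c l : ℚ) * (X : ℚ)⁻¹) * (r l ^ n * X / (X + c l)) = r l ^ n := by
      field_simp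
    have h2 : (c l : ℚ) * (r l ^ n * X / (X + c l)) = r l ^ n * ct X c l := by
      unfold ct
      field_simp
    have h1' := congrArg (C : ℚ → MvPolynomial (Fin (m + 1)) ℚ) h1
    have h2' := congrArg (C : ℚ → MvPolynomial (Fin (m + 1)) ℚ) h2
    rw [C_mul, C_add, C_mul, C_1] at h1'
    rw [C_mul, C_mul] at h2'
    have h3 : ((Int.castRingHom ℚ) (c l)) = (c l : ℚ) := rfl
    rw [h3, C_1, one_mul]
    linear_combination (1 + MvPolynomial.X l.castSucc) * h1' +
      (1 + MvPolynomial.X l.castSucc) * MvPolynomial.X (Fin.last m) * h2'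

private theorem scale_pow {m : ℕ} (n X : ℕ) (hn : 1 ≤ n) (c : Fin m → ℤ) (r : Fin m → ℚ)
    (S : MvPolynomial (Fin (m + 1)) ℤ) :
    MvPolynomial.aeval (Xi n X c r) (MvPolynomial.expand n S) =
      ((MvPolynomial.aeval (Qp n X c r) S : MvPolynomial (Fin (m + 1)) ℚ) : MvPowerSeries (Fin (m + 1)) ℚ) := by
  induction S using MvPolynomial.induction_on with
  | C a =>
    rw [MvPolynomial.expand_C, MvPolynomial.aeval_C, MvPolynomial.aeval_C, eq_intCast, eq_intCast]
    exact (map_intCast (MvPolynomial.coeToMvPowerSeries.ringHom :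
      MvPolynomial (Fin (m + 1)) ℚ →+* MvPowerSeries (Fin (m + 1)) ℚ) a).symm
  | add p q hp hq => rw [map_add, map_add, map_add, hp, hq, MvPolynomial.coe_add]
  | mul_X p j hp =>
    rw [map_mul, map_mul, map_mul, hp, MvPolynomial.expand_X, map_pow, MvPolynomial.aeval_X,
      MvPolynomial.aeval_X, Xi_pow n X hn, MvPolynomial.coe_mul]

private theorem scale_all {m : ℕ} (n X : ℕ) (hX : 1 ≤ X) (c : Fin m → ℤ) (hc : ∀ l, (X : ℤ) + c l ≠ 0)
    (r : Fin m → ℚ) (S : MvPolynomial (Fin (m + 1)) ℤ) :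
    MvPolynomial.aeval (fun j => C (us n X c r j) * MvPolynomial.X j :
      Fin (m + 1) → MvPolynomial (Fin (m + 1)) ℚ) (sh (Pt n X c r) (toQ (Rp n c S))) =
      MvPolynomial.aeval (Qp n X c r) S := by
  induction S using MvPolynomial.induction_on with
  | C a =>
    unfold Rp toQ
    rw [MvPolynomial.aeval_C, MvPolynomial.aeval_C, eq_intCast, eq_intCast, map_intCast, map_intCast,
      map_intCast]
  | add p q hp hq =>
    unfold Rp toQ at hp hq ⊢
    rw [map_add, map_add, map_add, map_add, map_add, hp, hq]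
  | mul_X p j hp =>
    have hj := scale_X n X hX c hc r j
    unfold Rp toQ at hp hj ⊢
    rw [map_mul, map_mul, map_mul, map_mul, map_mul, hp, hj, MvPolynomial.aeval_X]

theorem trans_scale {m : ℕ} (n X : ℕ) (hn : 1 ≤ n) (hX : 1 ≤ X) (c : Fin m → ℤ) (hc : ∀ l, (X : ℤ) + c l ≠ 0)
    (r : Fin m → ℚ) (S : MvPolynomial (Fin (m + 1)) ℤ) (J : Fin (m + 1) →₀ ℕ) :
    MvPowerSeries.coeff J (MvPolynomial.aeval (Xi n X c r) (MvPolynomial.expand n S)) =
      (sh (Pt n X c r) (toQ (Rp n c S))).coeff J *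
        ∏ l : Fin m, (r l ^ n * X / (X + c l)) ^ (J l.castSucc) := by
  have h5 := scale_pow n X hn c r S
  have h6 := scale_all n X hX c hc r S
  rw [h5, MvPolynomial.coeff_coe, ← h6, coeff_scale, Fin.prod_univ_castSucc]
  unfold us
  simp only [Fin.snoc_last, Fin.snoc_castSucc, one_pow, mul_one]

theorem trans_index {m : ℕ} (n X : ℕ) (hn : 1 ≤ n) (hX : 1 ≤ X) (c : Fin m → ℤ) (hc : ∀ l, (X : ℤ) + c l ≠ 0)
    (r : Fin m → ℚ) (hr : ∀ l, 0 < r l) (F F' S : MvPolynomial (Fin (m + 1)) ℤ)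
    (hS : MvPolynomial.expand n S = F * F') (d : Fin (m + 1) → ℕ) (t : ℝ)
    (hZ : ∀ J, wt d J < t → ZJ n X c r F J = 0) (J : Fin (m + 1) →₀ ℕ) (hJ : wt d J < t) :
    (sh (Pt n X c r) (toQ (Rp n c S))).coeff J = 0 := by
  classical
  have h1 := trans_scale n X hn hX c hc r S J
  rw [hS, map_mul, MvPowerSeries.coeff_mul] at h1
  have h2 : ∑ p ∈ Finset.HasAntidiagonal.antidiagonal J, MvPowerSeries.coeff p.1 (MvPolynomial.aeval (Xi n X c r) F) *
      MvPowerSeries.coeff p.2 (MvPolynomial.aeval (Xi n X c r) F') = 0 := by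
    refine Finset.sum_eq_zero fun p hp => ?_
    rw [ZJ_eq, hZ, zero_mul]
    refine lt_of_le_of_lt ?_ hJ
    rw [← Finset.HasAntidiagonal.mem_antidiagonal.1 hp, wt_add]
    exact le_add_of_nonneg_right (wt_nonneg d _)
  rw [h2] at h1
  refine (mul_eq_zero.1 h1.symm).resolve_right ?_
  refine Finset.prod_ne_zero_iff.2 fun l _ => pow_ne_zero _ ?_
  have hX0 : (X : ℚ) ≠ 0 := by
    have : 0 < X := hX
    exact_mod_cast this.ne'
  have hcl : (X : ℚ) + c l ≠ 0 := by
    have := hc l
    exact_mod_cast this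
  exact div_ne_zero (mul_ne_zero (pow_ne_zero _ (hr l).ne') hX0) hcl

end H37SI
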