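import Pool.Agent.H37.SI.MainS
import Pool.Agent.H37.SI.MainW

/-!
H37/SI/Uni: both theorems in short intervals with the same constants and the same exceptional set.
-/

namespace H37SI

open MvPolynomial H4AR

private theorem pow_mono_int (m : ℤ) (hm : 0 ≤ m) (c C : ℕ) (hc : 1 ≤ c) (hcC : c ≤ C) : m ^ c ≤ m ^ C := by
  rcases lt_or_ge m 1 with h | h
  · have h0 : m = 0 := by omega
    rw [h0, zero_pow (by omega), zero_pow (by omega)]
  · exact pow_le_pow_right₀ h hcC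

theorem goodc_mono (n d : ℕ) (F : Polynomial ℤ) (b a T c C : ℕ) (hT : 1 ≤ T) (hcC : c ≤ C)
    (h : GoodC n d F b a T c) : GoodC n d F b a T C := by
  intro G P Q H hH hG hP hQ hco hG' hP' hQ' x y heq
  refine (h G P Q H hH hG hP hQ hco hG' hP' hQ' x y heq).trans ?_
  refine pow_le_pow_right₀ ?_ hcC
  have h1 : (1 : ℤ) ≤ T := by exact_mod_cast hT
  have h2 : (1 : ℤ) ≤ H := by exact_mod_cast hH
  nlinarith

theorem goodw_mono (n d : ℕ) (F : Polynomial ℤ) (b a T c C : ℕ) (S : Finset ℕ) (hT : 1 ≤ T) (hc : 1 ≤ c)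
    (hcC : c ≤ C) (h : GoodW n d F b a T c S) : GoodW n d F b a T C S := by
  intro G P Q H hH hG hP hQ hco hG' hP' hQ' x y heq
  have hm : 0 ≤ max |x| |y| := (abs_nonneg x).trans (le_max_left _ _)
  rcases h G P Q H hH hG hP hQ hco hG' hP' hQ' x y heq with h1 | ⟨M, hM, h1, h2⟩
  · left
    refine h1.trans ?_
    refine pow_le_pow_right₀ ?_ hcC
    have h1 : (1 : ℤ) ≤ T := by exact_mod_cast hT
    have h2 : (1 : ℤ) ≤ H := by exact_mod_cast hH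
    nlinarith
  · right
    exact ⟨M, hM, h1.trans (pow_mono_int _ hm c C hc hcC),
      h2.trans (pow_mono_int _ (Int.natCast_nonneg M) c C hc hcC)⟩

theorem main_uni (n d : ℕ) (hn : 2 ≤ n) (hd : 1 ≤ d) (F : Polynomial ℤ) (hnD : 3 ≤ n * F.natDegree)
    (hF0 : F.coeff 0 ≠ 0) (hsq : Squarefree (F.map (Int.castRingHom ℚ))) :
    ∃ (C J : ℕ) (del : ℝ), 0 < del ∧ ∀ X : ℕ, C ≤ X → ∀ b : ℕ, 1 ≤ b → b ≤ X ^ 2 →
      ∃ E S : Finset ℕ, E.card ≤ J ∧ S.card ≤ J ∧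
        ∀ a : ℕ, X ≤ a → (a : ℝ) ≤ X + (X : ℝ) ^ del → a ∉ E →
          GoodW n d F b a X C S ∧ (5 ≤ n * F.natDegree → GoodC n d F b a X C) := by
  classical
  obtain ⟨C1, J1, del1, hC1, hdel1, -, h1⟩ := main_win n d hn hd F hnD hF0 hsq
  have h2 : ∃ (C J : ℕ) (del : ℝ), 0 < del ∧ ∀ X : ℕ, C ≤ X → ∀ b : ℕ, 1 ≤ b → b ≤ X ^ 2 →
      ∃ E : Finset ℕ, E.card ≤ J ∧
        ∀ a : ℕ, X ≤ a → (a : ℝ) ≤ X + (X : ℝ) ^ del → a ∉ E →
          (5 ≤ n * F.natDegree → GoodC n d F b a X C) := by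
    by_cases h5 : 5 ≤ n * F.natDegree
    · obtain ⟨C, J, del, -, hdel, -, h⟩ := main_short n d hn hd F h5 hF0 hsq
      refine ⟨C, J, del, hdel, fun X hX b hb hbX => ?_⟩
      obtain ⟨E, hE, h⟩ := h X hX b hb hbX
      exact ⟨E, hE, fun a ha1 ha2 ha3 _ => h a ha1 ha2 ha3⟩
    · exact ⟨0, 0, 1, one_pos, fun X _ b _ _ => ⟨∅, by simp, fun a _ _ _ h => absurd h h5⟩⟩
  obtain ⟨C2, J2, del2, hdel2, h2⟩ := h2
  refine ⟨C1 + C2, J1 + J2, min del1 del2, lt_min hdel1 hdel2, fun X hX b hb hbX => ?_⟩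
  have hX1 : 1 ≤ X := by omega
  obtain ⟨E1, S, hE1, hS, g1⟩ := h1 X (by omega) b hb hbX
  obtain ⟨E2, hE2, g2⟩ := h2 X (by omega) b hb hbX
  refine ⟨E1 ∪ E2, S, (Finset.card_union_le _ _).trans (by omega), by omega, fun a ha1 ha2 ha3 => ?_⟩
  rw [Finset.mem_union, not_or] at ha3
  have hX1R : (1 : ℝ) ≤ X := by exact_mod_cast hX1
  have e1 : (X : ℝ) ^ (min del1 del2) ≤ (X : ℝ) ^ del1 :=
    Real.rpow_le_rpow_of_exponent_le hX1R (min_le_left _ _)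
  have e2 : (X : ℝ) ^ (min del1 del2) ≤ (X : ℝ) ^ del2 :=
    Real.rpow_le_rpow_of_exponent_le hX1R (min_le_right _ _)
  exact ⟨goodw_mono n d F b a X C1 _ S hX1 hC1 (by omega) (g1 a ha1 (by linarith) ha3.1),
    fun h5 => goodc_mono n d F b a X C2 _ hX1 (by omega) (g2 a ha1 (by linarith) ha3.2 h5)⟩

end H37SI
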