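import Mathlib

/-!
H37/SI/UnkC [UNKC]: number of exponents e ≤ d with n1 dividing the sum of the first m coordinates (Fin (m+1), m ≥ 1; the last
coordinate does not enter the sum).

PROOF. For every choice of the coordinates j ≠ 0 the number of e_0 in [0, d 0] with e_0 congruent to a given residue mod n1 is at
least (d 0 + 1)/n1 (natural number division; `Nat.count_modEq_card`, or: every block of n1 consecutive integers contains one),
and n1 * ((d 0 + 1)/n1) ≥ d 0 + 1 - (n1 - 1) ≥ d 0 + 1 - n1. 0 = castSucc 0 as m ≥ 1, so e_0 occurs in the sum with coefficient 1.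
Sum over the choices of the other coordinates: their number is prod_{j ≠ 0} (d j + 1). (Fiberwise count:
`Finset.card_eq_sum_card_fiberwise` for the map forgetting the coordinate 0, or an injection from
piFinset over the other coordinates × Fin ((d 0+1)/n1).)
-/

namespace H37SI

theorem unk_count (n1 m : ℕ) (hn1 : 1 ≤ n1) (hm : 1 ≤ m) (d : Fin (m + 1) → ℕ) :
    ((d 0 : ℝ) + 1 - n1) * ∏ j ∈ Finset.univ.erase (0 : Fin (m + 1)), ((d j : ℝ) + 1) ≤
      n1 * (((Fintype.piFinset fun j : Fin (m + 1) => Finset.range (d j + 1)).filter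
        (fun e : Fin (m + 1) → ℕ => n1 ∣ ∑ l : Fin m, e l.castSucc)).card : ℝ) := by
  classical
  obtain ⟨m, rfl⟩ : ∃ k, m = k + 1 := ⟨m - 1, by omega⟩
  obtain ⟨F, hF⟩ : ∃ F : Finset (Fin (m + 1 + 1) → ℕ), F =
      (Fintype.piFinset fun j : Fin (m + 1 + 1) => Finset.range (d j + 1)).filter
        (fun e : Fin (m + 1 + 1) → ℕ => n1 ∣ ∑ l : Fin (m + 1), e l.castSucc) := ⟨_, rfl⟩
  rw [← hF]
  obtain ⟨G, hG⟩ : ∃ G : Finset (Fin (m + 1) → ℕ), G =
      Fintype.piFinset fun j : Fin (m + 1) => Finset.range (d j.succ + 1) := ⟨_, rfl⟩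
  -- the residue
  obtain ⟨r, hr⟩ : ∃ r : (Fin (m + 1) → ℕ) → ℕ, r = fun e' =>
      (n1 - (∑ l : Fin m, e' l.castSucc) % n1) % n1 := ⟨_, rfl⟩
  have hr1 : ∀ e', r e' < n1 := fun e' => by
    rw [hr]
    exact Nat.mod_lt _ hn1
  have hr2 : ∀ e', n1 ∣ r e' + ∑ l : Fin m, e' l.castSucc := by
    intro e'
    rw [hr]
    simp only
    obtain ⟨q, hq⟩ : ∃ q, q = ∑ l : Fin m, e' l.castSucc := ⟨_, rfl⟩
    rw [← hq]
    have h1 : q % n1 < n1 := Nat.mod_lt _ hn1
    have h2 := Nat.mod_add_div q n1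
    have h3 := Nat.mod_add_div (n1 - q % n1) n1
    refine (Nat.dvd_add_right (Dvd.intro ((n1 - q % n1) / n1) rfl)).1 ?_
    have h4 : n1 * ((n1 - q % n1) / n1) + ((n1 - q % n1) % n1 + q) = n1 * (1 + q / n1) := by
      rw [mul_add, mul_one]
      omega
    rw [h4]
    exact Dvd.intro _ rfl
  have hcard : ((d 0 + 1) / n1) * G.card ≤ F.card := by
    have h1 : (Finset.range ((d 0 + 1) / n1) ×ˢ G).card ≤ F.card := by
      refine Finset.card_le_card_of_injOn
        (fun y => (Fin.cons (n1 * y.1 + r y.2) y.2 : Fin (m + 1 + 1) → ℕ)) ?_ ?_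
      · rintro ⟨k, e'⟩ hy
        rw [Finset.mem_coe, Finset.mem_product, Finset.mem_range, hG, Fintype.mem_piFinset] at hy
        obtain ⟨hk, he'⟩ := hy
        simp only at hk he'
        rw [Finset.mem_coe, hF, Finset.mem_filter, Fintype.mem_piFinset]
        change (∀ a, (Fin.cons (n1 * k + r e') e' : Fin (m + 1 + 1) → ℕ) a ∈
          Finset.range (d a + 1)) ∧ n1 ∣ ∑ l : Fin (m + 1),
            (Fin.cons (n1 * k + r e') e' : Fin (m + 1 + 1) → ℕ) l.castSucc
        constructor
        · intro j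
          refine Fin.cases ?_ (fun j => ?_) j
          · rw [Fin.cons_zero, Finset.mem_range]
            have h2 : n1 * ((d 0 + 1) / n1) ≤ d 0 + 1 := Nat.mul_div_le _ _
            have h3 : n1 * (k + 1) ≤ n1 * ((d 0 + 1) / n1) := Nat.mul_le_mul_left _ hk
            have h4 := hr1 e'
            rw [mul_add, mul_one] at h3
            omega
          · rw [Fin.cons_succ]
            exact he' j
        · rw [Fin.sum_univ_succ]
          have h2 : ∀ l : Fin m, (Fin.cons (n1 * k + r e') e' : Fin (m + 1 + 1) → ℕ)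
              l.succ.castSucc = e' l.castSucc := by
            intro l
            rw [← Fin.succ_castSucc, Fin.cons_succ]
          rw [Finset.sum_congr rfl fun l _ => h2 l, Fin.castSucc_zero, Fin.cons_zero, add_assoc]
          exact dvd_add (Dvd.intro _ rfl) (hr2 e')
      · rintro ⟨k, e'⟩ hy ⟨k', e''⟩ hy' h
        simp only at h
        have h1 := Fin.cons_inj.1 h
        obtain ⟨h2, rfl⟩ := h1
        have h3 : k = k' := by
          have h4 : n1 * k = n1 * k' := by omega
          exact Nat.eq_of_mul_eq_mul_left hn1 h4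
        rw [h3]
    rwa [Finset.card_product, Finset.card_range] at h1
  have hGc : (G.card : ℝ) = ∏ j ∈ Finset.univ.erase (0 : Fin (m + 1 + 1)), ((d j : ℝ) + 1) := by
    rw [hG, Fintype.card_piFinset]
    push_cast
    have h1 : ∏ j ∈ Finset.univ.erase (0 : Fin (m + 1 + 1)), ((d j : ℝ) + 1) =
        ∏ j : Fin (m + 1), ((d j.succ : ℝ) + 1) := by
      have h2 : Finset.univ.erase (0 : Fin (m + 1 + 1)) =
          Finset.univ.map ⟨Fin.succ, Fin.succ_injective _⟩ := by
        ext j
        simp only [Finset.mem_erase, Finset.mem_univ, and_true, Finset.mem_map,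
          Function.Embedding.coeFn_mk, true_and]
        constructor
        · intro hj
          exact Fin.exists_succ_eq.2 hj
        · rintro ⟨i, rfl⟩
          exact Fin.succ_ne_zero i
      rw [h2, Finset.prod_map]
      rfl
    rw [h1]
    refine Finset.prod_congr rfl fun j _ => ?_
    rw [Finset.card_range]
    push_cast
    rfl
  rw [← hGc]
  have h1 : (d 0 : ℝ) + 1 - n1 ≤ n1 * (((d 0 + 1) / n1 : ℕ) : ℝ) := by
    have h2 : d 0 + 1 < n1 * ((d 0 + 1) / n1) + n1 := by
      have h3 := Nat.mod_add_div (d 0 + 1) n1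
      have h4 := Nat.mod_lt (d 0 + 1) (show 0 < n1 from hn1)
      omega
    have h3 : ((d 0 + 1 : ℕ) : ℝ) < ((n1 * ((d 0 + 1) / n1) + n1 : ℕ) : ℝ) := by exact_mod_cast h2
    push_cast at h3 ⊢
    linarith
  calc ((d 0 : ℝ) + 1 - n1) * G.card ≤ (n1 * (((d 0 + 1) / n1 : ℕ) : ℝ)) * G.card :=
        mul_le_mul_of_nonneg_right h1 (Nat.cast_nonneg _)
    _ = n1 * ((((d 0 + 1) / n1) * G.card : ℕ) : ℝ) := by
        push_cast
        ring
    _ ≤ n1 * (F.card : ℝ) := mul_le_mul_of_nonneg_left (by exact_mod_cast hcard) (Nat.cast_nonneg _)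

end H37SI
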