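import Pool.Agent.H46.SG.Ded

/-!
# ALL OF SIEGEL: an `l`-divisible element is an `l`-th power times an element prime to a given element
-/

namespace Pool.Agent.H37.SI

open IsDedekindDomain IsDedekindDomain.HeightOneSpectrum

open Pool.Agent.H46.SG (exists_ideal_pow exists_coprime_ideal)

/-- `B` a Dedekind domain, `φ` all of whose exponents are divisible by `l`, `J ≠ 0` in `B`: there is
`r = φ s ^ l` in `B`, prime to `J`. -/
theorem exists_unit_rep {B : Type*} [CommRing B] [IsDedekindDomain B] {K : Type*} [Field K]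
    [Algebra B K] [IsFractionRing B K] (l : ℕ) (hl : 1 ≤ l) (φ : K) (hφ : φ ≠ 0)
    (h : ∀ V : ValuationSubring K, (∀ b : B, algebraMap B K b ∈ V) →
      ∃ w : K, w ≠ 0 ∧ φ * w ^ l ∈ V ∧ (φ * w ^ l)⁻¹ ∈ V) (J : B) (hJ : J ≠ 0) :
    ∃ (s : K) (r α β : B), s ≠ 0 ∧ algebraMap B K r = φ * s ^ l ∧ α * r + β * J = 1 := by
  have hinj : Function.Injective (algebraMap B K) := IsFractionRing.injective B K
  obtain ⟨a0, b0, hb0, hab⟩ := IsFractionRing.div_surjective (A := B) φ
  have hb0' : (b0 : B) ≠ 0 := nonZeroDivisors.ne_zero hb0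
  have hbK : algebraMap B K b0 ≠ 0 := fun h0 => hb0' (hinj (by rw [h0, map_zero]))
  set r : B := a0 * b0 ^ (l - 1) with hr
  have hrK : algebraMap B K r = φ * (algebraMap B K b0) ^ l := by
    obtain ⟨m, rfl⟩ : ∃ m, l = m + 1 := ⟨l - 1, by omega⟩
    rw [hr, ← hab, map_mul, map_pow, Nat.add_sub_cancel, pow_succ]
    field_simp
  have hr0 : r ≠ 0 := by
    rintro h0
    rw [h0, map_zero] at hrK
    exact (mul_ne_zero hφ (pow_ne_zero _ hbK)) hrK.symm
  -- divisibility of the exponents
  have hdiv : ∀ v : HeightOneSpectrum B,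
      l ∣ (Associates.mk v.asIdeal).count (Associates.mk (Ideal.span {r})).factors := by
    intro v
    obtain ⟨w, hw0, hw1, hw2⟩ := h (v.valuation K).valuationSubring (by
      intro b
      rw [Valuation.mem_valuationSubring_iff]
      exact v.valuation_le_one b)
    rw [Valuation.mem_valuationSubring_iff] at hw1 hw2
    have h1 : v.valuation K (φ * w ^ l) = 1 := by
      refine le_antisymm hw1 ?_
      rw [map_inv₀] at hw2
      have hne : v.valuation K (φ * w ^ l) ≠ 0 := by
        rw [Valuation.ne_zero_iff]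
        exact mul_ne_zero hφ (pow_ne_zero _ hw0)
      rwa [inv_le_one₀ (zero_lt_iff.mpr hne)] at hw2
    have h2 : v.intValuation r * (v.valuation K (w / algebraMap B K b0)) ^ l = 1 := by
      have h20 : v.valuation K (algebraMap B K r) = v.intValuation r :=
        v.valuation_of_algebraMap r
      rw [← h20, hrK, ← Valuation.map_pow, ← Valuation.map_mul, ← h1]
      congr 1
      rw [mul_assoc, ← mul_pow, mul_div_cancel₀ _ hbK]
    have hx0 : v.valuation K (w / algebraMap B K b0) ≠ 0 := by
      rw [Valuation.ne_zero_iff]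
      exact div_ne_zero hw0 hbK
    obtain ⟨n, hn⟩ : ∃ n : ℤ, v.valuation K (w / algebraMap B K b0) = WithZero.exp n :=
      ⟨_, (WithZero.exp_log hx0).symm⟩
    rw [v.intValuation_if_neg hr0, hn, ← WithZero.exp_nsmul, ← WithZero.exp_add,
      ← WithZero.exp_zero, WithZero.exp_inj] at h2
    have h3 : ((Associates.mk v.asIdeal).count (Associates.mk (Ideal.span {r})).factors : ℤ)
        = l * n := by
      rw [nsmul_eq_mul] at h2
      linarith
    have h4 : (l : ℤ) ∣
        ((Associates.mk v.asIdeal).count (Associates.mk (Ideal.span {r})).factors : ℤ) :=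
      ⟨n, h3⟩
    exact_mod_cast h4
  obtain ⟨I, hI⟩ := exists_ideal_pow l r hr0 hdiv
  have hI0 : I ≠ ⊥ := by
    rintro rfl
    have : Ideal.span {r} = (⊥ : Ideal B) := by
      rw [hI]
      exact zero_pow (by omega)
    exact hr0 (Ideal.span_singleton_eq_bot.mp this)
  have hJ' : Ideal.span {J} ≠ (⊥ : Ideal B) := by
    rw [Ne, Ideal.span_singleton_eq_bot]
    exact hJ
  have hIJ0 : I * Ideal.span {J} ≠ ⊥ := by
    intro h0
    rcases mul_eq_zero.mp h0 with h1 | h1
    · exact hI0 h1
    · exact hJ' h1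
  obtain ⟨c, d, I', hc, hd, hcd, hco⟩ := exists_coprime_ideal (I * Ideal.span {J}) hIJ0
  have hpow : Ideal.span {(d * J) ^ l * r} = Ideal.span {c ^ l} * I' ^ l := by
    have h1 : Ideal.span {(d * J) ^ l * r} =
        (Ideal.span {d} * (I * Ideal.span {J})) ^ l := by
      have h2 : (Ideal.span {d} * (I * Ideal.span {J})) ^ l =
          Ideal.span {d} ^ l * (I ^ l * Ideal.span {J} ^ l) := by rw [mul_pow, mul_pow]
      rw [h2, ← hI, Ideal.span_singleton_pow, Ideal.span_singleton_pow,
        Ideal.span_singleton_mul_span_singleton, Ideal.span_singleton_mul_span_singleton]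
      have h3 : (d * J) ^ l * r = d ^ l * (r * J ^ l) := by rw [mul_pow]; ring
      rw [h3]
    rw [h1, hcd, mul_pow, Ideal.span_singleton_pow]
  obtain ⟨ρ', hρ'⟩ : c ^ l ∣ (d * J) ^ l * r := by
    rw [← Ideal.span_singleton_le_span_singleton, hpow]
    exact Ideal.mul_le_left
  have hI'l : Ideal.span {ρ'} = I' ^ l := by
    have hcl : Ideal.span {c ^ l} ≠ (0 : Ideal B) := by
      simpa [Ideal.span_singleton_eq_bot] using pow_ne_zero l hc
    apply mul_left_cancel₀ hcl
    rw [← hpow, hρ', Ideal.span_singleton_mul_span_singleton]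
  have hcop : IsCoprime (Ideal.span {ρ'}) (Ideal.span {J}) := by
    rw [hI'l]
    apply IsCoprime.pow_left
    rw [Ideal.isCoprime_iff_sup_eq, sup_comm, eq_top_iff, ← hco]
    exact sup_le_sup_right Ideal.mul_le_right _
  rw [Ideal.isCoprime_span_singleton_iff] at hcop
  obtain ⟨α, β, hαβ⟩ := hcop
  have hcK : algebraMap B K c ≠ 0 := fun h0 => hc (hinj (by rw [h0, map_zero]))
  have hdK : algebraMap B K d ≠ 0 := fun h0 => hd (hinj (by rw [h0, map_zero]))
  have hJK : algebraMap B K J ≠ 0 := fun h0 => hJ (hinj (by rw [h0, map_zero]))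
  refine ⟨algebraMap B K b0 * (algebraMap B K d * algebraMap B K J / algebraMap B K c), ρ', α, β,
    mul_ne_zero hbK (div_ne_zero (mul_ne_zero hdK hJK) hcK), ?_, hαβ⟩
  have h5 : (algebraMap B K d * algebraMap B K J) ^ l * algebraMap B K r =
      (algebraMap B K c) ^ l * algebraMap B K ρ' := by
    rw [← map_mul, ← map_pow, ← map_pow, ← map_mul, ← map_mul, hρ']
  rw [hrK] at h5
  have h6 : (algebraMap B K c) ^ l ≠ 0 := pow_ne_zero _ hcK
  apply mul_left_cancel₀ h6
  rw [← h5]
  have h7 : (algebraMap B K b0 * (algebraMap B K d * algebraMap B K J / algebraMap B K c)) ^ l =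
      algebraMap B K b0 ^ l * (algebraMap B K d * algebraMap B K J) ^ l / algebraMap B K c ^ l := by
    rw [mul_pow, div_pow, mul_div_assoc]
  rw [h7]
  field_simp

end Pool.Agent.H37.SI
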