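import Mathlib

/-!
H37/SI/Vol3 [VOL3]: volume condition for kappa = 11/4 > e.

PROOF. As vol in Pool/Agent/H37/SI/Chain.lean (where 4 stands for 11/4): (m+1)^(m+1)/(m+1)! ≤ exp(m+1), and
N e^(m+1) < (11/4)^m for m large because e < 2.7182818286 < 2.75 (`Real.exp_one_lt_d9`).
-/

namespace H37SI

theorem vol3 (N : ℕ) : ∃ m : ℕ, 1 ≤ m ∧
    (N : ℝ) * ((m : ℝ) + 1) ^ (m + 1) < ((m + 1).factorial : ℝ) * ((11 : ℝ) / 4) ^ m := by
  have he : Real.exp 1 < 11 / 4 := by linarith [Real.exp_one_lt_d9]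
  have h1 : 1 < (11 / 4) / Real.exp 1 := by
    rw [lt_div_iff₀ (Real.exp_pos _)]
    linarith
  obtain ⟨m, hm⟩ := pow_unbounded_of_one_lt ((N : ℝ) * Real.exp 1) h1
  refine ⟨m + 1, by omega, ?_⟩
  have h2 : (N : ℝ) * Real.exp 1 < ((11 / 4) / Real.exp 1) ^ (m + 1) := by
    refine hm.trans_le ?_
    exact pow_le_pow_right₀ h1.le (by omega)
  have h3 := Real.pow_div_factorial_le_exp (((m + 1 : ℕ) : ℝ) + 1) (by positivity) (m + 1 + 1)
  have hf : (0 : ℝ) < ((m + 1 + 1).factorial : ℝ) := by exact_mod_cast Nat.factorial_pos _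
  rw [div_le_iff₀ hf] at h3
  have h4 : Real.exp (((m + 1 : ℕ) : ℝ) + 1) = Real.exp 1 ^ (m + 1) * Real.exp 1 := by
    rw [Real.exp_add, ← Real.exp_nat_mul, mul_one]
  rw [h4] at h3
  rw [div_pow, lt_div_iff₀ (by positivity)] at h2
  calc (N : ℝ) * (((m + 1 : ℕ) : ℝ) + 1) ^ (m + 1 + 1)
      ≤ N * (Real.exp 1 ^ (m + 1) * Real.exp 1 * ((m + 1 + 1).factorial : ℝ)) :=
        mul_le_mul_of_nonneg_left h3 (Nat.cast_nonneg _)
    _ = ((m + 1 + 1).factorial : ℝ) * (N * Real.exp 1 * Real.exp 1 ^ (m + 1)) := by ring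
    _ < ((m + 1 + 1).factorial : ℝ) * (11 / 4 : ℝ) ^ (m + 1) := mul_lt_mul_of_pos_left h2 hf

end H37SI
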