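import Pool.Agent.H37.SI.Prp
import Pool.Agent.H37.SI.Vol3
import Pool.Agent.H4.AR.Close
import Pool.Agent.H4.AR.AlgD

/-!
H37/SI/WinN [WINN]: exponent 14/5: all exceptional approximations to all the numbers (th a/b)^(1/n), a in a short interval, have
heights in at most J windows.

PROOF. alg_data: D, c0, B, w for P, th. vol3 with N = n D: m. prp with n, n1 = n, m, D, kap := 11/4: C2, del. J = m, C large,
C ≥ C2. Let HH = set of the heights ht r (natural numbers, as max of |num| and den) of all r with Exc n b a th (14/5) (X^C) r for some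
a in the interval. Greedy: M_1 = min HH, M_(i+1) = min of the h in HH with h > M_i^C, as long as it exists; S = the set of the M_i.
Suppose that M_1, ..., M_m exist. For i < m: log M_(i+1) > C log M_i. Let r_l be a rational with ht r_l = M_(m-l) (l : Fin m,
the largest height first), a_l its a. prp with X, b, c_l = a_l - X (0 ≤ c_l ≤ X^del), xi = (th X/b)^(1/n), xi^n b = th X:
heights ≥ X^C; |r_l - xi (1+c_l/X)^(1/n)| : xi (1+c/X)^(1/n) = (th a/b)^(1/n); `close` with T := X^2 (b ≤ X^2, a ≤ 2X ≤ X^2,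
1/X^2 ≤ th ≤ X^2): ≤ exp(-(14/5 h - 4 log X)) ≤ exp(-(11/4) h), h = log ht r_l ≥ C log X ≥ 80 log X. Contradiction. So the
process stops after fewer than m steps: card S ≤ m, and every h in HH satisfies M_i ≤ h ≤ M_i^C for some i.
(Formally: by induction on k: either HH is covered by k windows [M, M^C], M in HH, or there are k+1 elements of HH, each
larger than the C-th power of the previous one.)
-/

namespace H37SI

open H4AR

/-- greedy windows -/
private theorem win_greedy (C : ℕ) (k : ℕ) : ∀ HH : Set ℕ,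
    (∃ S : Finset ℕ, S.card ≤ k ∧ ∀ h ∈ HH, ∃ M ∈ S, M ≤ h ∧ h ≤ M ^ C) ∨
    (∃ f : Fin (k + 1) → ℕ, (∀ i, f i ∈ HH) ∧ ∀ i j, i < j → (f j) ^ C < f i) := by
  classical
  induction k with
  | zero =>
    intro HH
    rcases HH.eq_empty_or_nonempty with h | ⟨a, ha⟩
    · left
      exact ⟨∅, le_refl _, by rw [h]; simp⟩
    · right
      refine ⟨fun _ => a, fun _ => ha, ?_⟩
      intro i j hij
      exfalso
      have h1 : i.val < 1 := i.isLt
      have h2 : j.val < 1 := j.isLt
      have h3 : i.val < j.val := hij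
      omega
  | succ k ih =>
    intro HH
    rcases HH.eq_empty_or_nonempty with h | hne
    · left
      exact ⟨∅, Nat.zero_le _, by rw [h]; simp⟩
    · obtain ⟨M, hM, hMmin⟩ : ∃ M ∈ HH, ∀ h ∈ HH, M ≤ h :=
        ⟨sInf HH, Nat.sInf_mem hne, fun h hh => Nat.sInf_le hh⟩
      rcases ih {h | h ∈ HH ∧ M ^ C < h} with ⟨S, hS, hcov⟩ | ⟨f, hf1, hf2⟩
      · left
        refine ⟨insert M S, (Finset.card_insert_le _ _).trans (by omega), ?_⟩
        intro h hh
        by_cases h1 : M ^ C < h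
        · obtain ⟨M', hM', h2⟩ := hcov h ⟨hh, h1⟩
          exact ⟨M', Finset.mem_insert_of_mem hM', h2⟩
        · exact ⟨M, Finset.mem_insert_self _ _, hMmin h hh, not_lt.1 h1⟩
      · right
        refine ⟨Fin.snoc (α := fun _ => ℕ) f M, ?_, ?_⟩
        · intro i
          refine Fin.lastCases ?_ (fun i => ?_) i
          · rw [Fin.snoc_last]; exact hM
          · rw [Fin.snoc_castSucc]; exact (hf1 i).1
        · intro i j
          refine Fin.lastCases ?_ (fun i => ?_) i
          · intro hij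
            exact absurd hij (not_lt.2 (Fin.le_last j))
          · refine Fin.lastCases ?_ (fun j => ?_) j
            · intro _
              rw [Fin.snoc_last, Fin.snoc_castSucc]
              exact (hf1 i).2
            · intro hij
              rw [Fin.snoc_castSucc, Fin.snoc_castSucc]
              exact hf2 i j (by simpa using hij)

private theorem win_ht (r : ℚ) : ht r = ((max r.num.natAbs r.den : ℕ) : ℝ) := by
  unfold ht
  push_cast
  rw [Nat.cast_natAbs, Int.cast_abs]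

theorem win_short (n : ℕ) (hn : 1 ≤ n) (P : Polynomial ℤ) (hP : P ≠ 0) (th : ℝ) (hth : 0 < th)
    (hroot : Polynomial.aeval th P = 0) :
    ∃ (C J : ℕ) (del : ℝ), 1 ≤ C ∧ 0 < del ∧ ∀ X b : ℕ, C ≤ X → 1 ≤ b → b ≤ X ^ 2 →
      ∃ S : Finset ℕ, S.card ≤ J ∧ ∀ a : ℕ, X ≤ a → (a : ℝ) ≤ X + (X : ℝ) ^ del → ∀ r : ℚ,
        Exc n b a th (14 / 5) ((X : ℝ) ^ C) r → ∃ M ∈ S, (M : ℝ) ≤ ht r ∧ ht r ≤ (M : ℝ) ^ C := by
  obtain ⟨D, c0, B, w, hD, hc0, hB, hcB, hw, hwB⟩ := alg_data P hP th hroot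
  obtain ⟨m, hm, hvol⟩ := vol3 (n * D)
  obtain ⟨C2, del2, hC2, hdel2, Hprp⟩ := prp n n m D hn hn hm hD (11 / 4) (by norm_num)
    (by have h := hvol; push_cast at h; exact h) th hth c0 hc0 B hB hcB w hw hwB
  obtain ⟨k, rfl⟩ : ∃ k, m = k + 1 := ⟨m - 1, by omega⟩
  refine ⟨C2 + 80 + ⌈th⌉₊ + ⌈1 / th⌉₊, k, min del2 1, by omega, lt_min hdel2 one_pos, ?_⟩
  set C : ℕ := C2 + 80 + ⌈th⌉₊ + ⌈1 / th⌉₊ with hCdef
  set del : ℝ := min del2 1 with hdel
  have hd2 : del ≤ del2 := min_le_left _ _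
  have hd3 : del ≤ 1 := min_le_right _ _
  intro X b hX hb hbX
  have hXC : (C : ℝ) ≤ X := by exact_mod_cast hX
  have hX2n : 2 ≤ X := by omega
  have hX2 : (2 : ℝ) ≤ X := by exact_mod_cast hX2n
  have hX0 : (0 : ℝ) < X := by linarith
  have hX1 : (1 : ℝ) ≤ X := by linarith
  have hXth : th ≤ X := by
    have h1 : th ≤ (⌈th⌉₊ : ℝ) := Nat.le_ceil th
    have h2 : ((⌈th⌉₊ : ℕ) : ℝ) ≤ C := by exact_mod_cast (show ⌈th⌉₊ ≤ C by omega)
    linarith
  have hXth' : 1 / th ≤ X := by
    have h1 : 1 / th ≤ (⌈1 / th⌉₊ : ℝ) := Nat.le_ceil _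
    have h2 : ((⌈1 / th⌉₊ : ℕ) : ℝ) ≤ C := by exact_mod_cast (show ⌈1 / th⌉₊ ≤ C by omega)
    linarith
  have hC80 : (80 : ℝ) ≤ C := by exact_mod_cast (show 80 ≤ C by omega)
  have hlogX : 0 < Real.log X := Real.log_pos (by linarith)
  have hXX : (X : ℝ) ≤ (X : ℝ) ^ 2 := by nlinarith
  have hpow : ∀ e : ℝ, del ≤ e → (X : ℝ) ^ del ≤ (X : ℝ) ^ e := fun e he =>
    Real.rpow_le_rpow_of_exponent_le hX1 he
  rcases win_greedy C k {h : ℕ | ∃ a : ℕ, X ≤ a ∧ (a : ℝ) ≤ X + (X : ℝ) ^ del ∧ ∃ r : ℚ,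
      Exc n b a th (14 / 5) ((X : ℝ) ^ C) r ∧ ht r = (h : ℝ)} with ⟨S, hS, hcov⟩ | ⟨f, hf1, hf2⟩
  · refine ⟨S, hS, ?_⟩
    intro a haX ha r hr
    obtain ⟨M, hM, h1, h2⟩ := hcov (max r.num.natAbs r.den) ⟨a, haX, ha, r, hr, win_ht r⟩
    refine ⟨M, hM, ?_, ?_⟩
    · rw [win_ht]; exact_mod_cast h1
    · rw [win_ht]; exact_mod_cast h2
  · exfalso
    choose a haX ha r hr hrf using hf1
    have hhtpos : ∀ i, 0 < ht (r i) := fun i => lt_of_lt_of_le one_pos (one_le_ht (r i))
    have hlog : ∀ i, (C : ℝ) * Real.log X ≤ Real.log (ht (r i)) := by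
      intro i
      rw [← Real.log_pow]
      exact Real.log_le_log (by positivity) (hr i).2.1
    have hb1 : (1 : ℝ) ≤ b := by exact_mod_cast hb
    have hb0 : (0 : ℝ) < b := by linarith
    have hq : 0 < th * X / b := by positivity
    have hn0 : (n : ℝ) ≠ 0 := by
      have : 0 < n := by omega
      exact_mod_cast this.ne'
    have hC2C : (C2 : ℝ) ≤ C := by exact_mod_cast (show C2 ≤ C by omega)
    refine Hprp X b (by omega) hb hbX (fun l => (a l : ℤ) - X) ?_
      ((th * X / b) ^ ((1 : ℝ) / n)) (Real.rpow_pos_of_pos hq _) ?_ r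
      (fun l => (hr l).1) ?_ ?_ ?_
    · intro l
      have h2 : (X : ℝ) ≤ a l := by exact_mod_cast haX l
      push_cast
      rw [abs_of_nonneg (by linarith)]
      linarith [hpow del2 hd2, ha l]
    · rw [← Real.rpow_natCast, ← Real.rpow_mul hq.le, one_div, inv_mul_cancel₀ hn0, Real.rpow_one]
      field_simp
    · intro l
      refine le_trans ?_ (hlog l)
      exact mul_le_mul_of_nonneg_right hC2C hlogX.le
    · intro i j hij
      have h1 := hf2 i j hij
      have h2 : ((f j : ℕ) : ℝ) ^ C ≤ (f i : ℝ) := by exact_mod_cast h1.le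
      rw [← hrf, ← hrf] at h2
      have h3 : (C : ℝ) * Real.log (ht (r j)) ≤ Real.log (ht (r i)) := by
        rw [← Real.log_pow]
        exact Real.log_le_log (pow_pos (hhtpos j) _) h2
      refine le_trans ?_ h3
      exact mul_le_mul_of_nonneg_right hC2C (Real.log_nonneg (one_le_ht _))
    · intro l
      have haX' : (X : ℝ) ≤ a l := by exact_mod_cast haX l
      have ha0 : (0 : ℝ) < a l := by linarith
      have haX2 : (a l : ℝ) ≤ (X : ℝ) ^ 2 := by
        have h1 := hpow 1 hd3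
        rw [Real.rpow_one] at h1
        nlinarith [ha l]
      have e1 : (1 + (((a l : ℤ) - (X : ℤ) : ℤ) : ℝ) / X) = a l / X := by
        push_cast
        field_simp
        ring
      have e2 : (th * X / b) ^ ((1 : ℝ) / n) * (1 + (((a l : ℤ) - (X : ℤ) : ℤ) : ℝ) / X) ^ ((1 : ℝ) / n) =
          (th * (a l : ℝ) / b) ^ ((1 : ℝ) / n) := by
        rw [e1, ← Real.mul_rpow hq.le (by positivity)]
        congr 1
        field_simp
      have hal1 : 1 ≤ a l := by
        have := haX l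
        omega
      have hcl := close n b (a l) (X ^ 2) hn (by nlinarith) hb hbX hal1
        (by exact_mod_cast haX2) th (14 / 5) ((X : ℝ) ^ C) (by
          push_cast
          rw [div_le_iff₀ (by positivity)]
          rw [div_le_iff₀ hth] at hXth'
          nlinarith) (by push_cast; linarith) (r l) (hr l)
      have h3 := hcl.1
      show |((r l : ℚ) : ℝ) - (th * X / b) ^ ((1 : ℝ) / n) *
        (1 + (((a l : ℤ) - (X : ℤ) : ℤ) : ℝ) / X) ^ ((1 : ℝ) / n)| ≤ _
      rw [e2]
      refine h3.trans (Real.exp_le_exp.2 ?_)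
      push_cast
      rw [Real.log_pow]
      push_cast
      have h4 := hlog l
      have h5 : 80 * Real.log X ≤ C * Real.log X := mul_le_mul_of_nonneg_right hC80 hlogX.le
      linarith

end H37SI
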