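import Pool.Agent.H37.SI.Iota

/-!
H37/SI/ZEq [ZEQ]: ZJ is the coefficient of an honest substitution into F in the ring of power series in m+1 variables.

`Xi` below: x_l ↦ r_l * (1 + ct_l tau)^(1/n) * (1 + u_l)^(1/n), w ↦ 1/X + tau, where tau = X_last, u_l = X_(castSucc l).
PROOF of ZJ_eq. MvPolynomial.aeval of F = sum over the support of F_e prod_j (Xi j)^(e j) (`MvPolynomial.aeval_def`,
`eval₂_eq'`), split the product over Fin (m+1) with `Fin.prod_univ_castSucc` and Fin.snoc_castSucc, Fin.snoc_last: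
F_e prod_l r_l^(e_l) * iota_last( (1/X + X)^(e_w) prod_l (rescale ct_l b)^(e_l) ) * prod_l iota_(castSucc l)(b^(e_l)),
b = bs n, iota_j = PowerSeries.toMvPowerSeries j. This is a constant times prod_j iota_j(p_j), whose coefficient is given by
`coeff_prod_iota`.
-/

namespace H37SI

open MvPolynomial H4AR

/-- the substitution -/
noncomputable def Xi {m : ℕ} (n X : ℕ) (c : Fin m → ℤ) (r : Fin m → ℚ) :
    Fin (m + 1) → MvPowerSeries (Fin (m + 1)) ℚ :=
  Fin.snoc (fun l : Fin m => MvPowerSeries.C (r l) *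
      PowerSeries.toMvPowerSeries (Fin.last m) (PowerSeries.rescale (ct X c l) (bs n)) *
      PowerSeries.toMvPowerSeries l.castSucc (bs n))
    (PowerSeries.toMvPowerSeries (Fin.last m) (PowerSeries.C ((X : ℚ)⁻¹) + PowerSeries.X))

theorem ZJ_eq {m : ℕ} (n X : ℕ) (c : Fin m → ℤ) (r : Fin m → ℚ) (F : MvPolynomial (Fin (m + 1)) ℤ)
    (J : Fin (m + 1) →₀ ℕ) :
    MvPowerSeries.coeff J (MvPolynomial.aeval (Xi n X c r) F) = ZJ n X c r F J := by
  classical
  rw [MvPolynomial.aeval_def, MvPolynomial.eval₂_eq', map_sum]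
  unfold ZJ
  refine Finset.sum_congr rfl fun e _ => ?_
  let P : Fin (m + 1) → PowerSeries ℚ := Fin.snoc (fun l : Fin m => (bs n) ^ (e l.castSucc))
    ((PowerSeries.C ((X : ℚ)⁻¹) + PowerSeries.X) ^ (e (Fin.last m)) *
      ∏ l : Fin m, (PowerSeries.rescale (ct X c l) (bs n)) ^ (e l.castSucc))
  have h1 : (algebraMap ℤ (MvPowerSeries (Fin (m + 1)) ℚ)) (F.coeff e) * ∏ i, Xi n X c r i ^ e i =
      MvPowerSeries.C (((F.coeff e : ℤ) : ℚ) * ∏ l : Fin m, r l ^ (e l.castSucc)) *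
        ∏ j, PowerSeries.toMvPowerSeries j (P j) := by
    rw [Fin.prod_univ_castSucc, Fin.prod_univ_castSucc]
    simp only [Xi, P, Fin.snoc_castSucc, Fin.snoc_last, mul_pow, Finset.prod_mul_distrib,
      map_mul, map_pow, map_prod]
    have h2 : (algebraMap ℤ (MvPowerSeries (Fin (m + 1)) ℚ)) (F.coeff e) =
        MvPowerSeries.C ((F.coeff e : ℤ) : ℚ) := by
      simp
    rw [h2]
    ring
  rw [h1, MvPowerSeries.coeff_C_mul, coeff_prod_iota, Fin.prod_univ_castSucc]
  simp only [P, Fin.snoc_castSucc, Fin.snoc_last, Finset.prod_mul_distrib]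
  ring

end H37SI
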