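import Pool.Agent.H37.SI.ShRoot

/-!
H37/SI/ZForm [ZFORM]: expansion of ZJ around y = xi.

With w0 = 1/X, be_l = (1 + c_l w0)^(1/n), y_l = r_l/be_l:
ZJ = sum over K (K_l ≤ d_l) of prod_l [coefficient J_l of (y_l b - xi)^(K_l)] * [coefficient J_w of Sh w0 (G_K)], b = bsR n.
PROOF. Sh_root (|c_l| w0 ≤ 1/8) : Sh w0 (rescale c_l b) = C be_l * rescale (c_l/(1+c_l w0)) b, and c_l/(1 + c_l w0) = ct_l.
Sh w0 of G_K (Sh_sum, Sh_mul, Sh_C, Sh_pow, Sh_X, Sh_prod; convergence Cv_root (|c_l| * 2 w0 ≤ 1/4), Cv_pow, ...) is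
sum_e C(F_e prod_l binom(e_l,K_l) xi^(e_l-K_l)) (C w0 + X)^(e_w) prod_l (C be_l * rescale ct_l b)^(e_l). Its J_w-th
coefficient is sum_e F_e prod_l [binom(e_l,K_l) xi^(e_l-K_l) be_l^(e_l)] * A_e, A_e = coefficient J_w of
(C w0 + X)^(e_w) prod_l (rescale ct_l b)^(e_l). Multiply by prod_l t_l(K_l), t_l(k) = coefficient J_l of (C y_l * b - C xi)^k, and
sum over K: exchange with sum_e, and sum over K of a product = product of the sums (`Finset.prod_univ_sum`,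
piFinset): sum_{k ≤ d_l} t_l(k) binom(e_l,k) xi^(e_l-k) = coefficient J_l of (C y_l b - C xi + C xi)^(e_l) (binomial theorem
`add_pow`, e_l ≤ d_l, binomials vanish for k > e_l) = y_l^(e_l) coefficient J_l of b^(e_l). Finally
y_l^(e_l) be_l^(e_l) = r_l^(e_l). Everything rational is cast to the reals (bsR = map of bs, `PowerSeries.coeff_map`,
rescale and map commute).
-/

namespace H37SI

open MvPolynomial H4AR

/-- the sum over one exponent -/
private theorem zform_one (b : PowerSeries ℝ) (y xi : ℝ) (e d J : ℕ) (h : e ≤ d) :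
    ∑ k ∈ Finset.range (d + 1), PowerSeries.coeff J ((PowerSeries.C y * b - PowerSeries.C xi) ^ k) *
      ((e.choose k : ℝ) * xi ^ (e - k)) = y ^ e * PowerSeries.coeff J (b ^ e) := by
  have h1 : ∑ k ∈ Finset.range (d + 1),
      PowerSeries.coeff J ((PowerSeries.C y * b - PowerSeries.C xi) ^ k) *
        ((e.choose k : ℝ) * xi ^ (e - k)) =
      ∑ k ∈ Finset.range (e + 1),
      PowerSeries.coeff J ((PowerSeries.C y * b - PowerSeries.C xi) ^ k) *
        ((e.choose k : ℝ) * xi ^ (e - k)) := by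
    symm
    refine Finset.sum_subset (Finset.range_subset_range.2 (by omega)) fun k _ hk => ?_
    rw [Finset.mem_range, not_lt] at hk
    rw [Nat.choose_eq_zero_of_lt (by omega), Nat.cast_zero, zero_mul, mul_zero]
  rw [h1]
  have h2 : (PowerSeries.C y * b) ^ e = ∑ k ∈ Finset.range (e + 1),
      (PowerSeries.C y * b - PowerSeries.C xi) ^ k * (PowerSeries.C xi) ^ (e - k) *
        (e.choose k : PowerSeries ℝ) := by
    rw [← add_pow, sub_add_cancel]
  have h3 : PowerSeries.coeff J ((PowerSeries.C y * b) ^ e) = y ^ e * PowerSeries.coeff J (b ^ e) := by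
    rw [mul_pow, ← map_pow, PowerSeries.coeff_C_mul]
  rw [← h3, h2, map_sum]
  refine Finset.sum_congr rfl fun k _ => ?_
  have h4 : (PowerSeries.C y * b - PowerSeries.C xi) ^ k * (PowerSeries.C xi) ^ (e - k) *
      (e.choose k : PowerSeries ℝ) = PowerSeries.C ((e.choose k : ℝ) * xi ^ (e - k)) *
        (PowerSeries.C y * b - PowerSeries.C xi) ^ k := by
    rw [map_mul, map_pow, map_natCast]
    ring
  rw [h4, PowerSeries.coeff_C_mul]
  ring

private theorem zform_ct {m : ℕ} (X : ℕ) (hX : 1 ≤ X) (c : Fin m → ℤ) (hc : ∀ l, 8 * |(c l : ℝ)| ≤ X)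
    (l : Fin m) : ((ct X c l : ℚ) : ℝ) = (c l : ℝ) / (1 + (c l : ℝ) * (X : ℝ)⁻¹) := by
  have hX0 : (0 : ℝ) < X := by exact_mod_cast hX
  have h1 := hc l
  have h2 := neg_abs_le (c l : ℝ)
  have h3 : (X : ℝ) + c l ≠ 0 := by
    have : 0 < (X : ℝ) + c l := by linarith
    exact this.ne'
  have h4 : (1 + (c l : ℝ) * (X : ℝ)⁻¹) = (X + c l) / X := by
    field_simp
  unfold ct
  rw [h4]
  push_cast
  field_simp

private theorem zform_cast {m : ℕ} (n X : ℕ) (c : Fin m → ℤ) (r : Fin m → ℚ)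
    (F : MvPolynomial (Fin (m + 1)) ℤ) (J : Fin (m + 1) →₀ ℕ) :
    ((ZJ n X c r F J : ℚ) : ℝ) = ∑ e ∈ F.support, ((F.coeff e : ℤ) : ℝ) *
      (∏ l : Fin m, ((r l : ℝ) ^ (e l.castSucc) *
        PowerSeries.coeff (J l.castSucc) ((bsR n) ^ (e l.castSucc)))) *
      PowerSeries.coeff (J (Fin.last m)) ((PowerSeries.C ((X : ℝ)⁻¹) + PowerSeries.X) ^ (e (Fin.last m)) *
        ∏ l : Fin m, (PowerSeries.rescale ((ct X c l : ℚ) : ℝ) (bsR n)) ^ (e l.castSucc)) := by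
  have hcf : ∀ (k : ℕ) (p : PowerSeries ℚ), ((PowerSeries.coeff k p : ℚ) : ℝ) =
      PowerSeries.coeff k (PowerSeries.map (algebraMap ℚ ℝ) p) := by
    intro k p
    rw [PowerSeries.coeff_map]
    rfl
  have hrs : ∀ (a : ℚ), PowerSeries.map (algebraMap ℚ ℝ) (PowerSeries.rescale a (bs n)) =
      PowerSeries.rescale (a : ℝ) (bsR n) := by
    intro a
    ext k
    rw [PowerSeries.coeff_map, PowerSeries.coeff_rescale, PowerSeries.coeff_rescale, bsR_coeff,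
      map_mul, map_pow]
    rfl
  unfold ZJ
  rw [Rat.cast_sum]
  refine Finset.sum_congr rfl fun e _ => ?_
  rw [Rat.cast_mul, Rat.cast_mul, Rat.cast_prod, hcf]
  congr 1
  · congr 1
    refine Finset.prod_congr rfl fun l _ => ?_
    rw [Rat.cast_mul, Rat.cast_pow, hcf, map_pow]
    rfl
  · congr 1
    rw [map_mul, map_pow, map_add, PowerSeries.map_C, PowerSeries.map_X, map_prod]
    congr 1
    · congr 3
      rw [map_inv₀, map_natCast]
    · refine Finset.prod_congr rfl fun l _ => ?_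
      rw [map_pow, hrs]

private theorem zform_GK {m : ℕ} (n X : ℕ) (hn : 1 ≤ n) (hX : 1 ≤ X) (c : Fin m → ℤ)
    (hc : ∀ l, 8 * |(c l : ℝ)| ≤ X) (F : MvPolynomial (Fin (m + 1)) ℤ) (xi : ℝ) (K : Fin m → ℕ)
    (J : ℕ) :
    PowerSeries.coeff J (Sh ((X : ℝ)⁻¹) (GK n c xi F K)) = ∑ e ∈ F.support,
      (((F.coeff e : ℤ) : ℝ) *
        ∏ l : Fin m, (((e l.castSucc).choose (K l) : ℝ) * xi ^ (e l.castSucc - K l))) *
      ((∏ l : Fin m, ((1 + (c l : ℝ) / X) ^ ((1 : ℝ) / n)) ^ (e l.castSucc)) *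
        PowerSeries.coeff J ((PowerSeries.C ((X : ℝ)⁻¹) + PowerSeries.X) ^ (e (Fin.last m)) *
          ∏ l : Fin m, (PowerSeries.rescale ((ct X c l : ℚ) : ℝ) (bsR n)) ^ (e l.castSucc))) := by
  have hX0 : (0 : ℝ) < X := by exact_mod_cast hX
  have hw : (0 : ℝ) < (X : ℝ)⁻¹ := by positivity
  have hw2 : (0 : ℝ) ≤ 2 * (X : ℝ)⁻¹ := by positivity
  have hcw : ∀ l, |(c l : ℝ)| * (X : ℝ)⁻¹ ≤ 1 / 8 := by
    intro l
    have := hc l
    rw [← div_eq_mul_inv, div_le_iff₀ hX0]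
    linarith
  have hroot : ∀ l, Cv (2 * (X : ℝ)⁻¹) (PowerSeries.rescale (c l : ℝ) (bsR n)) := by
    intro l
    refine (Cv_root n hn (c l) (2 * (X : ℝ)⁻¹) hw2 ?_).1
    have := hcw l
    linarith
  have hprod : ∀ e : Fin (m + 1) →₀ ℕ, Cv (2 * (X : ℝ)⁻¹)
      (∏ l : Fin m, (PowerSeries.rescale (c l : ℝ) (bsR n)) ^ (e l.castSucc)) :=
    fun e => Cv_prod hw2 _ _ fun l _ => Cv_pow hw2 (hroot l) _
  have hXe : ∀ k : ℕ, Cv (2 * (X : ℝ)⁻¹) (PowerSeries.X ^ k) := fun k => Cv_pow hw2 (Cv_X _) k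
  unfold GK
  rw [Sh_sum hw _ _ fun e _ => Cv_mul hw2 (Cv_C _ _) (Cv_mul hw2 (hXe _) (hprod e)), map_sum]
  refine Finset.sum_congr rfl fun e _ => ?_
  rw [Sh_mul hw (Cv_C _ _) (Cv_mul hw2 (hXe _) (hprod e)), Sh_C, PowerSeries.coeff_C_mul,
    Sh_mul hw (hXe _) (hprod e), Sh_pow hw (Cv_X _), Sh_X, Sh_prod hw _ _ fun l _ =>
      Cv_pow hw2 (hroot l) _]
  congr 1
  have h1 : ∏ l : Fin m, Sh ((X : ℝ)⁻¹) ((PowerSeries.rescale (c l : ℝ) (bsR n)) ^ (e l.castSucc)) =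
      PowerSeries.C (∏ l : Fin m, ((1 + (c l : ℝ) / X) ^ ((1 : ℝ) / n)) ^ (e l.castSucc)) *
        ∏ l : Fin m, (PowerSeries.rescale ((ct X c l : ℚ) : ℝ) (bsR n)) ^ (e l.castSucc) := by
    rw [map_prod, ← Finset.prod_mul_distrib]
    refine Finset.prod_congr rfl fun l _ => ?_
    rw [Sh_pow hw (hroot l), Sh_root n hn (c l) _ hw (hcw l), mul_pow, zform_ct X hX c hc l,
      div_eq_mul_inv (c l : ℝ) (X : ℝ), map_pow]
  rw [h1, mul_left_comm, PowerSeries.coeff_C_mul]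

theorem Z_formula {m : ℕ} (n X : ℕ) (hn : 1 ≤ n) (hX : 1 ≤ X) (c : Fin m → ℤ) (hc : ∀ l, 8 * |(c l : ℝ)| ≤ X)
    (r : Fin m → ℚ) (F : MvPolynomial (Fin (m + 1)) ℤ) (d : Fin (m + 1) → ℕ) (hdeg : ∀ j, F.degreeOf j ≤ d j)
    (J : Fin (m + 1) →₀ ℕ) (xi : ℝ) (hxi : 0 < xi) :
    ((ZJ n X c r F J : ℚ) : ℝ) =
      ∑ K ∈ Fintype.piFinset (fun l : Fin m => Finset.range (d l.castSucc + 1)),
        (∏ l : Fin m, PowerSeries.coeff (J l.castSucc)
          ((PowerSeries.C ((r l : ℝ) / (1 + (c l : ℝ) / X) ^ ((1 : ℝ) / n)) * bsR n - PowerSeries.C xi) ^ (K l))) *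
        PowerSeries.coeff (J (Fin.last m)) (Sh ((X : ℝ)⁻¹) (GK n c xi F K)) := by
  have hX0 : (0 : ℝ) < X := by exact_mod_cast hX
  rw [zform_cast]
  simp only [zform_GK n X hn hX c hc F xi]
  obtain ⟨be, hbe⟩ : ∃ be : Fin m → ℝ, ∀ l, be l = (1 + (c l : ℝ) / X) ^ ((1 : ℝ) / n) :=
    ⟨_, fun _ => rfl⟩
  have hbe0 : ∀ l, be l ≠ 0 := by
    intro l
    rw [hbe]
    have h1 := hc l
    have h2 := neg_abs_le (c l : ℝ)
    have h3 : 0 < 1 + (c l : ℝ) / X := by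
      have h4 : (1 + (c l : ℝ) / X) = (X + c l) / X := by
        field_simp
      rw [h4]
      have : 0 < (X : ℝ) + c l := by linarith
      positivity
    exact (Real.rpow_pos_of_pos h3 _).ne'
  simp only [← hbe]
  obtain ⟨B, hB⟩ : ∃ B : (Fin (m + 1) →₀ ℕ) → ℝ, ∀ e, B e =
    PowerSeries.coeff (J (Fin.last m)) ((PowerSeries.C ((X : ℝ)⁻¹) + PowerSeries.X) ^ (e (Fin.last m)) *
        ∏ l : Fin m, (PowerSeries.rescale ((ct X c l : ℚ) : ℝ) (bsR n)) ^ (e l.castSucc)) :=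
    ⟨_, fun _ => rfl⟩
  simp only [← hB]
  simp only [Finset.mul_sum]
  rw [Finset.sum_comm]
  refine Finset.sum_congr rfl fun e he => ?_
  have hed : ∀ l : Fin m, e l.castSucc ≤ d l.castSucc := fun l =>
    (MvPolynomial.monomial_le_degreeOf _ he).trans (hdeg _)
  have h1 : ∀ K : Fin m → ℕ,
      (∏ l : Fin m, PowerSeries.coeff (J l.castSucc)
          ((PowerSeries.C ((r l : ℝ) / be l) * bsR n - PowerSeries.C xi) ^ (K l))) *
        ((((F.coeff e : ℤ) : ℝ) *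
          ∏ l : Fin m, (((e l.castSucc).choose (K l) : ℝ) * xi ^ (e l.castSucc - K l))) *
          ((∏ l : Fin m, (be l) ^ (e l.castSucc)) * B e)) =
      (((F.coeff e : ℤ) : ℝ) * (∏ l : Fin m, (be l) ^ (e l.castSucc)) * B e) *
        ∏ l : Fin m, (PowerSeries.coeff (J l.castSucc)
          ((PowerSeries.C ((r l : ℝ) / be l) * bsR n - PowerSeries.C xi) ^ (K l)) *
          (((e l.castSucc).choose (K l) : ℝ) * xi ^ (e l.castSucc - K l))) := by
    intro K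
    rw [Finset.prod_mul_distrib (f := fun l : Fin m => PowerSeries.coeff (J l.castSucc)
          ((PowerSeries.C ((r l : ℝ) / be l) * bsR n - PowerSeries.C xi) ^ (K l)))]
    ring
  rw [Finset.sum_congr rfl fun K _ => h1 K, ← Finset.mul_sum,
    ← Finset.prod_univ_sum (fun l : Fin m => Finset.range (d l.castSucc + 1)) (fun l k =>
      PowerSeries.coeff (J l.castSucc)
          ((PowerSeries.C ((r l : ℝ) / be l) * bsR n - PowerSeries.C xi) ^ k) *
          (((e l.castSucc).choose k : ℝ) * xi ^ (e l.castSucc - k))),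
    Finset.prod_congr rfl fun l _ => zform_one (bsR n) ((r l : ℝ) / be l) xi (e l.castSucc)
      (d l.castSucc) (J l.castSucc) (hed l), Finset.prod_mul_distrib, Finset.prod_mul_distrib]
  have h2 : ∏ l : Fin m, ((r l : ℝ) / be l) ^ (e l.castSucc) =
      (∏ l : Fin m, (r l : ℝ) ^ (e l.castSucc)) / ∏ l : Fin m, (be l) ^ (e l.castSucc) := by
    rw [← Finset.prod_div_distrib]
    exact Finset.prod_congr rfl fun l _ => div_pow _ _ _
  have h3 : ∏ l : Fin m, (be l) ^ (e l.castSucc) ≠ 0 :=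
    Finset.prod_ne_zero_iff.2 fun l _ => pow_ne_zero _ (hbe0 l)
  rw [h2]
  field_simp

end H37SI
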